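import Pool.Agent.T2H99.CW.Defs

/-!
The law of the count does not depend on the realisation.
-/

set_option autoImplicit false
set_option linter.unusedSectionVars false

open MeasureTheory Finset Filter Topology

namespace Pool.Agent.T2H99.CW

variable {V : Type} [Fintype V] [DecidableEq V] {Ω : Type} [MeasurableSpace Ω]

/-- Extend a finite trajectory. -/
def ext (T : ℕ) (x : Fin (T + 1) → V) (t : ℕ) : V := x ⟨min t T, by omega⟩

/-- The finite trajectories and the coins. -/
def tau (T : ℕ) (X Y : ℕ → Ω → V) (c : V → Ω → Bool) (ω : Ω) :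
    (Fin (T + 1) → V) × (Fin (T + 1) → V) × (V → Bool) :=
  (fun i => X i ω, fun i => Y i ω, fun v => c v ω)

/-- The event of a finite trajectory. -/
def SS' (T : ℕ) (X Y : ℕ → Ω → V) (c : V → Ω → Bool)
    (w : (Fin (T + 1) → V) × (Fin (T + 1) → V) × (V → Bool)) : Set Ω :=
  {ω | (∀ t ≤ T, X t ω = ext T w.1 t) ∧ (∀ t ≤ T, Y t ω = ext T w.2.1 t) ∧
    ∀ v, c v ω = w.2.2 v}

lemma mem_SS' (T : ℕ) (X Y : ℕ → Ω → V) (c : V → Ω → Bool)
    (w : (Fin (T + 1) → V) × (Fin (T + 1) → V) × (V → Bool)) (ω : Ω) :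
    ω ∈ SS' T X Y c w ↔ w = tau T X Y c ω := by
  obtain ⟨x, y, b⟩ := w
  unfold SS' tau ext
  simp only [Set.mem_ofPred_eq, Prod.mk.injEq]
  refine and_congr ?_ (and_congr ?_ ?_)
  · constructor
    · intro h
      funext i
      have := h i (by omega)
      rw [this]
      congr 1
      apply Fin.ext
      simp only
      omega
    · intro h t ht
      rw [h]
      simp only
      congr 1
      omega
  · constructor
    · intro h
      funext i
      have := h i (by omega)
      rw [this]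
      congr 1
      apply Fin.ext
      simp only
      omega
    · intro h t ht
      rw [h]
      simp only
      congr 1
      omega
  · constructor
    · intro h
      funext v
      exact (h v).symm
    · intro h v
      rw [h]

section one

variable {G : SimpleGraph V} {P : Measure Ω} {X Y : ℕ → Ω → V} {c : V → Ω → Bool}

lemma meas_SS' (M : IsModel G P X Y c) (T : ℕ)
    (w : (Fin (T + 1) → V) × (Fin (T + 1) → V) × (V → Bool)) :
    MeasurableSet (SS' T X Y c w) := by
  have h1 : SS' T X Y c w = (⋂ t : ℕ, ⋂ _ : t ≤ T, {ω | X t ω = ext T w.1 t}) ∩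
      ((⋂ t : ℕ, ⋂ _ : t ≤ T, {ω | Y t ω = ext T w.2.1 t}) ∩
      (⋂ v : V, {ω | c v ω = w.2.2 v})) := by
    ext ω
    simp [SS']
  rw [h1]
  refine (MeasurableSet.iInter fun t => MeasurableSet.iInter fun _ => M.measX _ _).inter
    ((MeasurableSet.iInter fun t => MeasurableSet.iInter fun _ => M.measY _ _).inter
    (MeasurableSet.iInter fun v => ?_))
  cases h : w.2.2 v
  · have h2 : {ω | c v ω = false} = {ω | c v ω = true}ᶜ := by
      ext ω
      simp
    rw [h2]
    exact (M.measC v).compl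
  · exact M.measC v

/-- The expectation of a functional of a finite trajectory. -/
lemma int_tau (M : IsModel G P X Y c) (T : ℕ)
    (Φ : (Fin (T + 1) → V) × (Fin (T + 1) → V) × (V → Bool) → ℝ) :
    ∫ ω, Φ (tau T X Y c ω) ∂P = ∑ w, Φ w * P.real (SS' T X Y c w) := by
  classical
  haveI := M.prob
  have h1 : ∀ ω, Φ (tau T X Y c ω) = ∑ w, Φ w * (SS' T X Y c w).indicator (fun _ => (1 : ℝ)) ω := by
    intro ω
    rw [sum_eq_single_of_mem (tau T X Y c ω) (mem_univ _)]
    · rw [Set.indicator_of_mem ((mem_SS' T X Y c _ ω).2 rfl), mul_one]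
    · intro w _ hw
      rw [Set.indicator_of_notMem (fun h => hw ((mem_SS' T X Y c _ ω).1 h)), mul_zero]
  have hi : ∀ w, Integrable ((SS' T X Y c w).indicator (fun _ => (1 : ℝ))) P := fun w =>
    (integrable_const _).indicator (meas_SS' M T w)
  simp only [h1]
  rw [integral_finsetSum _ fun w _ => (hi w).const_mul _]
  refine sum_congr rfl fun w _ => ?_
  rw [integral_const_mul, integral_indicator (meas_SS' M T w)]
  simp

/-- Vertices marked by time `T`. -/
def markedT (T : ℕ) (X Y : ℕ → Ω → V) (c : V → Ω → Bool) (ω : Ω) : Set V :=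
  {v | (∃ t ≤ T, X t ω = v ∧ ∀ s ≤ t, Y s ω ≠ v) ∨
    (∃ t ≤ T, X t ω = v ∧ Y t ω = v ∧ (∀ s < t, X s ω ≠ v ∧ Y s ω ≠ v) ∧ c v ω = true)}

lemma markedT_eventually (X Y : ℕ → Ω → V) (c : V → Ω → Bool) (ω : Ω) :
    ∀ᶠ T in atTop, markedT T X Y c ω = marked X Y c ω := by
  have h1 : ∀ v ∈ marked X Y c ω, ∀ᶠ T in atTop, v ∈ markedT T X Y c ω := by
    rintro v (⟨t, h1, h2⟩ | ⟨t, h1, h2⟩)
    · filter_upwards [eventually_ge_atTop t] with T hT
      exact Or.inl ⟨t, hT, h1, h2⟩
    · filter_upwards [eventually_ge_atTop t] with T hT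
      exact Or.inr ⟨t, hT, h1, h2⟩
  have h2 : ∀ᶠ T in atTop, ∀ v ∈ marked X Y c ω, v ∈ markedT T X Y c ω := by
    rw [eventually_all_finite (Set.toFinite _)]
    exact h1
  filter_upwards [h2] with T hT
  refine Set.Subset.antisymm ?_ hT
  rintro v (⟨t, -, h⟩ | ⟨t, -, h⟩)
  · exact Or.inl ⟨t, h⟩
  · exact Or.inr ⟨t, h⟩

/-- The number of vertices marked by time `T`, from the finite trajectory. -/
noncomputable def cT (T : ℕ) (w : (Fin (T + 1) → V) × (Fin (T + 1) → V) × (V → Bool)) : ℝ :=
  (({v | (∃ t : Fin (T + 1), w.1 t = v ∧ ∀ s ≤ t, w.2.1 s ≠ v) ∨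
    (∃ t : Fin (T + 1), w.1 t = v ∧ w.2.1 t = v ∧ (∀ s < t, w.1 s ≠ v ∧ w.2.1 s ≠ v) ∧
      w.2.2 v = true)} : Set V).ncard : ℝ)

lemma cT_tau (T : ℕ) (X Y : ℕ → Ω → V) (c : V → Ω → Bool) (ω : Ω) :
    cT T (tau T X Y c ω) = ((markedT T X Y c ω).ncard : ℝ) := by
  unfold cT markedT tau
  congr 2
  ext v
  simp only [Set.mem_ofPred_eq]
  refine or_congr ?_ ?_
  · constructor
    · rintro ⟨t, h1, h2⟩
      exact ⟨t, by omega, h1, fun s hs => h2 ⟨s, by omega⟩ hs⟩
    · rintro ⟨t, ht, h1, h2⟩
      exact ⟨⟨t, by omega⟩, h1, fun s hs => h2 s hs⟩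
  · constructor
    · rintro ⟨t, h1, h2, h3, h4⟩
      exact ⟨t, by omega, h1, h2, fun s hs => h3 ⟨s, by omega⟩ hs, h4⟩
    · rintro ⟨t, ht, h1, h2, h3, h4⟩
      exact ⟨⟨t, by omega⟩, h1, h2, fun s hs => h3 s hs, h4⟩

lemma meas_marked' (M : IsModel G P X Y c) (v : V) :
    MeasurableSet {ω | v ∈ marked X Y c ω} := by
  have h1 : {ω | v ∈ marked X Y c ω} =
      (⋃ t : ℕ, ({ω | X t ω = v} ∩ ⋂ s : ℕ, ⋂ _ : s ≤ t, {ω | Y s ω = v}ᶜ)) ∪
      (⋃ t : ℕ, ({ω | X t ω = v} ∩ ({ω | Y t ω = v} ∩
        ((⋂ s : ℕ, ⋂ _ : s < t, ({ω | X s ω = v}ᶜ ∩ {ω | Y s ω = v}ᶜ)) ∩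
        {ω | c v ω = true})))) := by
    ext ω
    simp [marked]
  rw [h1]
  refine (MeasurableSet.iUnion fun t => (M.measX t v).inter
    (MeasurableSet.iInter fun s => MeasurableSet.iInter fun _ => (M.measY s v).compl)).union
    (MeasurableSet.iUnion fun t => (M.measX t v).inter ((M.measY t v).inter
    ((MeasurableSet.iInter fun s => MeasurableSet.iInter fun _ =>
      (M.measX s v).compl.inter (M.measY s v).compl).inter (M.measC v))))

open scoped Classical in
lemma count_eq' (X Y : ℕ → Ω → V) (c : V → Ω → Bool) (ω : Ω) : count X Y c ω =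
    ∑ v, (if v ∈ marked X Y c ω then (1 : ℝ) else 0) := by
  unfold count
  rw [Set.ncard_eq_toFinset_card', sum_boole]
  congr 2
  ext v
  simp

lemma meas_count' (M : IsModel G P X Y c) : Measurable (count X Y c) := by
  classical
  have h : count X Y c = fun ω => ∑ v, (if v ∈ marked X Y c ω then (1 : ℝ) else 0) :=
    funext (count_eq' X Y c)
  rw [h]
  refine Finset.measurable_sum _ fun v _ => ?_
  exact Measurable.ite (meas_marked' M v) measurable_const measurable_const

/-- The expectation of a function of the count is a limit over finite trajectories. -/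
lemma lim_count (M : IsModel G P X Y c) (F : ℝ → ℝ) :
    Tendsto (fun T => ∑ w, F (cT T w) * P.real (SS' T X Y c w)) atTop
      (𝓝 (∫ ω, F (count X Y c ω) ∂P)) := by
  haveI := M.prob
  have h1 : ∀ T, ∑ w, F (cT T w) * P.real (SS' T X Y c w) =
      ∫ ω, F (((markedT T X Y c ω).ncard : ℝ)) ∂P := by
    intro T
    rw [← int_tau M T fun w => F (cT T w)]
    simp only [cT_tau]
  simp only [h1]
  set C := ∑ i ∈ range (Fintype.card V + 1), |F i| with hC
  refine tendsto_integral_of_dominated_convergence (fun _ => C) (fun T => ?_)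
    (integrable_const _) (fun T => Filter.Eventually.of_forall fun ω => ?_)
    (Filter.Eventually.of_forall fun ω => ?_)
  · have h2 : (fun ω => F (((markedT T X Y c ω).ncard : ℝ))) = fun ω =>
        ∑ w, F (cT T w) * (SS' T X Y c w).indicator (fun _ => (1 : ℝ)) ω := by
      classical
      funext ω
      rw [sum_eq_single_of_mem (tau T X Y c ω) (mem_univ _)]
      · rw [Set.indicator_of_mem ((mem_SS' T X Y c _ ω).2 rfl), mul_one, cT_tau]
      · intro w _ hw
        rw [Set.indicator_of_notMem (fun h => hw ((mem_SS' T X Y c _ ω).1 h)), mul_zero]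
    rw [h2]
    refine (Finset.measurable_sum _ fun w _ => ?_).aestronglyMeasurable
    exact (measurable_const.indicator (meas_SS' M T w)).const_mul _
  · rw [Real.norm_eq_abs]
    have h3 : (markedT T X Y c ω).ncard ∈ range (Fintype.card V + 1) := by
      have := Set.ncard_le_card (markedT T X Y c ω)
      rw [Nat.card_eq_fintype_card] at this
      exact mem_range.2 (by omega)
    exact single_le_sum (f := fun i : ℕ => |F i|) (fun i _ => abs_nonneg _) h3
  · refine tendsto_const_nhds.congr' ?_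
    filter_upwards [markedT_eventually X Y c ω] with T hT
    rw [hT]
    rfl

end one

section two

variable {G : SimpleGraph V} {P : Measure Ω} {X Y : ℕ → Ω → V} {c : V → Ω → Bool}
  {Ω' : Type} [MeasurableSpace Ω'] {P' : Measure Ω'} {X' Y' : ℕ → Ω' → V} {c' : V → Ω' → Bool}

/-- The law of the count is determined by the graph. -/
theorem int_count_eq (M : IsModel G P X Y c) (M' : IsModel G P' X' Y' c') (F : ℝ → ℝ) :
    ∫ ω, F (count X Y c ω) ∂P = ∫ ω, F (count X' Y' c' ω) ∂P' := by
  have h1 := lim_count M F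
  have h2 := lim_count M' F
  refine tendsto_nhds_unique h1 (h2.congr fun T => ?_)
  refine sum_congr rfl fun w _ => ?_
  congr 1
  have e1 := M.law T (ext T w.1) (ext T w.2.1) w.2.2
  have e2 := M'.law T (ext T w.1) (ext T w.2.1) w.2.2
  unfold SS'
  rw [e1, e2]

/-- The law of the normalised count is determined by the graph. -/
theorem int_normCount_eq (M : IsModel G P X Y c) (M' : IsModel G P' X' Y' c') (f : ℝ → ℝ) :
    ∫ ω, f (normCount P X Y c ω) ∂P = ∫ ω, f (normCount P' X' Y' c' ω) ∂P' := by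
  haveI := M.prob
  haveI := M'.prob
  have e1 : ∫ ω, count X Y c ω ∂P = ∫ ω, count X' Y' c' ω ∂P' := int_count_eq M M' fun x => x
  have e2 : ProbabilityTheory.variance (count X Y c) P =
      ProbabilityTheory.variance (count X' Y' c') P' := by
    rw [ProbabilityTheory.variance_eq_integral (meas_count' M).aemeasurable,
      ProbabilityTheory.variance_eq_integral (meas_count' M').aemeasurable, e1]
    exact int_count_eq M M' fun x => (x - ∫ ω, count X' Y' c' ω ∂P') ^ 2
  unfold normCount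
  rw [e1, e2]
  exact int_count_eq M M' fun x => f ((x - ∫ ω, count X' Y' c' ω ∂P') /
    √(ProbabilityTheory.variance (count X' Y' c') P'))

end two

end Pool.Agent.T2H99.CW
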