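import Pool.Agent.T2H99.CW.Z3

/-!
The conclusion.
-/

set_option autoImplicit false
set_option linter.unusedSectionVars false

open MeasureTheory Finset Filter Topology ProbabilityTheory
open scoped NNReal

namespace Pool.Agent.T2H99.CW

/-- The count of the sequence. -/
noncomputable def CS (n : ℕ) : (ℕ → LS n) → ℝ := count WX WY coin

/-- The normalised count of the sequence. -/
noncomputable def ZS (n : ℕ) : (ℕ → LS n) → ℝ := normCount (PP (LS n)) WX WY coin

/-- The centre. -/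
noncomputable def an (n : ℕ) : ℝ := rr (n + 48) * (2 * ∫ ω, CS n ω ∂PP (LS n) - 2 * nn (n + 48))

/-- The scale. -/
noncomputable def bn (n : ℕ) : ℝ := 2 * rr (n + 48) * √(variance (CS n) (PP (LS n)))

lemma rep (n : ℕ) : (∀ᵐ ω ∂PP (LS n), DS n ω = an n + bn n * ZS n ω) ∧
    Measurable (ZS n) ∧ Integrable (ZS n) (PP (LS n)) ∧ ∫ ω, |ZS n ω| ∂PP (LS n) ≤ 1 := by
  have hb : ∀ ω : ℕ → LS n, |CS n ω| ≤ 2 * nn (n + 48) := fun ω => by
    have := count_bounds ω
    unfold CS
    rw [abs_of_nonneg this.1]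
    exact this.2
  obtain ⟨h1, h2, h3, h4⟩ := norm_rep (P := PP (LS n)) (C := CS n) meas_count hb
  refine ⟨?_, h2, h3, h4⟩
  filter_upwards [h1] with ω hω
  have h5 : DS n ω = rr (n + 48) * (2 * CS n ω - 2 * nn (n + 48)) := rfl
  rw [h5, hω]
  unfold an bn
  have h6 : ZS n ω = (CS n ω - ∫ ω', CS n ω' ∂PP (LS n)) / √(variance (CS n) (PP (LS n))) := rfl
  rw [h6]
  ring

lemma ab_bound : ∀ᶠ n in atTop, (an n, bn n) ∈ Set.Icc (-18 : ℝ) 18 ×ˢ Set.Icc (-18 : ℝ) 18 := by
  filter_upwards [DS_sq] with n hn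
  have hb : ∀ ω : ℕ → LS n, |CS n ω| ≤ 2 * nn (n + 48) := fun ω => by
    have := count_bounds ω
    unfold CS
    rw [abs_of_nonneg this.1]
    exact this.2
  obtain ⟨h1, h2⟩ := var_le (P := PP (LS n)) (C := CS n) meas_count hb (nn (n + 48))
  have hr : 0 ≤ rr (n + 48) := by unfold rr; positivity
  have h3 : ∫ ω, DS n ω ^ 2 ∂PP (LS n) = 4 * rr (n + 48) ^ 2 *
      ∫ ω, (CS n ω - nn (n + 48)) ^ 2 ∂PP (LS n) := by
    rw [← integral_const_mul]
    congr 1
    funext ω
    have h5 : DS n ω = rr (n + 48) * (2 * CS n ω - 2 * nn (n + 48)) := rfl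
    rw [h5]
    ring
  rw [h3] at hn
  have h4 := mul_le_mul_of_nonneg_left h1 (by positivity : 0 ≤ 4 * rr (n + 48) ^ 2)
  have h5 := mul_le_mul_of_nonneg_left h2 (by positivity : 0 ≤ 4 * rr (n + 48) ^ 2)
  have ha : an n ^ 2 ≤ 18 ^ 2 := by
    have : an n ^ 2 = 4 * rr (n + 48) ^ 2 * (∫ ω, CS n ω ∂PP (LS n) - nn (n + 48)) ^ 2 := by
      unfold an; ring
    rw [this]
    linarith
  have hbb : bn n ^ 2 ≤ 18 ^ 2 := by
    have : bn n ^ 2 = 4 * rr (n + 48) ^ 2 * variance (CS n) (PP (LS n)) := by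
      unfold bn
      rw [mul_pow, Real.sq_sqrt (variance_nonneg _ _)]
      ring
    rw [this]
    linarith
  have a1 := abs_le_of_sq_le_sq' ha (by norm_num)
  have a2 := abs_le_of_sq_le_sq' hbb (by norm_num)
  exact ⟨⟨a1.1, a1.2⟩, ⟨a2.1, a2.2⟩⟩

/-- The normalised count does not converge in distribution to a normal law. -/
theorem not_normal {ψ : ℕ → ℕ} (hψ : Tendsto ψ atTop atTop) :
    ¬ ∃ (μ : ℝ) (v : ℝ≥0), ∀ f : BoundedContinuousFunction ℝ ℝ,
    Tendsto (fun n => ∫ ω, f (ZS (ψ n) ω) ∂PP (LS (ψ n))) atTop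
      (𝓝 (∫ x, f x ∂(gaussianReal μ v))) := by
  rintro ⟨μ, v, hf0⟩
  obtain ⟨⟨a, b⟩, -, φ0, hφ0, hlim⟩ := (isCompact_Icc.prod isCompact_Icc).tendsto_subseq'
    (x := fun n => (an (ψ n), bn (ψ n))) (hψ.eventually ab_bound).frequently
  have hφ0t : Tendsto φ0 atTop atTop := hφ0.tendsto_atTop
  let φ : ℕ → ℕ := fun j => ψ (φ0 j)
  have hφt : Tendsto φ atTop atTop := hψ.comp hφ0t
  have ha : Tendsto (fun j => an (φ j)) atTop (𝓝 a) := (continuous_fst.tendsto _).comp hlim
  have hb : Tendsto (fun j => bn (φ j)) atTop (𝓝 b) := (continuous_snd.tendsto _).comp hlim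
  -- the cosine along the subsequence
  have hcos : ∀ c : ℝ, Tendsto (fun j => ∫ ω, Real.cos (c * DS (φ j) ω) ∂PP (LS (φ j))) atTop
      (𝓝 (Real.cos (c * (a + b * μ)) * Real.exp (-(v * b ^ 2 * (c ^ 2 / 2))))) := by
    intro c
    let f : BoundedContinuousFunction ℝ ℝ := BoundedContinuousFunction.ofNormedAddCommGroup
      (fun z => Real.cos (c * a + c * b * z)) (by fun_prop) 1
      (fun z => by simpa using Real.abs_cos_le_one _)
    have h1 : Tendsto (fun j => ∫ ω, f (ZS (φ j) ω) ∂PP (LS (φ j))) atTop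
      (𝓝 (∫ x, f x ∂(gaussianReal μ v))) := (hf0 f).comp hφ0t
    have h2 : ∫ x, f x ∂(gaussianReal μ v) =
        Real.cos (c * (a + b * μ)) * Real.exp (-(v * b ^ 2 * (c ^ 2 / 2))) := by
      have h3 := int_cos_gaussian μ v (c * a) (c * b)
      have h4 : ∫ x, f x ∂(gaussianReal μ v) =
          ∫ z, Real.cos (c * a + c * b * z) ∂(gaussianReal μ v) := rfl
      rw [h4, h3]
      congr 1
      · congr 1; ring
      · congr 1; ring
    rw [h2] at h1
    have h3 : Tendsto (fun j => ∫ ω, Real.cos (c * DS (φ j) ω) ∂PP (LS (φ j)) -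
        ∫ ω, f (ZS (φ j) ω) ∂PP (LS (φ j))) atTop (𝓝 0) := by
      have h4 : Tendsto (fun j => |c| * |an (φ j) - a| + |c| * |bn (φ j) - b|) atTop (𝓝 0) := by
        have e1 := ((ha.sub_const a).abs).const_mul |c|
        have e2 := ((hb.sub_const b).abs).const_mul |c|
        have e := e1.add e2
        simpa using e
      refine squeeze_zero_norm (fun j => ?_) h4
      rw [Real.norm_eq_abs]
      obtain ⟨r1, r2, r3, r4⟩ := rep (φ j)
      have h5 : ∫ ω, Real.cos (c * DS (φ j) ω) ∂PP (LS (φ j)) =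
          ∫ ω, Real.cos (c * (an (φ j) + bn (φ j) * ZS (φ j) ω)) ∂PP (LS (φ j)) := by
        refine integral_congr_ae ?_
        filter_upwards [r1] with ω hω
        rw [hω]
      rw [h5]
      have h6 : ∀ ω, |c * (an (φ j) + bn (φ j) * ZS (φ j) ω) - (c * a + c * b * ZS (φ j) ω)| ≤
          |c| * |an (φ j) - a| + |c| * |bn (φ j) - b| * |ZS (φ j) ω| := by
        intro ω
        have e : c * (an (φ j) + bn (φ j) * ZS (φ j) ω) - (c * a + c * b * ZS (φ j) ω) =
          c * (an (φ j) - a) + c * (bn (φ j) - b) * ZS (φ j) ω := by ring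
        rw [e]
        refine (abs_add_le _ _).trans (le_of_eq ?_)
        rw [abs_mul, abs_mul, abs_mul]
      have i1 : Integrable (fun ω => |c| * |an (φ j) - a| +
          |c| * |bn (φ j) - b| * |ZS (φ j) ω|) (PP (LS (φ j))) :=
        (integrable_const _).add (r3.abs.const_mul _)
      have m1 : Measurable fun ω => c * (an (φ j) + bn (φ j) * ZS (φ j) ω) :=
        ((r2.const_mul _).const_add _).const_mul _
      have m2 : Measurable fun ω => c * a + c * b * ZS (φ j) ω := (r2.const_mul _).const_add _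
      have i2 : Integrable (fun ω => |c * (an (φ j) + bn (φ j) * ZS (φ j) ω) -
          (c * a + c * b * ZS (φ j) ω)|) (PP (LS (φ j))) := by
        refine i1.mono' ((m1.sub m2).norm).aestronglyMeasurable
          (Filter.Eventually.of_forall fun ω => ?_)
        rw [Real.norm_eq_abs, abs_abs]
        exact h6 ω
      have h7 := int_cos_sub (P := PP (LS (φ j))) m1 m2 i2
      refine h7.trans ((integral_mono i2 i1 h6).trans ?_)
      have h9 : ∫ ω, |c| * |bn (φ j) - b| * |ZS (φ j) ω| ∂PP (LS (φ j)) =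
          |c| * |bn (φ j) - b| * ∫ ω, |ZS (φ j) ω| ∂PP (LS (φ j)) := integral_const_mul _ _
      rw [integral_add (integrable_const _) (r3.abs.const_mul _), h9]
      simp only [integral_const, probReal_univ, one_smul]
      have h8 : |c| * |bn (φ j) - b| * ∫ ω, |ZS (φ j) ω| ∂PP (LS (φ j)) ≤
          |c| * |bn (φ j) - b| * 1 := mul_le_mul_of_nonneg_left r4 (by positivity)
      linarith
    have h4 := h3.add h1
    simp only [zero_add] at h4
    refine h4.congr fun j => ?_
    ring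
  -- the Laplace transform along the subsequence
  have hG : ∀ c : ℝ, Tendsto (fun j => Gp (c ^ 2 / 2) (φ j)) atTop
      (𝓝 (Real.cos (c * (a + b * μ)) * Real.exp (-(v * b ^ 2 * (c ^ 2 / 2))))) := by
    intro c
    have h1 := (cos_DS c).comp hφt
    have h2 := (hcos c).sub h1
    simp only [sub_zero] at h2
    refine h2.congr fun j => ?_
    simp only [Function.comp_apply]
    ring
  have hμ : a + b * μ = 0 := by
    by_contra hne
    have h1 := hG (Real.pi / (a + b * μ))
    have h2 := ge_of_tendsto' h1 fun j => Gp_nonneg _ _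
    rw [div_mul_cancel₀ _ hne, Real.cos_pi] at h2
    have h3 := Real.exp_pos (-(v * b ^ 2 * ((Real.pi / (a + b * μ)) ^ 2 / 2)))
    linarith
  set w : ℝ := v * b ^ 2 with hw
  have hG1 : Tendsto (fun j => Gp 1 (φ j)) atTop (𝓝 (Real.exp (-w))) := by
    have h1 := hG (√2)
    rw [hμ, mul_zero, Real.cos_zero, one_mul, Real.sq_sqrt (by norm_num)] at h1
    norm_num at h1
    exact h1
  have hG2 : Tendsto (fun j => Gp 2 (φ j)) atTop (𝓝 (Real.exp (-w) ^ 2)) := by
    have h1 := hG 2
    rw [hμ, mul_zero, Real.cos_zero, one_mul] at h1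
    norm_num at h1
    have h2 : Real.exp (-w) ^ 2 = Real.exp (-(w * 2)) := by
      rw [← Real.exp_nat_mul]; congr 1; push_cast; ring
    rw [h2]
    exact h1
  have hvar : Tendsto (fun j => ∫ ω, (Real.exp (-YS (φ j) ω) - Real.exp (-w)) ^ 2
      ∂PP (LS (φ j))) atTop (𝓝 0) := by
    have h1 := (hG2.sub ((hG1.const_mul (2 * Real.exp (-w))))).add_const (Real.exp (-w) ^ 2)
    have h2 : Real.exp (-w) ^ 2 - 2 * Real.exp (-w) * Real.exp (-w) + Real.exp (-w) ^ 2 = 0 := by
      ring
    rw [h2] at h1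
    refine h1.congr fun j => ?_
    have h3 : ∀ ω, (Real.exp (-YS (φ j) ω) - Real.exp (-w)) ^ 2 =
        Real.exp (-(2 * YS (φ j) ω)) - 2 * Real.exp (-w) * Real.exp (-(1 * YS (φ j) ω)) +
          Real.exp (-w) ^ 2 := by
      intro ω
      have : Real.exp (-(2 * YS (φ j) ω)) = Real.exp (-YS (φ j) ω) ^ 2 := by
        rw [← Real.exp_nat_mul]; congr 1; push_cast; ring
      rw [this, one_mul]
      ring
    simp only [h3]
    have j2 : Integrable (fun ω => Real.exp (-(2 * YS (φ j) ω))) (PP (LS (φ j))) :=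
      ((dep_YS (φ j)).comp fun x => Real.exp (-(2 * x))).integrable
    have j1 : Integrable (fun ω => 2 * Real.exp (-w) * Real.exp (-(1 * YS (φ j) ω)))
        (PP (LS (φ j))) :=
      ((dep_YS (φ j)).comp fun x => 2 * Real.exp (-w) * Real.exp (-(1 * x))).integrable
    have j3 : Integrable (fun ω => Real.exp (-(2 * YS (φ j) ω)) -
        2 * Real.exp (-w) * Real.exp (-(1 * YS (φ j) ω))) (PP (LS (φ j))) := j2.sub j1
    rw [integral_add j3 (integrable_const _), integral_sub j2 j1, integral_const_mul]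
    simp only [integral_const, probReal_univ, one_smul]
    rfl
  have hfin := (hvar.div_const ((Real.exp (-w) *
    (1 - Real.exp (-(1 / 6000000000 / 2)))) ^ 2)).const_mul 2
  simp only [zero_div, mul_zero] at hfin
  have h1 := hfin.eventually_lt_const (by norm_num : (0 : ℝ) < 1 / 288)
  have h2 := hφt.eventually jump_YS
  obtain ⟨j, hj1, hj2⟩ := (h1.and h2).exists
  have h3 := no_jump (φ j) w (c := 1 / 6000000000) (by norm_num)
  linarith

end Pool.Agent.T2H99.CW
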