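import Pool.Agent.T2H99.CW.J

/-!
The limits of the error terms.
-/

set_option autoImplicit false
set_option linter.unusedSectionVars false

open MeasureTheory Finset Filter Topology

namespace Pool.Agent.T2H99.CW

section bounds

variable {k : ℕ}

lemma KK_le (hk : 2 ≤ k) : (KK k : ℝ) ≤ 16 * (k : ℝ) ^ 41 := by
  rw [KK_cast]
  have := k_pos hk
  calc 8 * (k : ℝ) * SS k ≤ 8 * k * (2 * (k : ℝ) ^ 40) := by
        refine mul_le_mul_of_nonneg_left (SS_le hk) (by positivity)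
    _ = 16 * (k : ℝ) ^ 41 := by ring

lemma run_le (hk : 2 ≤ k) : KK k * (1 - qq k) ^ (LK k) ≤
    16 * ((k : ℝ) ^ 41 * Real.exp (-(1 / 4 * k))) := by
  have hk0 := k_pos hk
  have hq := qq_le_quarter hk
  have hqp := qq_pos hk
  have h1 : (1 - qq k) ^ (LK k) ≤ Real.exp (-(1 / 4 * k)) := by
    have h2 : 1 - qq k ≤ Real.exp (- qq k) := by
      have := Real.add_one_le_exp (- qq k); linarith
    refine (pow_le_pow_left₀ (by linarith) h2 _).trans ?_
    rw [← Real.exp_nat_mul]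
    apply Real.exp_le_exp.2
    rw [LK_cast]
    have h3 := qq_ge hk
    have h4 : (k : ℝ) ^ 25 * (1 / (4 * (k : ℝ) ^ 24)) ≤ (k : ℝ) ^ 25 * qq k :=
      mul_le_mul_of_nonneg_left h3 (by positivity)
    have h5 : (k : ℝ) ^ 25 * (1 / (4 * (k : ℝ) ^ 24)) = 1 / 4 * k := by field_simp
    linarith
  calc (KK k : ℝ) * (1 - qq k) ^ (LK k) ≤ 16 * (k : ℝ) ^ 41 * Real.exp (-(1 / 4 * k)) := by
        have h6 : 0 ≤ (1 - qq k) ^ (LK k) := pow_nonneg (by linarith) _
        exact mul_le_mul (KK_le hk) h1 h6 (by positivity)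
    _ = _ := by ring

lemma inv_hh_le (hk : 2 ≤ k) : 1 / hh k ≤ 4 * (k : ℝ) ^ 40 := by
  have := hh_ge hk
  have hk0 := k_pos hk
  rw [div_le_iff₀ (hh_pos hk)]
  have h1 : 4 * (k : ℝ) ^ 40 * (1 / (4 * (k : ℝ) ^ 40)) ≤ 4 * (k : ℝ) ^ 40 * hh k :=
    mul_le_mul_of_nonneg_left this (by positivity)
  have h2 : 4 * (k : ℝ) ^ 40 * (1 / (4 * (k : ℝ) ^ 40)) = 1 := by field_simp
  linarith

lemma inv_qq_le (hk : 2 ≤ k) : 1 / qq k ≤ 4 * (k : ℝ) ^ 24 := by
  have := qq_ge hk
  have hk0 := k_pos hk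
  rw [div_le_iff₀ (qq_pos hk)]
  have h1 : 4 * (k : ℝ) ^ 24 * (1 / (4 * (k : ℝ) ^ 24)) ≤ 4 * (k : ℝ) ^ 24 * qq k :=
    mul_le_mul_of_nonneg_left this (by positivity)
  have h2 : 4 * (k : ℝ) ^ 24 * (1 / (4 * (k : ℝ) ^ 24)) = 1 := by field_simp
  linarith

end bounds

lemma lim_run : Tendsto (fun k : ℕ => KK k * (1 - qq k) ^ (LK k)) atTop (𝓝 0) := by
  have h := (tendsto_pow_exp 41 (c := 1 / 4) (by norm_num)).const_mul 16
  simp only [mul_zero] at h
  refine squeeze_zero' ?_ ?_ h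
  · filter_upwards [eventually_ge_atTop 2] with k hk
    have := qq_le_quarter hk
    have h6 : 0 ≤ (1 - qq k) ^ (LK k) := pow_nonneg (by linarith) _
    positivity
  · filter_upwards [eventually_ge_atTop 2] with k hk
    exact run_le hk

lemma lim_bt : Tendsto (fun k : ℕ => KK k * qq k ^ 2) atTop (𝓝 0) := by
  have h := (tendsto_inv_pow 7 (by norm_num)).const_mul 4
  simp only [mul_zero] at h
  refine squeeze_zero' ?_ ?_ h
  · filter_upwards with k
    positivity
  · filter_upwards [eventually_ge_atTop 2] with k hk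
    have hk0 := k_pos hk
    have hqp := qq_pos hk
    calc (KK k : ℝ) * qq k ^ 2 ≤ 16 * (k : ℝ) ^ 41 * (1 / (2 * (k : ℝ) ^ 24)) ^ 2 := by
          refine mul_le_mul (KK_le hk) (pow_le_pow_left₀ hqp.le (qq_le hk) 2) (sq_nonneg _)
            (by positivity)
      _ = 4 * (1 / (k : ℝ) ^ 7) := by field_simp; norm_num

lemma lim_win : Tendsto (fun k : ℕ => 12 * (1 + 1 / qq k) / nn k) atTop (𝓝 0) := by
  have h := (tendsto_inv_pow 16 (by norm_num)).const_mul 60
  simp only [mul_zero] at h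
  refine squeeze_zero' ?_ ?_ h
  · filter_upwards [eventually_ge_atTop 2] with k hk
    have := qq_pos hk
    positivity
  · filter_upwards [eventually_ge_atTop 2] with k hk
    have hk0 := k_pos hk
    have h1 := inv_qq_le hk
    rw [nn_cast]
    have h2 : (1 : ℝ) ≤ (k : ℝ) ^ 24 := one_le_pow₀ (by linarith)
    calc 12 * (1 + 1 / qq k) / (k : ℝ) ^ 40 ≤ 12 * (5 * (k : ℝ) ^ 24) / (k : ℝ) ^ 40 := by
          gcongr
          linarith
      _ = 60 * (1 / (k : ℝ) ^ 16) := by field_simp; norm_num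

lemma lim_RB : Tendsto (fun k : ℕ => (KK k + 1) * (4 * Real.exp 1) / Real.exp k) atTop (𝓝 0) := by
  have h := (tendsto_pow_exp 41 (c := 1) (by norm_num)).const_mul (17 * (4 * Real.exp 1))
  simp only [mul_zero] at h
  refine squeeze_zero' ?_ ?_ h
  · filter_upwards with k
    positivity
  · filter_upwards [eventually_ge_atTop 2] with k hk
    have hk0 := k_pos hk
    have h1 : (1 : ℝ) ≤ (k : ℝ) ^ 41 := one_le_pow₀ (by linarith)
    have h2 := KK_le hk
    calc (KK k + 1) * (4 * Real.exp 1) / Real.exp k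
        ≤ (17 * (k : ℝ) ^ 41) * (4 * Real.exp 1) / Real.exp k := by
          gcongr
          linarith
      _ = 17 * (4 * Real.exp 1) * ((k : ℝ) ^ 41 * Real.exp (-(1 * k))) := by
          rw [one_mul, Real.exp_neg]
          ring

lemma lim_err : Tendsto (fun k : ℕ => qq k ^ 2 * (128 * et k ^ 4 * LK k / hh k)) atTop (𝓝 0) := by
  have h := (tendsto_inv_pow 7 (by norm_num)).const_mul 128
  simp only [mul_zero] at h
  refine squeeze_zero' ?_ ?_ h
  · filter_upwards [eventually_ge_atTop 2] with k hk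
    have := qq_pos hk
    have := hh_pos hk
    have := et_pos hk
    positivity
  · filter_upwards [eventually_ge_atTop 2] with k hk
    have hk0 := k_pos hk
    have hqp := qq_pos hk
    have hhp := hh_pos hk
    have h1 := inv_hh_le hk
    rw [LK_cast]
    unfold et
    calc qq k ^ 2 * (128 * (1 / (k : ℝ) ^ 6) ^ 4 * (k : ℝ) ^ 25 / hh k)
        = qq k ^ 2 * (128 * (1 / (k : ℝ) ^ 6) ^ 4 * (k : ℝ) ^ 25 * (1 / hh k)) := by ring
      _ ≤ (1 / (2 * (k : ℝ) ^ 24)) ^ 2 * (128 * (1 / (k : ℝ) ^ 6) ^ 4 * (k : ℝ) ^ 25 *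
          (4 * (k : ℝ) ^ 40)) := by
          have := qq_le hk
          gcongr
      _ = 128 * (1 / (k : ℝ) ^ 7) := by field_simp; norm_num

lemma lim_small (c : ℝ) : Tendsto (fun k : ℕ => |c| * qq k * (4 * et k * LK k)) atTop (𝓝 0) := by
  have h := (tendsto_inv_pow 5 (by norm_num)).const_mul (2 * |c|)
  simp only [mul_zero] at h
  refine squeeze_zero' ?_ ?_ h
  · filter_upwards [eventually_ge_atTop 2] with k hk
    have := qq_pos hk
    have := et_pos hk
    positivity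
  · filter_upwards [eventually_ge_atTop 2] with k hk
    have hk0 := k_pos hk
    have hqp := qq_pos hk
    rw [LK_cast]
    unfold et
    calc |c| * qq k * (4 * (1 / (k : ℝ) ^ 6) * (k : ℝ) ^ 25)
        ≤ |c| * (1 / (2 * (k : ℝ) ^ 24)) * (4 * (1 / (k : ℝ) ^ 6) * (k : ℝ) ^ 25) := by
          have := qq_le hk
          gcongr
      _ = 2 * |c| * (1 / (k : ℝ) ^ 5) := by field_simp; norm_num

lemma lim_four (c : ℝ) : Tendsto (fun k : ℕ =>
    c ^ 4 * qq k ^ 4 * (256 * et k ^ 4 * LK k ^ 3 / hh k)) atTop (𝓝 0) := by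
  have h := (tendsto_inv_pow 5 (by norm_num)).const_mul (64 * c ^ 4)
  simp only [mul_zero] at h
  refine squeeze_zero' ?_ ?_ h
  · filter_upwards [eventually_ge_atTop 2] with k hk
    have := qq_pos hk
    have := hh_pos hk
    have := et_pos hk
    positivity
  · filter_upwards [eventually_ge_atTop 2] with k hk
    have hk0 := k_pos hk
    have hqp := qq_pos hk
    have hhp := hh_pos hk
    have h1 := inv_hh_le hk
    rw [LK_cast]
    unfold et
    have hc : 0 ≤ c ^ 4 := by positivity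
    calc c ^ 4 * qq k ^ 4 * (256 * (1 / (k : ℝ) ^ 6) ^ 4 * ((k : ℝ) ^ 25) ^ 3 / hh k)
        = c ^ 4 * qq k ^ 4 * (256 * (1 / (k : ℝ) ^ 6) ^ 4 * ((k : ℝ) ^ 25) ^ 3 * (1 / hh k)) := by
          ring
      _ ≤ c ^ 4 * (1 / (2 * (k : ℝ) ^ 24)) ^ 4 * (256 * (1 / (k : ℝ) ^ 6) ^ 4 *
          ((k : ℝ) ^ 25) ^ 3 * (4 * (k : ℝ) ^ 40)) := by
          have := qq_le hk
          gcongr
      _ = 64 * c ^ 4 * (1 / (k : ℝ) ^ 5) := by field_simp; ring

end Pool.Agent.T2H99.CW
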