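import Pool.Agent.T2H99.CW.G2
import Pool.Agent.T2H99.CW.L

/-!
The sequence of graphs satisfies Assumption (A).
-/

set_option autoImplicit false
set_option linter.unusedSectionVars false

open MeasureTheory Finset Filter Topology

namespace Pool.Agent.T2H99.CW

instance neZero_nn (n : ℕ) : NeZero (nn (n + 48)) := ⟨by unfold nn; positivity⟩

/-- The vertex sets of the sequence. -/
abbrev VS (n : ℕ) : Type := VV (nn (n + 48))

/-- The sequence of graphs. -/
noncomputable def GS (n : ℕ) : SimpleGraph (VV (nn (n + 48))) := gr (nn (n + 48)) (mm (n + 48))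

section single

variable {k : ℕ} [NeZero (nn k)]

lemma hs_eq : hs (nn k) (mm k) = hh k := rfl

lemma qs_eq : qs (nn k) (mm k) = qq k := rfl

lemma mm_le' (hk : 2 ≤ k) : mm k ≤ nn k := by
  unfold mm nn
  exact Nat.pow_le_pow_right (by omega) (by norm_num)

lemma mm_pos (hk : 2 ≤ k) : 0 < mm k := by unfold mm; positivity

lemma mix_t0 (hk : 2 ≤ k) :
    (1 - 2 * qs (nn k) (mm k)) ^ (8 * k ^ 24) + 2 * (nn k : ℝ) * (3 / 4) ^ (8 * k ^ 24) ≤
      1 / 4 := by
  rw [qs_eq]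
  have hk0 := k_pos hk
  have hq := qq_le_quarter hk
  have hq0 := qq_pos hk
  have h1 : (1 - 2 * qq k) ^ (8 * k ^ 24) ≤ 1 / 16 := by
    have h2 : 1 - 2 * qq k ≤ Real.exp (-(2 * qq k)) := by
      have := Real.add_one_le_exp (-(2 * qq k)); linarith
    refine (pow_le_pow_left₀ (by linarith) h2 _).trans ?_
    rw [← Real.exp_nat_mul]
    have h3 : ((8 * k ^ 24 : ℕ) : ℝ) * -(2 * qq k) ≤ -4 := by
      have h4 := qq_ge hk
      have h5 : 16 * (k : ℝ) ^ 24 * (1 / (4 * (k : ℝ) ^ 24)) ≤ 16 * (k : ℝ) ^ 24 * qq k :=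
        mul_le_mul_of_nonneg_left h4 (by positivity)
      have h6 : 16 * (k : ℝ) ^ 24 * (1 / (4 * (k : ℝ) ^ 24)) = 4 := by field_simp; norm_num
      push_cast
      linarith
    refine (Real.exp_le_exp.2 h3).trans ?_
    rw [Real.exp_neg, inv_le_comm₀ (Real.exp_pos _) (by norm_num)]
    have h7 : (2 : ℝ) ≤ Real.exp 1 := by have := Real.add_one_le_exp 1; linarith
    have h8 : Real.exp 4 = Real.exp 1 ^ 4 := by rw [← Real.exp_nat_mul]; norm_num
    rw [h8]
    calc ((1 : ℝ) / 16)⁻¹ = 2 ^ 4 := by norm_num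
      _ ≤ Real.exp 1 ^ 4 := pow_le_pow_left₀ (by norm_num) h7 4
  have h2 : 2 * (nn k : ℝ) * (3 / 4) ^ (8 * k ^ 24) ≤ 1 / 8 := by
    rw [nn_cast]
    have h3 : (k : ℝ) ≤ 2 ^ k := by exact_mod_cast (Nat.lt_two_pow_self).le
    have h4 : ((3 : ℝ) / 4) ^ (8 * k ^ 24) ≤ (1 / 8) ^ (k ^ 24) := by
      rw [pow_mul]
      exact pow_le_pow_left₀ (by norm_num) (by norm_num) _
    have h5 : (k : ℝ) ^ 40 ≤ 2 ^ (40 * k) := by
      calc (k : ℝ) ^ 40 ≤ (2 ^ k) ^ 40 := pow_le_pow_left₀ (by positivity) h3 40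
        _ = 2 ^ (40 * k) := by rw [← pow_mul, mul_comm]
    have h6 : 40 * k + 4 ≤ 3 * k ^ 24 := by
      have h7 : 2 ^ 23 ≤ k ^ 23 := Nat.pow_le_pow_left hk 23
      have h8 : k ^ 24 = k ^ 23 * k := pow_succ _ _
      rw [h8]
      nlinarith
    have h7 : ((1 : ℝ) / 8) ^ (k ^ 24) = (1 / 2) ^ (3 * k ^ 24) := by
      rw [pow_mul]; norm_num
    calc 2 * (k : ℝ) ^ 40 * (3 / 4) ^ (8 * k ^ 24)
        ≤ 2 * 2 ^ (40 * k) * (1 / 2) ^ (3 * k ^ 24) := by
          rw [← h7]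
          gcongr
      _ ≤ 2 * 2 ^ (40 * k) * (1 / 2) ^ (40 * k + 4) := by
          refine mul_le_mul_of_nonneg_left ?_ (by positivity)
          exact pow_le_pow_of_le_one (by norm_num) (by norm_num) h6
      _ = 1 / 8 := by
          rw [pow_add, one_div_pow, one_div_pow]
          field_simp
          norm_num
  linarith

lemma Tmix_up (hk : 2 ≤ k) : (Tmix (gr (nn k) (mm k)) : ℝ) ≤ 8 * (k : ℝ) ^ 24 := by
  have h := Tmix_le (mm_le' hk) (mm_pos hk) (by rw [qs_eq]; exact qq_le_quarter hk) (mix_t0 hk)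
  exact_mod_cast h

lemma Tmix_lo (hk : 2 ≤ k) : 3 / 4 * (k : ℝ) ^ 24 ≤ Tmix (gr (nn k) (mm k)) := by
  have h := le_Tmix (mm_le' hk) (mm_pos hk) (by rw [qs_eq]; exact qq_le_quarter hk) (mix_t0 hk)
  refine le_trans ?_ h
  rw [qs_eq]
  have hk0 := k_pos hk
  have h1 := qq_le hk
  have h2 := qq_pos hk
  rw [le_div_iff₀ (by positivity)]
  calc 3 / 4 * (k : ℝ) ^ 24 * (8 * qq k) ≤ 3 / 4 * (k : ℝ) ^ 24 *
        (8 * (1 / (2 * (k : ℝ) ^ 24))) := by gcongr
    _ = 3 := by field_simp; norm_num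

lemma log_card (hk : 2 ≤ k) : Real.log (Fintype.card (VV (nn k))) ≤ 41 * k := by
  have hk0 := k_pos hk
  rw [card_VV, nn_cast]
  have h1 : 2 * (k : ℝ) ^ 40 ≤ (k : ℝ) ^ 41 := by
    calc 2 * (k : ℝ) ^ 40 ≤ k * (k : ℝ) ^ 40 := mul_le_mul_of_nonneg_right hk0 (by positivity)
      _ = (k : ℝ) ^ 41 := by ring
  have h2 := Real.log_le_log (by positivity) h1
  rw [Real.log_pow] at h2
  have h3 := Real.log_le_self (by positivity : (0 : ℝ) ≤ k)
  push_cast at h2
  linarith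

lemma log_card_nonneg (hk : 2 ≤ k) : 0 ≤ Real.log (Fintype.card (VV (nn k))) := by
  have hk0 := k_pos hk
  rw [card_VV, nn_cast]
  apply Real.log_nonneg
  have : (1 : ℝ) ≤ (k : ℝ) ^ 40 := one_le_pow₀ (by linarith)
  linarith

lemma mix_small_k (hk : 2 ≤ k) : (Tmix (gr (nn k) (mm k)) : ℝ) /
    ((Fintype.card (VV (nn k)) : ℝ) / Real.log (Fintype.card (VV (nn k))) ^ 2) ≤
      6724 * (1 / (k : ℝ) ^ 14) := by
  have hk0 := k_pos hk
  have h1 := Tmix_up hk
  have h2 := log_card hk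
  have h3 := log_card_nonneg hk
  have hT : (0 : ℝ) ≤ Tmix (gr (nn k) (mm k)) := Nat.cast_nonneg _
  rw [div_div_eq_mul_div]
  set ℓ := Real.log (Fintype.card (VV (nn k)))
  rw [card_VV, nn_cast]
  calc (Tmix (gr (nn k) (mm k)) : ℝ) * ℓ ^ 2 / (2 * (k : ℝ) ^ 40)
      ≤ 8 * (k : ℝ) ^ 24 * (41 * k) ^ 2 / (2 * (k : ℝ) ^ 40) := by gcongr
    _ = 6724 * (1 / (k : ℝ) ^ 14) := by field_simp; norm_num

lemma green_small_k (hk : 2 ≤ k) (x : VV (nn k)) : greenSq (gr (nn k) (mm k)) x /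
    ((Tmix (gr (nn k) (mm k)) : ℝ) / Real.log (Fintype.card (VV (nn k)))) ≤
      1312 * (1 / (k : ℝ) ^ 15) := by
  have hk0 := k_pos hk
  have h1 := Tmix_up hk
  have h1' := Tmix_lo hk
  have h2 := log_card hk
  have h3 := log_card_nonneg hk
  have hT1 : (1 : ℝ) ≤ Tmix (gr (nn k) (mm k)) := by
    have h4 : (0 : ℝ) < Tmix (gr (nn k) (mm k)) := lt_of_lt_of_le (by positivity) h1'
    exact_mod_cast (by exact_mod_cast h4 : 0 < Tmix (gr (nn k) (mm k)))
  have hg := greenSq_le (mm_le' hk) (mm_pos hk) x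
  rw [hs_eq] at hg
  rw [div_div_eq_mul_div]
  set ℓ := Real.log (Fintype.card (VV (nn k)))
  set T := (Tmix (gr (nn k) (mm k)) : ℝ)
  have hh0 := hh_pos hk
  have hh1 := hh_le hk
  rw [div_le_iff₀ (by linarith)]
  have h5 : (T + 1) * (T + 1) ≤ 4 * (T * T) := by nlinarith
  calc greenSq (gr (nn k) (mm k)) x * ℓ ≤ (2 * hh k * (T + 1) * (T + 1)) * ℓ :=
        mul_le_mul_of_nonneg_right hg h3
    _ = 2 * hh k * ((T + 1) * (T + 1)) * ℓ := by ring
    _ ≤ 2 * (1 / (2 * (k : ℝ) ^ 40)) * (4 * (T * T)) * (41 * k) := by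
        gcongr
    _ = 164 * T * k * T / (k : ℝ) ^ 40 := by field_simp; norm_num
    _ ≤ 164 * (8 * (k : ℝ) ^ 24) * k * T / (k : ℝ) ^ 40 := by gcongr
    _ = 1312 * (1 / (k : ℝ) ^ 15) * T := by field_simp; norm_num

lemma hit_small_k (hk : 2 ≤ k) {x y z : VV (nn k)} (hxy : x ≠ y) (hxz : x ≠ z) :
    hitProb (gr (nn k) (mm k)) (Tmix (gr (nn k) (mm k))) x y z ≤ 1 / 2 := by
  have hk0 := k_pos hk
  refine (hit_small (mm_le' hk) (mm_pos hk) _ hxy hxz).trans ?_
  rw [hs_eq]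
  have h1 := Tmix_up hk
  have hh0 := hh_pos hk
  have hh1 := hh_le hk
  have h2 : (1 : ℝ) ≤ (k : ℝ) ^ 24 := one_le_pow₀ (by linarith)
  have h3 : (2 : ℝ) ^ 16 ≤ (k : ℝ) ^ 16 := pow_le_pow_left₀ (by norm_num) hk0 16
  calc 4 * hh k * ((Tmix (gr (nn k) (mm k)) : ℝ) + 1)
      ≤ 4 * (1 / (2 * (k : ℝ) ^ 40)) * (9 * (k : ℝ) ^ 24) := by
        have : (Tmix (gr (nn k) (mm k)) : ℝ) + 1 ≤ 9 * (k : ℝ) ^ 24 := by linarith
        gcongr
    _ = 18 / (k : ℝ) ^ 16 := by field_simp; norm_num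
    _ ≤ 1 / 2 := by
        rw [div_le_div_iff₀ (by positivity) (by norm_num)]
        linarith

end single

lemma tendsto_shift {f : ℕ → ℝ} {a : ℝ} (h : Tendsto f atTop (𝓝 a)) :
    Tendsto (fun n => f (n + 48)) atTop (𝓝 a) := h.comp (tendsto_add_atTop_nat 48)

theorem assumptionA : AssumptionA VS GS where
  connected n := conn_gr (mm_pos (by omega))
  transitive n := trans_gr
  card_large := by
    have h : ∀ n : ℕ, ((n : ℝ) + 1) ≤ (Fintype.card (VS n) : ℝ) := by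
      intro n
      rw [card_VV, nn_cast]
      push_cast
      have h1 : ((n : ℝ) + 48) ^ 1 ≤ ((n : ℝ) + 48) ^ 40 :=
        pow_le_pow_right₀ (by linarith [(Nat.cast_nonneg n : (0 : ℝ) ≤ n)]) (by norm_num)
      have h2 : (0 : ℝ) ≤ n := Nat.cast_nonneg n
      linarith
    refine tendsto_atTop_mono h ?_
    exact tendsto_atTop_add_const_right _ _ tendsto_natCast_atTop_atTop
  mix_large := by
    have h : ∀ n : ℕ, (n : ℝ) ≤ (Tmix (GS n) : ℝ) := by
      intro n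
      have h1 := Tmix_lo (k := n + 48) (by omega)
      refine le_trans ?_ h1
      push_cast
      have h2 : (0 : ℝ) ≤ n := Nat.cast_nonneg n
      have h3 : ((n : ℝ) + 48) ^ 2 ≤ ((n : ℝ) + 48) ^ 24 :=
        pow_le_pow_right₀ (by linarith) (by norm_num)
      nlinarith
    exact tendsto_atTop_mono h tendsto_natCast_atTop_atTop
  mix_small := by
    have h := tendsto_shift ((tendsto_inv_pow 14 (by norm_num)).const_mul 6724)
    simp only [mul_zero] at h
    refine squeeze_zero (fun n => ?_) (fun n => mix_small_k (by omega)) h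
    positivity
  green_small x := by
    have h := tendsto_shift ((tendsto_inv_pow 15 (by norm_num)).const_mul 1312)
    simp only [mul_zero] at h
    refine squeeze_zero (fun n => ?_) (fun n => green_small_k (by omega) (x n)) h
    exact div_nonneg (greenSq_nonneg _) (div_nonneg (Nat.cast_nonneg _)
      (log_card_nonneg (by omega)))
  hit_small := ⟨1 / 2, by norm_num, fun n x y z hxy hxz _ =>
    hit_small_k (by omega) hxy hxz⟩

end Pool.Agent.T2H99.CW
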