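import Pool.Agent.T2H99.CW.M3

/-!
The characteristic function of the main term and its random variance.
-/

set_option autoImplicit false
set_option linter.unusedSectionVars false

open MeasureTheory Finset

namespace Pool.Agent.T2H99.CW

lemma prod_sub_le {s : Finset ℕ} {a b : ℕ → ℝ} (ha : ∀ i ∈ s, |a i| ≤ 1)
    (hb : ∀ i ∈ s, |b i| ≤ 1) : |∏ i ∈ s, a i - ∏ i ∈ s, b i| ≤ ∑ i ∈ s, |a i - b i| := by
  classical
  induction s using Finset.induction_on with
  | empty => simp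
  | insert x s hx ih =>
    have ih' := ih (fun i hi => ha i (mem_insert_of_mem hi)) fun i hi =>
      hb i (mem_insert_of_mem hi)
    rw [prod_insert hx, prod_insert hx, sum_insert hx]
    have h1 : |∏ i ∈ s, a i| ≤ 1 := by
      rw [abs_prod]
      exact prod_le_one (fun i _ => abs_nonneg _) fun i hi => ha i (mem_insert_of_mem hi)
    have h2 := hb x (mem_insert_self x s)
    have e : a x * ∏ i ∈ s, a i - b x * ∏ i ∈ s, b i =
        (a x - b x) * ∏ i ∈ s, a i + b x * (∏ i ∈ s, a i - ∏ i ∈ s, b i) := by ring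
    rw [e]
    refine (abs_add_le _ _).trans (add_le_add ?_ ?_)
    · rw [abs_mul]
      exact mul_le_of_le_one_right (abs_nonneg _) h1
    · rw [abs_mul]
      exact (mul_le_of_le_one_left (abs_nonneg _) h2).trans ih'

lemma cos_exp {x : ℝ} (hx : |x| ≤ 1) : |Real.cos x - Real.exp (-(x ^ 2 / 2))| ≤ x ^ 4 := by
  have h1 := Real.cos_bound hx
  have hx2 : x ^ 2 ≤ 1 := by rw [← sq_abs]; exact pow_le_one₀ (abs_nonneg _) hx
  have h2 : |-(x ^ 2 / 2)| ≤ 1 := by
    rw [abs_neg, abs_of_nonneg (by positivity)]; linarith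
  have h3 := Real.abs_exp_sub_one_sub_id_le h2
  have h4 : |x| ^ 4 = x ^ 4 := by
    rw [show (4 : ℕ) = 2 * 2 by norm_num, pow_mul, sq_abs, ← pow_mul]
  rw [h4] at h1
  have e : Real.cos x - Real.exp (-(x ^ 2 / 2)) = (Real.cos x - (1 - x ^ 2 / 2)) -
      (Real.exp (-(x ^ 2 / 2)) - 1 - -(x ^ 2 / 2)) := by ring
  rw [e]
  refine (abs_sub _ _).trans ?_
  have h5 : 0 ≤ x ^ 4 := by positivity
  have h6 : (-(x ^ 2 / 2)) ^ 2 = x ^ 4 / 4 := by ring
  rw [h6] at h3
  linarith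

lemma abs_sinh_le {x : ℝ} (hx : |x| ≤ 1) : |Real.sinh x| ≤ 2 * |x| := by
  have key : ∀ y : ℝ, 0 ≤ y → y ≤ 1 → Real.sinh y ≤ 2 * y := by
    intro y h0 h1
    have h2 : |y| ≤ 1 := by rw [abs_of_nonneg h0]; exact h1
    have h3 : |-y| ≤ 1 := by rw [abs_neg]; exact h2
    have e1 := (abs_le.1 (Real.abs_exp_sub_one_sub_id_le h2)).2
    have e2 := (abs_le.1 (Real.abs_exp_sub_one_sub_id_le h3)).1
    rw [Real.sinh_eq]
    nlinarith
  rcases abs_cases x with ⟨h, h'⟩ | ⟨h, h'⟩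
  · rw [h] at hx ⊢
    rw [abs_of_nonneg (Real.sinh_nonneg_iff.2 h')]
    exact key x h' hx
  · rw [h] at hx ⊢
    rw [← abs_neg, ← Real.sinh_neg, abs_of_nonneg (Real.sinh_nonneg_iff.2 (by linarith))]
    exact key _ (by linarith) hx

lemma abs_sinh_ge (x : ℝ) : |x| ≤ |Real.sinh x| := by
  rcases abs_cases x with ⟨h, h'⟩ | ⟨h, h'⟩
  · rw [h, abs_of_nonneg (Real.sinh_nonneg_iff.2 h')]
    exact Real.self_le_sinh_iff.2 h'
  · rw [h, ← abs_neg (Real.sinh x), ← Real.sinh_neg,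
      abs_of_nonneg (Real.sinh_nonneg_iff.2 (by linarith))]
    exact Real.self_le_sinh_iff.2 (by linarith)

lemma abs_sinh_sub_le {x : ℝ} (hx : |x| ≤ 1) : |Real.sinh x - x| ≤ |x| ^ 3 := by
  have h1 : |x| ≤ 1 := hx
  have h2 : |-x| ≤ 1 := by rw [abs_neg]; exact hx
  have e1 := Real.exp_bound (x := x) h1 (n := 3) (by norm_num)
  have e2 := Real.exp_bound (x := -x) h2 (n := 3) (by norm_num)
  simp only [sum_range_succ, range_zero, sum_empty, Nat.factorial] at e1 e2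
  norm_num at e1 e2
  have e : Real.sinh x - x = ((Real.exp x - (1 + x + x ^ 2 / 2)) -
      (Real.exp (-x) - (1 + -x + x ^ 2 / 2))) / 2 := by
    rw [Real.sinh_eq]; ring
  rw [e, abs_div, abs_of_pos (by norm_num : (0 : ℝ) < 2)]
  have h3 := abs_sub (Real.exp x - (1 + x + x ^ 2 / 2)) (Real.exp (-x) - (1 + -x + x ^ 2 / 2))
  have h4 : 0 ≤ |x| ^ 3 := by positivity
  linarith

variable {B : Type} [Fintype B] [Nonempty B] [MeasurableSpace B] [DiscreteMeasurableSpace B]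

namespace Env

variable (E : Env B)

/-- The random variance. -/
noncomputable def Y (h θ : ℝ) (K : ℕ) (ω : ℕ → B) : ℝ := ∑ j ∈ range K, E.aa h θ K j ω ^ 2

lemma dep_Y (h θ : ℝ) (K : ℕ) : Dep K (E.Y h θ K) :=
  dep_sum _ fun j hj => (E.dep_aa h θ (mem_range.1 hj).le).comp fun x => x ^ 2

lemma Y_nonneg (h θ : ℝ) (K : ℕ) (ω : ℕ → B) : 0 ≤ E.Y h θ K ω :=
  sum_nonneg fun _ _ => sq_nonneg _

/-- The characteristic function is close to a mixture of Gaussian ones. -/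
theorem cos_Y {h θ c ε : ℝ} {K : ℕ} {G : Set (ℕ → B)} (hG : MeasurableSet G)
    (h1 : ∀ ω ∈ G, ∀ j < K, |c * E.aa h θ K j ω| ≤ 1)
    (h2 : ∀ ω ∈ G, ∑ j ∈ range K, (c * E.aa h θ K j ω) ^ 4 ≤ ε) (hε : 0 ≤ ε) :
    |∫ ω, Real.cos (c * E.Q h θ K ω) ∂PP B - ∫ ω, Real.exp (-(c ^ 2 / 2 * E.Y h θ K ω)) ∂PP B| ≤
      ε + 2 * (PP B).real Gᶜ := by
  rw [E.cos_Q]
  have d1 : Dep K fun ω => ∏ j ∈ range K, Real.cos (c * E.aa h θ K j ω) :=
    dep_prod _ fun j hj => (E.dep_aa h θ (mem_range.1 hj).le).comp fun x => Real.cos (c * x)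
  have d2 : Dep K fun ω => Real.exp (-(c ^ 2 / 2 * E.Y h θ K ω)) :=
    (E.dep_Y h θ K).comp fun x => Real.exp (-(c ^ 2 / 2 * x))
  rw [← integral_sub d1.integrable d2.integrable]
  refine (abs_integral_le_integral_abs).trans ?_
  have h3 : ∫ ω, (ε + Gᶜ.indicator (fun _ => (2 : ℝ)) ω) ∂PP B = ε + 2 * (PP B).real Gᶜ := by
    rw [integral_add (integrable_const _) ((integrable_const _).indicator hG.compl),
      integral_indicator hG.compl]
    simp [mul_comm]
  rw [← h3]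
  refine integral_mono (d1.comp₂ d2 fun x y => |x - y|).integrable
    ((integrable_const _).add ((integrable_const _).indicator hG.compl)) fun ω => ?_
  have he : Real.exp (-(c ^ 2 / 2 * E.Y h θ K ω)) =
      ∏ j ∈ range K, Real.exp (-((c * E.aa h θ K j ω) ^ 2 / 2)) := by
    rw [← Real.exp_sum]
    congr 1
    unfold Y
    rw [mul_sum, ← sum_neg_distrib]
    refine sum_congr rfl fun j _ => ?_
    ring
  simp only
  rw [he]
  by_cases hω : ω ∈ G
  · have h4 : Gᶜ.indicator (fun _ => (2 : ℝ)) ω = 0 := by simp [hω]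
    rw [h4, add_zero]
    refine (prod_sub_le (fun i _ => Real.abs_cos_le_one _) (fun i _ => ?_)).trans ?_
    · rw [abs_of_pos (Real.exp_pos _)]
      exact Real.exp_le_one_iff.2 (by
        have : 0 ≤ (c * E.aa h θ K i ω) ^ 2 / 2 := by positivity
        linarith)
    · refine (sum_le_sum fun j hj => cos_exp (h1 ω hω j (mem_range.1 hj))).trans (h2 ω hω)
  · have h4 : Gᶜ.indicator (fun _ => (2 : ℝ)) ω = 2 := by simp [hω]
    rw [h4]
    have h5 : |∏ j ∈ range K, Real.cos (c * E.aa h θ K j ω)| ≤ 1 := by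
      rw [abs_prod]
      exact prod_le_one (fun i _ => abs_nonneg _) fun i _ => Real.abs_cos_le_one _
    have h6 : |∏ j ∈ range K, Real.exp (-((c * E.aa h θ K j ω) ^ 2 / 2))| ≤ 1 := by
      rw [abs_prod]
      refine prod_le_one (fun i _ => abs_nonneg _) fun i _ => ?_
      rw [abs_of_pos (Real.exp_pos _)]
      exact Real.exp_le_one_iff.2 (by
        have : 0 ≤ (c * E.aa h θ K i ω) ^ 2 / 2 := by positivity
        linarith)
    have := abs_sub (∏ j ∈ range K, Real.cos (c * E.aa h θ K j ω))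
      (∏ j ∈ range K, Real.exp (-((c * E.aa h θ K j ω) ^ 2 / 2)))
    linarith

/-! Periods are short. -/

/-- No long period before `K`. -/
def Short (K L : ℕ) (ω : ℕ → B) : Prop := ∀ t < K, ∃ s < L, E.sl (ω (t + 1 + s)) = true

lemma lam_gt {t : ℕ} {ω : ℕ → B} {s0 : ℕ} (h : E.sl (ω (t + 1 + s0)) = true) {s : ℕ}
    (hs : t + 1 + s0 ≤ s) : t < E.lam s ω := by
  have h1 : E.lam (t + 1 + s0) ω = t + 1 + s0 := by
    rw [show t + 1 + s0 = (t + s0) + 1 by ring] at h ⊢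
    rw [lam, if_pos h]
  have := E.lam_mono hs ω
  omega

lemma lam_short {K L : ℕ} {ω : ℕ → B} (hS : E.Short K L ω) {t s : ℕ} (ht : t < K)
    (hs : E.lam s ω ≤ t) : s < t + L := by
  obtain ⟨s0, hs0, h1⟩ := hS t ht
  by_contra hcon
  have := E.lam_gt h1 (s := s) (by omega)
  omega

lemma card_lam {K L : ℕ} {ω : ℕ → B} (hS : E.Short K L ω) (j : ℕ) :
    (#{s ∈ range K | E.lam s ω = j} : ℝ) ≤ L := by
  by_cases hj : j < K
  · have h1 : {s ∈ range K | E.lam s ω = j} ⊆ Ico j (j + L) := by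
      intro s hs
      have h2 := (mem_filter.1 hs).2
      have h3 := E.lam_le s ω
      exact mem_Ico.2 ⟨by omega, E.lam_short hS hj h2.le⟩
    have h2 := card_le_card h1
    rw [Nat.card_Ico] at h2
    exact_mod_cast (by omega : _ ≤ L)
  · have h1 : {s ∈ range K | E.lam s ω = j} = ∅ := by
      refine filter_eq_empty_iff.2 fun s hs => ?_
      have := mem_range.1 hs
      have h3 := E.lam_le s ω
      omega
    rw [h1]
    simp

lemma abs_ze (t : ℕ) (ω : ℕ → B) : |E.ze t ω| = 1 := by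
  rcases E.ze_pm t ω with h | h <;> rw [h] <;> norm_num

lemma abs_zz_le {h : ℝ} (h0 : 0 ≤ h) (h1 : h ≤ 1) {K L : ℕ} {ω : ℕ → B} (hS : E.Short K L ω)
    (j : ℕ) : |E.zz h K j ω| ≤ L := by
  refine le_trans ?_ (E.card_lam hS j)
  unfold zz
  refine (abs_sum_le_sum_abs _ _).trans ?_
  rw [card_filter]
  push_cast
  refine sum_le_sum fun s _ => ?_
  by_cases h2 : E.lam s ω = j
  · rw [if_pos h2]
    split_ifs
    · rw [abs_mul, E.abs_ze, one_mul, abs_of_nonneg (pow_nonneg (by linarith) _)]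
      exact pow_le_one₀ (by linarith) (by linarith)
    · simp
  · rw [if_neg h2, if_neg (fun h => h2 h.1)]
    simp

lemma sum_abs_zz_le {h : ℝ} (h0 : 0 < h) (h1 : h ≤ 1) (K : ℕ) (ω : ℕ → B) :
    ∑ j ∈ range K, |E.zz h K j ω| ≤ 1 / h := by
  refine le_trans ?_ (sum_geo h0 h1 K)
  have h2 : ∀ j ∈ range K, |E.zz h K j ω| ≤
      ∑ s ∈ range K, if E.lam s ω = j then (1 - h) ^ s else 0 := by
    intro j _
    unfold zz
    refine (abs_sum_le_sum_abs _ _).trans (sum_le_sum fun s _ => ?_)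
    have h3 : (0 : ℝ) ≤ (1 - h) ^ s := pow_nonneg (by linarith) _
    by_cases h2 : E.lam s ω = j
    · rw [if_pos h2]
      split_ifs
      · rw [abs_mul, E.abs_ze, one_mul, abs_of_nonneg h3]
      · simpa using h3
    · rw [if_neg h2, if_neg (fun h => h2 h.1)]
      simp
  refine (sum_le_sum h2).trans ?_
  rw [sum_comm]
  refine sum_le_sum fun s hs => ?_
  have hs' := mem_range.1 hs
  have hl : E.lam s ω ∈ range K := mem_range.2 (lt_of_le_of_lt (E.lam_le s ω) hs')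
  rw [sum_ite_eq (range K) (E.lam s ω) fun _ => (1 - h) ^ s, if_pos hl]

lemma sum_zz_sq_le {h : ℝ} (h0 : 0 < h) (h1 : h ≤ 1) {K L : ℕ} {ω : ℕ → B}
    (hS : E.Short K L ω) : ∑ j ∈ range K, E.zz h K j ω ^ 2 ≤ L / h := by
  calc ∑ j ∈ range K, E.zz h K j ω ^ 2 ≤ ∑ j ∈ range K, L * |E.zz h K j ω| := by
        refine sum_le_sum fun j _ => ?_
        rw [← sq_abs, sq]
        exact mul_le_mul_of_nonneg_right (E.abs_zz_le h0.le h1 hS j) (abs_nonneg _)
    _ = L * ∑ j ∈ range K, |E.zz h K j ω| := by rw [mul_sum]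
    _ ≤ L * (1 / h) := mul_le_mul_of_nonneg_left (E.sum_abs_zz_le h0 h1 K ω) (Nat.cast_nonneg _)
    _ = L / h := by ring

lemma aa_bounds {h θ η : ℝ} (h0 : 0 < h) (h1 : h ≤ 1) (hη : η ≤ 1) {K L : ℕ}
    {ω : ℕ → B} (hS : E.Short K L ω) (hR : ∀ t < K + 1, |θ * E.R t ω| ≤ η) :
    (∀ j < K, |E.aa h θ K j ω| ≤ 4 * η * L) ∧
      ∑ j ∈ range K, E.aa h θ K j ω ^ 4 ≤ 256 * η ^ 4 * L ^ 3 / h := by
  have hη0 : 0 ≤ η := (abs_nonneg _).trans (hR 0 (by omega))
  have e1 : ∀ j < K, |E.aa h θ K j ω| ≤ 4 * η * |E.zz h K j ω| := by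
    intro j hj
    unfold aa
    have h2 := hR j (by omega)
    have h3 := abs_sinh_le (h2.trans hη)
    rw [abs_mul, abs_mul, abs_neg, abs_of_pos (by norm_num : (0 : ℝ) < 2)]
    have h4 := abs_nonneg (E.zz h K j ω)
    calc |E.zz h K j ω| * (2 * |Real.sinh (θ * E.R j ω)|) ≤ |E.zz h K j ω| * (2 * (2 * η)) := by
          gcongr
          linarith
      _ = _ := by ring
  refine ⟨fun j hj => (e1 j hj).trans ?_, ?_⟩
  · exact mul_le_mul_of_nonneg_left (E.abs_zz_le h0.le h1 hS j) (by positivity)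
  · calc ∑ j ∈ range K, E.aa h θ K j ω ^ 4
        ≤ ∑ j ∈ range K, 256 * η ^ 4 * L ^ 2 * E.zz h K j ω ^ 2 := by
          refine sum_le_sum fun j hj => ?_
          have h2 := e1 j (mem_range.1 hj)
          have h3 := E.abs_zz_le h0.le h1 hS j
          have h4 : E.aa h θ K j ω ^ 4 = |E.aa h θ K j ω| ^ 4 := by
            rw [show (4 : ℕ) = 2 * 2 by norm_num, pow_mul, pow_mul, sq_abs]
          rw [h4]
          calc |E.aa h θ K j ω| ^ 4 ≤ (4 * η * |E.zz h K j ω|) ^ 4 :=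
                pow_le_pow_left₀ (abs_nonneg _) h2 4
            _ = 256 * η ^ 4 * |E.zz h K j ω| ^ 2 * |E.zz h K j ω| ^ 2 := by ring
            _ ≤ 256 * η ^ 4 * (L : ℝ) ^ 2 * |E.zz h K j ω| ^ 2 := by gcongr
            _ = _ := by rw [sq_abs]
      _ = 256 * η ^ 4 * L ^ 2 * ∑ j ∈ range K, E.zz h K j ω ^ 2 := by rw [mul_sum]
      _ ≤ 256 * η ^ 4 * L ^ 2 * (L / h) :=
          mul_le_mul_of_nonneg_left (E.sum_zz_sq_le h0 h1 hS) (by positivity)
      _ = _ := by ring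

end Env

end Pool.Agent.T2H99.CW
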