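import Pool.Agent.T2H99.CW.C

/-!
Flipping the early signs changes the random variance.
-/

set_option autoImplicit false
set_option linter.unusedSectionVars false

open MeasureTheory Finset

namespace Pool.Agent.T2H99.CW

variable {B : Type} [Fintype B] [Nonempty B] [MeasurableSpace B] [DiscreteMeasurableSpace B]

namespace Env

variable (E : Env B)

/-- The contribution of the early signs. -/
def SE (N0 K : ℕ) (ω : ℕ → B) : ℝ := ∑ i ∈ range (N0 + 1), E.sg (ω i) * E.ell i K ω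

/-- The contribution of the late signs at `j`. -/
def LL (N0 K j : ℕ) (ω : ℕ → B) : ℝ := ∑ i ∈ Ico (N0 + 1) j, E.sg (ω i) * E.ell i K ω

/-- The late coefficients. -/
def bb (h : ℝ) (K i : ℕ) (ω : ℕ → B) : ℝ :=
  E.ell i K ω * ∑ j ∈ Ico (i + 1) K, E.zz h K j ω ^ 2

/-- The late linear statistic. -/
def SB (h : ℝ) (N0 K : ℕ) (ω : ℕ → B) : ℝ :=
  ∑ i ∈ Ico (N0 + 1) K, E.sg (ω i) * E.bb h K i ω

/-- Flip the early signs. -/
def fe (N0 : ℕ) : (ℕ → B) → ℕ → B := E.flp (fun j => j ≤ N0)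

lemma sg_fe_early {N0 i : ℕ} (h : i ≤ N0) (ω : ℕ → B) : E.sg (E.fe N0 ω i) = - E.sg (ω i) := by
  unfold fe; rw [sg_flp, if_pos h]

lemma sg_fe_late {N0 i : ℕ} (h : N0 < i) (ω : ℕ → B) : E.sg (E.fe N0 ω i) = E.sg (ω i) := by
  unfold fe; rw [sg_flp, if_neg (by omega)]

lemma ell_fe (N0 i t : ℕ) (ω : ℕ → B) : E.ell i t (E.fe N0 ω) = E.ell i t ω := E.ell_flp _ _ _ _

lemma zz_fe (N0 : ℕ) (h : ℝ) (K j : ℕ) (ω : ℕ → B) : E.zz h K j (E.fe N0 ω) = E.zz h K j ω :=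
  E.zz_flp _ _ _ _ _

lemma SE_fe (N0 K : ℕ) (ω : ℕ → B) : E.SE N0 K (E.fe N0 ω) = - E.SE N0 K ω := by
  unfold SE
  rw [← sum_neg_distrib]
  refine sum_congr rfl fun i hi => ?_
  rw [E.sg_fe_early (by have := mem_range.1 hi; omega), ell_fe]
  ring

lemma LL_fe (N0 K j : ℕ) (ω : ℕ → B) : E.LL N0 K j (E.fe N0 ω) = E.LL N0 K j ω := by
  unfold LL
  refine sum_congr rfl fun i hi => ?_
  rw [E.sg_fe_late (by have := mem_Ico.1 hi; omega), ell_fe]

lemma R_fe_early {N0 j : ℕ} (h : j ≤ N0) (ω : ℕ → B) : E.R j (E.fe N0 ω) = - E.R j ω := by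
  rw [R_eq, R_eq, ← sum_neg_distrib]
  refine sum_congr rfl fun i hi => ?_
  rw [E.sg_fe_early (by have := mem_range.1 hi; omega), ell_fe]
  ring

lemma ell_eq {i j K : ℕ} {ω : ℕ → B} (hij : i < j) (hjK : j ≤ K) (hj : E.lam j ω = j) :
    E.ell i j ω = E.ell i K ω := by
  unfold ell
  rw [← sum_range_add_sum_Ico _ hjK]
  rw [left_eq_add]
  refine sum_eq_zero fun s hs => ?_
  rw [if_neg]
  rintro ⟨h1, -⟩
  have := E.lam_mono (mem_Ico.1 hs).1 ω
  omega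

lemma R_late {N0 j K : ℕ} {ω : ℕ → B} (h : N0 < j) (hjK : j ≤ K) (hj : E.lam j ω = j) :
    E.R j ω = E.SE N0 K ω + E.LL N0 K j ω := by
  rw [R_eq]
  unfold SE LL
  rw [sum_range_add_sum_Ico _ (by omega : N0 + 1 ≤ j)]
  refine sum_congr rfl fun i hi => ?_
  rw [E.ell_eq (mem_range.1 hi) hjK hj]

lemma R_last {N0 K : ℕ} (ω : ℕ → B) (h : N0 + 1 ≤ K) :
    E.R K ω = E.SE N0 K ω + E.LL N0 K K ω := by
  rw [R_eq]
  unfold SE LL
  rw [sum_range_add_sum_Ico _ h]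

lemma lam_of_zz {h : ℝ} {K j : ℕ} {ω : ℕ → B} (hz : E.zz h K j ω ≠ 0) : E.lam j ω = j := by
  by_contra hcon
  apply hz
  unfold zz
  refine sum_eq_zero fun s _ => ?_
  rw [if_neg]
  rintro ⟨h1, -⟩
  apply hcon
  rw [← h1]
  exact E.lam_lam s ω

lemma sinh_diff (a b : ℝ) : Real.sinh (a + b) ^ 2 - Real.sinh (-a + b) ^ 2 =
    Real.sinh (2 * a) * Real.sinh (2 * b) := by
  rw [Real.sinh_add, Real.sinh_add, Real.sinh_two_mul, Real.sinh_two_mul, Real.sinh_neg,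
    Real.cosh_neg]
  ring

lemma Y_diff {h θ : ℝ} {N0 K : ℕ} (hN : N0 + 1 ≤ K) (ω : ℕ → B) :
    E.Y h θ K ω - E.Y h θ K (E.fe N0 ω) = 4 * Real.sinh (2 * (θ * E.SE N0 K ω)) *
      ∑ j ∈ Ico (N0 + 1) K, E.zz h K j ω ^ 2 * Real.sinh (2 * (θ * E.LL N0 K j ω)) := by
  unfold Y aa
  rw [← sum_range_add_sum_Ico _ hN, ← sum_range_add_sum_Ico _ hN]
  have h1 : ∑ j ∈ range (N0 + 1), (E.zz h K j (E.fe N0 ω) *
      (-2 * Real.sinh (θ * E.R j (E.fe N0 ω)))) ^ 2 =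
      ∑ j ∈ range (N0 + 1), (E.zz h K j ω * (-2 * Real.sinh (θ * E.R j ω))) ^ 2 := by
    refine sum_congr rfl fun j hj => ?_
    rw [E.R_fe_early (by have := mem_range.1 hj; omega), zz_fe, mul_neg, Real.sinh_neg]
    ring
  rw [h1, add_sub_add_left_eq_sub, ← sum_sub_distrib, mul_sum]
  refine sum_congr rfl fun j hj => ?_
  have hj' := mem_Ico.1 hj
  rw [zz_fe]
  by_cases hz : E.zz h K j ω = 0
  · rw [hz]; ring
  · have hl := E.lam_of_zz hz
    have hl' : E.lam j (E.fe N0 ω) = j := by unfold fe; rw [lam_flp]; exact hl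
    rw [E.R_late (by omega : N0 < j) hj'.2.le hl, E.R_late (by omega : N0 < j) hj'.2.le hl',
      SE_fe, LL_fe]
    have := sinh_diff (θ * E.SE N0 K ω) (θ * E.LL N0 K j ω)
    rw [show θ * (E.SE N0 K ω + E.LL N0 K j ω) = θ * E.SE N0 K ω + θ * E.LL N0 K j ω by ring,
      show θ * (-E.SE N0 K ω + E.LL N0 K j ω) = -(θ * E.SE N0 K ω) + θ * E.LL N0 K j ω by ring]
    linear_combination 4 * E.zz h K j ω ^ 2 * this

lemma SB_eq (h : ℝ) (N0 K : ℕ) (ω : ℕ → B) : E.SB h N0 K ω =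
    ∑ j ∈ Ico (N0 + 1) K, E.zz h K j ω ^ 2 * E.LL N0 K j ω := by
  unfold SB bb LL
  simp only [mul_sum]
  rw [sum_comm' (t' := Ico (N0 + 1) K) (s' := fun j => Ico (N0 + 1) j)]
  · refine sum_congr rfl fun j _ => sum_congr rfl fun i _ => ?_
    ring
  · intro i j
    simp only [mem_Ico]
    omega

/-- The change of the random variance, from below. -/
theorem Y_diff_ge {h θ η : ℝ} (h0 : 0 < h) (h1 : h ≤ 1) (hθ : 0 ≤ θ) (hη : η ≤ 1 / 2)
    {N0 K L : ℕ} (hN : N0 + 1 ≤ K) {ω : ℕ → B} (hS : E.Short K L ω)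
    (hR : ∀ t < K + 1, |θ * E.R t ω| ≤ η) (hR' : ∀ t < K + 1, |θ * E.R t (E.fe N0 ω)| ≤ η) :
    16 * θ ^ 2 * (|E.SE N0 K ω| * |E.SB h N0 K ω|) - 128 * η ^ 4 * L / h ≤
      |E.Y h θ K ω - E.Y h θ K (E.fe N0 ω)| := by
  have hη0 : 0 ≤ η := (abs_nonneg _).trans (hR 0 (by omega))
  rw [E.Y_diff hN, abs_mul, abs_mul, abs_of_pos (by norm_num : (0 : ℝ) < 4)]
  have hSE : |θ * E.SE N0 K ω| ≤ η := by
    have e1 := hR K (by omega)
    have e2 := hR' K (by omega)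
    have f1 := E.R_last ω hN
    have f2 := E.R_last (E.fe N0 ω) hN
    rw [SE_fe, LL_fe] at f2
    have : θ * E.SE N0 K ω = (θ * E.R K ω - θ * E.R K (E.fe N0 ω)) / 2 := by rw [f1, f2]; ring
    rw [this, abs_div, abs_of_pos (by norm_num : (0 : ℝ) < 2)]
    have := abs_sub (θ * E.R K ω) (θ * E.R K (E.fe N0 ω))
    linarith
  have hLL : ∀ j ∈ Ico (N0 + 1) K, E.zz h K j ω ≠ 0 → |θ * E.LL N0 K j ω| ≤ η := by
    intro j hj hz
    have hj' := mem_Ico.1 hj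
    have hl := E.lam_of_zz hz
    have hl' : E.lam j (E.fe N0 ω) = j := by unfold fe; rw [lam_flp]; exact hl
    have f1 := E.R_late (by omega : N0 < j) hj'.2.le hl
    have f2 := E.R_late (by omega : N0 < j) hj'.2.le hl'
    rw [SE_fe, LL_fe] at f2
    have e1 := hR j (by omega)
    have e2 := hR' j (by omega)
    have : θ * E.LL N0 K j ω = (θ * E.R j ω + θ * E.R j (E.fe N0 ω)) / 2 := by rw [f1, f2]; ring
    rw [this, abs_div, abs_of_pos (by norm_num : (0 : ℝ) < 2)]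
    have := abs_add_le (θ * E.R j ω) (θ * E.R j (E.fe N0 ω))
    linarith
  set S := ∑ j ∈ Ico (N0 + 1) K, E.zz h K j ω ^ 2 * Real.sinh (2 * (θ * E.LL N0 K j ω)) with hSdef
  have hS1 : |S - 2 * θ * E.SB h N0 K ω| ≤ 8 * η ^ 3 * (L / h) := by
    rw [SB_eq, hSdef, mul_sum, ← sum_sub_distrib]
    refine (abs_sum_le_sum_abs _ _).trans ?_
    calc ∑ j ∈ Ico (N0 + 1) K, |E.zz h K j ω ^ 2 * Real.sinh (2 * (θ * E.LL N0 K j ω)) -
          2 * θ * (E.zz h K j ω ^ 2 * E.LL N0 K j ω)|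
        ≤ ∑ j ∈ Ico (N0 + 1) K, 8 * η ^ 3 * E.zz h K j ω ^ 2 := by
          refine sum_le_sum fun j hj => ?_
          by_cases hz : E.zz h K j ω = 0
          · rw [hz]; simp
          · have h2 := hLL j hj hz
            have h3 : |2 * (θ * E.LL N0 K j ω)| ≤ 2 * η := by
              rw [abs_mul, abs_of_pos (by norm_num : (0 : ℝ) < 2)]; linarith
            have h4 := abs_sinh_sub_le (h3.trans (by linarith))
            have h5 : |2 * (θ * E.LL N0 K j ω)| ^ 3 ≤ (2 * η) ^ 3 :=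
              pow_le_pow_left₀ (abs_nonneg _) h3 3
            have e : E.zz h K j ω ^ 2 * Real.sinh (2 * (θ * E.LL N0 K j ω)) -
              2 * θ * (E.zz h K j ω ^ 2 * E.LL N0 K j ω) = E.zz h K j ω ^ 2 *
              (Real.sinh (2 * (θ * E.LL N0 K j ω)) - 2 * (θ * E.LL N0 K j ω)) := by ring
            rw [e, abs_mul, abs_of_nonneg (sq_nonneg _)]
            calc E.zz h K j ω ^ 2 * |Real.sinh (2 * (θ * E.LL N0 K j ω)) -
                  2 * (θ * E.LL N0 K j ω)| ≤ E.zz h K j ω ^ 2 * (2 * η) ^ 3 :=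
                  mul_le_mul_of_nonneg_left (h4.trans h5) (sq_nonneg _)
              _ = _ := by ring
      _ = 8 * η ^ 3 * ∑ j ∈ Ico (N0 + 1) K, E.zz h K j ω ^ 2 := by rw [mul_sum]
      _ ≤ 8 * η ^ 3 * (L / h) := by
          refine mul_le_mul_of_nonneg_left ?_ (by positivity)
          refine le_trans ?_ (E.sum_zz_sq_le h0 h1 hS)
          refine sum_le_sum_of_subset_of_nonneg ?_ fun j _ _ => sq_nonneg _
          intro j hj
          exact mem_range.2 (mem_Ico.1 hj).2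
  have hS2 : 2 * θ * |E.SB h N0 K ω| - 8 * η ^ 3 * (L / h) ≤ |S| := by
    have h2 : |2 * θ * E.SB h N0 K ω| = 2 * θ * |E.SB h N0 K ω| := by
      rw [abs_mul, abs_of_nonneg (by positivity : 0 ≤ 2 * θ)]
    have h3 := abs_sub_abs_le_abs_sub (2 * θ * E.SB h N0 K ω) S
    rw [abs_sub_comm, h2] at h3
    linarith
  have hs1 : 2 * (θ * |E.SE N0 K ω|) ≤ |Real.sinh (2 * (θ * E.SE N0 K ω))| := by
    have := abs_sinh_ge (2 * (θ * E.SE N0 K ω))
    rw [abs_mul, abs_mul, abs_of_pos (by norm_num : (0 : ℝ) < 2), abs_of_nonneg hθ] at this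
    exact this
  have hs2 : |Real.sinh (2 * (θ * E.SE N0 K ω))| ≤ 4 * η := by
    have h3 : |2 * (θ * E.SE N0 K ω)| ≤ 2 * η := by
      rw [abs_mul, abs_of_pos (by norm_num : (0 : ℝ) < 2)]; linarith
    have := abs_sinh_le (h3.trans (by linarith))
    linarith
  set sh := |Real.sinh (2 * (θ * E.SE N0 K ω))|
  have hsh : 0 ≤ sh := abs_nonneg _
  have hLh : 0 ≤ (L : ℝ) / h := by positivity
  have hB := abs_nonneg (E.SB h N0 K ω)
  calc 16 * θ ^ 2 * (|E.SE N0 K ω| * |E.SB h N0 K ω|) - 128 * η ^ 4 * L / h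
      = 4 * (2 * (θ * |E.SE N0 K ω|)) * (2 * θ * |E.SB h N0 K ω|) -
        4 * (4 * η) * (8 * η ^ 3 * (L / h)) := by ring
    _ ≤ 4 * sh * (2 * θ * |E.SB h N0 K ω|) - 4 * sh * (8 * η ^ 3 * (L / h)) := by
        have e1 : 4 * (2 * (θ * |E.SE N0 K ω|)) * (2 * θ * |E.SB h N0 K ω|) ≤
          4 * sh * (2 * θ * |E.SB h N0 K ω|) := by gcongr
        have e2 : 4 * sh * (8 * η ^ 3 * (L / h)) ≤ 4 * (4 * η) * (8 * η ^ 3 * (L / h)) := by
          gcongr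
        linarith
    _ = 4 * sh * (2 * θ * |E.SB h N0 K ω| - 8 * η ^ 3 * (L / h)) := by ring
    _ ≤ 4 * sh * |S| := mul_le_mul_of_nonneg_left hS2 (by positivity)

end Env

end Pool.Agent.T2H99.CW
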