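import Pool.Agent.T2H99.CW.D

/-!
The early and the late statistics are not small.
-/

set_option autoImplicit false
set_option linter.unusedSectionVars false

open MeasureTheory Finset

namespace Pool.Agent.T2H99.CW

variable {B : Type} [Fintype B] [Nonempty B] [MeasurableSpace B] [DiscreteMeasurableSpace B]

namespace Env

variable (E : Env B)

/-- The variance of the early statistic. -/
def VE (N0 K : ℕ) (ω : ℕ → B) : ℝ := ∑ i ∈ range (N0 + 1), E.ell i K ω ^ 2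

/-- The variance of the late statistic. -/
def VB (h : ℝ) (N0 K : ℕ) (ω : ℕ → B) : ℝ := ∑ i ∈ Ico (N0 + 1) K, E.bb h K i ω ^ 2

lemma ze_one {K : ℕ} {ω : ℕ → B} (hb : ∀ s < K, E.bt (ω (s + 1)) = false) {s : ℕ}
    (hs : s ≤ K) : E.ze s ω = 1 := by
  induction s with
  | zero => rfl
  | succ s ih =>
    rw [ze, hb s (by omega), ih (by omega)]
    simp

lemma sl_of_lam {j : ℕ} {ω : ℕ → B} (h : E.lam j ω = j) : j = 0 ∨ E.sl (ω j) = true := by
  cases j with
  | zero => left; rfl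
  | succ j =>
    right
    by_contra hc
    rw [lam, if_neg hc] at h
    have := E.lam_le j ω
    omega

lemma lam_of_ell {i K : ℕ} {ω : ℕ → B} (hz : E.ell i K ω ≠ 0) : E.lam i ω = i := by
  by_contra hcon
  apply hz
  unfold ell
  refine sum_eq_zero fun s _ => ?_
  rw [if_neg]
  rintro ⟨h1, -⟩
  apply hcon
  rw [← h1]
  exact E.lam_lam s ω

/-- Cauchy-Schwarz with few single steps. -/
lemma cs_single {n : ℕ} {J : Finset ℕ} (hJ : J ⊆ range (n + 1)) {ω : ℕ → B} {f : ℕ → ℝ}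
    (hf : ∀ j ∈ J, f j ≠ 0 → E.lam j ω = j) {M : ℝ}
    (hM : ∑ s ∈ range n, (if E.sl (ω (s + 1)) then (1 : ℝ) else 0) + 1 ≤ M) :
    (∑ j ∈ J, f j) ^ 2 ≤ M * ∑ j ∈ J, f j ^ 2 := by
  classical
  let g : ℕ → ℝ := fun j => if j = 0 ∨ E.sl (ω j) = true then 1 else 0
  have h1 : ∑ j ∈ J, f j = ∑ j ∈ J, g j * f j := by
    refine sum_congr rfl fun j hj => ?_
    by_cases h : f j = 0
    · rw [h, mul_zero]
    · simp only [g]
      rw [if_pos (E.sl_of_lam (hf j hj h)), one_mul]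
  rw [h1]
  refine (sum_mul_sq_le_sq_mul_sq J g f).trans ?_
  refine mul_le_mul_of_nonneg_right ?_ (sum_nonneg fun _ _ => sq_nonneg _)
  calc ∑ j ∈ J, g j ^ 2 ≤ ∑ j ∈ range (n + 1), g j ^ 2 :=
        sum_le_sum_of_subset_of_nonneg hJ fun _ _ _ => sq_nonneg _
    _ = ∑ s ∈ range n, (if E.sl (ω (s + 1)) then (1 : ℝ) else 0) + 1 := by
        rw [sum_range_succ']
        congr 1
        · refine sum_congr rfl fun s _ => ?_
          simp only [g]
          cases E.sl (ω (s + 1)) <;> simp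
        · simp [g]
    _ ≤ M := hM

lemma sum_ell {K : ℕ} {ω : ℕ → B} (hb : ∀ s < K, E.bt (ω (s + 1)) = false) (J : Finset ℕ) :
    ∑ i ∈ J, E.ell i K ω =
      ∑ s ∈ range K, if E.lam s ω ∈ J ∧ E.kp s ω = true then (1 : ℝ) else 0 := by
  unfold ell
  rw [sum_comm]
  refine sum_congr rfl fun s hs => ?_
  rw [E.ze_one hb (mem_range.1 hs).le]
  by_cases h1 : E.lam s ω ∈ J
  · rw [sum_eq_single_of_mem _ h1]
    · simp [h1]
    · intro i _ hi
      rw [if_neg fun h => hi h.1.symm]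
  · rw [if_neg fun h => h1 h.1]
    refine sum_eq_zero fun i hi => ?_
    rw [if_neg]
    rintro ⟨h2, -⟩
    exact h1 (h2 ▸ hi)

lemma sum_zz {h : ℝ} {K : ℕ} {ω : ℕ → B} (hb : ∀ s < K, E.bt (ω (s + 1)) = false)
    (J : Finset ℕ) : ∑ j ∈ J, E.zz h K j ω =
      ∑ s ∈ range K, if E.lam s ω ∈ J ∧ E.kp s ω = false then (1 - h) ^ s else 0 := by
  unfold zz
  rw [sum_comm]
  refine sum_congr rfl fun s hs => ?_
  rw [E.ze_one hb (mem_range.1 hs).le]
  by_cases h1 : E.lam s ω ∈ J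
  · rw [sum_eq_single_of_mem _ h1]
    · simp [h1]
    · intro i _ hi
      rw [if_neg fun h => hi h.1.symm]
  · rw [if_neg fun h => h1 h.1]
    refine sum_eq_zero fun i hi => ?_
    rw [if_neg]
    rintro ⟨h2, -⟩
    exact h1 (h2 ▸ hi)

lemma even_odd (a n : ℕ) (ω : ℕ → B) (h : |∑ s ∈ range n, E.kap (a + s) ω| < (n : ℝ) / 2) :
    (n : ℝ) / 4 ≤ ∑ s ∈ range n, (if E.kp (a + s) ω = true then (1 : ℝ) else 0) ∧
    (n : ℝ) / 4 ≤ ∑ s ∈ range n, (if E.kp (a + s) ω = false then (1 : ℝ) else 0) := by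
  have h1 : ∑ s ∈ range n, E.kap (a + s) ω =
      ∑ s ∈ range n, (if E.kp (a + s) ω = true then (1 : ℝ) else 0) -
      ∑ s ∈ range n, (if E.kp (a + s) ω = false then (1 : ℝ) else 0) := by
    rw [← sum_sub_distrib]
    refine sum_congr rfl fun s _ => ?_
    unfold kap
    cases E.kp (a + s) ω <;> simp
  have h2 : (n : ℝ) = ∑ s ∈ range n, (if E.kp (a + s) ω = true then (1 : ℝ) else 0) +
      ∑ s ∈ range n, (if E.kp (a + s) ω = false then (1 : ℝ) else 0) := by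
    rw [← sum_add_distrib]
    have : ∀ s ∈ range n, ((if E.kp (a + s) ω = true then (1 : ℝ) else 0) +
      (if E.kp (a + s) ω = false then (1 : ℝ) else 0)) = 1 := by
      intro s _
      cases E.kp (a + s) ω <;> simp
    rw [sum_congr rfl this]
    simp
  rw [h1] at h
  obtain ⟨h3, h4⟩ := abs_lt.1 h
  constructor <;> linarith

/-- The window `[a, a+n)` without the period running at its start. -/
lemma window_count {a n K L : ℕ} (ha : a + n ≤ K) (haK : a < K) {ω : ℕ → B}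
    (hS : E.Short K L ω) (b : Bool) {x : ℕ → ℝ} {c : ℝ} (hc : 0 ≤ c) (hx0 : ∀ s, 0 ≤ x s)
    (hx : ∀ s < a + n, c ≤ x s) :
    c * (∑ s ∈ range n, (if E.kp (a + s) ω = b then (1 : ℝ) else 0) - L) ≤
      ∑ s ∈ range K, if E.lam s ω ∈ Ico (a + 1) (a + n + 1) ∧ E.kp s ω = b then x s else 0 := by
  have h1 : ∑ s ∈ range n, (if E.kp (a + s) ω = b then (1 : ℝ) else 0) - L ≤
      ∑ s ∈ range n, (if E.lam (a + s) ω ∈ Ico (a + 1) (a + n + 1) ∧ E.kp (a + s) ω = b
        then (1 : ℝ) else 0) := by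
    rw [sub_le_iff_le_add]
    have h2 : ∑ s ∈ range n, (if s < L then (1 : ℝ) else 0) ≤ L := by
      rw [← sum_filter, sum_const, nsmul_eq_mul, mul_one]
      have : {s ∈ range n | s < L} ⊆ range L := fun s hs => mem_range.2 (mem_filter.1 hs).2
      have := card_le_card this
      rw [card_range] at this
      exact_mod_cast this
    refine le_trans ?_ (add_le_add_right h2 _)
    rw [← sum_add_distrib]
    refine sum_le_sum fun s hs => ?_
    have hs' := mem_range.1 hs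
    by_cases hk : E.kp (a + s) ω = b
    · rw [if_pos hk]
      by_cases hl : a < E.lam (a + s) ω
      · have h4 := E.lam_le (a + s) ω
        rw [if_pos ⟨mem_Ico.2 ⟨by omega, by omega⟩, hk⟩]
        split_ifs <;> norm_num
      · have h5 := E.lam_short hS haK (s := a + s) (by omega)
        rw [if_pos (by omega : s < L)]
        split_ifs <;> norm_num
    · rw [if_neg hk, if_neg (fun h => hk h.2)]
      split_ifs <;> norm_num
  refine (mul_le_mul_of_nonneg_left h1 hc).trans ?_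
  rw [mul_sum]
  have h6 : ∑ s ∈ range n, c * (if E.lam (a + s) ω ∈ Ico (a + 1) (a + n + 1) ∧
      E.kp (a + s) ω = b then (1 : ℝ) else 0) ≤
      ∑ s ∈ range n, (if E.lam (a + s) ω ∈ Ico (a + 1) (a + n + 1) ∧ E.kp (a + s) ω = b
        then x (a + s) else 0) := by
    refine sum_le_sum fun s hs => ?_
    have hs' := mem_range.1 hs
    split_ifs
    · rw [mul_one]; exact hx _ (by omega)
    · simp
  refine h6.trans ?_
  have h7 : ∑ s ∈ range n, (if E.lam (a + s) ω ∈ Ico (a + 1) (a + n + 1) ∧ E.kp (a + s) ω = b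
        then x (a + s) else 0) = ∑ s ∈ Ico a (a + n),
        (if E.lam s ω ∈ Ico (a + 1) (a + n + 1) ∧ E.kp s ω = b then x s else 0) := by
    rw [sum_Ico_eq_sum_range]
    simp
  rw [h7]
  refine sum_le_sum_of_subset_of_nonneg ?_ fun s _ _ => ?_
  · intro s hs
    have := mem_Ico.1 hs
    exact mem_range.2 (by omega)
  · split_ifs
    · exact hx0 s
    · exact le_refl _

/-- The good types. -/
def Gt (N0 K L : ℕ) (M : ℝ) : Set (ℕ → B) :=
  {ω | (∀ s < K, E.bt (ω (s + 1)) = false) ∧ E.Short K L ω ∧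
    ∑ s ∈ range (3 * N0), (if E.sl (ω (s + 1)) then (1 : ℝ) else 0) + 1 ≤ M ∧
    |∑ s ∈ range N0, E.kap (0 + s) ω| < (N0 : ℝ) / 2 ∧
    |∑ s ∈ range N0, E.kap (N0 + s) ω| < (N0 : ℝ) / 2 ∧
    |∑ s ∈ range N0, E.kap (2 * N0 + s) ω| < (N0 : ℝ) / 2}

/-- Lower bounds for the two variances. -/
theorem V_ge {h : ℝ} (h0 : 0 < h) (h1 : h ≤ 1) {N0 K L : ℕ} (hN : 0 < N0) {M : ℝ} (hM : 0 < M)
    (hK : 3 * N0 < K) (hL : 8 * L ≤ N0) (hx : 1 / 8 ≤ (1 - h) ^ (3 * N0)) {ω : ℕ → B}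
    (hG : ω ∈ E.Gt N0 K L M) :
    ((N0 : ℝ) ^ 4 / (131072 * M ^ 2)) ^ 2 ≤ E.VE N0 K ω * E.VB h N0 K ω := by
  obtain ⟨hb, hS, hs, hw1, hw2, hw3⟩ := hG
  have hN' : (0 : ℝ) < N0 := by exact_mod_cast hN
  have hL' : 8 * (L : ℝ) ≤ N0 := by exact_mod_cast hL
  have e1 := (E.even_odd 0 N0 ω hw1).1
  have e2 := (E.even_odd N0 N0 ω hw2).1
  have e3 := (E.even_odd (2 * N0) N0 ω hw3).2
  have hell : ∀ i, E.ell i K ω ≠ 0 → E.lam i ω = i := fun i hi => E.lam_of_ell hi
  -- early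
  have a1 : (N0 : ℝ) / 4 ≤ ∑ i ∈ range (N0 + 1), E.ell i K ω := by
    rw [E.sum_ell hb]
    have h2 : ∑ s ∈ range N0, (if E.kp (0 + s) ω = true then (1 : ℝ) else 0) ≤
        ∑ s ∈ range K, if E.lam s ω ∈ range (N0 + 1) ∧ E.kp s ω = true then (1 : ℝ) else 0 := by
      have h3 : ∑ s ∈ range N0, (if E.kp (0 + s) ω = true then (1 : ℝ) else 0) =
          ∑ s ∈ range N0, if E.lam s ω ∈ range (N0 + 1) ∧ E.kp s ω = true then (1 : ℝ) else 0 := by
        refine sum_congr rfl fun s hs => ?_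
        have hs' := mem_range.1 hs
        have h4 := E.lam_le s ω
        have h5 : E.lam s ω ∈ range (N0 + 1) := mem_range.2 (by omega)
        simp only [zero_add, h5, true_and]
      rw [h3]
      exact sum_le_sum_of_subset_of_nonneg (range_subset_range.2 (by omega)) fun s _ _ => by
        split_ifs <;> norm_num
    linarith
  have b1 := E.cs_single (n := 3 * N0) (J := range (N0 + 1)) (range_subset_range.2 (by omega))
    (ω := ω) (f := fun i => E.ell i K ω) (fun i _ hi => hell i hi) hs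
  -- middle
  have a2 : (N0 : ℝ) / 8 ≤ ∑ i ∈ Ico (N0 + 1) (N0 + N0 + 1), E.ell i K ω := by
    rw [E.sum_ell hb]
    have h2 := E.window_count (a := N0) (n := N0) (K := K) (L := L) (by omega) (by omega) hS true
      (x := fun _ => 1) (c := 1) zero_le_one (fun _ => zero_le_one) fun _ _ => le_refl _
    refine le_trans ?_ h2
    linarith
  have b2 := E.cs_single (n := 3 * N0) (J := Ico (N0 + 1) (N0 + N0 + 1))
    (fun i hi => by have := mem_Ico.1 hi; exact mem_range.2 (by omega))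
    (ω := ω) (f := fun i => E.ell i K ω) (fun i _ hi => hell i hi) hs
  -- late
  have a3 : (N0 : ℝ) / 64 ≤ ∑ j ∈ Ico (2 * N0 + 1) (2 * N0 + N0 + 1), E.zz h K j ω := by
    rw [E.sum_zz hb]
    have h2 := E.window_count (a := 2 * N0) (n := N0) (K := K) (L := L) (by omega) (by omega)
      hS false (x := fun s => (1 - h) ^ s) (c := 1 / 8) (by norm_num)
      (fun s => pow_nonneg (by linarith) s) fun s hs => hx.trans
        (pow_le_pow_of_le_one (by linarith) (by linarith) (by omega))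
    refine le_trans ?_ h2
    linarith
  have b3 := E.cs_single (n := 3 * N0) (J := Ico (2 * N0 + 1) (2 * N0 + N0 + 1))
    (fun i hi => by have := mem_Ico.1 hi; exact mem_range.2 (by omega))
    (ω := ω) (f := fun j => E.zz h K j ω) (fun j _ hj => E.lam_of_zz hj) hs
  set Z3 := ∑ j ∈ Ico (2 * N0 + 1) (2 * N0 + N0 + 1), E.zz h K j ω ^ 2 with hZ3
  set V2 := ∑ i ∈ Ico (N0 + 1) (N0 + N0 + 1), E.ell i K ω ^ 2 with hV2
  have hZ3n : 0 ≤ Z3 := sum_nonneg fun _ _ => sq_nonneg _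
  have c1 : (N0 : ℝ) ^ 2 / (16 * M) ≤ E.VE N0 K ω := by
    rw [div_le_iff₀ (by positivity)]
    have h2 : ((N0 : ℝ) / 4) ^ 2 ≤ (∑ i ∈ range (N0 + 1), E.ell i K ω) ^ 2 :=
      pow_le_pow_left₀ (by positivity) a1 2
    have h3 : E.VE N0 K ω = ∑ i ∈ range (N0 + 1), E.ell i K ω ^ 2 := rfl
    rw [h3]
    nlinarith
  have c2 : (N0 : ℝ) ^ 2 / (64 * M) ≤ V2 := by
    rw [div_le_iff₀ (by positivity)]
    have h2 : ((N0 : ℝ) / 8) ^ 2 ≤ (∑ i ∈ Ico (N0 + 1) (N0 + N0 + 1), E.ell i K ω) ^ 2 :=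
      pow_le_pow_left₀ (by positivity) a2 2
    nlinarith
  have c3 : (N0 : ℝ) ^ 2 / (4096 * M) ≤ Z3 := by
    rw [div_le_iff₀ (by positivity)]
    have h2 : ((N0 : ℝ) / 64) ^ 2 ≤
      (∑ j ∈ Ico (2 * N0 + 1) (2 * N0 + N0 + 1), E.zz h K j ω) ^ 2 :=
      pow_le_pow_left₀ (by positivity) a3 2
    nlinarith
  have c4 : V2 * Z3 ^ 2 ≤ E.VB h N0 K ω := by
    unfold VB bb
    rw [hV2, sum_mul]
    have h2 : ∑ i ∈ Ico (N0 + 1) (N0 + N0 + 1), E.ell i K ω ^ 2 * Z3 ^ 2 ≤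
        ∑ i ∈ Ico (N0 + 1) (N0 + N0 + 1), (E.ell i K ω *
          ∑ j ∈ Ico (i + 1) K, E.zz h K j ω ^ 2) ^ 2 := by
      refine sum_le_sum fun i hi => ?_
      have hi' := mem_Ico.1 hi
      rw [mul_pow]
      refine mul_le_mul_of_nonneg_left ?_ (sq_nonneg _)
      refine pow_le_pow_left₀ hZ3n ?_ 2
      rw [hZ3]
      refine sum_le_sum_of_subset_of_nonneg ?_ fun _ _ _ => sq_nonneg _
      intro j hj
      have := mem_Ico.1 hj
      exact mem_Ico.2 ⟨by omega, by omega⟩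
    refine h2.trans ?_
    refine sum_le_sum_of_subset_of_nonneg ?_ fun _ _ _ => sq_nonneg _
    intro j hj
    have := mem_Ico.1 hj
    exact mem_Ico.2 ⟨by omega, by omega⟩
  calc ((N0 : ℝ) ^ 4 / (131072 * M ^ 2)) ^ 2 = (N0 : ℝ) ^ 2 / (16 * M) *
        ((N0 : ℝ) ^ 2 / (64 * M) * ((N0 : ℝ) ^ 2 / (4096 * M)) ^ 2) := by
        field_simp; norm_num
    _ ≤ E.VE N0 K ω * (V2 * Z3 ^ 2) := by
        have hVE : 0 ≤ E.VE N0 K ω := sum_nonneg fun _ _ => sq_nonneg _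
        gcongr
    _ ≤ E.VE N0 K ω * E.VB h N0 K ω := by
        refine mul_le_mul_of_nonneg_left c4 (sum_nonneg fun _ _ => sq_nonneg _)

end Env

end Pool.Agent.T2H99.CW
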