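import Pool.Agent.T2H99.CW.D2

/-!
The product of the two statistics is not small with positive probability.
-/

set_option autoImplicit false
set_option linter.unusedSectionVars false

open MeasureTheory Finset

namespace Pool.Agent.T2H99.CW

variable {B : Type} [Fintype B] [Nonempty B] [MeasurableSpace B] [DiscreteMeasurableSpace B]

namespace Env

variable (E : Env B)

lemma dep_VE (N0 K : ℕ) : Dep K (E.VE N0 K) :=
  dep_sum _ fun i _ => (E.dep_ell i K).comp fun x => x ^ 2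

lemma dep_bb (h : ℝ) (K i : ℕ) : Dep K (E.bb h K i) :=
  (E.dep_ell i K).comp₂ (dep_sum _ fun j _ => (E.dep_zz h K j).comp fun x => x ^ 2)
    fun x y => x * y

lemma dep_VB (h : ℝ) (N0 K : ℕ) : Dep K (E.VB h N0 K) :=
  dep_sum _ fun i _ => (E.dep_bb h K i).comp fun x => x ^ 2

lemma dep_SE {N0 K : ℕ} (hN : N0 < K) : Dep K (E.SE N0 K) :=
  dep_sum _ fun i hi => (E.dep_sg (by have := mem_range.1 hi; omega)).comp₂ (E.dep_ell i K)
    fun x y => x * y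

lemma dep_SB (h : ℝ) (N0 K : ℕ) : Dep K (E.SB h N0 K) :=
  dep_sum _ fun i hi => (E.dep_sg (mem_Ico.1 hi).2).comp₂ (E.dep_bb h K i)
    fun x y => x * y

lemma ell_fla (i j t : ℕ) (ω : ℕ → B) : E.ell i t (E.fla j ω) = E.ell i t ω := E.ell_flp _ _ _ _

lemma zz_fla (h : ℝ) (K i j : ℕ) (ω : ℕ → B) : E.zz h K i (E.fla j ω) = E.zz h K i ω :=
  E.zz_flp _ _ _ _ _

lemma bb_fla (h : ℝ) (K i j : ℕ) (ω : ℕ → B) : E.bb h K i (E.fla j ω) = E.bb h K i ω := by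
  unfold bb
  simp only [ell_fla, zz_fla]

lemma VE_fla (N0 K j : ℕ) (ω : ℕ → B) : E.VE N0 K (E.fla j ω) = E.VE N0 K ω := by
  unfold VE
  simp only [ell_fla]

lemma VB_fla (h : ℝ) (N0 K j : ℕ) (ω : ℕ → B) : E.VB h N0 K (E.fla j ω) = E.VB h N0 K ω := by
  unfold VB
  simp only [bb_fla]

lemma SE_fla {N0 K j : ℕ} (hj : N0 < j) (ω : ℕ → B) :
    E.SE N0 K (E.fla j ω) = E.SE N0 K ω := by
  unfold SE
  refine sum_congr rfl fun i hi => ?_
  rw [E.fla_ne ω (by have := mem_range.1 hi; omega), ell_fla]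

/-- The product of the statistics. -/
theorem pz {h : ℝ} {N0 K KK : ℕ} (hNK : N0 < K) (hKK : K ≤ KK) {g : (ℕ → B) → ℝ}
    (hg : Dep KK g) (hg01 : ∀ ω, g ω = 0 ∨ g ω = 1) (hgf : ∀ i ω, g (E.fla i ω) = g ω)
    (hV : ∀ ω, g ω = 1 → 0 < E.VE N0 K ω * E.VB h N0 K ω) :
    ((∫ ω, g ω ∂PP B) - 3 / 8) / 18 ≤ (PP B).real {ω | g ω = 1 ∧
      E.VE N0 K ω * E.VB h N0 K ω ≤ 4 * (|E.SE N0 K ω| * |E.SB h N0 K ω|) ^ 2} := by
  let ψ : (ℕ → B) → ℝ := fun ω => g ω / (E.VE N0 K ω * E.VB h N0 K ω)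
  have dVE := (E.dep_VE N0 K).mono hKK
  have dVB := (E.dep_VB h N0 K).mono hKK
  have dSE := (E.dep_SE hNK).mono hKK
  have dSB := (E.dep_SB h N0 K).mono hKK
  have dψ : Dep KK ψ := hg.comp₃ dVE dVB fun x y z => x / (y * z)
  have hψf : ∀ i ω, ψ (E.fla i ω) = ψ ω := by
    intro i ω
    simp only [ψ]
    rw [hgf, VE_fla, VB_fla]
  have hVE0 : ∀ ω, 0 ≤ E.VE N0 K ω := fun ω => sum_nonneg fun _ _ => sq_nonneg _
  have hVB0 : ∀ ω, 0 ≤ E.VB h N0 K ω := fun ω => sum_nonneg fun _ _ => sq_nonneg _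
  have hg0 : ∀ ω, 0 ≤ g ω := fun ω => by rcases hg01 ω with h | h <;> rw [h] <;> norm_num
  have hψ0 : ∀ ω, 0 ≤ ψ ω := fun ω =>
    div_nonneg (hg0 ω) (mul_nonneg (hVE0 ω) (hVB0 ω))
  have hψV : ∀ ω, ψ ω * (E.VE N0 K ω * E.VB h N0 K ω) = g ω := by
    intro ω
    simp only [ψ]
    rcases hg01 ω with h1 | h1
    · rw [h1]; simp
    · have := hV ω h1
      rw [h1, one_div, inv_mul_cancel₀ this.ne']
  -- second moments
  have k1 : ∀ φ : (ℕ → B) → ℝ, Dep KK φ → (∀ i ω, φ (E.fla i ω) = φ ω) →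
      ∫ ω, φ ω * E.SE N0 K ω ^ 2 ∂PP B = ∫ ω, φ ω * E.VE N0 K ω ∂PP B := by
    intro φ hφ hφf
    exact E.khin2 (K := KK) (range (N0 + 1)) (fun j hj => by have := mem_range.1 hj; omega)
      (fun i => E.ell i K) (fun j _ => (E.dep_ell j K).mono hKK)
      (fun i _ j _ ω => E.ell_fla j i K ω) φ hφ fun i _ ω => hφf i ω
  have k2 : ∫ ω, ψ ω * E.SE N0 K ω ^ 2 * E.SB h N0 K ω ^ 2 ∂PP B =
      ∫ ω, ψ ω * E.SE N0 K ω ^ 2 * E.VB h N0 K ω ∂PP B :=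
    E.khin2 (K := KK) (Ico (N0 + 1) K) (fun j hj => by have := mem_Ico.1 hj; omega)
      (fun i => E.bb h K i) (fun j _ => (E.dep_bb h K j).mono hKK)
      (fun i _ j _ ω => E.bb_fla h K j i ω) (fun ω => ψ ω * E.SE N0 K ω ^ 2)
      (dψ.comp₂ dSE fun x y => x * y ^ 2) fun i hi ω => by
        rw [hψf, E.SE_fla (by have := mem_Ico.1 hi; omega)]
  have m2 : ∫ ω, ψ ω * E.SE N0 K ω ^ 2 * E.SB h N0 K ω ^ 2 ∂PP B = ∫ ω, g ω ∂PP B := by
    rw [k2]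
    have h1 : ∀ ω, ψ ω * E.SE N0 K ω ^ 2 * E.VB h N0 K ω =
        (ψ ω * E.VB h N0 K ω) * E.SE N0 K ω ^ 2 := fun ω => by ring
    simp only [h1]
    rw [k1 _ (dψ.comp₂ dVB fun x y => x * y) fun i ω => by rw [hψf, VB_fla]]
    congr 1
    funext ω
    rw [← hψV ω]
    ring
  -- fourth moments
  have k4 : ∀ φ : (ℕ → B) → ℝ, Dep KK φ → (∀ ω, 0 ≤ φ ω) → (∀ i ω, φ (E.fla i ω) = φ ω) →
      ∫ ω, φ ω * E.SE N0 K ω ^ 4 ∂PP B ≤ ∫ ω, φ ω * (3 * E.VE N0 K ω ^ 2) ∂PP B := by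
    intro φ hφ hφ0 hφf
    exact E.khin4 (K := KK) (range (N0 + 1)) (fun j hj => by have := mem_range.1 hj; omega)
      (fun i => E.ell i K) (fun j _ => (E.dep_ell j K).mono hKK)
      (fun i _ j _ ω => E.ell_fla j i K ω) φ hφ hφ0 fun i _ ω => hφf i ω
  have k5 : ∫ ω, ψ ω ^ 2 * E.SE N0 K ω ^ 4 * E.SB h N0 K ω ^ 4 ∂PP B ≤
      ∫ ω, ψ ω ^ 2 * E.SE N0 K ω ^ 4 * (3 * E.VB h N0 K ω ^ 2) ∂PP B :=
    E.khin4 (K := KK) (Ico (N0 + 1) K) (fun j hj => by have := mem_Ico.1 hj; omega)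
      (fun i => E.bb h K i) (fun j _ => (E.dep_bb h K j).mono hKK)
      (fun i _ j _ ω => E.bb_fla h K j i ω) (fun ω => ψ ω ^ 2 * E.SE N0 K ω ^ 4)
      (dψ.comp₂ dSE fun x y => x ^ 2 * y ^ 4) (fun ω => by positivity) fun i hi ω => by
        rw [hψf, E.SE_fla (by have := mem_Ico.1 hi; omega)]
  have m4 : ∫ ω, ψ ω ^ 2 * E.SE N0 K ω ^ 4 * E.SB h N0 K ω ^ 4 ∂PP B ≤ 9 := by
    refine k5.trans ?_
    have h1 : ∀ ω, ψ ω ^ 2 * E.SE N0 K ω ^ 4 * (3 * E.VB h N0 K ω ^ 2) =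
        (3 * ψ ω ^ 2 * E.VB h N0 K ω ^ 2) * E.SE N0 K ω ^ 4 := fun ω => by ring
    simp only [h1]
    refine (k4 _ (dψ.comp₂ dVB fun x y => 3 * x ^ 2 * y ^ 2) (fun ω => by positivity)
      fun i ω => by rw [hψf, VB_fla]).trans ?_
    have h2 : ∀ ω, 3 * ψ ω ^ 2 * E.VB h N0 K ω ^ 2 * (3 * E.VE N0 K ω ^ 2) = 9 * g ω ^ 2 := by
      intro ω
      rw [← hψV ω]
      ring
    simp only [h2]
    have h3 : ∫ ω, 9 * g ω ^ 2 ∂PP B ≤ ∫ _ω, (9 : ℝ) ∂PP B :=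
      integral_mono_dep (hg.comp fun x => 9 * x ^ 2) (dep_const _ KK) fun ω => by
        rcases hg01 ω with h | h <;> rw [h] <;> norm_num
    simpa using h3
  -- conclusion
  set A : Set (ℕ → B) := {ω | g ω = 1 ∧
      E.VE N0 K ω * E.VB h N0 K ω ≤ 4 * (|E.SE N0 K ω| * |E.SB h N0 K ω|) ^ 2} with hA
  have hAm : MeasurableSet A := by
    have d : Dep KK fun ω => (g ω, E.VE N0 K ω * E.VB h N0 K ω,
        4 * (|E.SE N0 K ω| * |E.SB h N0 K ω|) ^ 2) :=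
      hg.comp₃ (dVE.comp₂ dVB fun x y => x * y)
        (dSE.comp₂ dSB fun x y => 4 * (|x| * |y|) ^ 2) fun x y z => (x, y, z)
    have hm := d.measurable
    exact hm ((measurableSet_eq_fun measurable_fst measurable_const).inter
      (measurableSet_le (measurable_fst.comp measurable_snd)
        (measurable_snd.comp measurable_snd)))
  have hpt : ∀ ω, ψ ω * E.SE N0 K ω ^ 2 * E.SB h N0 K ω ^ 2 ≤
      1 / 4 + (ψ ω ^ 2 * E.SE N0 K ω ^ 4 * E.SB h N0 K ω ^ 4) / 72 +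
        A.indicator (fun _ => (18 : ℝ)) ω := by
    intro ω
    set z := ψ ω * E.SE N0 K ω ^ 2 * E.SB h N0 K ω ^ 2 with hz
    have hz2 : ψ ω ^ 2 * E.SE N0 K ω ^ 4 * E.SB h N0 K ω ^ 4 = z ^ 2 := by rw [hz]; ring
    rw [hz2]
    by_cases hω : ω ∈ A
    · rw [Set.indicator_of_mem hω]
      nlinarith [sq_nonneg (z - 36)]
    · rw [Set.indicator_of_notMem hω]
      have h1 : z ≤ 1 / 4 := by
        rcases hg01 ω with h2 | h2
        · have : z = 0 := by rw [hz]; simp only [ψ]; rw [h2]; simp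
          rw [this]; norm_num
        · have h3 : 4 * (|E.SE N0 K ω| * |E.SB h N0 K ω|) ^ 2 < E.VE N0 K ω * E.VB h N0 K ω := by
            by_contra hc
            exact hω ⟨h2, not_lt.1 hc⟩
          have h4 := hV ω h2
          rw [mul_pow, sq_abs, sq_abs] at h3
          rw [hz]
          simp only [ψ]
          rw [h2, div_mul_eq_mul_div, div_mul_eq_mul_div, one_mul, div_le_div_iff₀ h4
            (by norm_num)]
          linarith
      have := sq_nonneg z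
      linarith
  have i1 : Integrable (fun ω => ψ ω * E.SE N0 K ω ^ 2 * E.SB h N0 K ω ^ 2) (PP B) :=
    (dψ.comp₃ dSE dSB fun x y z => x * y ^ 2 * z ^ 2).integrable
  have i2 : Integrable (fun ω => (ψ ω ^ 2 * E.SE N0 K ω ^ 4 * E.SB h N0 K ω ^ 4) / 72) (PP B) :=
    (dψ.comp₃ dSE dSB fun x y z => (x ^ 2 * y ^ 4 * z ^ 4) / 72).integrable
  have i3 : Integrable (A.indicator fun _ => (18 : ℝ)) (PP B) :=
    (integrable_const _).indicator hAm
  have i12 : Integrable (fun ω => 1 / 4 +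
      (ψ ω ^ 2 * E.SE N0 K ω ^ 4 * E.SB h N0 K ω ^ 4) / 72) (PP B) := (integrable_const _).add i2
  have hint := integral_mono i1 (i12.add i3) hpt
  simp only [Pi.add_apply] at hint
  have h72 : ∫ ω, (ψ ω ^ 2 * E.SE N0 K ω ^ 4 * E.SB h N0 K ω ^ 4) / 72 ∂PP B =
      (∫ ω, ψ ω ^ 2 * E.SE N0 K ω ^ 4 * E.SB h N0 K ω ^ 4 ∂PP B) / 72 := integral_div _ _
  rw [m2, integral_add i12 i3, integral_add (integrable_const _) i2, h72,
    integral_indicator hAm] at hint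
  simp only [integral_const, probReal_univ, MeasurableSet.univ,
    measureReal_restrict_apply, Set.univ_inter, smul_eq_mul] at hint
  rw [div_le_iff₀ (by norm_num)]
  linarith

end Env

end Pool.Agent.T2H99.CW
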