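import Mathlib

/-!
Two competing lazy random walks on a finite graph: the definitions.
-/

set_option autoImplicit false

open MeasureTheory Finset Filter Topology

namespace Pool.Agent.T2H99.CW

section graph

variable {V : Type} [Fintype V]

open scoped Classical in
/-- The kernel of the lazy random walk on the graph `G`: the walk stays with probability one half
and otherwise moves to a uniform neighbour. -/
noncomputable def lazy (G : SimpleGraph V) (x y : V) : ℝ :=
  if x = y then 1 / 2 else if G.Adj x y then 1 / (2 * ((G.neighborSet x).ncard : ℝ)) else 0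

open scoped Classical in
/-- The kernel of `t` steps of the lazy random walk. -/
noncomputable def pw (G : SimpleGraph V) : ℕ → V → V → ℝ
  | 0, x, y => if x = y then 1 else 0
  | t + 1, x, y => ∑ z, lazy G x z * pw G t z y

/-- The uniform mixing time. -/
noncomputable def Tmix (G : SimpleGraph V) : ℕ :=
  sInf {t : ℕ | ∀ x y, |pw G t x y * Fintype.card V - 1| ≤ 1 / 4}

/-- The truncated Green function. -/
noncomputable def green (G : SimpleGraph V) (x y : V) : ℝ :=
  ∑ t ∈ range (Tmix G + 1), pw G t x y

open scoped Classical in
/-- The sum of the squares of the Green function over the vertices other than `x`. -/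
noncomputable def greenSq (G : SimpleGraph V) (x : V) : ℝ :=
  ∑ y, if y = x then 0 else green G x y ^ 2

open scoped Classical in
/-- The probability that the lazy random walk from `x` visits `y` or `z` by time `T`, as a sum
over the trajectories of length `T`. -/
noncomputable def hitProb (G : SimpleGraph V) (T : ℕ) (x y z : V) : ℝ :=
  ∑ w : Fin (T + 1) → V, if w 0 = x ∧ ∃ i, w i = y ∨ w i = z then
    ∏ i : Fin T, lazy G (w i.castSucc) (w i.succ) else 0

/-- The graph looks the same from all its vertices. -/
def VertexTransitive (G : SimpleGraph V) : Prop := ∀ x y : V, ∃ e : G ≃g G, e x = y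

end graph

/-- Assumption (A) for a sequence of finite connected vertex-transitive graphs. -/
structure AssumptionA (V : ℕ → Type) [∀ n, Fintype (V n)] (G : ∀ n, SimpleGraph (V n)) :
    Prop where
  connected : ∀ n, (G n).Connected
  transitive : ∀ n, VertexTransitive (G n)
  card_large : Tendsto (fun n => (Fintype.card (V n) : ℝ)) atTop atTop
  mix_large : Tendsto (fun n => (Tmix (G n) : ℝ)) atTop atTop
  mix_small : Tendsto (fun n => (Tmix (G n) : ℝ) /
    ((Fintype.card (V n) : ℝ) / Real.log (Fintype.card (V n)) ^ 2)) atTop (𝓝 0)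
  green_small : ∀ x : ∀ n, V n, Tendsto (fun n => greenSq (G n) (x n) /
      ((Tmix (G n) : ℝ) / Real.log (Fintype.card (V n)))) atTop (𝓝 0)
  hit_small : ∃ ρ : ℝ, ρ < 1 ∧ ∀ n, ∀ x y z : V n, x ≠ y → x ≠ z → y ≠ z →
    hitProb (G n) (Tmix (G n)) x y z ≤ ρ

section walks

variable {V : Type} [Fintype V] {Ω : Type} [MeasurableSpace Ω]

/-- `X` and `Y` are two independent lazy random walks on `G` with a uniform start, and `c` is a
family of fair coins, one for each vertex, independent of each other and of the walks: all the
joint laws of finitely many steps and of the coins are given. -/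
structure IsModel (G : SimpleGraph V) (P : Measure Ω) (X Y : ℕ → Ω → V) (c : V → Ω → Bool) :
    Prop where
  prob : IsProbabilityMeasure P
  measX : ∀ t v, MeasurableSet {ω | X t ω = v}
  measY : ∀ t v, MeasurableSet {ω | Y t ω = v}
  measC : ∀ v, MeasurableSet {ω | c v ω = true}
  law : ∀ (T : ℕ) (x y : ℕ → V) (b : V → Bool),
    P.real {ω | (∀ t ≤ T, X t ω = x t) ∧ (∀ t ≤ T, Y t ω = y t) ∧ ∀ v, c v ω = b v} =
      (1 / (Fintype.card V : ℝ) * ∏ t ∈ range T, lazy G (x t) (x (t + 1))) *
      (1 / (Fintype.card V : ℝ) * ∏ t ∈ range T, lazy G (y t) (y (t + 1))) *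
      (1 / 2) ^ Fintype.card V

/-- The vertices which get the mark of the first walk `X`: those which `X` visits strictly before
`Y`, and those which both walks visit first at the same step, if the coin shows `true`. -/
def marked (X Y : ℕ → Ω → V) (c : V → Ω → Bool) (ω : Ω) : Set V :=
  {v | (∃ t, X t ω = v ∧ ∀ s ≤ t, Y s ω ≠ v) ∨
    (∃ t, X t ω = v ∧ Y t ω = v ∧ (∀ s < t, X s ω ≠ v ∧ Y s ω ≠ v) ∧ c v ω = true)}

/-- The number of vertices with the mark of the first walk. -/
noncomputable def count (X Y : ℕ → Ω → V) (c : V → Ω → Bool) (ω : Ω) : ℝ :=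
  ((marked X Y c ω).ncard : ℝ)

/-- The normalised number of vertices with the mark of the first walk. -/
noncomputable def normCount (P : Measure Ω) (X Y : ℕ → Ω → V) (c : V → Ω → Bool) (ω : Ω) : ℝ :=
  (count X Y c ω - ∫ ω', count X Y c ω' ∂P) / √(ProbabilityTheory.variance (count X Y c) P)

end walks

end Pool.Agent.T2H99.CW
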