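import Pool.Agent.T2H99.CW.F

/-!
The two clique indices driven by the letters.
-/

set_option autoImplicit false
set_option linter.unusedSectionVars false

open MeasureTheory Finset

namespace Pool.Agent.T2H99.CW

variable {B : Type} [Fintype B] [Nonempty B] [MeasurableSpace B] [DiscreteMeasurableSpace B]

namespace Env

variable (E : Env B)

/-- Whether the two walks are on the same side. -/
def kp : ℕ → (ℕ → B) → Bool
  | 0, ω => E.k0 (ω 0)
  | t + 1, ω => if E.sl (ω (t + 1)) then !(kp t ω) else kp t ω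

/-- The last single step. -/
def lam : ℕ → (ℕ → B) → ℕ
  | 0, _ => 0
  | t + 1, ω => if E.sl (ω (t + 1)) then t + 1 else lam t ω

/-- The parity of the number of double steps since the last single step. -/
def ze : ℕ → (ℕ → B) → ℝ
  | 0, _ => 1
  | t + 1, ω => if E.sl (ω (t + 1)) then 1 else if E.bt (ω (t + 1)) then - ze t ω else ze t ω

/-- The side of the first walk. -/
def sm (t : ℕ) (ω : ℕ → B) : ℝ := E.ze t ω * E.sg (ω (E.lam t ω))

/-- Half of the sum of the sides. -/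
def v (t : ℕ) (ω : ℕ → B) : ℝ := if E.kp t ω then E.sm t ω else 0

/-- Half of the difference of the sides. -/
def u (t : ℕ) (ω : ℕ → B) : ℝ := if E.kp t ω then 0 else E.sm t ω

/-- The accumulated time difference. -/
def R (t : ℕ) (ω : ℕ → B) : ℝ := ∑ s ∈ range t, E.v s ω

/-- The coefficient of the sign number `i` in `R t`. -/
def ell (i t : ℕ) (ω : ℕ → B) : ℝ :=
  ∑ s ∈ range t, if E.lam s ω = i ∧ E.kp s ω = true then E.ze s ω else 0

/-- The weighted length of the odd period which starts at `j`. -/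
def zz (h : ℝ) (K j : ℕ) (ω : ℕ → B) : ℝ :=
  ∑ s ∈ range K, if E.lam s ω = j ∧ E.kp s ω = false then E.ze s ω * (1 - h) ^ s else 0

lemma sm_succ (t : ℕ) (ω : ℕ → B) : E.sm (t + 1) ω =
    if E.sl (ω (t + 1)) then E.sg (ω (t + 1)) else if E.bt (ω (t + 1)) then - E.sm t ω
      else E.sm t ω := by
  unfold sm
  rw [ze, lam]
  split_ifs <;> ring

lemma sm_zero (ω : ℕ → B) : E.sm 0 ω = E.sg (ω 0) := by
  simp [sm, ze, lam]

lemma ze_pm (t : ℕ) (ω : ℕ → B) : E.ze t ω = 1 ∨ E.ze t ω = -1 := by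
  induction t with
  | zero => left; rfl
  | succ t ih =>
    rw [ze]
    split_ifs
    · left; rfl
    · rcases ih with h | h <;> rw [h] <;> norm_num
    · exact ih

lemma sm_pm (t : ℕ) (ω : ℕ → B) : E.sm t ω = 1 ∨ E.sm t ω = -1 := by
  unfold sm
  rcases E.ze_pm t ω with h | h <;> rcases E.sg_pm (ω (E.lam t ω)) with h' | h' <;>
    rw [h, h'] <;> norm_num

lemma lam_le (t : ℕ) (ω : ℕ → B) : E.lam t ω ≤ t := by
  induction t with
  | zero => exact le_refl _
  | succ t ih =>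
    rw [lam]
    split_ifs
    · exact le_refl _
    · omega

lemma lam_succ_le (t : ℕ) (ω : ℕ → B) : E.lam t ω ≤ E.lam (t + 1) ω := by
  rw [lam]
  split_ifs
  · exact (E.lam_le t ω).trans (Nat.le_succ _)
  · exact le_refl _

lemma lam_mono {s t : ℕ} (h : s ≤ t) (ω : ℕ → B) : E.lam s ω ≤ E.lam t ω :=
  monotone_nat_of_le_succ (f := fun t => E.lam t ω) (fun t => E.lam_succ_le t ω) h

lemma lam_lam (t : ℕ) (ω : ℕ → B) : E.lam (E.lam t ω) ω = E.lam t ω := by
  induction t with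
  | zero => rfl
  | succ t ih =>
    rw [lam]
    split_ifs with h
    · rw [lam, if_pos h]
    · exact ih

lemma kp_lam (t : ℕ) (ω : ℕ → B) : E.kp (E.lam t ω) ω = E.kp t ω := by
  induction t with
  | zero => rfl
  | succ t ih =>
    rw [lam]
    split_ifs with h
    · rfl
    · rw [ih, kp, if_neg h]

lemma kp_eq {s i : ℕ} {ω : ℕ → B} (h : E.lam s ω = i) : E.kp i ω = E.kp s ω := by
  rw [← h, kp_lam]

lemma R_succ (t : ℕ) (ω : ℕ → B) : E.R (t + 1) ω = E.R t ω + E.v t ω := by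
  unfold R; rw [sum_range_succ]

lemma R_lam {t : ℕ} {ω : ℕ → B} (h : E.kp t ω = false) : E.R t ω = E.R (E.lam t ω) ω := by
  induction t with
  | zero => rfl
  | succ t ih =>
    rw [lam]
    split_ifs with h1
    · rfl
    · have h2 : E.kp t ω = false := by
        rw [kp, if_neg h1] at h
        exact h
      rw [R_succ, ih h2, v, h2]
      simp

lemma R_eq (t : ℕ) (ω : ℕ → B) : E.R t ω = ∑ i ∈ range t, E.sg (ω i) * E.ell i t ω := by
  unfold R ell
  simp only [mul_sum]
  rw [sum_comm]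
  refine sum_congr rfl fun s hs => ?_
  have hs' := mem_range.1 hs
  have hl : E.lam s ω ∈ range t := mem_range.2 (lt_of_le_of_lt (E.lam_le s ω) hs')
  rw [sum_eq_single_of_mem _ hl]
  · unfold v sm
    cases E.kp s ω <;> simp [mul_comm]
  · intro i _ hi
    rw [if_neg (fun h => hi h.1.symm), mul_zero]

lemma R_eq' {t K : ℕ} (h : t ≤ K) (ω : ℕ → B) :
    E.R t ω = ∑ i ∈ range K, E.sg (ω i) * E.ell i t ω := by
  rw [R_eq]
  refine sum_subset (range_subset_range.2 h) fun i _ hi => ?_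
  have hi' : t ≤ i := by simpa using hi
  unfold ell
  rw [sum_eq_zero, mul_zero]
  intro s hs
  have hs' := mem_range.1 hs
  rw [if_neg]
  intro hh
  have := E.lam_le s ω
  omega

lemma ell_zero {i : ℕ} {ω : ℕ → B} (h : E.kp i ω = false) (t : ℕ) : E.ell i t ω = 0 := by
  unfold ell
  refine sum_eq_zero fun s _ => ?_
  rw [if_neg]
  rintro ⟨h1, h2⟩
  rw [← E.kp_eq h1, h] at h2
  exact absurd h2 (by simp)

lemma zz_zero {j : ℕ} {ω : ℕ → B} (hj : E.kp j ω = true) (h : ℝ) (K : ℕ) :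
    E.zz h K j ω = 0 := by
  unfold zz
  refine sum_eq_zero fun s _ => ?_
  rw [if_neg]
  rintro ⟨h1, h2⟩
  rw [← E.kp_eq h1, hj] at h2
  exact absurd h2 (by simp)

/-- The main term. -/
noncomputable def Q (h θ : ℝ) (K : ℕ) (ω : ℕ → B) : ℝ :=
  ∑ s ∈ range K, E.u s ω * (-2 * (1 - h) ^ s * Real.sinh (θ * E.R s ω))

/-- The coefficients of the odd signs. -/
noncomputable def aa (h θ : ℝ) (K j : ℕ) (ω : ℕ → B) : ℝ :=
  E.zz h K j ω * (-2 * Real.sinh (θ * E.R j ω))

lemma Q_eq (h θ : ℝ) (K : ℕ) (ω : ℕ → B) :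
    E.Q h θ K ω = ∑ j ∈ range K, E.sg (ω j) * E.aa h θ K j ω := by
  unfold Q aa zz
  simp only [sum_mul, mul_sum]
  rw [sum_comm]
  refine sum_congr rfl fun s hs => ?_
  have hs' := mem_range.1 hs
  have hl : E.lam s ω ∈ range K := mem_range.2 (lt_of_le_of_lt (E.lam_le s ω) hs')
  rw [sum_eq_single_of_mem _ hl]
  · unfold u sm
    cases hk : E.kp s ω
    · rw [E.R_lam hk]
      simp
      ring
    · simp
  · intro i _ hi
    rw [if_neg (fun h => hi h.1.symm), zero_mul, mul_zero]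

/-! Dependence. -/

lemma dep_kp (t : ℕ) : Dep (t + 1) (E.kp t) := by
  induction t with
  | zero =>
    intro ω ω' h
    simp only [kp, h 0 (by omega)]
  | succ t ih =>
    intro ω ω' h
    simp only [kp, h (t + 1) (by omega), ih ω ω' fun i hi => h i (by omega)]

lemma dep_lam (t : ℕ) : Dep (t + 1) (E.lam t) := by
  induction t with
  | zero =>
    intro ω ω' h
    simp only [lam]
  | succ t ih =>
    intro ω ω' h
    simp only [lam, h (t + 1) (by omega), ih ω ω' fun i hi => h i (by omega)]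

lemma dep_ze (t : ℕ) : Dep (t + 1) (E.ze t) := by
  induction t with
  | zero =>
    intro ω ω' h
    simp only [ze]
  | succ t ih =>
    intro ω ω' h
    simp only [ze, h (t + 1) (by omega), ih ω ω' fun i hi => h i (by omega)]

lemma dep_sm (t : ℕ) : Dep (t + 1) (E.sm t) := by
  intro ω ω' h
  have := E.lam_le t ω'
  simp only [sm, E.dep_ze t ω ω' h, E.dep_lam t ω ω' h, h (E.lam t ω') (by omega)]

lemma dep_v (t : ℕ) : Dep (t + 1) (E.v t) := by
  intro ω ω' h
  simp only [v, E.dep_kp t ω ω' h, E.dep_sm t ω ω' h]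

lemma dep_u (t : ℕ) : Dep (t + 1) (E.u t) := by
  intro ω ω' h
  simp only [u, E.dep_kp t ω ω' h, E.dep_sm t ω ω' h]

lemma dep_R (t : ℕ) : Dep t (E.R t) :=
  dep_sum _ fun s hs => (E.dep_v s).mono (by have := mem_range.1 hs; omega)

lemma dep_ell (i t : ℕ) : Dep t (E.ell i t) :=
  dep_sum _ fun s hs => by
    have hs' := mem_range.1 hs
    exact ((E.dep_lam s).mono (by omega)).comp₃ ((E.dep_kp s).mono (by omega))
      ((E.dep_ze s).mono (by omega)) fun (a : ℕ) (b : Bool) (c : ℝ) =>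
        if a = i ∧ b = true then c else 0

lemma dep_zz (h : ℝ) (K j : ℕ) : Dep K (E.zz h K j) :=
  dep_sum _ fun s hs => by
    have hs' := mem_range.1 hs
    exact ((E.dep_lam s).mono (by omega)).comp₃ ((E.dep_kp s).mono (by omega))
      ((E.dep_ze s).mono (by omega)) fun (a : ℕ) (b : Bool) (c : ℝ) =>
        if a = j ∧ b = false then c * (1 - h) ^ s else 0

lemma dep_aa (h θ : ℝ) {K j : ℕ} (hj : j ≤ K) : Dep K (E.aa h θ K j) :=
  (E.dep_zz h K j).comp₂ ((E.dep_R j).mono hj) fun x y => x * (-2 * Real.sinh (θ * y))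

/-! Flips. -/

section flips

variable (p : ℕ → Prop) [DecidablePred p] (ω : ℕ → B)

lemma sl_flp (j : ℕ) : E.sl (E.flp p ω j) = E.sl (ω j) := by
  rw [flp_apply]; split_ifs
  · exact E.sl_fl _
  · rfl

lemma bt_flp (j : ℕ) : E.bt (E.flp p ω j) = E.bt (ω j) := by
  rw [flp_apply]; split_ifs
  · exact E.bt_fl _
  · rfl

lemma k0_flp (j : ℕ) : E.k0 (E.flp p ω j) = E.k0 (ω j) := by
  rw [flp_apply]; split_ifs
  · exact E.k0_fl _
  · rfl

lemma kp_flp (t : ℕ) : E.kp t (E.flp p ω) = E.kp t ω := by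
  induction t with
  | zero => simp only [kp, k0_flp]
  | succ t ih => simp only [kp, sl_flp, ih]

lemma lam_flp (t : ℕ) : E.lam t (E.flp p ω) = E.lam t ω := by
  induction t with
  | zero => rfl
  | succ t ih => simp only [lam, sl_flp, ih]

lemma ze_flp (t : ℕ) : E.ze t (E.flp p ω) = E.ze t ω := by
  induction t with
  | zero => rfl
  | succ t ih => simp only [ze, sl_flp, bt_flp, ih]

lemma ell_flp (i t : ℕ) : E.ell i t (E.flp p ω) = E.ell i t ω := by
  unfold ell
  simp only [kp_flp, lam_flp, ze_flp]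

lemma zz_flp (h : ℝ) (K j : ℕ) : E.zz h K j (E.flp p ω) = E.zz h K j ω := by
  unfold zz
  simp only [kp_flp, lam_flp, ze_flp]

end flips

lemma R_fla {i : ℕ} {ω : ℕ → B} (h : E.kp i ω = false) (t : ℕ) :
    E.R t (E.fla i ω) = E.R t ω := by
  rw [R_eq, R_eq]
  refine sum_congr rfl fun j _ => ?_
  have h1 : E.ell j t (E.fla i ω) = E.ell j t ω := E.ell_flp _ _ _ _
  rw [h1]
  by_cases hj : j = i
  · rw [hj, E.ell_zero h, mul_zero, mul_zero]
  · rw [E.fla_ne ω hj]

lemma aa_fla (h θ : ℝ) {K i : ℕ} {ω : ℕ → B} (hi : E.aa h θ K i ω ≠ 0) (j : ℕ) :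
    E.aa h θ K j (E.fla i ω) = E.aa h θ K j ω := by
  have hk : E.kp i ω = false := by
    by_contra hc
    have hc' : E.kp i ω = true := by simpa using hc
    apply hi
    unfold aa
    rw [E.zz_zero hc', zero_mul]
  unfold aa
  have h1 : E.zz h K j (E.fla i ω) = E.zz h K j ω := E.zz_flp _ _ _ _ _
  rw [h1, E.R_fla hk]

/-- The characteristic function of the main term. -/
theorem cos_Q (h θ c : ℝ) (K : ℕ) :
    ∫ ω, Real.cos (c * E.Q h θ K ω) ∂PP B =
      ∫ ω, ∏ j ∈ range K, Real.cos (c * E.aa h θ K j ω) ∂PP B := by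
  rw [← E.cos_formula (fun j ω => c * E.aa h θ K j ω)
    (fun j hj => (E.dep_aa h θ hj.le).comp fun x => c * x)]
  · congr 1
    funext ω
    rw [Q_eq, mul_sum]
    congr 1
    refine sum_congr rfl fun j _ => ?_
    ring
  · intro i _ ω hi j _
    rw [E.aa_fla h θ (fun h0 => hi (by rw [h0, mul_zero])) j]

end Env

end Pool.Agent.T2H99.CW
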