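import Pool.Agent.T2H99.CW.U

/-!
Letters which carry a sign: Khinchine's inequalities and a product formula.
-/

set_option autoImplicit false
set_option linter.unusedSectionVars false

open MeasureTheory Finset

namespace Pool.Agent.T2H99.CW

/-- A finite alphabet whose letters carry a type and an independent symmetric sign. -/
structure Env (B : Type) [Fintype B] where
  fl : Equiv.Perm B
  sl : B → Bool
  bt : B → Bool
  k0 : B → Bool
  sg : B → ℝ
  q : ℝ
  fl_fl : ∀ b, fl (fl b) = b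
  sg_fl : ∀ b, sg (fl b) = - sg b
  sl_fl : ∀ b, sl (fl b) = sl b
  bt_fl : ∀ b, bt (fl b) = bt b
  k0_fl : ∀ b, k0 (fl b) = k0 b
  sg_pm : ∀ b, sg b = 1 ∨ sg b = -1
  sl_bt : ∀ b, ¬ (sl b = true ∧ bt b = true)
  q_pos : 0 < q
  q_le : q ≤ 1 / 4
  avg : ∀ f : Bool → Bool → ℝ → ℝ, (∑ b, f (sl b) (bt b) (sg b)) / Fintype.card B =
    ((1 - q) ^ 2 * (f false false 1 + f false false (-1)) +
      2 * q * (1 - q) * (f true false 1 + f true false (-1)) +
      q ^ 2 * (f false true 1 + f false true (-1))) / 2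

variable {B : Type} [Fintype B] [Nonempty B] [MeasurableSpace B] [DiscreteMeasurableSpace B]

namespace Env

variable (E : Env B)

lemma sg_sq (b : B) : E.sg b ^ 2 = 1 := by
  rcases E.sg_pm b with h | h <;> rw [h] <;> norm_num

/-- Flip the signs with index in a set. -/
def flp (p : ℕ → Prop) [DecidablePred p] : (ℕ → B) → ℕ → B :=
  act fun j => if p j then E.fl else Equiv.refl B

/-- Flip the sign number `i`. -/
def fla (i : ℕ) : (ℕ → B) → ℕ → B := E.flp (fun j => j = i)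

lemma flp_apply (p : ℕ → Prop) [DecidablePred p] (ω : ℕ → B) (j : ℕ) :
    E.flp p ω j = if p j then E.fl (ω j) else ω j := by
  by_cases h : p j <;> simp [flp, act, h]

lemma sg_flp (p : ℕ → Prop) [DecidablePred p] (ω : ℕ → B) (j : ℕ) :
    E.sg (E.flp p ω j) = if p j then - E.sg (ω j) else E.sg (ω j) := by
  rw [flp_apply]
  split_ifs
  · exact E.sg_fl _
  · rfl

lemma fla_same (ω : ℕ → B) (i : ℕ) : E.sg (E.fla i ω i) = - E.sg (ω i) := by
  unfold fla; rw [sg_flp, if_pos rfl]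

lemma fla_ne (ω : ℕ → B) {i j : ℕ} (h : j ≠ i) : E.sg (E.fla i ω j) = E.sg (ω j) := by
  unfold fla; rw [sg_flp, if_neg h]

lemma fla_fla (ω : ℕ → B) (i : ℕ) : E.fla i (E.fla i ω) = ω := by
  funext j
  unfold fla
  rw [flp_apply, flp_apply]
  split_ifs
  · exact E.fl_fl _
  · rfl

lemma dep_flp {α : Type} {k : ℕ} {F : (ℕ → B) → α} (hF : Dep k F) (p : ℕ → Prop)
    [DecidablePred p] : Dep k fun ω => F (E.flp p ω) := hF.act _

lemma integral_flp {k : ℕ} {F : (ℕ → B) → ℝ} (hF : Dep k F) (p : ℕ → Prop) [DecidablePred p] :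
    ∫ ω, F (E.flp p ω) ∂PP B = ∫ ω, F ω ∂PP B := integral_act _ hF.measurable

lemma integral_fla {k : ℕ} {F : (ℕ → B) → ℝ} (hF : Dep k F) (i : ℕ) :
    ∫ ω, F ω ∂PP B = ∫ ω, (F ω + F (E.fla i ω)) / 2 ∂PP B := by
  have h1 : ∫ ω, F (E.fla i ω) ∂PP B = ∫ ω, F ω ∂PP B := integral_flp E hF _
  have h2 : Integrable (fun ω => F (E.fla i ω)) (PP B) := (E.dep_flp hF _).integrable
  rw [integral_div, integral_add hF.integrable h2, h1]
  ring

lemma dep_sg {i k : ℕ} (h : i < k) : Dep k fun ω : ℕ → B => E.sg (ω i) := dep_coord E.sg h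

theorem khin2 {K : ℕ} (J : Finset ℕ) (hJ : ∀ j ∈ J, j < K) (c : ℕ → (ℕ → B) → ℝ)
    (hc : ∀ j ∈ J, Dep K (c j)) (hcf : ∀ i ∈ J, ∀ j ∈ J, ∀ ω, c j (E.fla i ω) = c j ω) :
    ∀ ψ : (ℕ → B) → ℝ, Dep K ψ → (∀ i ∈ J, ∀ ω, ψ (E.fla i ω) = ψ ω) →
    ∫ ω, ψ ω * (∑ j ∈ J, E.sg (ω j) * c j ω) ^ 2 ∂PP B =
      ∫ ω, ψ ω * ∑ j ∈ J, c j ω ^ 2 ∂PP B := by
  classical
  induction J using Finset.induction_on with
  | empty => intro ψ _ _; simp
  | insert a s ha ih =>
    intro ψ hψ hψf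
    have hs : ∀ j ∈ s, j ∈ insert a s := fun j hj => mem_insert_of_mem hj
    have ih' := ih (fun j hj => hJ j (hs j hj)) (fun j hj => hc j (hs j hj))
      (fun i hi j hj => hcf i (hs i hi) j (hs j hj)) ψ hψ (fun i hi => hψf i (hs i hi))
    have haa : a ∈ insert a s := mem_insert_self a s
    have dS : Dep K fun ω : ℕ → B => ∑ j ∈ s, E.sg (ω j) * c j ω :=
      dep_sum _ fun j hj => (E.dep_sg (hJ j (hs j hj))).comp₂ (hc j (hs j hj)) (fun x y => x * y)
    have dV : Dep K fun ω : ℕ → B => ∑ j ∈ s, c j ω ^ 2 :=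
      dep_sum _ fun j hj => (hc j (hs j hj)).comp fun x => x ^ 2
    have dT : Dep K fun ω : ℕ → B => E.sg (ω a) * c a ω :=
      (E.dep_sg (hJ a haa)).comp₂ (hc a haa) (fun x y => x * y)
    have hca := hc a haa
    have hS : ∀ ω, (∑ j ∈ s, E.sg (E.fla a ω j) * c j (E.fla a ω)) =
        ∑ j ∈ s, E.sg (ω j) * c j ω := by
      intro ω
      refine sum_congr rfl fun j hj => ?_
      have : j ≠ a := fun h => ha (h ▸ hj)
      rw [E.fla_ne ω this, hcf a haa j (hs j hj)]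
    have e1 : Dep K fun ω : ℕ → B => ψ ω * (∑ j ∈ insert a s, E.sg (ω j) * c j ω) ^ 2 := by
      simp only [sum_insert ha]
      exact hψ.comp₂ (dT.comp₂ dS fun x y => (x + y) ^ 2) fun x y => x * y
    rw [E.integral_fla e1 a]
    have e2 : ∀ ω, (ψ ω * (∑ j ∈ insert a s, E.sg (ω j) * c j ω) ^ 2 +
        ψ (E.fla a ω) * (∑ j ∈ insert a s, E.sg (E.fla a ω j) * c j (E.fla a ω)) ^ 2) / 2 =
        ψ ω * c a ω ^ 2 + ψ ω * (∑ j ∈ s, E.sg (ω j) * c j ω) ^ 2 := by
      intro ω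
      rw [sum_insert ha, sum_insert ha, hψf a haa, E.fla_same, hcf a haa a haa, hS]
      have := E.sg_sq (ω a)
      linear_combination (ψ ω * c a ω ^ 2) * this
    simp only [e2]
    simp only [sum_insert ha]
    rw [integral_add (hψ.comp₂ hca fun x y => x * y ^ 2).integrable
      (hψ.comp₂ dS fun x y => x * y ^ 2).integrable, ih',
      ← integral_add (hψ.comp₂ hca fun x y => x * y ^ 2).integrable
      (hψ.comp₂ dV fun x y => x * y).integrable]
    congr 1
    funext ω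
    ring

theorem khin4 {K : ℕ} (J : Finset ℕ) (hJ : ∀ j ∈ J, j < K) (c : ℕ → (ℕ → B) → ℝ)
    (hc : ∀ j ∈ J, Dep K (c j)) (hcf : ∀ i ∈ J, ∀ j ∈ J, ∀ ω, c j (E.fla i ω) = c j ω) :
    ∀ ψ : (ℕ → B) → ℝ, Dep K ψ → (∀ ω, 0 ≤ ψ ω) → (∀ i ∈ J, ∀ ω, ψ (E.fla i ω) = ψ ω) →
    ∫ ω, ψ ω * (∑ j ∈ J, E.sg (ω j) * c j ω) ^ 4 ∂PP B ≤
      ∫ ω, ψ ω * (3 * (∑ j ∈ J, c j ω ^ 2) ^ 2) ∂PP B := by
  classical
  induction J using Finset.induction_on with
  | empty => intro ψ _ _ _; simp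
  | insert a s ha ih =>
    intro ψ hψ hψ0 hψf
    have hs : ∀ j ∈ s, j ∈ insert a s := fun j hj => mem_insert_of_mem hj
    have ih' := ih (fun j hj => hJ j (hs j hj)) (fun j hj => hc j (hs j hj))
      (fun i hi j hj => hcf i (hs i hi) j (hs j hj)) ψ hψ hψ0 (fun i hi => hψf i (hs i hi))
    have haa : a ∈ insert a s := mem_insert_self a s
    have dS : Dep K fun ω : ℕ → B => ∑ j ∈ s, E.sg (ω j) * c j ω :=
      dep_sum _ fun j hj => (E.dep_sg (hJ j (hs j hj))).comp₂ (hc j (hs j hj)) (fun x y => x * y)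
    have dV : Dep K fun ω : ℕ → B => ∑ j ∈ s, c j ω ^ 2 :=
      dep_sum _ fun j hj => (hc j (hs j hj)).comp fun x => x ^ 2
    have dT : Dep K fun ω : ℕ → B => E.sg (ω a) * c a ω :=
      (E.dep_sg (hJ a haa)).comp₂ (hc a haa) (fun x y => x * y)
    have hca := hc a haa
    have hS : ∀ ω, (∑ j ∈ s, E.sg (E.fla a ω j) * c j (E.fla a ω)) =
        ∑ j ∈ s, E.sg (ω j) * c j ω := by
      intro ω
      refine sum_congr rfl fun j hj => ?_
      have : j ≠ a := fun h => ha (h ▸ hj)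
      rw [E.fla_ne ω this, hcf a haa j (hs j hj)]
    have e1 : Dep K fun ω : ℕ → B => ψ ω * (∑ j ∈ insert a s, E.sg (ω j) * c j ω) ^ 4 := by
      simp only [sum_insert ha]
      exact hψ.comp₂ (dT.comp₂ dS fun x y => (x + y) ^ 4) fun x y => x * y
    rw [E.integral_fla e1 a]
    have e2 : ∀ ω, (ψ ω * (∑ j ∈ insert a s, E.sg (ω j) * c j ω) ^ 4 +
        ψ (E.fla a ω) * (∑ j ∈ insert a s, E.sg (E.fla a ω j) * c j (E.fla a ω)) ^ 4) / 2 =
        ψ ω * c a ω ^ 4 + (ψ ω * (6 * c a ω ^ 2)) * (∑ j ∈ s, E.sg (ω j) * c j ω) ^ 2 +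
          ψ ω * (∑ j ∈ s, E.sg (ω j) * c j ω) ^ 4 := by
      intro ω
      rw [sum_insert ha, sum_insert ha, hψf a haa, E.fla_same, hcf a haa a haa, hS]
      have := E.sg_sq (ω a)
      have h4 : E.sg (ω a) ^ 4 = 1 := by
        rw [show (4 : ℕ) = 2 * 2 by norm_num, pow_mul, this]; norm_num
      linear_combination (ψ ω * c a ω ^ 4) * h4 +
        (6 * ψ ω * c a ω ^ 2 * (∑ j ∈ s, E.sg (ω j) * c j ω) ^ 2) * this
    have dψ2 : Dep K fun ω => ψ ω * (6 * c a ω ^ 2) := hψ.comp₂ hca fun x y => x * (6 * y ^ 2)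
    have k2 := E.khin2 (K := K) s (fun j hj => hJ j (hs j hj)) c (fun j hj => hc j (hs j hj))
      (fun i hi j hj => hcf i (hs i hi) j (hs j hj)) (fun ω => ψ ω * (6 * c a ω ^ 2)) dψ2
      (fun i hi ω => by rw [hψf i (hs i hi), hcf i (hs i hi) a haa])
    simp only [e2]
    simp only [sum_insert ha]
    rw [integral_add ((hψ.comp₂ hca fun x y => x * y ^ 4).comp₂
        (dψ2.comp₂ dS fun x y => x * y ^ 2) fun x y => x + y).integrable
      (hψ.comp₂ dS fun x y => x * y ^ 4).integrable,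
      integral_add (hψ.comp₂ hca fun x y => x * y ^ 4).integrable
      (dψ2.comp₂ dS fun x y => x * y ^ 2).integrable, k2]
    have h5 : ∫ ω, ψ ω * (3 * (c a ω ^ 2 + ∑ j ∈ s, c j ω ^ 2) ^ 2) ∂PP B =
        ∫ ω, 3 * (ψ ω * c a ω ^ 4) ∂PP B +
        ∫ ω, ψ ω * (6 * c a ω ^ 2) * ∑ j ∈ s, c j ω ^ 2 ∂PP B +
        ∫ ω, ψ ω * (3 * (∑ j ∈ s, c j ω ^ 2) ^ 2) ∂PP B := by
      rw [← integral_add (hψ.comp₂ hca fun x y => 3 * (x * y ^ 4)).integrable
        (dψ2.comp₂ dV fun x y => x * y).integrable,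
        ← integral_add ((hψ.comp₂ hca fun x y => 3 * (x * y ^ 4)).comp₂
        (dψ2.comp₂ dV fun x y => x * y) fun x y => x + y).integrable
        (hψ.comp₂ dV fun x y => x * (3 * y ^ 2)).integrable]
      congr 1
      funext ω
      ring
    rw [h5]
    have h6 : ∫ ω, ψ ω * c a ω ^ 4 ∂PP B ≤ ∫ ω, 3 * (ψ ω * c a ω ^ 4) ∂PP B := by
      refine integral_mono_dep (hψ.comp₂ hca fun x y => x * y ^ 4)
        (hψ.comp₂ hca fun x y => 3 * (x * y ^ 4)) fun ω => ?_
      have : 0 ≤ ψ ω * c a ω ^ 4 := mul_nonneg (hψ0 ω) (by positivity)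
      linarith
    linarith

/-- Averaging over the signs of a sum with predictable coefficients: cosine. -/
theorem cos_formula {K : ℕ} (a : ℕ → (ℕ → B) → ℝ) (ha : ∀ j < K, Dep K (a j))
    (haf : ∀ i < K, ∀ ω, a i ω ≠ 0 → ∀ j < K, a j (E.fla i ω) = a j ω) :
    ∫ ω, Real.cos (∑ j ∈ range K, E.sg (ω j) * a j ω) ∂PP B =
      ∫ ω, ∏ j ∈ range K, Real.cos (a j ω) ∂PP B := by
  have key : ∀ i ≤ K, ∫ ω, Real.cos (∑ j ∈ range K, E.sg (ω j) * a j ω) ∂PP B =
      ∫ ω, Real.cos (∑ j ∈ Ico i K, E.sg (ω j) * a j ω) * ∏ j ∈ range i, Real.cos (a j ω)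
        ∂PP B := by
    intro i
    induction i with
    | zero => intro _; simp
    | succ i ih =>
      intro hi
      rw [ih (by omega)]
      have dC : ∀ i ≤ K, Dep K fun ω : ℕ → B => Real.cos (∑ j ∈ Ico i K, E.sg (ω j) * a j ω) := by
        intro i hi
        refine (dep_sum _ fun j hj => ?_).comp Real.cos
        have hj' := (mem_Ico.1 hj).2
        exact (E.dep_sg hj').comp₂ (ha j hj') fun x y => x * y
      have dP : ∀ i ≤ K, Dep K fun ω : ℕ → B => ∏ j ∈ range i, Real.cos (a j ω) := by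
        intro i hi
        refine dep_prod _ fun j hj => ?_
        have hj' := mem_range.1 hj
        exact (ha j (by omega)).comp Real.cos
      rw [E.integral_fla ((dC i (by omega)).comp₂ (dP i (by omega)) fun x y => x * y) i,
        E.integral_fla ((dC (i + 1) hi).comp₂ (dP (i + 1) hi) fun x y => x * y) i]
      congr 1
      funext ω
      congr 1
      have hiK : i < K := by omega
      have hsplit : ∀ ω : ℕ → B, ∑ j ∈ Ico i K, E.sg (ω j) * a j ω =
          E.sg (ω i) * a i ω + ∑ j ∈ Ico (i + 1) K, E.sg (ω j) * a j ω := by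
        intro ω
        rw [← Finset.sum_Ioo_add_eq_sum_Ico hiK, add_comm]
        congr 1
      by_cases h0 : a i ω = 0
      · have h0' : a i (E.fla i ω) = 0 := by
          by_contra h
          have := haf i hiK _ h i hiK
          rw [E.fla_fla] at this
          exact h (this ▸ h0)
        rw [hsplit, hsplit, h0, h0', prod_range_succ, prod_range_succ, h0, h0']
        simp
      · have hj : ∀ j < K, a j (E.fla i ω) = a j ω := haf i hiK ω h0
        have hp : ∀ i' ≤ K, ∏ j ∈ range i', Real.cos (a j (E.fla i ω)) =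
            ∏ j ∈ range i', Real.cos (a j ω) := fun i' hi' =>
          prod_congr rfl fun j hjj => by
            have := mem_range.1 hjj
            rw [hj j (by omega)]
        have hs : ∑ j ∈ Ico (i + 1) K, E.sg (E.fla i ω j) * a j (E.fla i ω) =
            ∑ j ∈ Ico (i + 1) K, E.sg (ω j) * a j ω :=
          sum_congr rfl fun j hjj => by
            have := mem_Ico.1 hjj
            rw [hj j (by omega), E.fla_ne ω (by omega)]
        rw [hp i (by omega), hp (i + 1) hi, hsplit, hsplit, hs, E.fla_same, hj i hiK,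
          prod_range_succ]
        set A := ∑ j ∈ Ico (i + 1) K, E.sg (ω j) * a j ω
        have : Real.cos (E.sg (ω i) * a i ω + A) + Real.cos (-E.sg (ω i) * a i ω + A) =
            2 * (Real.cos A * Real.cos (a i ω)) := by
          rcases E.sg_pm (ω i) with h | h
          · rw [h, one_mul, neg_one_mul, Real.cos_add, Real.cos_add, Real.cos_neg, Real.sin_neg]
            ring
          · rw [h, neg_neg, one_mul, neg_one_mul, Real.cos_add, Real.cos_add, Real.cos_neg,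
              Real.sin_neg]
            ring
        linear_combination (∏ j ∈ range i, Real.cos (a j ω)) * this
  rw [key K le_rfl]
  simp

end Env

end Pool.Agent.T2H99.CW
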