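import Pool.Agent.T2H99.CW.Defs

/-!
Two cliques joined by a sparse circulant bipartite graph.
-/

set_option autoImplicit false
set_option linter.unusedSectionVars false

open MeasureTheory Finset Filter Topology

namespace Pool.Agent.T2H99.CW

/-- The vertices: two copies of the cyclic group. -/
abbrev VV (N : ℕ) : Type := Bool × ZMod N

/-- The neighbour on the other side with the difference `z`. -/
def crs {N : ℕ} (a : Bool) (x z : ZMod N) : ZMod N := if a then x - z else x + z

/-- Two cliques, joined by the pairs `(x, y)` with `y - x` in `{0, ..., m-1}`. -/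
def gr (N m : ℕ) : SimpleGraph (VV N) where
  Adj p q := (p.1 = q.1 ∧ p.2 ≠ q.2) ∨
    (p.1 = false ∧ q.1 = true ∧ (q.2 - p.2).val < m) ∨
    (p.1 = true ∧ q.1 = false ∧ (p.2 - q.2).val < m)
  symm := by
    constructor
    rintro p q (⟨h1, h2⟩ | ⟨h1, h2, h3⟩ | ⟨h1, h2, h3⟩)
    · exact Or.inl ⟨h1.symm, h2.symm⟩
    · exact Or.inr (Or.inr ⟨h2, h1, h3⟩)
    · exact Or.inr (Or.inl ⟨h2, h1, h3⟩)
  loopless := by
    constructor
    rintro p (⟨h1, h2⟩ | ⟨h1, h2, h3⟩ | ⟨h1, h2, h3⟩)
    · exact h2 rfl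
    · rw [h1] at h2; exact absurd h2 (by simp)
    · rw [h1] at h2; exact absurd h2 (by simp)

variable {N m : ℕ} [NeZero N]

lemma adj_same (a : Bool) (x y : ZMod N) : (gr N m).Adj (a, x) (a, y) ↔ x ≠ y := by
  cases a <;> simp [gr]

lemma adj_cross (a : Bool) (x z : ZMod N) :
    (gr N m).Adj (a, x) (!a, crs a x z) ↔ z.val < m := by
  cases a <;> simp [gr, crs]

/-- The degree. -/
def dg (N m : ℕ) : ℕ := N - 1 + m

/-- The probability of a given neighbour. -/
noncomputable def hs (N m : ℕ) : ℝ := 1 / (2 * dg N m)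

lemma card_val_lt (hm : m ≤ N) : #{z : ZMod N | z.val < m} = m := by
  have : #{z : ZMod N | z.val < m} = #(range m) := by
    refine card_nbij' (fun z => z.val) (fun i => (i : ZMod N)) ?_ ?_ ?_ ?_
    · intro z hz
      have := (mem_filter.1 hz).2
      exact mem_coe.2 (mem_range.2 this)
    · intro i hi
      have := mem_range.1 (mem_coe.1 hi)
      refine mem_coe.2 (mem_filter.2 ⟨mem_univ _, ?_⟩)
      rw [ZMod.val_natCast, Nat.mod_eq_of_lt (by omega)]
      exact this
    · intro z _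
      exact ZMod.natCast_zmod_val z
    · intro i hi
      have := mem_range.1 (mem_coe.1 hi)
      simp only
      rw [ZMod.val_natCast, Nat.mod_eq_of_lt (by omega)]
  rw [this, card_range]

lemma card_ne_zero : #{z : ZMod N | z ≠ 0} = N - 1 := by
  rw [filter_ne', card_erase_of_mem (mem_univ _), card_univ, ZMod.card]

lemma sum_crs (a : Bool) (x : ZMod N) (φ : ZMod N → ℝ) : ∑ z, φ (crs a x z) = ∑ y, φ y := by
  cases a
  · simp only [crs]
    exact Equiv.sum_comp (Equiv.addLeft x) φ
  · simp only [crs]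
    exact Equiv.sum_comp (Equiv.subLeft x) φ

lemma sum_add (x : ZMod N) (φ : ZMod N → ℝ) : ∑ z, φ (x + z) = ∑ y, φ y :=
  Equiv.sum_comp (Equiv.addLeft x) φ

lemma sum_VV (a : Bool) (φ : VV N → ℝ) : ∑ q, φ q = ∑ y, φ (a, y) + ∑ y, φ (!a, y) := by
  rw [Fintype.sum_prod_type, Fintype.sum_bool]
  cases a
  · rw [add_comm]; rfl
  · rfl

open scoped Classical in
lemma sum_adj (a : Bool) (x : ZMod N) (φ : VV N → ℝ) :
    ∑ q, (if (gr N m).Adj (a, x) q then φ q else 0) =
      ∑ z with z ≠ 0, φ (a, x + z) + ∑ z with z.val < m, φ (!a, crs a x z) := by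
  rw [sum_VV a, sum_filter, sum_filter]
  have e1 := sum_add x (fun y => if (gr N m).Adj (a, x) (a, y) then φ (a, y) else 0)
  have e2 := sum_crs a x (fun y => if (gr N m).Adj (a, x) (!a, y) then φ (!a, y) else 0)
  rw [← e1, ← e2]
  congr 1
  · refine sum_congr rfl fun z _ => ?_
    simp only [adj_same]
    by_cases h : z = 0
    · simp [h]
    · have : x ≠ x + z := by simpa using h
      simp [h]
  · refine sum_congr rfl fun z _ => ?_
    simp only [adj_cross]

open scoped Classical in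
lemma ncard_nb (hm : m ≤ N) (p : VV N) : ((gr N m).neighborSet p).ncard = dg N m := by
  obtain ⟨a, x⟩ := p
  have h := sum_adj (m := m) a x (fun _ => 1)
  simp only [sum_const, nsmul_eq_mul, mul_one, sum_boole] at h
  rw [card_val_lt hm, card_ne_zero] at h
  have h2 : ((gr N m).neighborSet (a, x)).ncard = #{q | (gr N m).Adj (a, x) q} := by
    rw [Set.ncard_eq_toFinset_card']
    congr 1
    ext q
    simp
  rw [h2]
  unfold dg
  exact_mod_cast h

lemma lazy_self (p : VV N) : lazy (gr N m) p p = 1 / 2 := by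
  unfold lazy; rw [if_pos rfl]

open scoped Classical in
lemma lazy_ne (hm : m ≤ N) {p q : VV N} (h : p ≠ q) : lazy (gr N m) p q =
    if (gr N m).Adj p q then hs N m else 0 := by
  unfold lazy hs
  rw [if_neg h, ncard_nb hm]

lemma hs_nonneg : 0 ≤ hs N m := by unfold hs; positivity

lemma lazy_nonneg (hm : m ≤ N) (p q : VV N) : 0 ≤ lazy (gr N m) p q := by
  classical
  by_cases h : p = q
  · rw [h, lazy_self]; norm_num
  · rw [lazy_ne hm h]
    split_ifs
    · exact hs_nonneg
    · exact le_refl _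

lemma lazy_le (hm : m ≤ N) {p q : VV N} (h : p ≠ q) : lazy (gr N m) p q ≤ hs N m := by
  classical
  rw [lazy_ne hm h]
  split_ifs
  · exact le_refl _
  · exact hs_nonneg

lemma lazy_symm (hm : m ≤ N) (p q : VV N) : lazy (gr N m) p q = lazy (gr N m) q p := by
  classical
  by_cases h : p = q
  · rw [h]
  · rw [lazy_ne hm h, lazy_ne hm (Ne.symm h), (gr N m).adj_comm]

/-- The average after one step. -/
noncomputable def E1 (N m : ℕ) [NeZero N] (φ : VV N → ℝ) (p : VV N) : ℝ :=
  ∑ q, lazy (gr N m) p q * φ q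

open scoped Classical in
lemma E1_eq (hm : m ≤ N) (φ : VV N → ℝ) (a : Bool) (x : ZMod N) :
    E1 N m φ (a, x) = 1 / 2 * φ (a, x) + hs N m * (∑ z with z ≠ 0, φ (a, x + z) +
      ∑ z with z.val < m, φ (!a, crs a x z)) := by
  unfold E1
  rw [← sum_adj (m := m) a x φ, mul_sum]
  have h1 : ∀ q, lazy (gr N m) (a, x) q * φ q = (if q = (a, x) then 1 / 2 * φ q else 0) +
      hs N m * (if (gr N m).Adj (a, x) q then φ q else 0) := by
    intro q
    by_cases h : q = (a, x)
    · rw [h, lazy_self]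
      simp
    · rw [lazy_ne hm (Ne.symm h), if_neg h]
      split_ifs <;> ring
  rw [sum_congr rfl fun q _ => h1 q, sum_add_distrib, sum_ite_eq']
  simp

lemma sum_ne_zero (x : ZMod N) (φ : ZMod N → ℝ) :
    ∑ z with z ≠ 0, φ (x + z) = ∑ y, φ y - φ x := by
  classical
  rw [← sum_add x φ, filter_ne', ← sum_erase_add univ (fun z => φ (x + z)) (mem_univ 0)]
  simp

lemma dg_cast : (dg N m : ℝ) = N - 1 + m := by
  unfold dg
  have : 1 ≤ N := NeZero.one_le
  rw [Nat.cast_add, Nat.cast_sub this]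
  simp

lemma dg_pos (hm : 0 < m) : 0 < dg N m := by unfold dg; omega

lemma hs_pos (hm : 0 < m) : 0 < hs N m := by
  unfold hs
  have : (0 : ℝ) < dg N m := by exact_mod_cast dg_pos hm
  positivity

lemma hs_mul (hm : 0 < m) : hs N m * (N - 1 + m) = 1 / 2 := by
  unfold hs
  rw [← dg_cast]
  have : (0 : ℝ) < dg N m := by exact_mod_cast dg_pos hm
  field_simp

lemma E1_const (hm : m ≤ N) (hm0 : 0 < m) (c : ℝ) (p : VV N) : E1 N m (fun _ => c) p = c := by
  classical
  obtain ⟨a, x⟩ := p
  rw [E1_eq hm]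
  simp only [sum_const, nsmul_eq_mul]
  rw [card_val_lt hm, card_ne_zero, Nat.cast_sub NeZero.one_le]
  have := hs_mul (N := N) hm0
  push_cast
  linear_combination c * this

lemma E1_mono (hm : m ≤ N) {φ ψ : VV N → ℝ} (h : ∀ q, φ q ≤ ψ q) (p : VV N) :
    E1 N m φ p ≤ E1 N m ψ p :=
  sum_le_sum fun q _ => mul_le_mul_of_nonneg_left (h q) (lazy_nonneg hm p q)

lemma trans_gr : VertexTransitive (gr N m) := by
  rintro ⟨a, x⟩ ⟨b, y⟩
  by_cases hab : a = b
  · let e : VV N ≃ VV N := Equiv.prodCongr (Equiv.refl Bool) (Equiv.addRight (y - x))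
    refine ⟨⟨e, ?_⟩, ?_⟩
    · rintro ⟨a', x'⟩ ⟨b', y'⟩
      simp [gr, e]
    · simp [e, hab]
  · let e : VV N ≃ VV N := Equiv.prodCongr Equiv.boolNot (Equiv.subLeft (y + x))
    refine ⟨⟨e, ?_⟩, ?_⟩
    · rintro ⟨a', x'⟩ ⟨b', y'⟩
      cases a' <;> cases b' <;> simp [gr, e]
    · have : (!a) = b := by cases a <;> cases b <;> simp_all
      simp [e, this]

lemma conn_gr (hm : 0 < m) : (gr N m).Connected := by
  have h1 : ∀ (a : Bool) (x y : ZMod N), (gr N m).Reachable (a, x) (a, y) := by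
    intro a x y
    by_cases h : x = y
    · rw [h]
    · exact ((adj_same a x y).2 h).reachable
  have h2 : ∀ (a : Bool) (x : ZMod N), (gr N m).Reachable (a, x) (!a, x) := by
    intro a x
    have h := (adj_cross (m := m) a x 0).2 (by simpa using hm)
    have e : crs a x 0 = x := by unfold crs; split_ifs <;> simp
    rw [e] at h
    exact h.reachable
  refine ⟨?_⟩
  rintro ⟨a, x⟩ ⟨b, y⟩
  by_cases h : a = b
  · rw [h]; exact h1 b x y
  · have : (!a) = b := by cases a <;> cases b <;> simp_all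
    have h3 := (h2 a x).trans (h1 (!a) x y)
    rwa [this] at h3

end Pool.Agent.T2H99.CW
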