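import Pool.Agent.T2H99.CW.G

/-!
The mixing time, the Green function and the hitting probabilities of the graphs.
-/

set_option autoImplicit false
set_option linter.unusedSectionVars false

open MeasureTheory Finset Filter Topology

namespace Pool.Agent.T2H99.CW

section paths

variable {V : Type} [Fintype V]

/-- The sum of a functional over the trajectories from `x`. -/
noncomputable def PS (G : SimpleGraph V) (T : ℕ) (φ : (Fin (T + 1) → V) → ℝ) (x : V) : ℝ := by
  classical
  exact ∑ w : Fin (T + 1) → V, if w 0 = x then φ w * ∏ i : Fin T, lazy G (w i.castSucc) (w i.succ)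
    else 0

lemma PS_succ (G : SimpleGraph V) (T : ℕ) (φ : (Fin (T + 2) → V) → ℝ) (x : V) :
    PS G (T + 1) φ x = ∑ z, lazy G x z * PS G T (fun w => φ (Fin.cons x w)) z := by
  classical
  unfold PS
  rw [← Equiv.sum_comp (Fin.consEquiv fun _ : Fin (T + 2) => V), Fintype.sum_prod_type]
  have h1 : ∀ (a : V) (w : Fin (T + 1) → V),
      (if (Fin.consEquiv fun _ : Fin (T + 2) => V) (a, w) 0 = x then
        φ ((Fin.consEquiv fun _ : Fin (T + 2) => V) (a, w)) *
        ∏ i : Fin (T + 1), lazy G ((Fin.consEquiv fun _ : Fin (T + 2) => V) (a, w) i.castSucc)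
          ((Fin.consEquiv fun _ : Fin (T + 2) => V) (a, w) i.succ) else 0) =
      if a = x then φ (Fin.cons x w) * (lazy G x (w 0) *
        ∏ i : Fin T, lazy G (w i.castSucc) (w i.succ)) else 0 := by
    intro a w
    have e1 : (Fin.consEquiv fun _ : Fin (T + 2) => V) (a, w) = Fin.cons a w := rfl
    rw [e1, Fin.cons_zero]
    by_cases h : a = x
    · rw [if_pos h, if_pos h, h, Fin.prod_univ_succ]
      congr 1
    · rw [if_neg h, if_neg h]
  rw [sum_congr rfl fun a _ => sum_congr rfl fun w _ => h1 a w]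
  rw [sum_comm]
  simp only [sum_ite_eq', mem_univ, if_true]
  simp only [mul_sum]
  rw [sum_comm]
  refine sum_congr rfl fun w _ => ?_
  simp only [mul_ite, mul_zero]
  rw [sum_ite_eq]
  simp only [mem_univ, if_true]
  ring

open scoped Classical in
/-- The indicator of a visit to `y` or `z`. -/
noncomputable def hitInd (T : ℕ) (y z : V) (w : Fin (T + 1) → V) : ℝ :=
  if ∃ i, w i = y ∨ w i = z then 1 else 0

lemma hitProb_eq (G : SimpleGraph V) (T : ℕ) (x y z : V) : hitProb G T x y z =
    PS G T (hitInd T y z) x := by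
  classical
  unfold hitProb PS hitInd
  refine sum_congr rfl fun w _ => ?_
  by_cases h1 : w 0 = x
  · by_cases h2 : ∃ i, w i = y ∨ w i = z
    · rw [if_pos ⟨h1, h2⟩, if_pos h1, if_pos h2, one_mul]
    · rw [if_neg (fun h => h2 h.2), if_pos h1, if_neg h2, zero_mul]
  · rw [if_neg (fun h => h1 h.1), if_neg h1]

lemma PS_mono {G : SimpleGraph V} (h0 : ∀ x y, 0 ≤ lazy G x y) (T : ℕ)
    {φ ψ : (Fin (T + 1) → V) → ℝ} (h : ∀ w, φ w ≤ ψ w) (x : V) : PS G T φ x ≤ PS G T ψ x := by
  classical
  unfold PS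
  refine sum_le_sum fun w _ => ?_
  split_ifs
  · exact mul_le_mul_of_nonneg_right (h w) (prod_nonneg fun _ _ => h0 _ _)
  · exact le_refl _

lemma PS_add (G : SimpleGraph V) (T : ℕ) (φ ψ : (Fin (T + 1) → V) → ℝ) (x : V) :
    PS G T (fun w => φ w + ψ w) x = PS G T φ x + PS G T ψ x := by
  classical
  unfold PS
  rw [← sum_add_distrib]
  refine sum_congr rfl fun w _ => ?_
  split_ifs <;> ring

lemma PS_mul (G : SimpleGraph V) (T : ℕ) (c : ℝ) (φ : (Fin (T + 1) → V) → ℝ) (x : V) :
    PS G T (fun w => c * φ w) x = c * PS G T φ x := by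
  classical
  unfold PS
  rw [mul_sum]
  refine sum_congr rfl fun w _ => ?_
  split_ifs <;> ring

lemma PS_one {G : SimpleGraph V} (h1 : ∀ x, ∑ z, lazy G x z = 1) (T : ℕ) (x : V) :
    PS G T (fun _ => 1) x = 1 := by
  classical
  induction T generalizing x with
  | zero =>
    unfold PS
    simp only [univ_eq_empty, prod_empty, mul_one]
    rw [← Equiv.sum_comp (Equiv.funUnique (Fin 1) V).symm]
    simp
  | succ T ih =>
    rw [PS_succ]
    simp only [ih, mul_one]
    exact h1 x

lemma hit_le {G : SimpleGraph V} (h0 : ∀ x y, 0 ≤ lazy G x y) (h1 : ∀ x, ∑ z, lazy G x z = 1)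
    (T : ℕ) (x y z : V) :
    hitProb G T x y z ≤ ∑ s ∈ range (T + 1), (pw G s x y + pw G s x z) := by
  classical
  induction T generalizing x with
  | zero =>
    rw [hitProb_eq]
    unfold PS
    simp only [univ_eq_empty, prod_empty, mul_one]
    rw [← Equiv.sum_comp (Equiv.funUnique (Fin 1) V).symm]
    simp [pw, hitInd]
    by_cases h2 : x = y <;> by_cases h3 : x = z <;> simp_all
  | succ T ih =>
    rw [hitProb_eq, PS_succ]
    have h2 : ∀ (w : Fin (T + 1) → V), hitInd (T + 1) y z (Fin.cons x w) ≤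
        ((if x = y then 1 else 0) + (if x = z then 1 else 0)) * 1 + hitInd T y z w := by
      intro w
      unfold hitInd
      by_cases h3 : ∃ i, w i = y ∨ w i = z
      · rw [if_pos h3]
        split_ifs <;> norm_num
      · by_cases h4 : x = y ∨ x = z
        · rcases h4 with h4 | h4
          · rw [if_pos h4, if_neg h3]
            split_ifs <;> norm_num
          · rw [if_pos h4, if_neg h3]
            split_ifs <;> norm_num
        · rw [if_neg]
          · split_ifs <;> norm_num
          · rintro ⟨i, hi⟩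
            refine Fin.cases ?_ (fun j => ?_) i hi
            · intro h; exact h4 h
            · intro h; exact h3 ⟨j, h⟩
    have h3 : ∀ z', PS G T (fun w => hitInd (T + 1) y z (Fin.cons x w)) z' ≤
        ((if x = y then 1 else 0) + (if x = z then 1 else 0)) + hitProb G T z' y z := by
      intro z'
      refine (PS_mono h0 T h2 z').trans (le_of_eq ?_)
      rw [PS_add, PS_mul, PS_one h1, mul_one, ← hitProb_eq]
    refine (sum_le_sum fun z' _ => mul_le_mul_of_nonneg_left (h3 z') (h0 x z')).trans ?_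
    simp only [mul_add, sum_add_distrib]
    rw [← sum_mul, ← sum_mul, h1, one_mul, one_mul]
    have h4 : ∑ z', lazy G x z' * hitProb G T z' y z ≤
        ∑ s ∈ range (T + 1), (pw G (s + 1) x y + pw G (s + 1) x z) := by
      refine (sum_le_sum fun z' _ => mul_le_mul_of_nonneg_left (ih z') (h0 x z')).trans
        (le_of_eq ?_)
      simp only [mul_sum]
      rw [sum_comm]
      refine sum_congr rfl fun s _ => ?_
      rw [pw, pw, ← sum_add_distrib]
      refine sum_congr rfl fun z' _ => ?_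
      ring
    have h5 : ∑ s ∈ range (T + 1 + 1), (pw G s x y + pw G s x z) =
        ∑ s ∈ range (T + 1), (pw G (s + 1) x y + pw G (s + 1) x z) + (pw G 0 x y + pw G 0 x z) :=
      sum_range_succ' _ _
    rw [sum_add_distrib] at h5
    rw [h5]
    have h6 : ∀ a b : V, pw G 0 a b = if a = b then 1 else 0 := fun a b => rfl
    rw [h6, h6]
    linarith

end paths

variable {N m : ℕ} [NeZero N]

lemma pw_succ (t : ℕ) (p q : VV N) :
    pw (gr N m) (t + 1) p q = E1 N m (fun r => pw (gr N m) t r q) p := rfl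

lemma pw_nonneg (hm : m ≤ N) (t : ℕ) (p q : VV N) : 0 ≤ pw (gr N m) t p q := by
  classical
  induction t generalizing p with
  | zero => unfold pw; split_ifs <;> norm_num
  | succ t ih =>
    rw [pw_succ]
    exact sum_nonneg fun r _ => mul_nonneg (lazy_nonneg hm p r) (ih r)

lemma sum_lazy (hm : m ≤ N) (hm0 : 0 < m) (p : VV N) : ∑ q, lazy (gr N m) p q = 1 := by
  have := E1_const hm hm0 1 p
  unfold E1 at this
  simpa using this

/-- The sum over one side. -/
noncomputable def cs (N m : ℕ) [NeZero N] (t : ℕ) (a : Bool) (q : VV N) : ℝ :=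
  ∑ x, pw (gr N m) t (a, x) q

/-- The crossing probability. -/
noncomputable def qs (N m : ℕ) : ℝ := m * hs N m

lemma hs_N (hm0 : 0 < m) : hs N m * N = 1 / 2 + hs N m - qs N m := by
  have := hs_mul (N := N) hm0
  unfold qs
  linear_combination this

lemma pw_rec (hm : m ≤ N) (t : ℕ) (a : Bool) (x : ZMod N) (q : VV N) :
    pw (gr N m) (t + 1) (a, x) q = 1 / 2 * pw (gr N m) t (a, x) q + hs N m *
      (cs N m t a q - pw (gr N m) t (a, x) q +
        ∑ z with z.val < m, pw (gr N m) t (!a, crs a x z) q) := by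
  classical
  rw [pw_succ, E1_eq hm, sum_ne_zero x fun y => pw (gr N m) t (a, y) q]
  rfl

lemma sum_crs' (a : Bool) (z : ZMod N) (φ : ZMod N → ℝ) : ∑ x, φ (crs a x z) = ∑ y, φ y := by
  cases a
  · simp only [crs]
    exact Equiv.sum_comp (Equiv.addRight z) φ
  · simp only [crs]
    exact Equiv.sum_comp (Equiv.subRight z) φ

lemma cs_rec (hm : m ≤ N) (hm0 : 0 < m) (t : ℕ) (a : Bool) (q : VV N) :
    cs N m (t + 1) a q = (1 - qs N m) * cs N m t a q + qs N m * cs N m t (!a) q := by
  classical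
  have h1 : ∑ x : ZMod N, ∑ z with z.val < m, pw (gr N m) t (!a, crs a x z) q =
      m * cs N m t (!a) q := by
    rw [sum_comm]
    rw [sum_congr rfl fun z _ => sum_crs' a z fun y => pw (gr N m) t (!a, y) q]
    rw [sum_const, card_val_lt hm, nsmul_eq_mul]
    rfl
  have h2 : cs N m (t + 1) a q = ∑ x, (1 / 2 * pw (gr N m) t (a, x) q + hs N m *
      (cs N m t a q - pw (gr N m) t (a, x) q +
        ∑ z with z.val < m, pw (gr N m) t (!a, crs a x z) q)) :=
    sum_congr rfl fun x _ => pw_rec hm t a x q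
  rw [h2, sum_add_distrib, ← mul_sum, ← mul_sum, sum_add_distrib, sum_sub_distrib, h1,
    sum_const, card_univ, ZMod.card, nsmul_eq_mul]
  have h3 := hs_N (N := N) hm0
  have h4 : ∑ x, pw (gr N m) t (a, x) q = cs N m t a q := rfl
  rw [h4]
  unfold qs at h3 ⊢
  linear_combination cs N m t a q * h3

lemma cs_zero (a : Bool) (q : VV N) : cs N m 0 a q = if a = q.1 then 1 else 0 := by
  classical
  obtain ⟨b, y⟩ := q
  unfold cs pw
  by_cases h : a = b
  · simp [h]
  · simp [h]

lemma cs_eq (hm : m ≤ N) (hm0 : 0 < m) (t : ℕ) (a : Bool) (q : VV N) :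
    cs N m t a q = if a = q.1 then (1 + (1 - 2 * qs N m) ^ t) / 2
      else (1 - (1 - 2 * qs N m) ^ t) / 2 := by
  induction t generalizing a with
  | zero => rw [cs_zero]; split_ifs <;> norm_num
  | succ t ih =>
    rw [cs_rec hm hm0, ih, ih]
    obtain ⟨b, y⟩ := q
    cases a <;> cases b <;> simp [pow_succ] <;> ring

lemma pw_dev (hm : m ≤ N) (hm0 : 0 < m) (hq : qs N m ≤ 1 / 4) (t : ℕ) (a : Bool) (x : ZMod N)
    (q : VV N) : |pw (gr N m) t (a, x) q - cs N m t a q / N| ≤ (3 / 4) ^ t := by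
  classical
  have hN : (0 : ℝ) < N := by exact_mod_cast Nat.pos_of_ne_zero (NeZero.ne N)
  have hN1 : (1 : ℝ) ≤ N := by exact_mod_cast Nat.one_le_iff_ne_zero.2 (NeZero.ne N)
  have hh0 := hs_pos (N := N) hm0
  have hh1 : hs N m ≤ 1 / 2 := by
    unfold hs
    have : (1 : ℝ) ≤ dg N m := by exact_mod_cast dg_pos hm0
    rw [div_le_div_iff₀ (by positivity) (by norm_num)]
    linarith
  induction t generalizing a x with
  | zero =>
    have h1 : 0 ≤ pw (gr N m) 0 (a, x) q ∧ pw (gr N m) 0 (a, x) q ≤ 1 := by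
      unfold pw; split_ifs <;> norm_num
    have h2 : 0 ≤ cs N m 0 a q ∧ cs N m 0 a q ≤ 1 := by
      rw [cs_zero]; split_ifs <;> norm_num
    have h3 : 0 ≤ cs N m 0 a q / N := div_nonneg h2.1 hN.le
    have h4 : cs N m 0 a q / N ≤ 1 := by rw [div_le_one hN]; linarith
    rw [pow_zero, abs_le]
    constructor <;> linarith [h1.1, h1.2]
  | succ t ih =>
    have e : pw (gr N m) (t + 1) (a, x) q - cs N m (t + 1) a q / N =
        (1 / 2 - hs N m) * (pw (gr N m) t (a, x) q - cs N m t a q / N) + hs N m *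
        ∑ z with z.val < m, (pw (gr N m) t (!a, crs a x z) q - cs N m t (!a) q / N) := by
      rw [pw_rec hm, cs_rec hm hm0, sum_sub_distrib, sum_const, card_val_lt hm, nsmul_eq_mul]
      have h3 := hs_N (N := N) hm0
      unfold qs at h3 ⊢
      field_simp
      linear_combination (2 * cs N m t a q) * h3
    rw [e]
    have h4 : |∑ z with z.val < m, (pw (gr N m) t (!a, crs a x z) q - cs N m t (!a) q / N)| ≤
        m * (3 / 4) ^ t := by
      refine (abs_sum_le_sum_abs _ _).trans ?_
      refine (sum_le_sum fun z _ => ih (!a) (crs a x z)).trans (le_of_eq ?_)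
      rw [sum_const, card_val_lt hm, nsmul_eq_mul]
    refine (abs_add_le _ _).trans ?_
    rw [abs_mul, abs_mul, abs_of_nonneg (by linarith : 0 ≤ 1 / 2 - hs N m), abs_of_pos hh0]
    calc (1 / 2 - hs N m) * |pw (gr N m) t (a, x) q - cs N m t a q / N| + hs N m *
          |∑ z with z.val < m, (pw (gr N m) t (!a, crs a x z) q - cs N m t (!a) q / N)|
        ≤ (1 / 2 - hs N m) * (3 / 4) ^ t + hs N m * (m * (3 / 4) ^ t) := by
          refine add_le_add (mul_le_mul_of_nonneg_left (ih a x) (by linarith))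
            (mul_le_mul_of_nonneg_left h4 hh0.le)
      _ = (1 / 2 - hs N m + qs N m) * (3 / 4) ^ t := by unfold qs; ring
      _ ≤ (3 / 4) * (3 / 4) ^ t := by
          refine mul_le_mul_of_nonneg_right (by linarith) (by positivity)
      _ = (3 / 4) ^ (t + 1) := by ring

lemma card_VV : (Fintype.card (VV N) : ℝ) = 2 * N := by
  rw [Fintype.card_prod, Fintype.card_bool, ZMod.card]
  push_cast
  ring

lemma mix_dev (hm : m ≤ N) (hm0 : 0 < m) (hq : qs N m ≤ 1 / 4) (t : ℕ) (p q : VV N) :
    |pw (gr N m) t p q * Fintype.card (VV N) - 1| ≤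
      (1 - 2 * qs N m) ^ t + 2 * N * (3 / 4) ^ t := by
  obtain ⟨a, x⟩ := p
  have hN : (0 : ℝ) < N := by exact_mod_cast Nat.pos_of_ne_zero (NeZero.ne N)
  have h1 := pw_dev hm hm0 hq t a x q
  have hp : 0 ≤ (1 - 2 * qs N m) ^ t := pow_nonneg (by linarith) _
  have h2 : |2 * cs N m t a q - 1| ≤ (1 - 2 * qs N m) ^ t := by
    rw [cs_eq hm hm0]
    rw [abs_le]
    constructor <;> split_ifs <;> linarith
  rw [card_VV]
  have e : pw (gr N m) t (a, x) q * (2 * N) - 1 = (2 * cs N m t a q - 1) +
      2 * N * (pw (gr N m) t (a, x) q - cs N m t a q / N) := by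
    field_simp
    ring
  rw [e]
  refine (abs_add_le _ _).trans (add_le_add h2 ?_)
  rw [abs_mul, abs_of_pos (by positivity : (0 : ℝ) < 2 * N)]
  exact mul_le_mul_of_nonneg_left h1 (by positivity)

lemma Tmix_le (hm : m ≤ N) (hm0 : 0 < m) (hq : qs N m ≤ 1 / 4) {t : ℕ}
    (ht : (1 - 2 * qs N m) ^ t + 2 * N * (3 / 4) ^ t ≤ 1 / 4) : Tmix (gr N m) ≤ t :=
  Nat.sInf_le fun p q => (mix_dev hm hm0 hq t p q).trans ht

lemma le_Tmix (hm : m ≤ N) (hm0 : 0 < m) (hq : qs N m ≤ 1 / 4) {t : ℕ}
    (ht : (1 - 2 * qs N m) ^ t + 2 * N * (3 / 4) ^ t ≤ 1 / 4) :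
    3 / (8 * qs N m) ≤ Tmix (gr N m) := by
  have hN : (0 : ℝ) < N := by exact_mod_cast Nat.pos_of_ne_zero (NeZero.ne N)
  have hq0 : 0 < qs N m := by
    unfold qs
    have := hs_pos (N := N) hm0
    have : (0 : ℝ) < m := by exact_mod_cast hm0
    positivity
  have hne : {t : ℕ | ∀ x y, |pw (gr N m) t x y * Fintype.card (VV N) - 1| ≤ 1 / 4}.Nonempty :=
    ⟨t, fun p q => (mix_dev hm hm0 hq t p q).trans ht⟩
  have hmem := Nat.sInf_mem hne
  set T := Tmix (gr N m) with hT
  have h1 : ∀ x y, |pw (gr N m) T x y * Fintype.card (VV N) - 1| ≤ 1 / 4 := hmem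
  have h2 : cs N m T true (true, 0) ≤ 5 / 8 := by
    unfold cs
    have h3 : ∀ x ∈ (univ : Finset (ZMod N)), pw (gr N m) T (true, x) (true, 0) ≤ 5 / 8 / N := by
      intro x _
      have h4 := (abs_le.1 (h1 (true, x) (true, 0))).2
      rw [card_VV] at h4
      rw [le_div_iff₀ hN]
      linarith
    refine (sum_le_sum h3).trans (le_of_eq ?_)
    rw [sum_const, card_univ, ZMod.card, nsmul_eq_mul]
    field_simp
  rw [cs_eq hm hm0, if_pos rfl] at h2
  have h5 := one_add_mul_le_pow (a := -(2 * qs N m)) (by linarith) T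
  have h6 : 1 + -(2 * qs N m) = 1 - 2 * qs N m := by ring
  rw [h6] at h5
  rw [div_le_iff₀ (by positivity)]
  linarith

lemma pw_le (hm : m ≤ N) (hm0 : 0 < m) (t : ℕ) {p q : VV N}
    (h : p ≠ q) : pw (gr N m) t p q ≤ 2 * hs N m := by
  classical
  have hh0 := hs_pos (N := N) hm0
  induction t generalizing p with
  | zero =>
    unfold pw
    rw [if_neg h]
    positivity
  | succ t ih =>
    rw [pw_succ]
    unfold E1
    have h1 : ∀ r, lazy (gr N m) p r * pw (gr N m) t r q ≤
        (if r = p then 1 / 2 * pw (gr N m) t p q else 0) + hs N m * pw (gr N m) t r q := by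
      intro r
      have h3 := pw_nonneg hm t r q
      by_cases hr : r = p
      · rw [hr, lazy_self, if_pos rfl]
        have h4 := pw_nonneg hm t p q
        have := mul_nonneg hh0.le h4
        linarith
      · rw [if_neg hr, zero_add]
        exact mul_le_mul_of_nonneg_right (lazy_le hm (Ne.symm hr)) h3
    refine (sum_le_sum fun r _ => h1 r).trans ?_
    rw [sum_add_distrib, sum_ite_eq', if_pos (mem_univ _), ← mul_sum]
    have h5 : ∑ r, pw (gr N m) t r q = 1 := by
      rw [sum_VV true]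
      have e1 : ∑ y, pw (gr N m) t (true, y) q = cs N m t true q := rfl
      have e2 : ∑ y, pw (gr N m) t (!true, y) q = cs N m t false q := rfl
      rw [e1, e2, cs_eq hm hm0, cs_eq hm hm0]
      obtain ⟨b, y⟩ := q
      cases b <;> simp <;> ring
    rw [h5]
    have := ih h
    linarith

lemma sum_pw (hm : m ≤ N) (hm0 : 0 < m) (t : ℕ) (p : VV N) : ∑ q, pw (gr N m) t p q = 1 := by
  induction t generalizing p with
  | zero =>
    rw [sum_eq_single_of_mem p (mem_univ p)]
    · simp [pw]
    · intro q _ h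
      simp [pw, Ne.symm h]
  | succ t ih =>
    rw [sum_congr rfl fun q _ => pw_succ t p q]
    unfold E1
    rw [sum_comm]
    simp only [← mul_sum, ih, mul_one]
    exact sum_lazy hm hm0 p

lemma greenSq_nonneg (p : VV N) : 0 ≤ greenSq (gr N m) p := by
  unfold greenSq
  exact sum_nonneg fun q _ => by split_ifs <;> positivity

lemma greenSq_le (hm : m ≤ N) (hm0 : 0 < m) (p : VV N) :
    greenSq (gr N m) p ≤ 2 * hs N m * (Tmix (gr N m) + 1) * (Tmix (gr N m) + 1) := by
  unfold greenSq
  have hh0 := hs_pos (N := N) hm0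
  set T := Tmix (gr N m)
  have g0 : ∀ q, 0 ≤ green (gr N m) p q := fun q => sum_nonneg fun t _ => pw_nonneg hm t p q
  refine (sum_le_sum (g := fun q => 2 * hs N m * (T + 1) * green (gr N m) p q) ?_).trans
    (le_of_eq ?_)
  · intro q _
    by_cases h : q = p
    · rw [if_pos h]
      have := g0 q
      positivity
    · rw [if_neg h, sq]
      refine mul_le_mul_of_nonneg_right ?_ (g0 q)
      unfold green
      refine (sum_le_sum fun t _ => pw_le hm hm0 t (Ne.symm h)).trans (le_of_eq ?_)
      rw [sum_const, card_range, nsmul_eq_mul]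
      push_cast
      ring
  rw [← mul_sum]
  congr 1
  unfold green
  rw [sum_comm, sum_congr rfl fun t _ => sum_pw hm hm0 t p]
  simp
  rfl

lemma hit_small (hm : m ≤ N) (hm0 : 0 < m) (T : ℕ) {x y z : VV N}
    (hxy : x ≠ y) (hxz : x ≠ z) : hitProb (gr N m) T x y z ≤ 4 * hs N m * (T + 1) := by
  refine (hit_le (lazy_nonneg hm) (sum_lazy hm hm0) T x y z).trans ?_
  refine (sum_le_sum fun s _ => add_le_add (pw_le hm hm0 s hxy)
    (pw_le hm hm0 s hxz)).trans (le_of_eq ?_)
  rw [sum_const, card_range, nsmul_eq_mul]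
  push_cast
  ring

end Pool.Agent.T2H99.CW
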