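import Pool.Agent.T2H99.CW.P

/-!
The environment for the chosen parameters.
-/

set_option autoImplicit false
set_option linter.unusedSectionVars false

open MeasureTheory Finset Filter Topology

namespace Pool.Agent.T2H99.CW

variable {B : Type} [Fintype B] [Nonempty B] [MeasurableSpace B] [DiscreteMeasurableSpace B]

lemma Dep.measurableSet {k : ℕ} {p : (ℕ → B) → Prop} (h : Dep k p) : MeasurableSet {ω | p ω} :=
  measurableSet_setOfPred.2 h.measurable

namespace Env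

variable (E : Env B)

lemma dep_short (K L : ℕ) : Dep (K + L) (E.Short K L) := by
  intro ω ω' h
  apply propext
  unfold Short
  refine forall_congr' fun t => forall_congr' fun ht => exists_congr fun s => ?_
  refine and_congr_right fun hs => ?_
  rw [h (t + 1 + s) (by omega)]

/-- Large differences. -/
def RB (k : ℕ) : Set (ℕ → B) := {ω | ∃ t < KK k + 1, et k < |th k * E.R t ω|}

lemma dep_RB (k : ℕ) : Dep (KK k + 1) fun ω => ω ∈ E.RB k := by
  intro ω ω' h
  apply propext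
  unfold RB
  refine exists_congr fun t => and_congr_right fun ht => ?_
  rw [(E.dep_R t) ω ω' fun i hi => h i (by omega)]

lemma meas_RB (k : ℕ) : MeasurableSet (E.RB k) := (E.dep_RB k).measurableSet

lemma pr_RB {k : ℕ} (hk : 48 ≤ k) (hq : E.q = qq k) :
    (PP B).real (E.RB k) ≤ (KK k + 1) * (4 * Real.exp 1) / Real.exp k := by
  have hk2 : 2 ≤ k := by omega
  have hk0 := k_pos hk2
  have hS := SS_pos hk2
  have hx0 : 0 < (k : ℝ) ^ 7 / SS k := by positivity
  have hx : (k : ℝ) ^ 7 / SS k ≤ E.q := by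
    rw [hq, qq_eq, div_le_div_iff₀ hS (by positivity)]
    have h1 : 2 * (k : ℝ) ^ 7 ≤ (k : ℝ) ^ 16 := by
      calc 2 * (k : ℝ) ^ 7 ≤ (k : ℝ) ^ 9 * (k : ℝ) ^ 7 := by
            refine mul_le_mul_of_nonneg_right ?_ (by positivity)
            calc (2 : ℝ) ≤ k := hk0
              _ = (k : ℝ) ^ 1 := (pow_one _).symm
              _ ≤ (k : ℝ) ^ 9 := pow_le_pow_right₀ (by linarith) (by norm_num)
        _ = (k : ℝ) ^ 16 := by ring
    nlinarith
  have h1 := E.pr_R hx0 hx (KK k) ((k : ℝ) * SS k / (k : ℝ) ^ 7)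
  have e1 : (k : ℝ) ^ 7 / SS k * ((k : ℝ) * SS k / (k : ℝ) ^ 7) = k := by field_simp
  rw [e1] at h1
  have hsub : E.RB k ⊆ {ω | ∃ t < KK k + 1, (k : ℝ) * SS k / (k : ℝ) ^ 7 ≤ |E.R t ω|} := by
    rintro ω ⟨t, ht, h2⟩
    refine ⟨t, ht, ?_⟩
    rw [abs_mul, abs_of_pos (th_pos hk2)] at h2
    have h3 : th k ≤ 1 / SS k := by
      refine (th_le hk2).trans (le_of_eq ?_)
      unfold hh; field_simp
    have h4 : et k < 1 / SS k * |E.R t ω| := h2.trans_le
      (mul_le_mul_of_nonneg_right h3 (abs_nonneg _))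
    have h5 : (k : ℝ) * SS k / (k : ℝ) ^ 7 = et k * SS k := by
      unfold et; field_simp
    rw [h5]
    have h6 := mul_lt_mul_of_pos_right h4 hS
    have h7 : 1 / (SS k : ℝ) * |E.R t ω| * SS k = |E.R t ω| := by field_simp
    linarith
  refine (measureReal_mono hsub).trans (h1.trans ?_)
  refine div_le_div_of_nonneg_right ?_ (Real.exp_pos _).le
  refine mul_le_mul_of_nonneg_left ?_ (by positivity)
  refine mul_le_mul_of_nonneg_left ?_ (by norm_num)
  rw [hq]
  have hqp := qq_pos hk2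
  have h8 : 1 + 3 * ((k : ℝ) ^ 7 / SS k) ^ 2 / qq k ≤
      Real.exp (3 * ((k : ℝ) ^ 7 / SS k) ^ 2 / qq k) := by
    have := Real.add_one_le_exp (3 * ((k : ℝ) ^ 7 / SS k) ^ 2 / qq k)
    linarith
  refine (pow_le_pow_left₀ (by positivity) h8 _).trans ?_
  rw [← Real.exp_nat_mul]
  apply Real.exp_le_exp.2
  rw [KK_cast, qq_eq]
  have h9 : 8 * (k : ℝ) * SS k * (3 * ((k : ℝ) ^ 7 / SS k) ^ 2 / ((k : ℝ) ^ 16 / (2 * SS k))) =
      48 / k := by
    field_simp
    norm_num
  rw [h9, div_le_one (by positivity)]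
  exact_mod_cast hk

/-- The good types for the chosen parameters. -/
def GT (k : ℕ) : Set (ℕ → B) := E.Gt (nn k) (KK k) (LK k) (25 * mm k)

lemma pr_GT {k : ℕ} (hk : 2 ≤ k) (hq : E.q = qq k) :
    (PP B).real (E.GT k)ᶜ ≤ KK k * qq k ^ 2 + KK k * (1 - qq k) ^ (LK k) + 1 / 8 +
      12 * (1 + 1 / qq k) / nn k := by
  have hqp := qq_pos hk
  have hq4 := qq_le_quarter hk
  have hnn : 0 < nn k := one_le_nn hk
  have hnn' : (0 : ℝ) < nn k := by exact_mod_cast hnn
  have hk0 := k_pos hk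
  have hmm : (1 : ℝ) ≤ mm k := by rw [mm_cast]; exact one_le_pow₀ (by linarith)
  have h1 := E.pr_bt (KK k)
  have h2 := E.pr_run (KK k) (LK k)
  have h3 := E.pr_sl (3 * nn k) (c := 24 * mm k) (by positivity)
  have h4 := E.pr_window 0 hnn
  have h5 := E.pr_window (nn k) hnn
  have h6 := E.pr_window (2 * nn k) hnn
  rw [hq] at h1 h2 h3 h4 h5 h6
  have hsub : (E.GT k)ᶜ ⊆ (({ω | ∃ s < KK k, E.bt (ω (s + 1)) = true} ∪
      {ω | ∃ t < KK k, ∀ s < LK k, E.sl (ω (t + 1 + s)) = false}) ∪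
      {ω | (24 * mm k : ℝ) ≤ ∑ s ∈ range (3 * nn k), if E.sl (ω (s + 1)) then (1 : ℝ) else 0}) ∪
      (({ω | (nn k : ℝ) / 2 ≤ |∑ s ∈ range (nn k), E.kap (0 + s) ω|} ∪
      {ω | (nn k : ℝ) / 2 ≤ |∑ s ∈ range (nn k), E.kap (nn k + s) ω|}) ∪
      {ω | (nn k : ℝ) / 2 ≤ |∑ s ∈ range (nn k), E.kap (2 * nn k + s) ω|}) := by
    intro ω hω
    by_contra hcon
    simp only [Set.mem_union, Set.mem_ofPred_eq, not_or, not_exists, not_and, not_forall,
      not_le, Bool.not_eq_true, Bool.not_eq_false] at hcon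
    obtain ⟨⟨⟨c1, c2⟩, c3⟩, ⟨c4, c5⟩, c6⟩ := hcon
    apply hω
    refine ⟨c1, ?_, ?_, c4, c5, c6⟩
    · intro t ht
      obtain ⟨s, hs, h⟩ := c2 t ht
      exact ⟨s, hs, h⟩
    · linarith
  refine (measureReal_mono hsub).trans ?_
  refine (measureReal_union_le _ _).trans ?_
  refine (add_le_add (measureReal_union_le _ _) (measureReal_union_le _ _)).trans ?_
  refine (add_le_add (add_le_add (measureReal_union_le _ _) le_rfl)
    (add_le_add (measureReal_union_le _ _) le_rfl)).trans ?_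
  have h2' : (KK k : ℝ) * (1 - 2 * qq k * (1 - qq k)) ^ (LK k) ≤
      KK k * (1 - qq k) ^ (LK k) := by
    refine mul_le_mul_of_nonneg_left (pow_le_pow_left₀ (by nlinarith) (by nlinarith) _)
      (Nat.cast_nonneg _)
  have h3' : ((3 * nn k : ℕ) : ℝ) * (2 * qq k * (1 - qq k)) / (24 * mm k) ≤ 1 / 8 := by
    rw [div_le_div_iff₀ (by positivity) (by norm_num)]
    push_cast
    have e1 : (nn k : ℝ) * (2 * qq k) ≤ mm k := by
      have h7 := hh_le hk
      have : qq k = mm k * hh k := rfl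
      rw [this]
      have h8 : (nn k : ℝ) * (2 * hh k) ≤ 1 := by
        rw [nn_cast]
        have h9 : (0 : ℝ) < (k : ℝ) ^ 40 := by positivity
        calc (k : ℝ) ^ 40 * (2 * hh k) ≤ (k : ℝ) ^ 40 * (2 * (1 / (2 * (k : ℝ) ^ 40))) := by
              gcongr
          _ = 1 := by field_simp
      nlinarith
    have e2 : (nn k : ℝ) * (2 * qq k * (1 - qq k)) ≤ mm k := by
      have : (nn k : ℝ) * (2 * qq k * (1 - qq k)) ≤ (nn k : ℝ) * (2 * qq k) := by
        refine mul_le_mul_of_nonneg_left ?_ hnn'.le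
        nlinarith
      linarith
    nlinarith
  have h7 : 12 * (1 + 1 / qq k) / nn k = 4 * (1 + 1 / qq k) / nn k + 4 * (1 + 1 / qq k) / nn k +
      4 * (1 + 1 / qq k) / nn k := by ring
  rw [h7]
  linarith

lemma dep_GT (k : ℕ) (hk : 2 ≤ k) : Dep (KK k + LK k + 1) fun ω => ω ∈ E.GT k := by
  intro ω ω' h
  have hK : 3 * nn k ≤ KK k := by
    unfold KK
    have h1 : nn k ≤ SS k := by exact_mod_cast (nn_cast (k := k) ▸ nn_le_SS hk)
    nlinarith
  have hkap : ∀ i < KK k, E.kap i ω = E.kap i ω' := fun i hi =>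
    E.dep_kap i ω ω' fun j hj => h j (by omega)
  have e1 : ∀ s < KK k, E.bt (ω (s + 1)) = E.bt (ω' (s + 1)) := fun s hs => by
    rw [h (s + 1) (by omega)]
  have e2 : E.Short (KK k) (LK k) ω = E.Short (KK k) (LK k) ω' :=
    E.dep_short _ _ ω ω' fun i hi => h i (by omega)
  have e3 : ∑ s ∈ range (3 * nn k), (if E.sl (ω (s + 1)) then (1 : ℝ) else 0) =
      ∑ s ∈ range (3 * nn k), (if E.sl (ω' (s + 1)) then (1 : ℝ) else 0) :=
    sum_congr rfl fun s hs => by
      have := mem_range.1 hs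
      rw [h (s + 1) (by omega)]
  have e4 : ∀ a, a + nn k ≤ KK k → ∑ s ∈ range (nn k), E.kap (a + s) ω =
      ∑ s ∈ range (nn k), E.kap (a + s) ω' := fun a ha =>
    sum_congr rfl fun s hs => by
      have := mem_range.1 hs
      exact hkap _ (by omega)
  apply propext
  unfold GT Gt
  simp only [Set.mem_ofPred_eq]
  rw [e2, e3, e4 0 (by omega), e4 (nn k) (by omega), e4 (2 * nn k) (by omega)]
  refine and_congr_left fun _ => ?_
  exact forall_congr' fun s => forall_congr' fun hs => by rw [e1 s hs]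

lemma GT_fla (k i : ℕ) (ω : ℕ → B) : E.fla i ω ∈ E.GT k ↔ ω ∈ E.GT k := by
  have h1 : ∀ j, E.sl (E.fla i ω j) = E.sl (ω j) := fun j => E.sl_flp _ _ _
  have h2 : ∀ j, E.bt (E.fla i ω j) = E.bt (ω j) := fun j => E.bt_flp _ _ _
  have h3 : ∀ j, E.kap j (E.fla i ω) = E.kap j ω := fun j => by
    have : E.kp j (E.fla i ω) = E.kp j ω := E.kp_flp _ _ _
    unfold kap
    rw [this]
  unfold GT Gt Short
  simp only [Set.mem_ofPred_eq, h1, h2, h3]

lemma fe_map (N0 : ℕ) : (PP B).map (E.fe N0) = PP B := PP_map_act _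

lemma measurable_fe (N0 : ℕ) : Measurable (E.fe N0) := measurable_act _

/-- The random variance changes with positive probability when the early signs are flipped. -/
theorem jump_k {k : ℕ} (hk : 48 ≤ k) (hq : E.q = qq k)
    (h1 : KK k * qq k ^ 2 + KK k * (1 - qq k) ^ (LK k) + 12 * (1 + 1 / qq k) / nn k ≤ 1 / 8)
    (h2 : (KK k + 1) * (4 * Real.exp 1) / Real.exp k ≤ 1 / 288)
    (h3 : qq k ^ 2 * (128 * et k ^ 4 * LK k / hh k) ≤ 1 / 6000000000) :
    1 / 288 ≤ (PP B).real {ω | 1 / 6000000000 ≤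
      |qq k ^ 2 * E.Y (hh k) (th k) (KK k) ω -
        qq k ^ 2 * E.Y (hh k) (th k) (KK k) (E.fe (nn k) ω)|} := by
  classical
  have hk2 : 2 ≤ k := by omega
  have hk0 := k_pos hk2
  have hS := SS_pos hk2
  have hK : 3 * nn k < KK k := by
    unfold KK
    have h1 : nn k ≤ SS k := by exact_mod_cast (nn_cast (k := k) ▸ nn_le_SS hk2)
    have h2 := one_le_nn hk2
    nlinarith
  have hnn : 0 < nn k := one_le_nn hk2
  have hnn' : (0 : ℝ) < nn k := by exact_mod_cast hnn
  have hmm : (0 : ℝ) < mm k := by rw [mm_cast]; positivity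
  have hh0 := hh_pos hk2
  have hh1 := hh_le_half hk2
  have hx : 1 / 8 ≤ (1 - hh k) ^ (3 * nn k) := by
    have e1 : (1 : ℝ) / 2 ≤ (1 - hh k) ^ (nn k) := by
      have e2 := one_add_mul_le_pow (a := - hh k) (by linarith) (nn k)
      have e3 := hh_le hk2
      have e4 : (nn k : ℝ) * hh k ≤ 1 / 2 := by
        rw [nn_cast]
        calc (k : ℝ) ^ 40 * hh k ≤ (k : ℝ) ^ 40 * (1 / (2 * (k : ℝ) ^ 40)) := by gcongr
          _ = 1 / 2 := by field_simp
      have e5 : (1 + - hh k) = 1 - hh k := by ring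
      rw [e5] at e2
      linarith
    rw [mul_comm, pow_mul]
    calc (1 : ℝ) / 8 = (1 / 2) ^ 3 := by norm_num
      _ ≤ _ := pow_le_pow_left₀ (by norm_num) e1 3
  have hL : 8 * LK k ≤ nn k := by
    unfold LK nn
    calc 8 * k ^ 25 ≤ k ^ 15 * k ^ 25 := by
          refine Nat.mul_le_mul_right _ ?_
          calc 8 = 2 ^ 3 := by norm_num
            _ ≤ k ^ 3 := Nat.pow_le_pow_left hk2 3
            _ ≤ k ^ 15 := Nat.pow_le_pow_right (by omega) (by norm_num)
      _ = k ^ 40 := by rw [← pow_add]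
  have hV : ∀ ω ∈ E.GT k, ((nn k : ℝ) ^ 4 / (131072 * (25 * mm k) ^ 2)) ^ 2 ≤
      E.VE (nn k) (KK k) ω * E.VB (hh k) (nn k) (KK k) ω := fun ω hω =>
    E.V_ge hh0 (by linarith) hnn (by positivity) hK hL hx hω
  let g : (ℕ → B) → ℝ := fun ω => if ω ∈ E.GT k then 1 else 0
  have hg : Dep (KK k + LK k + 1) g := (E.dep_GT k hk2).comp fun p => if p then (1 : ℝ) else 0
  have hg1 : ∀ ω, g ω = 1 → ω ∈ E.GT k := by
    intro ω h
    by_contra hc
    simp only [g] at h
    rw [if_neg hc] at h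
    norm_num at h
  have hpz := E.pz (h := hh k) (N0 := nn k) (K := KK k) (KK := KK k + LK k + 1) (by omega)
    (by omega) hg (fun ω => by
      simp only [g]
      by_cases h : ω ∈ E.GT k
      · right; rw [if_pos h]
      · left; rw [if_neg h]) (fun i ω => by simp only [g, E.GT_fla])
    (fun ω h => lt_of_lt_of_le (by positivity) (hV ω (hg1 ω h)))
  have hgint : ∫ ω, g ω ∂PP B = 1 - (PP B).real (E.GT k)ᶜ := by
    have hm : MeasurableSet (E.GT k) := (E.dep_GT k hk2).measurableSet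
    have h5 : ∫ ω, g ω ∂PP B = (PP B).real (E.GT k) := by
      rw [← integral_indicator_one hm]
      refine integral_congr_ae (Filter.Eventually.of_forall fun ω => ?_)
      simp only [g]
      by_cases h : ω ∈ E.GT k <;> simp [h]
    rw [h5, probReal_compl_eq_one_sub hm]
    ring_nf
  have hGT := E.pr_GT hk2 hq
  rw [hgint] at hpz
  set A : Set (ℕ → B) := {ω | g ω = 1 ∧ E.VE (nn k) (KK k) ω * E.VB (hh k) (nn k) (KK k) ω ≤
      4 * (|E.SE (nn k) (KK k) ω| * |E.SB (hh k) (nn k) (KK k) ω|) ^ 2} with hA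
  have hPA : 1 / 96 ≤ (PP B).real A := by
    refine le_trans ?_ hpz
    rw [le_div_iff₀ (by norm_num)]
    linarith
  have hRB := (E.pr_RB hk hq).trans h2
  have hRB' : (PP B).real (E.fe (nn k) ⁻¹' E.RB k) ≤ 1 / 288 := by
    refine le_trans (le_of_eq ?_) hRB
    unfold Measure.real
    rw [← Measure.map_apply (E.measurable_fe _) (E.meas_RB k), E.fe_map]
  have hsub : A ⊆ {ω | 1 / 6000000000 ≤
      |qq k ^ 2 * E.Y (hh k) (th k) (KK k) ω -
        qq k ^ 2 * E.Y (hh k) (th k) (KK k) (E.fe (nn k) ω)|} ∪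
      (E.RB k ∪ E.fe (nn k) ⁻¹' E.RB k) := by
    rintro ω ⟨hω1, hω2⟩
    by_cases hr : ω ∈ E.RB k ∪ E.fe (nn k) ⁻¹' E.RB k
    · exact Or.inr hr
    · left
      rw [Set.mem_union, not_or] at hr
      obtain ⟨hr1, hr2⟩ := hr
      have r1 : ∀ t < KK k + 1, |th k * E.R t ω| ≤ et k := by
        intro t ht
        by_contra hc
        exact hr1 ⟨t, ht, not_le.1 hc⟩
      have r2 : ∀ t < KK k + 1, |th k * E.R t (E.fe (nn k) ω)| ≤ et k := by
        intro t ht
        by_contra hc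
        exact hr2 ⟨t, ht, not_le.1 hc⟩
      have hωG := hg1 ω hω1
      have het : et k ≤ 1 / 2 := by
        unfold et
        rw [div_le_div_iff₀ (by positivity) (by norm_num)]
        have : (2 : ℝ) ≤ (k : ℝ) ^ 6 := by
          calc (2 : ℝ) ≤ k := hk0
            _ = (k : ℝ) ^ 1 := (pow_one _).symm
            _ ≤ (k : ℝ) ^ 6 := pow_le_pow_right₀ (by linarith) (by norm_num)
        linarith
      have hd := E.Y_diff_ge hh0 (by linarith) (th_pos hk2).le het (N0 := nn k) (by omega)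
        hωG.2.1 r1 r2
      have hV' := (hV ω hωG).trans hω2
      have h4 : (nn k : ℝ) ^ 4 / (131072 * (25 * mm k) ^ 2) ≤
          2 * (|E.SE (nn k) (KK k) ω| * |E.SB (hh k) (nn k) (KK k) ω|) := by
        refine abs_le_of_sq_le_sq' ?_ (by positivity) |>.2
        refine hV'.trans (le_of_eq ?_)
        ring
      set P := |E.SE (nn k) (KK k) ω| * |E.SB (hh k) (nn k) (KK k) ω| with hP
      rw [Set.mem_ofPred_eq, ← mul_sub, abs_mul, abs_of_nonneg (sq_nonneg (qq k))]
      have hq2 : (1 / (4 * (k : ℝ) ^ 24)) ^ 2 ≤ qq k ^ 2 :=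
        pow_le_pow_left₀ (by positivity) (qq_ge hk2) 2
      have ht2 : (1 / (4 * (k : ℝ) ^ 40)) ^ 2 ≤ th k ^ 2 :=
        pow_le_pow_left₀ (by positivity) ((hh_ge hk2).trans (th_ge hk2)) 2
      have hP2 : (k : ℝ) ^ 160 / (163840000 * (k : ℝ) ^ 32) ≤ P := by
        rw [nn_cast, mm_cast] at h4
        have : (k : ℝ) ^ 160 / (163840000 * (k : ℝ) ^ 32) =
          ((k : ℝ) ^ 40) ^ 4 / (131072 * (25 * (k : ℝ) ^ 16) ^ 2) / 2 := by
          field_simp; norm_num
        rw [this]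
        linarith
      have hmain : 1 / 2621440000 ≤ qq k ^ 2 * (16 * th k ^ 2 * P) := by
        calc (1 : ℝ) / 2621440000 = (1 / (4 * (k : ℝ) ^ 24)) ^ 2 * (16 *
              (1 / (4 * (k : ℝ) ^ 40)) ^ 2 * ((k : ℝ) ^ 160 / (163840000 * (k : ℝ) ^ 32))) := by
              field_simp; norm_num
          _ ≤ qq k ^ 2 * (16 * th k ^ 2 * P) := by gcongr
      have hd2 := mul_le_mul_of_nonneg_left hd (sq_nonneg (qq k))
      rw [mul_sub] at hd2
      refine le_trans ?_ hd2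
      linarith
  have hfin := measureReal_mono (μ := PP B) hsub
  have hun := measureReal_union_le (μ := PP B) {ω | 1 / 6000000000 ≤
      |qq k ^ 2 * E.Y (hh k) (th k) (KK k) ω -
        qq k ^ 2 * E.Y (hh k) (th k) (KK k) (E.fe (nn k) ω)|}
      (E.RB k ∪ E.fe (nn k) ⁻¹' E.RB k)
  have hun2 := measureReal_union_le (μ := PP B) (E.RB k) (E.fe (nn k) ⁻¹' E.RB k)
  linarith

/-- The characteristic function of the main term. -/
theorem cos_k {k : ℕ} (hk : 48 ≤ k) (hq : E.q = qq k) (c : ℝ)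
    (h1 : |c| * qq k * (4 * et k * LK k) ≤ 1) :
    |∫ ω, Real.cos (c * qq k * E.Q (hh k) (th k) (KK k) ω) ∂PP B -
      ∫ ω, Real.exp (-(c ^ 2 / 2 * (qq k ^ 2 * E.Y (hh k) (th k) (KK k) ω))) ∂PP B| ≤
      c ^ 4 * qq k ^ 4 * (256 * et k ^ 4 * LK k ^ 3 / hh k) +
      2 * ((KK k + 1) * (4 * Real.exp 1) / Real.exp k + KK k * (1 - qq k) ^ (LK k)) := by
  have hk2 : 2 ≤ k := by omega
  have hk0 := k_pos hk2
  have hh0 := hh_pos hk2
  have hh1 := hh_le_half hk2
  have hqp := qq_pos hk2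
  have hq4 := qq_le_quarter hk2
  have hep := et_pos hk2
  have het : et k ≤ 1 := by
    unfold et
    rw [div_le_one (by positivity)]
    exact one_le_pow₀ (by linarith)
  set G : Set (ℕ → B) := {ω | E.Short (KK k) (LK k) ω} ∩ (E.RB k)ᶜ with hG
  have hGm : MeasurableSet G := (E.dep_short _ _).measurableSet.inter (E.meas_RB k).compl
  have hb : ∀ ω ∈ G, (∀ j < KK k, |E.aa (hh k) (th k) (KK k) j ω| ≤ 4 * et k * LK k) ∧
      ∑ j ∈ range (KK k), E.aa (hh k) (th k) (KK k) j ω ^ 4 ≤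
        256 * et k ^ 4 * LK k ^ 3 / hh k := by
    rintro ω ⟨g1, g2⟩
    refine E.aa_bounds hh0 (by linarith) het g1 fun t ht => ?_
    by_contra hc
    exact g2 ⟨t, ht, not_le.1 hc⟩
  have key := E.cos_Y (h := hh k) (θ := th k) (c := c * qq k)
    (ε := c ^ 4 * qq k ^ 4 * (256 * et k ^ 4 * LK k ^ 3 / hh k)) (K := KK k) hGm
    (fun ω hω j hj => by
      rw [abs_mul, abs_mul, abs_of_pos hqp]
      refine le_trans ?_ h1
      exact mul_le_mul_of_nonneg_left ((hb ω hω).1 j hj) (by positivity))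
    (fun ω hω => by
      have e1 : ∀ j ∈ range (KK k), (c * qq k * E.aa (hh k) (th k) (KK k) j ω) ^ 4 =
        c ^ 4 * qq k ^ 4 * E.aa (hh k) (th k) (KK k) j ω ^ 4 := fun j _ => by ring
      rw [sum_congr rfl e1, ← mul_sum]
      exact mul_le_mul_of_nonneg_left (hb ω hω).2 (by positivity))
    (by positivity)
  have e2 : ∀ ω, (c * qq k) ^ 2 / 2 * E.Y (hh k) (th k) (KK k) ω =
      c ^ 2 / 2 * (qq k ^ 2 * E.Y (hh k) (th k) (KK k) ω) := fun ω => by ring
  simp only [e2] at key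
  refine key.trans (add_le_add le_rfl ?_)
  refine mul_le_mul_of_nonneg_left ?_ (by norm_num)
  have hsub : Gᶜ ⊆ E.RB k ∪
      {ω | ∃ t < KK k, ∀ s < LK k, E.sl (ω (t + 1 + s)) = false} := by
    intro ω hω
    by_contra hcon
    simp only [Set.mem_union, Set.mem_ofPred_eq, not_or, not_exists, not_and, not_forall,
      Bool.not_eq_false] at hcon
    apply hω
    refine ⟨fun t ht => ?_, hcon.1⟩
    obtain ⟨s, hs, h⟩ := hcon.2 t ht
    exact ⟨s, hs, h⟩
  refine (measureReal_mono hsub).trans ((measureReal_union_le _ _).trans ?_)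
  refine add_le_add (E.pr_RB hk hq) ((E.pr_run (KK k) (LK k)).trans ?_)
  rw [hq]
  exact mul_le_mul_of_nonneg_left (pow_le_pow_left₀ (by nlinarith) (by nlinarith) _)
      (Nat.cast_nonneg _)

end Env

end Pool.Agent.T2H99.CW
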