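import Pool.Agent.T2H99.CW.E

/-!
Moments of the environment.
-/

set_option autoImplicit false
set_option linter.unusedSectionVars false

open MeasureTheory Finset

namespace Pool.Agent.T2H99.CW

variable {B : Type} [Fintype B] [Nonempty B] [MeasurableSpace B] [DiscreteMeasurableSpace B]

namespace Env

variable (E : Env B)

/-- The average over a letter. -/
noncomputable def av (f : Bool → Bool → ℝ → ℝ) : ℝ :=
  ((1 - E.q) ^ 2 * (f false false 1 + f false false (-1)) +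
      2 * E.q * (1 - E.q) * (f true false 1 + f true false (-1)) +
      E.q ^ 2 * (f false true 1 + f false true (-1))) / 2

lemma one_step_env {t : ℕ} (f : (ℕ → B) → Bool → Bool → ℝ → ℝ)
    (hf : ∀ a b s, Dep t fun ω => f ω a b s) :
    ∫ ω, f ω (E.sl (ω t)) (E.bt (ω t)) (E.sg (ω t)) ∂PP B = ∫ ω, E.av (f ω) ∂PP B := by
  rw [one_step (F := fun ω b => f ω (E.sl b) (E.bt b) (E.sg b)) fun b => hf _ _ _]
  congr 1
  funext ω
  exact E.avg (f ω)

lemma dep_av {t : ℕ} (f : (ℕ → B) → Bool → Bool → ℝ → ℝ)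
    (hf : ∀ a b s, Dep t fun ω => f ω a b s) : Dep t fun ω => E.av (f ω) := by
  intro ω ω' h
  have h1 : ∀ a b s, f ω a b s = f ω' a b s := fun a b s => hf a b s ω ω' h
  simp only [av, h1]

/-- One step of the average half sum. -/
def v' (k : Bool) (s : ℝ) (a b : Bool) (e : ℝ) : ℝ :=
  if (if a then !k else k) then (if a then e else if b then -s else s) else 0

/-- One step of the half difference. -/
def u' (k : Bool) (s : ℝ) (a b : Bool) (e : ℝ) : ℝ :=
  if (if a then !k else k) then 0 else (if a then e else if b then -s else s)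

lemma v_succ (t : ℕ) (ω : ℕ → B) : E.v (t + 1) ω =
    v' (E.kp t ω) (E.sm t ω) (E.sl (ω (t + 1))) (E.bt (ω (t + 1))) (E.sg (ω (t + 1))) := by
  unfold v v'
  rw [sm_succ, kp]

lemma u_succ (t : ℕ) (ω : ℕ → B) : E.u (t + 1) ω =
    u' (E.kp t ω) (E.sm t ω) (E.sl (ω (t + 1))) (E.bt (ω (t + 1))) (E.sg (ω (t + 1))) := by
  unfold u u'
  rw [sm_succ, kp]

lemma v_cases (t : ℕ) (ω : ℕ → B) : E.v t ω = 1 ∨ E.v t ω = -1 ∨ E.v t ω = 0 := by
  unfold v
  rcases E.sm_pm t ω with h | h <;> rw [h] <;> split_ifs <;> simp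

lemma abs_v_le (t : ℕ) (ω : ℕ → B) : |E.v t ω| ≤ 1 := by
  rcases E.v_cases t ω with h | h | h <;> rw [h] <;> norm_num

lemma abs_R_le (t : ℕ) (ω : ℕ → B) : |E.R t ω| ≤ t := by
  unfold R
  calc |∑ s ∈ range t, E.v s ω| ≤ ∑ s ∈ range t, |E.v s ω| := abs_sum_le_sum_abs _ _
    _ ≤ ∑ s ∈ range t, (1 : ℝ) := sum_le_sum fun s _ => E.abs_v_le s ω
    _ = t := by simp

lemma integral_v_zero : ∫ ω, E.v 0 ω ∂PP B = 0 := by
  rw [E.integral_fla (k := 1) (E.dep_v 0) 0]
  have : ∀ ω : ℕ → B, (E.v 0 ω + E.v 0 (E.fla 0 ω)) / 2 = 0 := by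
    intro ω
    have h1 : E.kp 0 (E.fla 0 ω) = E.kp 0 ω := E.kp_flp _ _ _
    unfold v
    rw [h1, sm_zero, sm_zero, E.fla_same]
    split_ifs <;> ring
  simp [this]

lemma exp_ineq {q y : ℝ} (hq : 0 < q) (hq' : q ≤ 1 / 4) (hy : |y| ≤ 1) :
    Real.exp (q * y) * (1 + (1 - 2 * q) * (y / 2)) ≤ (1 + 3 * q * y ^ 2) * (1 + y / 2) := by
  obtain ⟨hy1, hy2⟩ := abs_le.1 hy
  have h1 : Real.exp (q * y) ≤ 1 + q * y + (q * y) ^ 2 := by
    have h2 : |q * y| ≤ 1 := by
      rw [abs_mul, abs_of_pos hq]; nlinarith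
    have := (abs_le.1 (Real.abs_exp_sub_one_sub_id_le h2)).2
    linarith
  have h3 : 0 ≤ 1 + (1 - 2 * q) * (y / 2) := by nlinarith
  calc Real.exp (q * y) * (1 + (1 - 2 * q) * (y / 2))
      ≤ (1 + q * y + (q * y) ^ 2) * (1 + (1 - 2 * q) * (y / 2)) :=
        mul_le_mul_of_nonneg_right h1 h3
    _ ≤ (1 + 3 * q * y ^ 2) * (1 + y / 2) := by
        have h4 : 0 ≤ q * y ^ 2 := by positivity
        have h5 : (1 + 3 * q * y ^ 2) * (1 + y / 2) -
          (1 + q * y + (q * y) ^ 2) * (1 + (1 - 2 * q) * (y / 2)) =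
          q * y ^ 2 * (5 / 2 + 3 * y / 2 - q * y / 2 + q ^ 2 * y) := by ring
        have h6 : 0 ≤ 5 / 2 + 3 * y / 2 - q * y / 2 + q ^ 2 * y := by nlinarith
        have := mul_nonneg h4 h6
        linarith

/-- The exponential moments of the accumulated difference. -/
theorem exp_R {x : ℝ} (hx : |x| ≤ E.q) (t : ℕ) :
    ∫ ω, Real.exp (x * E.R t ω) * (1 + x / (2 * E.q) * E.v t ω) ∂PP B ≤
      (1 + 3 * x ^ 2 / E.q) ^ t := by
  have hq := E.q_pos
  induction t with
  | zero =>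
    have h0 : ∀ ω : ℕ → B, E.R 0 ω = 0 := fun ω => by simp [R]
    simp only [h0, mul_zero, Real.exp_zero, one_mul, pow_zero]
    rw [integral_add (integrable_const _) ((E.dep_v 0).comp fun y => x / (2 * E.q) * y).integrable,
      integral_const_mul, E.integral_v_zero]
    simp
  | succ t ih =>
    have dR := E.dep_R (t + 1)
    have dk := E.dep_kp t
    have ds := E.dep_sm t
    let f : (ℕ → B) → Bool → Bool → ℝ → ℝ := fun ω a b e =>
      Real.exp (x * E.R (t + 1) ω) * (1 + x / (2 * E.q) * v' (E.kp t ω) (E.sm t ω) a b e)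
    have hf : ∀ a b s, Dep (t + 1) fun ω => f ω a b s := fun a b s =>
      dR.comp₃ dk ds fun r k c => Real.exp (x * r) * (1 + x / (2 * E.q) * v' k c a b s)
    have h1 : ∀ ω, Real.exp (x * E.R (t + 1) ω) * (1 + x / (2 * E.q) * E.v (t + 1) ω) =
        f ω (E.sl (ω (t + 1))) (E.bt (ω (t + 1))) (E.sg (ω (t + 1))) := fun ω => by
      rw [E.v_succ]
    simp only [h1]
    rw [E.one_step_env f hf]
    have h2 : ∀ ω, E.av (f ω) = Real.exp (x * E.R (t + 1) ω) *
        (1 + (1 - 2 * E.q) * (x / (2 * E.q) * E.v t ω)) := by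
      intro ω
      simp only [f, av, v', v]
      cases E.kp t ω <;> simp <;> ring
    have h3 : ∀ ω, E.av (f ω) ≤ (1 + 3 * x ^ 2 / E.q) *
        (Real.exp (x * E.R t ω) * (1 + x / (2 * E.q) * E.v t ω)) := by
      intro ω
      rw [h2, R_succ, show x * (E.R t ω + E.v t ω) = x * E.R t ω + x * E.v t ω by ring,
        Real.exp_add]
      have hy : |x / E.q * E.v t ω| ≤ 1 := by
        rw [abs_mul, abs_div, abs_of_pos hq]
        have h4 : |x| / E.q ≤ 1 := (div_le_one hq).2 hx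
        have := E.abs_v_le t ω
        have h5 : 0 ≤ |x| / E.q := by positivity
        nlinarith [abs_nonneg (E.v t ω)]
      have h6 := exp_ineq hq E.q_le hy
      have h7 : E.q * (x / E.q * E.v t ω) = x * E.v t ω := by field_simp
      have h8 : 3 * E.q * (x / E.q * E.v t ω) ^ 2 ≤ 3 * x ^ 2 / E.q := by
        have : 3 * E.q * (x / E.q * E.v t ω) ^ 2 = 3 * x ^ 2 / E.q * (E.v t ω) ^ 2 := by
          field_simp
        rw [this]
        have h9 : (E.v t ω) ^ 2 ≤ 1 := by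
          rcases E.v_cases t ω with h | h | h <;> rw [h] <;> norm_num
        have h10 : 0 ≤ 3 * x ^ 2 / E.q := by positivity
        nlinarith
      rw [h7] at h6
      have h11 : x / E.q * E.v t ω / 2 = x / (2 * E.q) * E.v t ω := by field_simp
      rw [h11] at h6
      have h12 : 0 ≤ 1 + x / (2 * E.q) * E.v t ω := by
        rw [← h11]; linarith [(abs_le.1 hy).1]
      calc Real.exp (x * E.R t ω) * Real.exp (x * E.v t ω) *
            (1 + (1 - 2 * E.q) * (x / (2 * E.q) * E.v t ω))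
          = Real.exp (x * E.R t ω) * (Real.exp (x * E.v t ω) *
            (1 + (1 - 2 * E.q) * (x / (2 * E.q) * E.v t ω))) := by ring
        _ ≤ Real.exp (x * E.R t ω) * ((1 + 3 * x ^ 2 / E.q) *
            (1 + x / (2 * E.q) * E.v t ω)) := by
            refine mul_le_mul_of_nonneg_left ?_ (Real.exp_pos _).le
            refine h6.trans ?_
            refine mul_le_mul_of_nonneg_right ?_ h12
            linarith
        _ = _ := by ring
    have d2 : Dep (t + 1) fun ω => (1 + 3 * x ^ 2 / E.q) *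
        (Real.exp (x * E.R t ω) * (1 + x / (2 * E.q) * E.v t ω)) :=
      ((E.dep_R t).mono (by omega)).comp₂ (E.dep_v t) fun r w => (1 + 3 * x ^ 2 / E.q) *
        (Real.exp (x * r) * (1 + x / (2 * E.q) * w))
    refine (integral_mono_dep (E.dep_av f hf) d2 h3).trans ?_
    rw [integral_const_mul, pow_succ' (1 + 3 * x ^ 2 / E.q) t]
    exact mul_le_mul_of_nonneg_left ih (by positivity)

lemma exp_R' {x : ℝ} (hx : |x| ≤ E.q) (t : ℕ) :
    (∫ ω, Real.exp (x * E.R t ω) ∂PP B) * (1 - |x| / (2 * E.q)) ≤ (1 + 3 * x ^ 2 / E.q) ^ t := by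
  have hq := E.q_pos
  refine le_trans ?_ (E.exp_R hx t)
  rw [← integral_mul_const]
  have dR := (E.dep_R t).mono (Nat.le_succ t)
  refine integral_mono_dep (dR.comp fun r => Real.exp (x * r) * (1 - |x| / (2 * E.q)))
    (dR.comp₂ (E.dep_v t) fun r w => Real.exp (x * r) * (1 + x / (2 * E.q) * w)) fun ω => ?_
  refine mul_le_mul_of_nonneg_left ?_ (Real.exp_pos _).le
  have h1 : |x / (2 * E.q) * E.v t ω| ≤ |x| / (2 * E.q) := by
    rw [abs_mul, abs_div, abs_of_pos (by positivity : (0 : ℝ) < 2 * E.q)]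
    have := E.abs_v_le t ω
    have h5 : 0 ≤ |x| / (2 * E.q) := by positivity
    nlinarith [abs_nonneg (E.v t ω)]
  linarith [(abs_le.1 h1).1]

lemma exp_R'' {x : ℝ} (hx : |x| ≤ E.q) (t : ℕ) :
    ∫ ω, Real.exp (x * E.R t ω) ∂PP B ≤ 2 * (1 + 3 * x ^ 2 / E.q) ^ t := by
  have hq := E.q_pos
  have h1 := E.exp_R' hx t
  have h2 : |x| / (2 * E.q) ≤ 1 / 2 := by
    rw [div_le_div_iff₀ (by positivity) (by norm_num)]; linarith
  have h3 : 0 ≤ ∫ ω, Real.exp (x * E.R t ω) ∂PP B := integral_nonneg fun ω => (Real.exp_pos _).le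
  nlinarith

end Env

end Pool.Agent.T2H99.CW
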