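import Pool.Agent.T2H99.CW.M

/-!
The second moment of the main term.
-/

set_option autoImplicit false
set_option linter.unusedSectionVars false

open MeasureTheory Finset

namespace Pool.Agent.T2H99.CW

variable {B : Type} [Fintype B] [Nonempty B] [MeasurableSpace B] [DiscreteMeasurableSpace B]

namespace Env

variable (E : Env B)

/-- The scaled imbalance. -/
noncomputable def Dl (h θ : ℝ) (t : ℕ) (ω : ℕ → B) : ℝ :=
  -2 * (1 - h) ^ t * Real.sinh (θ * E.R t ω)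

lemma dep_Dl (h θ : ℝ) (t : ℕ) : Dep t (E.Dl h θ t) :=
  (E.dep_R t).comp fun r => -2 * (1 - h) ^ t * Real.sinh (θ * r)

lemma Q_succ (h θ : ℝ) (t : ℕ) (ω : ℕ → B) :
    E.Q h θ (t + 1) ω = E.Q h θ t ω + E.u t ω * E.Dl h θ t ω := by
  unfold Q Dl; rw [sum_range_succ]

lemma dep_Q (h θ : ℝ) (t : ℕ) : Dep t (E.Q h θ t) :=
  dep_sum _ fun s hs => by
    have hs' := mem_range.1 hs
    exact ((E.dep_u s).mono (by omega)).comp₂ ((E.dep_R s).mono (by omega))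
      fun a r => a * (-2 * (1 - h) ^ s * Real.sinh (θ * r))

lemma pow_sub_one_le {a : ℝ} (ha : 0 ≤ a) (t : ℕ) : (1 + a) ^ t - 1 ≤ a * t * (1 + a) ^ t := by
  induction t with
  | zero => simp
  | succ t ih =>
    have h1 : 1 ≤ (1 + a) ^ (t + 1) := one_le_pow₀ (by linarith)
    have h2 : (1 + a) ^ (t + 1) = (1 + a) * (1 + a) ^ t := pow_succ' _ _
    have h3 := mul_le_mul_of_nonneg_left ih (by linarith : 0 ≤ 1 + a)
    have h4 := mul_le_mul_of_nonneg_left h1 ha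
    have h5 : (1 + a) * (a * t * (1 + a) ^ t) = a * t * (1 + a) ^ (t + 1) := by rw [h2]; ring
    rw [h5] at h3
    push_cast
    linarith

lemma sinh_sq {θ : ℝ} (h0 : 0 ≤ θ) (hθ : 2 * θ ≤ E.q) (t : ℕ) :
    ∫ ω, (2 * Real.sinh (θ * E.R t ω)) ^ 2 ∂PP B ≤
      2 * (12 * θ ^ 2 / E.q * t + 2 * (θ / E.q)) * (1 + 12 * θ ^ 2 / E.q) ^ t := by
  have hq := E.q_pos
  have hx1 : |2 * θ| ≤ E.q := by rw [abs_of_nonneg (by linarith)]; exact hθ
  have hx2 : |-(2 * θ)| ≤ E.q := by rw [abs_neg]; exact hx1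
  have e1 := E.exp_R' hx1 t
  have e2 := E.exp_R' hx2 t
  rw [abs_neg] at e2
  rw [abs_of_nonneg (by linarith : (0 : ℝ) ≤ 2 * θ)] at e1 e2
  rw [show (-(2 * θ)) ^ 2 = (2 * θ) ^ 2 by ring] at e2
  have h3 : 3 * (2 * θ) ^ 2 / E.q = 12 * θ ^ 2 / E.q := by ring
  have h4 : 2 * θ / (2 * E.q) = θ / E.q := by field_simp
  rw [h3, h4] at e1 e2
  set a := 12 * θ ^ 2 / E.q with ha
  set y := θ / E.q with hy
  have hy0 : 0 ≤ y := by positivity
  have hy1 : y ≤ 1 / 2 := by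
    rw [hy, div_le_div_iff₀ hq (by norm_num)]; linarith
  have ha0 : 0 ≤ a := by positivity
  have hint : ∀ x : ℝ, Integrable (fun ω => Real.exp (x * E.R t ω)) (PP B) := fun x =>
    ((E.dep_R t).comp fun r => Real.exp (x * r)).integrable
  have h5 : ∀ ω, (2 * Real.sinh (θ * E.R t ω)) ^ 2 =
      (Real.exp (2 * θ * E.R t ω) + Real.exp (-(2 * θ) * E.R t ω)) - 2 := by
    intro ω
    rw [Real.sinh_eq, show 2 * θ * E.R t ω = θ * E.R t ω + θ * E.R t ω by ring,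
      show -(2 * θ) * E.R t ω = -(θ * E.R t ω) + -(θ * E.R t ω) by ring, Real.exp_add,
      Real.exp_add]
    have : Real.exp (θ * E.R t ω) * Real.exp (-(θ * E.R t ω)) = 1 := by
      rw [← Real.exp_add]; simp
    linear_combination (-2) * this
  simp only [h5]
  have hi2 : Integrable (fun ω => Real.exp (2 * θ * E.R t ω) + Real.exp (-(2 * θ) * E.R t ω))
    (PP B) := (hint _).add (hint _)
  rw [integral_sub hi2 (integrable_const _), integral_add (hint _) (hint _)]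
  simp only [integral_const, probReal_univ, one_smul]
  have h6 := pow_sub_one_le ha0 t
  have h7 : 1 ≤ (1 + a) ^ t := one_le_pow₀ (by linarith)
  have h8 : ∀ I : ℝ, I * (1 - y) ≤ (1 + a) ^ t → I ≤ (1 + a) ^ t * (1 + 2 * y) := by
    intro I hI
    by_contra hcon
    push Not at hcon
    have h9 : (1 + a) ^ t * (1 + 2 * y) * (1 - y) < I * (1 - y) :=
      mul_lt_mul_of_pos_right hcon (by linarith)
    have h10 : (1 + a) ^ t * 1 ≤ (1 + a) ^ t * ((1 + 2 * y) * (1 - y)) :=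
      mul_le_mul_of_nonneg_left (by nlinarith) (by positivity)
    linarith
  have i1 := h8 _ e1
  have i2 := h8 _ e2
  nlinarith

lemma sum_geo {h : ℝ} (h0 : 0 < h) (h1 : h ≤ 1) (K : ℕ) :
    ∑ t ∈ range K, (1 - h) ^ t ≤ 1 / h := by
  have := (summable_geometric_of_lt_one (by linarith : 0 ≤ 1 - h) (by linarith)).sum_le_tsum
    (range K) (fun t _ => by have : 0 ≤ 1 - h := by linarith
                             positivity)
  rw [tsum_geometric_of_lt_one (by linarith) (by linarith)] at this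
  simpa using this

lemma sum_geo' {h : ℝ} (h0 : 0 < h) (h1 : h ≤ 1) (K : ℕ) :
    ∑ t ∈ range K, (t : ℝ) * (1 - h) ^ t ≤ 1 / h ^ 2 := by
  have hn : ‖(1 - h : ℝ)‖ < 1 := by
    rw [Real.norm_eq_abs, abs_of_nonneg (by linarith)]; linarith
  have hs : HasSum (fun t : ℕ => (t : ℝ) * (1 - h) ^ t) ((1 - h) / (1 - (1 - h)) ^ 2) :=
    hasSum_coe_mul_geometric_of_norm_lt_one hn
  have := hs.summable.sum_le_tsum (range K) (fun t _ => by have : 0 ≤ 1 - h := by linarith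
                                                           positivity)
  rw [hs.tsum_eq] at this
  refine this.trans ?_
  rw [show 1 - (1 - h) = h by ring]
  gcongr
  linarith

lemma mul_geo {h : ℝ} (h0 : 0 < h) (h1 : h ≤ 1) (t : ℕ) : (t : ℝ) * (1 - h) ^ t ≤ 1 / h := by
  have h2 : (1 - h) ^ t ≤ Real.exp (-(h * t)) := by
    have : 1 - h ≤ Real.exp (-h) := by have := Real.add_one_le_exp (-h); linarith
    calc (1 - h) ^ t ≤ (Real.exp (-h)) ^ t := pow_le_pow_left₀ (by linarith) this t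
      _ = Real.exp (-(h * t)) := by rw [← Real.exp_nat_mul]; congr 1; ring
  have h3 : h * t * Real.exp (-(h * t)) ≤ 1 := by
    have := Real.add_one_le_exp (h * t)
    have h4 : Real.exp (h * t) * Real.exp (-(h * t)) = 1 := by rw [← Real.exp_add]; simp
    have h5 := Real.exp_pos (-(h * t))
    nlinarith
  rw [le_div_iff₀ h0]
  have ht : (0 : ℝ) ≤ t := Nat.cast_nonneg t
  have h6 : 0 ≤ t * h := by positivity
  calc (t : ℝ) * (1 - h) ^ t * h = t * h * (1 - h) ^ t := by ring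
    _ ≤ t * h * Real.exp (-(h * t)) := mul_le_mul_of_nonneg_left h2 h6
    _ = h * t * Real.exp (-(h * t)) := by ring
    _ ≤ 1 := h3

lemma Dl_sq {h θ : ℝ} (h0 : 0 < h) (h1 : h ≤ 1 / 2) (hθ0 : 0 ≤ θ) (hθ : θ ≤ 2 * h)
    (hq : 48 * h ≤ E.q) (t : ℕ) :
    ∫ ω, E.Dl h θ t ω ^ 2 ∂PP B ≤ 2 * (48 * h ^ 2 * t + 4 * h) / E.q * (1 - h) ^ t := by
  have hq0 := E.q_pos
  have e1 : ∀ ω, E.Dl h θ t ω ^ 2 = (1 - h) ^ (2 * t) * (2 * Real.sinh (θ * E.R t ω)) ^ 2 := by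
    intro ω; unfold Dl; rw [pow_mul']; ring
  simp only [e1]
  rw [integral_const_mul]
  have e2 := E.sinh_sq hθ0 (by linarith : 2 * θ ≤ E.q) t
  have hsq : θ ^ 2 ≤ 4 * h ^ 2 := by nlinarith
  have ha : 12 * θ ^ 2 / E.q ≤ 48 * h ^ 2 / E.q :=
    div_le_div_of_nonneg_right (by linarith) hq0.le
  have ha' : 48 * h ^ 2 / E.q ≤ h := by
    rw [div_le_iff₀ hq0]; nlinarith
  have hb : θ / E.q ≤ 2 * h / E.q := by gcongr
  have h2 : 0 ≤ 1 - h := by linarith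
  have h3 : (1 - h) ^ (2 * t) * (1 + 12 * θ ^ 2 / E.q) ^ t ≤ (1 - h) ^ t := by
    rw [pow_mul, ← mul_pow]
    refine pow_le_pow_left₀ (by positivity) ?_ t
    have : 12 * θ ^ 2 / E.q ≤ h := ha.trans ha'
    nlinarith [mul_nonneg h2 h2, mul_nonneg h2 h0.le]
  calc (1 - h) ^ (2 * t) * ∫ ω, (2 * Real.sinh (θ * E.R t ω)) ^ 2 ∂PP B
      ≤ (1 - h) ^ (2 * t) * (2 * (12 * θ ^ 2 / E.q * t + 2 * (θ / E.q)) *
        (1 + 12 * θ ^ 2 / E.q) ^ t) := mul_le_mul_of_nonneg_left e2 (by positivity)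
    _ = 2 * (12 * θ ^ 2 / E.q * t + 2 * (θ / E.q)) *
        ((1 - h) ^ (2 * t) * (1 + 12 * θ ^ 2 / E.q) ^ t) := by ring
    _ ≤ 2 * (48 * h ^ 2 / E.q * t + 2 * (2 * h / E.q)) * (1 - h) ^ t := by
        gcongr
    _ = _ := by ring

lemma sum_Dl_sq {h θ : ℝ} (h0 : 0 < h) (h1 : h ≤ 1 / 2) (hθ0 : 0 ≤ θ) (hθ : θ ≤ 2 * h)
    (hq : 48 * h ≤ E.q) (K : ℕ) :
    ∑ t ∈ range K, ∫ ω, E.Dl h θ t ω ^ 2 ∂PP B ≤ 104 / E.q := by
  have hq0 := E.q_pos
  calc ∑ t ∈ range K, ∫ ω, E.Dl h θ t ω ^ 2 ∂PP B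
      ≤ ∑ t ∈ range K, 2 * (48 * h ^ 2 * t + 4 * h) / E.q * (1 - h) ^ t :=
        sum_le_sum fun t _ => E.Dl_sq h0 h1 hθ0 hθ hq t
    _ = 96 * h ^ 2 / E.q * ∑ t ∈ range K, (t : ℝ) * (1 - h) ^ t +
        8 * h / E.q * ∑ t ∈ range K, (1 - h) ^ t := by
        rw [mul_sum, mul_sum, ← sum_add_distrib]
        refine sum_congr rfl fun t _ => ?_
        ring
    _ ≤ 96 * h ^ 2 / E.q * (1 / h ^ 2) + 8 * h / E.q * (1 / h) := by
        have := sum_geo h0 (by linarith) K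
        have := sum_geo' h0 (by linarith) K
        gcongr
    _ = 104 / E.q := by field_simp; norm_num

/-- The second moment of the main term. -/
theorem Q_sq {h θ : ℝ} (h0 : 0 < h) (h1 : h ≤ 1 / 2) (hθ0 : 0 ≤ θ) (hθ : θ ≤ 2 * h)
    (hq : 48 * h ≤ E.q) (K : ℕ) :
    ∫ ω, E.Q h θ K ω ^ 2 ∂PP B ≤ 106 / E.q ^ 2 := by
  have hq0 := E.q_pos
  have hq1 := E.q_le
  have hden : 2 * E.q ≤ 1 - (1 - 2 * E.q) * (1 - h) := by nlinarith
  set β := 1 / (1 - (1 - 2 * E.q) * (1 - h)) with hβ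
  have hβ0 : 0 ≤ β := by rw [hβ]; exact div_nonneg zero_le_one (by linarith)
  have hβ1 : β = 1 + β * (1 - 2 * E.q) * (1 - h) := by
    have : 1 - (1 - 2 * E.q) * (1 - h) ≠ 0 := by linarith
    rw [hβ]; field_simp; ring
  have hβ2 : β ≤ 1 / (2 * E.q) := by
    rw [hβ]; exact one_div_le_one_div_of_le (by positivity) hden
  -- the corrected sum
  let W : ℕ → (ℕ → B) → ℝ := fun t ω => E.Q h θ t ω + β * E.u t ω * E.Dl h θ t ω
  have dW : ∀ t, Dep (t + 1) (W t) := fun t =>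
    ((E.dep_Q h θ t).mono (by omega)).comp₃ (E.dep_u t) ((E.dep_Dl h θ t).mono (by omega))
      fun a b c => a + β * b * c
  have hstep : ∀ t, ∫ ω, W (t + 1) ω ^ 2 ∂PP B ≤ ∫ ω, W t ω ^ 2 ∂PP B +
      2 * E.q * β ^ 2 * ∫ ω, E.Dl h θ (t + 1) ω ^ 2 ∂PP B := by
    intro t
    let f : (ℕ → B) → Bool → Bool → ℝ → ℝ := fun ω a b e =>
      (E.Q h θ (t + 1) ω + β * u' (E.kp t ω) (E.sm t ω) a b e * E.Dl h θ (t + 1) ω) ^ 2
    have hf : ∀ a b s, Dep (t + 1) fun ω => f ω a b s := fun a b s =>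
      ((E.dep_Q h θ (t + 1)).comp₂ (E.dep_Dl h θ (t + 1)) fun x y => (x, y)).comp₃
        (E.dep_kp t) (E.dep_sm t) fun (p : ℝ × ℝ) k c => (p.1 + β * u' k c a b s * p.2) ^ 2
    have e1 : ∀ ω, W (t + 1) ω ^ 2 =
        f ω (E.sl (ω (t + 1))) (E.bt (ω (t + 1))) (E.sg (ω (t + 1))) := fun ω => by
      simp only [W, f]; rw [E.u_succ]
    simp only [e1]
    rw [E.one_step_env f hf]
    have e2 : ∀ ω, E.av (f ω) = W t ω ^ 2 + 2 * E.q * (1 - E.q) * β ^ 2 *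
        E.Dl h θ (t + 1) ω ^ 2 := by
      intro ω
      have hs : E.sm t ω ^ 2 = 1 := by rcases E.sm_pm t ω with h | h <;> rw [h] <;> norm_num
      have hQ := E.Q_succ h θ t ω
      cases hk : E.kp t ω
      · have hu : E.u t ω = E.sm t ω := by unfold u; rw [hk]; simp
        have hv : E.v t ω = 0 := by unfold v; rw [hk]; simp
        have hD : E.Dl h θ (t + 1) ω = (1 - h) * E.Dl h θ t ω := by
          unfold Dl; rw [R_succ, hv, add_zero, pow_succ]; ring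
        simp only [f, av, u', W, hu, hk]
        rw [hu] at hQ
        simp only [Bool.false_eq_true, if_false, if_true, Bool.not_false]
        rw [hQ, hD]
        have hw : E.Q h θ t ω + β * E.sm t ω * E.Dl h θ t ω =
          (E.Q h θ t ω + E.sm t ω * E.Dl h θ t ω) + (β * (1 - 2 * E.q) * (1 - h)) *
            (E.sm t ω * E.Dl h θ t ω) := by linear_combination (E.sm t ω * E.Dl h θ t ω) * hβ1
        rw [hw]
        set s := E.sm t ω
        set D := E.Dl h θ t ω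
        set q := E.q
        linear_combination (β ^ 2 * (1 - h) ^ 2 * D ^ 2 * (2 * q * (1 - q))) * hs
      · have hu : E.u t ω = 0 := by unfold u; rw [hk]; simp
        simp only [f, av, u', W, hu, hk]
        rw [hu] at hQ
        simp only [Bool.false_eq_true, if_false, if_true, Bool.not_true]
        rw [hQ]
        ring
    simp only [e2]
    rw [integral_add ((dW t).comp fun x => x ^ 2).integrable
      ((E.dep_Dl h θ (t + 1)).comp fun x => 2 * E.q * (1 - E.q) * β ^ 2 * x ^ 2).integrable,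
      integral_const_mul]
    have h3 : 0 ≤ ∫ ω, E.Dl h θ (t + 1) ω ^ 2 ∂PP B := integral_nonneg fun ω => sq_nonneg _
    have h4 : 2 * E.q * (1 - E.q) * β ^ 2 ≤ 2 * E.q * β ^ 2 := by
      have : 0 ≤ 2 * E.q * β ^ 2 := by positivity
      nlinarith
    have := mul_le_mul_of_nonneg_right h4 h3
    linarith
  have hD0 : ∀ ω, E.Dl h θ 0 ω = 0 := fun ω => by simp [Dl, R]
  have hsum : ∀ t, ∫ ω, W t ω ^ 2 ∂PP B ≤ 2 * E.q * β ^ 2 *
      ∑ s ∈ range (t + 1), ∫ ω, E.Dl h θ s ω ^ 2 ∂PP B := by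
    intro t
    induction t with
    | zero =>
      have : ∀ ω, W 0 ω = 0 := fun ω => by simp [W, hD0, Q]
      simp [this, hD0]
    | succ t ih =>
      rw [sum_range_succ, mul_add]
      exact (hstep t).trans (by linarith)
  have hWK : ∫ ω, W K ω ^ 2 ∂PP B ≤ 208 * β ^ 2 := by
    refine (hsum K).trans ?_
    have h5 := E.sum_Dl_sq h0 h1 hθ0 hθ hq (K + 1)
    calc 2 * E.q * β ^ 2 * ∑ s ∈ range (K + 1), ∫ ω, E.Dl h θ s ω ^ 2 ∂PP B
        ≤ 2 * E.q * β ^ 2 * (104 / E.q) := mul_le_mul_of_nonneg_left h5 (by positivity)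
      _ = 208 * β ^ 2 := by field_simp; ring
  have hDK : ∫ ω, E.Dl h θ K ω ^ 2 ∂PP B ≤ 3 := by
    refine (E.Dl_sq h0 h1 hθ0 hθ hq K).trans ?_
    have h6 := mul_geo h0 (by linarith : h ≤ 1) K
    have h7 : (1 - h) ^ K ≤ 1 := pow_le_one₀ (by linarith) (by linarith)
    calc 2 * (48 * h ^ 2 * K + 4 * h) / E.q * (1 - h) ^ K
        = 96 * h ^ 2 / E.q * (K * (1 - h) ^ K) + 8 * h / E.q * (1 - h) ^ K := by ring
      _ ≤ 96 * h ^ 2 / E.q * (1 / h) + 8 * h / E.q * 1 := by gcongr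
      _ = 104 * h / E.q := by field_simp; norm_num
      _ ≤ 3 := by rw [div_le_iff₀ hq0]; linarith
  have hfin : ∫ ω, E.Q h θ K ω ^ 2 ∂PP B ≤ 2 * (∫ ω, W K ω ^ 2 ∂PP B) +
      2 * β ^ 2 * ∫ ω, E.Dl h θ K ω ^ 2 ∂PP B := by
    rw [← integral_const_mul, ← integral_const_mul, ← integral_add
      ((dW K).comp fun x => 2 * x ^ 2).integrable
      ((E.dep_Dl h θ K).comp fun x => 2 * β ^ 2 * x ^ 2).integrable]
    refine integral_mono_dep (k := K + 1) (((E.dep_Q h θ K).mono (by omega)).comp fun x => x ^ 2)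
      ((dW K).comp₂ ((E.dep_Dl h θ K).mono (by omega)) fun x y => 2 * x ^ 2 + 2 * β ^ 2 * y ^ 2)
      fun ω => ?_
    simp only [W]
    have hu2 : E.u K ω ^ 2 ≤ 1 := by
      unfold u
      split_ifs
      · norm_num
      · rcases E.sm_pm K ω with h | h <;> rw [h] <;> norm_num
    set q := E.Q h θ K ω
    set u := E.u K ω
    set D := E.Dl h θ K ω
    have h8 : q ^ 2 ≤ 2 * (q + β * u * D) ^ 2 + 2 * (β * u * D) ^ 2 := by
      nlinarith [sq_nonneg (q + 2 * (β * u * D))]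
    have h9 : (β * u * D) ^ 2 ≤ β ^ 2 * D ^ 2 := by
      have : (β * u * D) ^ 2 = u ^ 2 * (β ^ 2 * D ^ 2) := by ring
      rw [this]
      have : 0 ≤ β ^ 2 * D ^ 2 := by positivity
      nlinarith
    linarith
  have hb2 : β ^ 2 ≤ 1 / (4 * E.q ^ 2) := by
    calc β ^ 2 ≤ (1 / (2 * E.q)) ^ 2 := pow_le_pow_left₀ hβ0 hβ2 2
      _ = 1 / (4 * E.q ^ 2) := by rw [div_pow]; ring
  calc ∫ ω, E.Q h θ K ω ^ 2 ∂PP B ≤ 2 * (208 * β ^ 2) + 2 * β ^ 2 * 3 := by
        have : 2 * β ^ 2 * ∫ ω, E.Dl h θ K ω ^ 2 ∂PP B ≤ 2 * β ^ 2 * 3 :=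
          mul_le_mul_of_nonneg_left hDK (by positivity)
        linarith
    _ ≤ 424 * β ^ 2 := by nlinarith [sq_nonneg β]
    _ ≤ 424 * (1 / (4 * E.q ^ 2)) := by linarith
    _ = 106 / E.q ^ 2 := by field_simp; norm_num

end Env

end Pool.Agent.T2H99.CW
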