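import Pool.Agent.T2H99.CW.M2

/-!
Likely events of the environment.
-/

set_option autoImplicit false
set_option linter.unusedSectionVars false

open MeasureTheory Finset

namespace Pool.Agent.T2H99.CW

variable {B : Type} [Fintype B] [Nonempty B] [MeasurableSpace B] [DiscreteMeasurableSpace B]

lemma markov {k : ℕ} {F : (ℕ → B) → ℝ} (hF : Dep k F) (h0 : ∀ ω, 0 ≤ F ω) {c : ℝ} (hc : 0 < c)
    {S : Set (ℕ → B)} (hS : ∀ ω ∈ S, c ≤ F ω) :
    (PP B).real S ≤ (∫ ω, F ω ∂PP B) / c := by
  rw [le_div_iff₀ hc, mul_comm]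
  have h1 := mul_meas_ge_le_integral_of_nonneg (μ := PP B) (f := F)
    (Filter.Eventually.of_forall h0) hF.integrable c
  refine le_trans ?_ h1
  refine mul_le_mul_of_nonneg_left ?_ hc.le
  exact measureReal_mono (fun ω hω => hS ω hω)

namespace Env

variable (E : Env B)

lemma int_bt (s : ℕ) : ∫ ω, (if E.bt (ω s) then (1 : ℝ) else 0) ∂PP B = E.q ^ 2 := by
  rw [E.one_step_env (fun _ _ b _ => if b then (1 : ℝ) else 0) fun a b c => dep_const _ _]
  simp [av]
  ring

lemma int_sl (s : ℕ) : ∫ ω, (if E.sl (ω s) then (1 : ℝ) else 0) ∂PP B =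
    2 * E.q * (1 - E.q) := by
  rw [E.one_step_env (fun _ a _ _ => if a then (1 : ℝ) else 0) fun a b c => dep_const _ _]
  simp [av]
  ring

lemma dep_bt {s k : ℕ} (h : s < k) : Dep k fun ω : ℕ → B => if E.bt (ω s) then (1 : ℝ) else 0 :=
  dep_coord (fun b => if E.bt b then (1 : ℝ) else 0) h

lemma dep_sl {s k : ℕ} (h : s < k) : Dep k fun ω : ℕ → B => if E.sl (ω s) then (1 : ℝ) else 0 :=
  dep_coord (fun b => if E.sl b then (1 : ℝ) else 0) h

/-- No double step: likely. -/
theorem pr_bt (K : ℕ) : (PP B).real {ω | ∃ s < K, E.bt (ω (s + 1)) = true} ≤ K * E.q ^ 2 := by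
  have h1 := markov (B := B) (k := K + 1)
    (F := fun ω => ∑ s ∈ range K, if E.bt (ω (s + 1)) then (1 : ℝ) else 0)
    (dep_sum _ fun s hs => E.dep_bt (by have := mem_range.1 hs; omega))
    (fun ω => sum_nonneg fun s _ => by split_ifs <;> norm_num) one_pos
    (S := {ω | ∃ s < K, E.bt (ω (s + 1)) = true}) (by
      rintro ω ⟨s, hs, hb⟩
      have := single_le_sum (f := fun s => if E.bt (ω (s + 1)) then (1 : ℝ) else 0)
        (fun s _ => by split_ifs <;> norm_num) (mem_range.2 hs)
      simpa [hb] using this)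
  rw [integral_finsetSum _ fun s _ => (E.dep_bt (Nat.lt_succ_self (s + 1))).integrable] at h1
  simp only [E.int_bt] at h1
  simpa using h1

/-- Few single steps. -/
theorem pr_sl (n : ℕ) {c : ℝ} (hc : 0 < c) :
    (PP B).real {ω | c ≤ ∑ s ∈ range n, if E.sl (ω (s + 1)) then (1 : ℝ) else 0} ≤
      n * (2 * E.q * (1 - E.q)) / c := by
  have h1 := markov (B := B) (k := n + 1)
    (F := fun ω => ∑ s ∈ range n, if E.sl (ω (s + 1)) then (1 : ℝ) else 0)
    (dep_sum _ fun s hs => E.dep_sl (by have := mem_range.1 hs; omega))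
    (fun ω => sum_nonneg fun s _ => by split_ifs <;> norm_num) hc
    (S := {ω | c ≤ ∑ s ∈ range n, if E.sl (ω (s + 1)) then (1 : ℝ) else 0}) (fun ω hω => hω)
  rw [integral_finsetSum _ fun s _ => (E.dep_sl (Nat.lt_succ_self (s + 1))).integrable] at h1
  simp only [E.int_sl] at h1
  simpa using h1

lemma int_run (t L : ℕ) : ∫ ω, ∏ s ∈ range L, (if E.sl (ω (t + 1 + s)) then (0 : ℝ) else 1) ∂PP B =
    (1 - 2 * E.q * (1 - E.q)) ^ L := by
  induction L with
  | zero => simp
  | succ L ih =>
    simp only [prod_range_succ]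
    have hd : Dep (t + 1 + L) fun ω : ℕ → B =>
        ∏ s ∈ range L, (if E.sl (ω (t + 1 + s)) then (0 : ℝ) else 1) :=
      dep_prod _ fun s hs => dep_coord (fun b => if E.sl b then (0 : ℝ) else 1)
        (by have := mem_range.1 hs; omega)
    rw [E.one_step_env (t := t + 1 + L) (fun ω a _ _ =>
      (∏ s ∈ range L, (if E.sl (ω (t + 1 + s)) then (0 : ℝ) else 1)) * if a then (0 : ℝ) else 1)
      fun a b c => hd.comp fun x => x * if a then (0 : ℝ) else 1]
    have h1 : ∀ ω : ℕ → B, E.av (fun a _ _ =>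
      (∏ s ∈ range L, (if E.sl (ω (t + 1 + s)) then (0 : ℝ) else 1)) *
        if a then (0 : ℝ) else 1) = (∏ s ∈ range L, (if E.sl (ω (t + 1 + s)) then (0 : ℝ) else 1)) *
        (1 - 2 * E.q * (1 - E.q)) := by
      intro ω
      simp [av]
      ring
    simp only [h1]
    rw [integral_mul_const, ih, pow_succ]

/-- No long period: likely. -/
theorem pr_run (K L : ℕ) :
    (PP B).real {ω | ∃ t < K, ∀ s < L, E.sl (ω (t + 1 + s)) = false} ≤
      K * (1 - 2 * E.q * (1 - E.q)) ^ L := by
  have hd : ∀ t < K, Dep (K + L) fun ω : ℕ → B =>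
      ∏ s ∈ range L, (if E.sl (ω (t + 1 + s)) then (0 : ℝ) else 1) := fun t ht =>
    dep_prod _ fun s hs => dep_coord (fun b => if E.sl b then (0 : ℝ) else 1)
        (by have := mem_range.1 hs; omega)
  have hnn : ∀ (t : ℕ) (ω : ℕ → B), 0 ≤
      ∏ s ∈ range L, (if E.sl (ω (t + 1 + s)) then (0 : ℝ) else 1) := fun t ω =>
    prod_nonneg fun s _ => by split_ifs <;> norm_num
  have h1 := markov (B := B) (k := K + L)
    (F := fun ω => ∑ t ∈ range K, ∏ s ∈ range L, (if E.sl (ω (t + 1 + s)) then (0 : ℝ) else 1))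
    (dep_sum _ fun t ht => hd t (mem_range.1 ht))
    (fun ω => sum_nonneg fun t _ => hnn t ω) one_pos
    (S := {ω | ∃ t < K, ∀ s < L, E.sl (ω (t + 1 + s)) = false}) (by
      rintro ω ⟨t, ht, hb⟩
      have := single_le_sum (f := fun t =>
        ∏ s ∈ range L, (if E.sl (ω (t + 1 + s)) then (0 : ℝ) else 1))
        (fun t _ => hnn t ω) (mem_range.2 ht)
      refine le_trans ?_ this
      rw [prod_eq_one]
      intro s hs
      rw [hb s (mem_range.1 hs)]
      simp)
  rw [integral_finsetSum _ fun t ht => (hd t (mem_range.1 ht)).integrable] at h1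
  simp only [E.int_run] at h1
  simpa using h1

/-- The accumulated difference stays small: likely. -/
theorem pr_R {x : ℝ} (hx0 : 0 < x) (hx : x ≤ E.q) (K : ℕ) (r : ℝ) :
    (PP B).real {ω | ∃ t < K + 1, r ≤ |E.R t ω|} ≤
      (K + 1) * (4 * (1 + 3 * x ^ 2 / E.q) ^ K) / Real.exp (x * r) := by
  have hq := E.q_pos
  have hd : ∀ t < K + 1, Dep (K + 1) fun ω : ℕ → B =>
      Real.exp (x * E.R t ω) + Real.exp (-x * E.R t ω) := fun t ht =>
    ((E.dep_R t).mono ht.le).comp fun r => Real.exp (x * r) + Real.exp (-x * r)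
  have h1 := markov (B := B) (k := K + 1)
    (F := fun ω => ∑ t ∈ range (K + 1), (Real.exp (x * E.R t ω) + Real.exp (-x * E.R t ω)))
    (dep_sum _ fun t ht => hd t (mem_range.1 ht))
    (fun ω => sum_nonneg fun t _ => by positivity) (Real.exp_pos (x * r))
    (S := {ω | ∃ t < K + 1, r ≤ |E.R t ω|}) (by
      rintro ω ⟨t, ht, hb⟩
      have := single_le_sum (f := fun t =>
        (Real.exp (x * E.R t ω) + Real.exp (-x * E.R t ω)))
        (fun t _ => by positivity) (mem_range.2 ht)
      refine le_trans ?_ this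
      rcases abs_cases (E.R t ω) with ⟨h, _⟩ | ⟨h, _⟩
      · rw [h] at hb
        have h2 : Real.exp (x * r) ≤ Real.exp (x * E.R t ω) :=
          Real.exp_le_exp.2 (by nlinarith)
        have := Real.exp_pos (-x * E.R t ω)
        linarith
      · rw [h] at hb
        have h2 : Real.exp (x * r) ≤ Real.exp (-x * E.R t ω) :=
          Real.exp_le_exp.2 (by nlinarith)
        have := Real.exp_pos (x * E.R t ω)
        linarith)
  refine h1.trans ?_
  refine div_le_div_of_nonneg_right ?_ (Real.exp_pos _).le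
  rw [integral_finsetSum _ fun t ht => (hd t (mem_range.1 ht)).integrable]
  have h2 : ∀ t ∈ range (K + 1), ∫ ω, (Real.exp (x * E.R t ω) + Real.exp (-x * E.R t ω)) ∂PP B ≤
      4 * (1 + 3 * x ^ 2 / E.q) ^ K := by
    intro t ht
    have ht' := mem_range.1 ht
    rw [integral_add ((E.dep_R t).comp fun r => Real.exp (x * r)).integrable
      ((E.dep_R t).comp fun r => Real.exp (-x * r)).integrable]
    have e1 := E.exp_R'' (x := x) (by rw [abs_of_pos hx0]; exact hx) t
    have e2 := E.exp_R'' (x := -x) (by rw [abs_neg, abs_of_pos hx0]; exact hx) t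
    rw [neg_sq] at e2
    have h3 : (1 + 3 * x ^ 2 / E.q) ^ t ≤ (1 + 3 * x ^ 2 / E.q) ^ K :=
      pow_le_pow_right₀ (by have : 0 ≤ 3 * x ^ 2 / E.q := by positivity
                            linarith) (by omega)
    linarith
  refine (sum_le_sum h2).trans ?_
  simp

/-- The sign of the parity. -/
def kap (t : ℕ) (ω : ℕ → B) : ℝ := if E.kp t ω then 1 else -1

lemma dep_kap (t : ℕ) : Dep (t + 1) (E.kap t) :=
  (E.dep_kp t).comp fun b => if b = true then (1 : ℝ) else -1

lemma kap_sq (t : ℕ) (ω : ℕ → B) : E.kap t ω ^ 2 = 1 := by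
  unfold kap; split_ifs <;> norm_num

lemma window_aux (a n : ℕ) :
    ∫ ω, (∑ s ∈ range n, E.kap (a + s) ω) * E.kap (a + n) ω ∂PP B ≤ 1 / (2 * E.q) ∧
    ∫ ω, (∑ s ∈ range n, E.kap (a + s) ω) ^ 2 ∂PP B ≤ n * (1 + 1 / E.q) := by
  have hq := E.q_pos
  have hq' := E.q_le
  have dS : ∀ n, Dep (a + n) fun ω : ℕ → B => ∑ s ∈ range n, E.kap (a + s) ω := fun n =>
    dep_sum _ fun s hs => (E.dep_kap (a + s)).mono (by have := mem_range.1 hs; omega)
  induction n with
  | zero =>
    constructor
    · simp only [range_zero, sum_empty, zero_mul, integral_zero]; positivity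
    · simp
  | succ n ih =>
    obtain ⟨ih1, ih2⟩ := ih
    constructor
    · let f : (ℕ → B) → Bool → Bool → ℝ → ℝ := fun ω x _ _ =>
        (∑ s ∈ range (n + 1), E.kap (a + s) ω) * (if x then - E.kap (a + n) ω else E.kap (a + n) ω)
      have hf : ∀ x b s, Dep (a + n + 1) fun ω => f ω x b s := fun x b s =>
        (dS (n + 1)).comp₂ (E.dep_kap (a + n)) fun y z => y * (if x then -z else z)
      have e1 : ∀ ω, (∑ s ∈ range (n + 1), E.kap (a + s) ω) * E.kap (a + (n + 1)) ω =
          f ω (E.sl (ω (a + n + 1))) (E.bt (ω (a + n + 1))) (E.sg (ω (a + n + 1))) := by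
        intro ω
        simp only [f]
        congr 1
        unfold kap
        rw [show a + (n + 1) = (a + n) + 1 by ring, kp]
        cases E.sl (ω (a + n + 1)) <;> cases E.kp (a + n) ω <;> simp
      simp only [e1]
      rw [E.one_step_env f hf]
      have e2 : ∀ ω, E.av (f ω) = (1 - 4 * E.q * (1 - E.q)) *
          ((∑ s ∈ range n, E.kap (a + s) ω) * E.kap (a + n) ω + 1) := by
        intro ω
        have := E.kap_sq (a + n) ω
        simp only [f, av, sum_range_succ]
        simp only [Bool.false_eq_true, if_false, if_true]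
        linear_combination (1 - 4 * E.q * (1 - E.q)) * this
      simp only [e2]
      rw [integral_const_mul, integral_add
        (((dS n).mono (Nat.le_succ _)).comp₂ (E.dep_kap (a + n)) fun x y => x * y).integrable
        (integrable_const _)]
      simp only [integral_const, probReal_univ, one_smul]
      have h1 : 0 ≤ 1 - 4 * E.q * (1 - E.q) := by nlinarith
      calc (1 - 4 * E.q * (1 - E.q)) *
          ((∫ ω, (∑ s ∈ range n, E.kap (a + s) ω) * E.kap (a + n) ω ∂PP B) + 1)
          ≤ (1 - 4 * E.q * (1 - E.q)) * (1 / (2 * E.q) + 1) :=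
            mul_le_mul_of_nonneg_left (by linarith) h1
        _ ≤ (1 - 2 * E.q) * (1 / (2 * E.q) + 1) := by
            refine mul_le_mul_of_nonneg_right (by nlinarith) (by positivity)
        _ = 1 / (2 * E.q) - 2 * E.q := by field_simp; ring
        _ ≤ 1 / (2 * E.q) := by linarith
    · have e1 : ∀ ω, (∑ s ∈ range (n + 1), E.kap (a + s) ω) ^ 2 =
          (∑ s ∈ range n, E.kap (a + s) ω) ^ 2 +
          (2 * ((∑ s ∈ range n, E.kap (a + s) ω) * E.kap (a + n) ω) + 1) := by
        intro ω
        have := E.kap_sq (a + n) ω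
        rw [sum_range_succ]
        linear_combination this
      simp only [e1]
      have i1 : Integrable (fun ω => (∑ s ∈ range n, E.kap (a + s) ω) ^ 2) (PP B) :=
        ((dS n).comp fun x => x ^ 2).integrable
      have i2 : Integrable (fun ω => 2 * ((∑ s ∈ range n, E.kap (a + s) ω) * E.kap (a + n) ω))
          (PP B) :=
        (((dS n).mono (Nat.le_succ _)).comp₂ (E.dep_kap (a + n)) fun x y => 2 * (x * y)).integrable
      have i3 : Integrable (fun ω => 2 * ((∑ s ∈ range n, E.kap (a + s) ω) * E.kap (a + n) ω) + 1)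
          (PP B) := i2.add (integrable_const _)
      rw [integral_add i1 i3, integral_add i2 (integrable_const _), integral_const_mul]
      simp only [integral_const, probReal_univ, one_smul]
      have h2 : 2 * (1 / (2 * E.q)) = 1 / E.q := by field_simp
      push_cast
      have : 2 * ∫ ω, (∑ s ∈ range n, E.kap (a + s) ω) * E.kap (a + n) ω ∂PP B ≤ 1 / E.q := by
        rw [← h2]; linarith
      linarith

/-- The two parities are balanced in a window: likely. -/
theorem pr_window (a : ℕ) {n : ℕ} (hn : 0 < n) :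
    (PP B).real {ω | (n : ℝ) / 2 ≤ |∑ s ∈ range n, E.kap (a + s) ω|} ≤
      4 * (1 + 1 / E.q) / n := by
  have hn' : (0 : ℝ) < n := by exact_mod_cast hn
  have dS : Dep (a + n) fun ω : ℕ → B => ∑ s ∈ range n, E.kap (a + s) ω :=
    dep_sum _ fun s hs => (E.dep_kap (a + s)).mono (by have := mem_range.1 hs; omega)
  have h1 := markov (B := B) (k := a + n) (F := fun ω => (∑ s ∈ range n, E.kap (a + s) ω) ^ 2)
    (dS.comp fun x => x ^ 2) (fun ω => sq_nonneg _) (c := ((n : ℝ) / 2) ^ 2) (by positivity)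
    (S := {ω | (n : ℝ) / 2 ≤ |∑ s ∈ range n, E.kap (a + s) ω|}) (by
      intro ω hω
      rw [← sq_abs (∑ s ∈ range n, E.kap (a + s) ω)]
      exact pow_le_pow_left₀ (by positivity) hω 2)
  refine h1.trans ?_
  rw [div_le_div_iff₀ (by positivity) hn']
  have h2 := (E.window_aux a n).2
  have h3 := mul_le_mul_of_nonneg_right h2 hn'.le
  refine h3.trans (le_of_eq ?_)
  ring

end Env

end Pool.Agent.T2H99.CW
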