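import Pool.Agent.T2H99.CW.D3

/-!
The parameters of the graphs and their sizes.
-/

set_option autoImplicit false
set_option linter.unusedSectionVars false

open MeasureTheory Finset Filter Topology

namespace Pool.Agent.T2H99.CW

/-- The size of a clique. -/
@[irreducible] def nn (k : ℕ) : ℕ := k ^ 40

/-- The number of cross edges at a vertex. -/
def mm (k : ℕ) : ℕ := k ^ 16

/-- The degree. -/
def SS (k : ℕ) : ℕ := nn k - 1 + mm k

/-- The probability of a given neighbour. -/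
noncomputable def hh (k : ℕ) : ℝ := 1 / (2 * SS k)

/-- The probability to change sides. -/
noncomputable def qq (k : ℕ) : ℝ := mm k * hh k

/-- The exponent. -/
noncomputable def th (k : ℕ) : ℝ := - Real.log (1 - hh k)

/-- The time horizon. -/
def KK (k : ℕ) : ℕ := 8 * k * SS k

/-- The bound of the periods. -/
def LK (k : ℕ) : ℕ := k ^ 25

/-- The bound of the scaled differences. -/
noncomputable def et (k : ℕ) : ℝ := 1 / (k : ℝ) ^ 6

section basic

variable {k : ℕ}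

lemma one_le_nn (hk : 2 ≤ k) : 1 ≤ nn k := by
  unfold nn
  exact Nat.one_le_pow _ _ (by omega)

lemma nn_cast : (nn k : ℝ) = (k : ℝ) ^ 40 := by unfold nn; push_cast; rfl

lemma mm_cast : (mm k : ℝ) = (k : ℝ) ^ 16 := by unfold mm; push_cast; rfl

lemma LK_cast : (LK k : ℝ) = (k : ℝ) ^ 25 := by unfold LK; push_cast; rfl

lemma k_pos (hk : 2 ≤ k) : (2 : ℝ) ≤ k := by exact_mod_cast hk

lemma SS_cast (hk : 2 ≤ k) : (SS k : ℝ) = (k : ℝ) ^ 40 - 1 + (k : ℝ) ^ 16 := by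
  unfold SS
  rw [Nat.cast_add, Nat.cast_sub (one_le_nn hk), nn_cast, mm_cast]
  simp

lemma mm_le_nn (hk : 2 ≤ k) : (k : ℝ) ^ 16 ≤ (k : ℝ) ^ 40 :=
  pow_le_pow_right₀ (by linarith [k_pos hk]) (by norm_num)

lemma nn_le_SS (hk : 2 ≤ k) : (k : ℝ) ^ 40 ≤ SS k := by
  rw [SS_cast hk]
  have : (1 : ℝ) ≤ (k : ℝ) ^ 16 := one_le_pow₀ (by linarith [k_pos hk])
  linarith

lemma SS_le (hk : 2 ≤ k) : (SS k : ℝ) ≤ 2 * (k : ℝ) ^ 40 := by
  rw [SS_cast hk]
  linarith [mm_le_nn hk]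

lemma SS_pos (hk : 2 ≤ k) : (0 : ℝ) < SS k := by
  have := nn_le_SS hk
  have h2 : (0 : ℝ) < (k : ℝ) ^ 40 := by have := k_pos hk; positivity
  linarith

lemma hh_pos (hk : 2 ≤ k) : 0 < hh k := by
  unfold hh; have := SS_pos hk; positivity

lemma hh_ge (hk : 2 ≤ k) : 1 / (4 * (k : ℝ) ^ 40) ≤ hh k := by
  unfold hh
  have := SS_pos hk
  exact one_div_le_one_div_of_le (by positivity) (by linarith [SS_le hk])

lemma hh_le (hk : 2 ≤ k) : hh k ≤ 1 / (2 * (k : ℝ) ^ 40) := by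
  unfold hh
  have h0 := k_pos hk
  exact one_div_le_one_div_of_le (by positivity) (by linarith [nn_le_SS hk])

lemma hh_le_half (hk : 2 ≤ k) : hh k ≤ 1 / 4 := by
  refine (hh_le hk).trans ?_
  have h0 := k_pos hk
  have : (2 : ℝ) ≤ (k : ℝ) ^ 40 := by
    calc (2 : ℝ) ≤ k := h0
      _ = (k : ℝ) ^ 1 := (pow_one _).symm
      _ ≤ (k : ℝ) ^ 40 := pow_le_pow_right₀ (by linarith) (by norm_num)
  rw [div_le_div_iff₀ (by positivity) (by norm_num)]
  linarith

lemma th_ge (hk : 2 ≤ k) : hh k ≤ th k := by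
  unfold th
  have h1 := hh_le_half hk
  have := Real.log_le_sub_one_of_pos (by linarith : 0 < 1 - hh k)
  linarith

lemma th_le (hk : 2 ≤ k) : th k ≤ 2 * hh k := by
  unfold th
  have h0 := hh_pos hk
  have h1 := hh_le_half hk
  have h2 : 0 < 1 - hh k := by linarith
  have := Real.one_sub_inv_le_log_of_pos h2
  have h3 : (1 - hh k)⁻¹ ≤ 1 + 2 * hh k := by
    rw [inv_le_comm₀ h2 (by linarith), ← one_div, div_le_iff₀ (by linarith)]
    nlinarith
  linarith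

lemma th_pos (hk : 2 ≤ k) : 0 < th k := (hh_pos hk).trans_le (th_ge hk)

lemma qq_eq : qq k = (k : ℝ) ^ 16 / (2 * SS k) := by
  unfold qq hh; rw [mm_cast]; ring

lemma qq_pos (hk : 2 ≤ k) : 0 < qq k := by
  rw [qq_eq]; have := SS_pos hk; have := k_pos hk; positivity

lemma qq_ge (hk : 2 ≤ k) : 1 / (4 * (k : ℝ) ^ 24) ≤ qq k := by
  rw [qq_eq]
  have h0 := k_pos hk
  have h1 := SS_le hk
  have h2 := SS_pos hk
  rw [div_le_div_iff₀ (by positivity) (by positivity)]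
  calc 1 * (2 * (SS k : ℝ)) ≤ 4 * (k : ℝ) ^ 40 := by linarith
    _ = (k : ℝ) ^ 16 * (4 * (k : ℝ) ^ 24) := by ring

lemma qq_le (hk : 2 ≤ k) : qq k ≤ 1 / (2 * (k : ℝ) ^ 24) := by
  rw [qq_eq]
  have h0 := k_pos hk
  have h1 := nn_le_SS hk
  have h2 := SS_pos hk
  rw [div_le_div_iff₀ (by positivity) (by positivity)]
  calc (k : ℝ) ^ 16 * (2 * (k : ℝ) ^ 24) = 2 * (k : ℝ) ^ 40 := by ring
    _ ≤ 1 * (2 * (SS k : ℝ)) := by linarith

lemma qq_le_quarter (hk : 2 ≤ k) : qq k ≤ 1 / 4 := by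
  refine (qq_le hk).trans ?_
  have h0 := k_pos hk
  have : (2 : ℝ) ≤ (k : ℝ) ^ 24 := by
    calc (2 : ℝ) ≤ k := h0
      _ = (k : ℝ) ^ 1 := (pow_one _).symm
      _ ≤ (k : ℝ) ^ 24 := pow_le_pow_right₀ (by linarith) (by norm_num)
  rw [div_le_div_iff₀ (by positivity) (by norm_num)]
  linarith

lemma hh_qq (hk : 2 ≤ k) : 48 * hh k ≤ qq k := by
  unfold qq
  rw [mm_cast]
  refine mul_le_mul_of_nonneg_right ?_ (hh_pos hk).le
  have h0 := k_pos hk
  calc (48 : ℝ) ≤ 2 ^ 16 := by norm_num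
    _ ≤ (k : ℝ) ^ 16 := pow_le_pow_left₀ (by norm_num) h0 16

lemma KK_cast : (KK k : ℝ) = 8 * k * SS k := by unfold KK; push_cast; ring

lemma et_pos (hk : 2 ≤ k) : 0 < et k := by unfold et; have := k_pos hk; positivity

end basic

/-! Limits. -/

lemma tendsto_inv_pow (j : ℕ) (hj : j ≠ 0) : Tendsto (fun k : ℕ => 1 / (k : ℝ) ^ j) atTop (𝓝 0) := by
  have h := (tendsto_pow_atTop hj).comp (tendsto_natCast_atTop_atTop (R := ℝ))
  refine h.inv_tendsto_atTop.congr fun k => ?_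
  simp [Function.comp_def]

lemma tendsto_pow_exp (j : ℕ) {c : ℝ} (hc : 0 < c) :
    Tendsto (fun k : ℕ => (k : ℝ) ^ j * Real.exp (-(c * k))) atTop (𝓝 0) := by
  have h1 := Real.tendsto_pow_mul_exp_neg_atTop_nhds_zero j
  have h2 : Tendsto (fun k : ℕ => c * (k : ℝ)) atTop atTop :=
    (tendsto_natCast_atTop_atTop (R := ℝ)).const_mul_atTop hc
  have h3 := (h1.comp h2).const_mul (1 / c ^ j)
  simp only [mul_zero] at h3
  refine h3.congr fun k => ?_
  simp only [Function.comp]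
  rw [mul_pow]
  field_simp

end Pool.Agent.T2H99.CW
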