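import Mathlib

/-!
Sequences of independent uniform letters of a finite alphabet.
-/

set_option autoImplicit false
set_option linter.unusedSectionVars false

open MeasureTheory Finset
open scoped ENNReal NNReal

namespace Pool.Agent.T2H99.CW

section dep

variable {B : Type}

/-- The function only looks at the first `k` letters. -/
def Dep {α : Type} (k : ℕ) (F : (ℕ → B) → α) : Prop :=
  ∀ ω ω' : ℕ → B, (∀ i < k, ω i = ω' i) → F ω = F ω'

lemma Dep.mono {α : Type} {k l : ℕ} {F : (ℕ → B) → α} (h : Dep k F) (hkl : k ≤ l) : Dep l F :=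
  fun ω ω' hh => h ω ω' fun i hi => hh i (by omega)

lemma dep_const {α : Type} (c : α) (k : ℕ) : Dep (B := B) k (fun _ => c) := fun _ _ _ => rfl

lemma dep_coord {α : Type} (f : B → α) {i k : ℕ} (hi : i < k) :
    Dep (B := B) k (fun ω => f (ω i)) := fun ω ω' h => by simp only [h i hi]

lemma Dep.comp {α β : Type} {k : ℕ} {F : (ℕ → B) → α} (h : Dep k F) (g : α → β) :
    Dep k (fun ω => g (F ω)) := fun ω ω' hh => by simp only [h ω ω' hh]

lemma Dep.comp₂ {α β γ : Type} {k : ℕ} {F : (ℕ → B) → α} {G : (ℕ → B) → β} (hF : Dep k F)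
    (hG : Dep k G) (g : α → β → γ) :
    Dep k (fun ω => g (F ω) (G ω)) := fun ω ω' hh => by simp only [hF ω ω' hh, hG ω ω' hh]

lemma Dep.comp₃ {α β γ δ : Type} {k : ℕ} {F : (ℕ → B) → α} {G : (ℕ → B) → β} {H : (ℕ → B) → γ}
    (hF : Dep k F) (hG : Dep k G) (hH : Dep k H) (g : α → β → γ → δ) :
    Dep k (fun ω => g (F ω) (G ω) (H ω)) :=
  fun ω ω' hh => by simp only [hF ω ω' hh, hG ω ω' hh, hH ω ω' hh]

lemma dep_sum {ι : Type} (s : Finset ι) {k : ℕ} {F : ι → (ℕ → B) → ℝ}
    (h : ∀ i ∈ s, Dep k (F i)) : Dep k (fun ω => ∑ i ∈ s, F i ω) :=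
  fun ω ω' hh => sum_congr rfl fun i hi => h i hi ω ω' hh

lemma dep_prod {ι : Type} (s : Finset ι) {k : ℕ} {F : ι → (ℕ → B) → ℝ}
    (h : ∀ i ∈ s, Dep k (F i)) : Dep k (fun ω => ∏ i ∈ s, F i ω) :=
  fun ω ω' hh => prod_congr rfl fun i hi => h i hi ω ω' hh

/-- Apply permutations coordinatewise. -/
def act (e : ℕ → Equiv.Perm B) (ω : ℕ → B) : ℕ → B := fun i => e i (ω i)

lemma Dep.act {α : Type} {k : ℕ} {F : (ℕ → B) → α} (h : Dep k F) (e : ℕ → Equiv.Perm B) :
    Dep k (fun ω => F (CW.act e ω)) :=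
  fun ω ω' hh => h _ _ fun i hi => by simp only [CW.act, hh i hi]

lemma Dep.factor [Nonempty B] {α : Type} {k : ℕ} {F : (ℕ → B) → α} (h : Dep k F) :
    ∃ G : (Fin k → B) → α, F = fun ω => G (fun i => ω i) := by
  classical
  obtain ⟨b0⟩ := ‹Nonempty B›
  refine ⟨fun g => F fun i => if hi : i < k then g ⟨i, hi⟩ else b0, ?_⟩
  funext ω
  apply h
  intro i hi
  simp [hi]

end dep

section gen

variable {B : Type} [Fintype B] [Nonempty B] [MeasurableSpace B] [DiscreteMeasurableSpace B]

/-- The uniform law on a finite type. -/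
noncomputable def uni (B : Type) [Fintype B] [MeasurableSpace B] : Measure B :=
  (Fintype.card B : ℝ≥0∞)⁻¹ • Measure.count

instance : IsProbabilityMeasure (uni B) := by
  constructor
  simp only [uni, Measure.smul_apply, smul_eq_mul]
  rw [Measure.count_apply MeasurableSet.univ, Set.encard_univ, ENat.card_eq_coe_fintype_card]
  simp only [ENat.toENNReal_coe]
  exact ENNReal.inv_mul_cancel (by simp) (by simp)

lemma uni_map (e : Equiv.Perm B) : (uni B).map e = uni B := by
  unfold uni
  rw [Measure.map_smul]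
  congr 1
  ext s hs
  rw [Measure.map_apply (measurable_of_finite _) hs, Measure.count_apply_finite' (Set.toFinite _)
    (measurable_of_finite _ hs), Measure.count_apply_finite' (Set.toFinite _) hs]
  congr 1
  rw [← Set.ncard_eq_toFinset_card, ← Set.ncard_eq_toFinset_card]
  exact Set.ncard_preimage_of_injective_subset_range e.injective (by simp [e.surjective.range_eq])

/-- The law of a sequence of independent uniform letters. -/
noncomputable def PP (B : Type) [Fintype B] [Nonempty B] [MeasurableSpace B]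
    [DiscreteMeasurableSpace B] : Measure (ℕ → B) := Measure.infinitePi fun _ => uni B

instance : IsProbabilityMeasure (PP B) := by unfold PP; infer_instance

lemma Dep.measurable {α : Type} [MeasurableSpace α] {k : ℕ} {F : (ℕ → B) → α} (h : Dep k F) :
    Measurable F := by
  obtain ⟨G, rfl⟩ := h.factor
  refine (measurable_of_finite G).comp ?_
  exact measurable_pi_lambda _ fun i => measurable_pi_apply _

lemma Dep.bdd {k : ℕ} {F : (ℕ → B) → ℝ} (h : Dep k F) : ∃ C : ℝ, ∀ ω, |F ω| ≤ C := by
  obtain ⟨G, rfl⟩ := h.factor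
  refine ⟨∑ g, |G g|, fun ω => ?_⟩
  exact single_le_sum (f := fun g => |G g|) (fun g _ => abs_nonneg _) (mem_univ _)

lemma Dep.integrable {k : ℕ} {F : (ℕ → B) → ℝ} (h : Dep k F) : Integrable F (PP B) := by
  obtain ⟨C, hC⟩ := h.bdd
  exact Integrable.of_bound h.measurable.aestronglyMeasurable C
    (Filter.Eventually.of_forall fun ω => by simpa using hC ω)

lemma measurable_act (e : ℕ → Equiv.Perm B) : Measurable (act e) :=
  measurable_pi_lambda _ fun i => (measurable_of_finite _).comp (measurable_pi_apply i)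

lemma PP_map_act (e : ℕ → Equiv.Perm B) : (PP B).map (act e) = PP B := by
  unfold PP
  have h := Measure.infinitePi_map_pi (μ := fun _ : ℕ => uni B) (f := fun i => (e i : B → B))
    (fun i => measurable_of_finite _)
  have h2 : act e = fun (x : ℕ → B) i => e i (x i) := rfl
  rw [h2, h]
  congr 1
  funext i
  exact uni_map (e i)

lemma integral_act (e : ℕ → Equiv.Perm B) {F : (ℕ → B) → ℝ} (hF : Measurable F) :
    ∫ ω, F (act e ω) ∂PP B = ∫ ω, F ω ∂PP B := by
  conv_rhs => rw [← PP_map_act e]
  rw [integral_map (measurable_act e).aemeasurable hF.aestronglyMeasurable]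

/-- Averaging over the last letter. -/
theorem one_step {t : ℕ} {F : (ℕ → B) → B → ℝ} (hF : ∀ b, Dep t (fun ω => F ω b)) :
    ∫ ω, F ω (ω t) ∂PP B = ∫ ω, (∑ b, F ω b) / Fintype.card B ∂PP B := by
  classical
  have hcard : (Fintype.card B : ℝ) ≠ 0 := by
    exact_mod_cast Fintype.card_ne_zero
  have hI : ∀ b b' : B, Dep (t + 1) (fun ω : ℕ → B => if ω t = b' then F ω b else 0) := by
    intro b b' ω ω' h
    have h1 : F ω b = F ω' b := hF b ω ω' fun i hi => h i (by omega)
    simp only
    rw [h t (by omega), h1]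
  have h1 : ∀ b b' : B, ∫ ω, (if ω t = b' then F ω b else 0) ∂PP B =
      ∫ ω, (if ω t = b then F ω b else 0) ∂PP B := by
    intro b b'
    let e : ℕ → Equiv.Perm B := fun i => if i = t then Equiv.swap b b' else Equiv.refl B
    rw [← integral_act e (hI b b').measurable]
    apply integral_congr_ae
    refine Filter.Eventually.of_forall fun ω => ?_
    have h2 : F (CW.act e ω) b = F ω b := by
      apply hF b
      intro i hi
      have : i ≠ t := by omega
      simp [CW.act, e, this]
    have h3 : (CW.act e ω) t = Equiv.swap b b' (ω t) := by simp [CW.act, e]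
    simp only [h2, h3]
    congr 1
    rw [Equiv.swap_apply_eq_iff, Equiv.swap_apply_right]
  have h4 : ∀ b : B, ∫ ω, (if ω t = b then F ω b else 0) ∂PP B =
      (∫ ω, F ω b ∂PP B) / Fintype.card B := by
    intro b
    rw [eq_div_iff hcard]
    have h5 : ∑ b' : B, ∫ ω, (if ω t = b' then F ω b else 0) ∂PP B = ∫ ω, F ω b ∂PP B := by
      rw [← integral_finsetSum _ fun b' _ => (hI b b').integrable]
      apply integral_congr_ae
      refine Filter.Eventually.of_forall fun ω => ?_
      simp
    rw [← h5, sum_congr rfl fun b' _ => h1 b b', sum_const, nsmul_eq_mul, mul_comm, card_univ]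
  calc ∫ ω, F ω (ω t) ∂PP B = ∫ ω, ∑ b, (if ω t = b then F ω b else 0) ∂PP B := by
        apply integral_congr_ae
        refine Filter.Eventually.of_forall fun ω => ?_
        simp
    _ = ∑ b, ∫ ω, (if ω t = b then F ω b else 0) ∂PP B := by
        rw [integral_finsetSum _ fun b _ => (hI b b).integrable]
    _ = ∑ b, (∫ ω, F ω b ∂PP B) / Fintype.card B := sum_congr rfl fun b _ => h4 b
    _ = ∫ ω, (∑ b, F ω b) / Fintype.card B ∂PP B := by
        rw [integral_div, integral_finsetSum _ fun b _ => (hF b).integrable, sum_div]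

lemma integral_mono_dep {k : ℕ} {F G : (ℕ → B) → ℝ} (hF : Dep k F) (hG : Dep k G)
    (h : ∀ ω, F ω ≤ G ω) : ∫ ω, F ω ∂PP B ≤ ∫ ω, G ω ∂PP B :=
  integral_mono hF.integrable hG.integrable h

/-- The averages of a step are bounded: so is the expectation. -/
theorem one_step_le {t : ℕ} {F : (ℕ → B) → B → ℝ} {G : (ℕ → B) → ℝ}
    (hF : ∀ b, Dep t (fun ω => F ω b)) (hG : Dep t G)
    (h : ∀ ω, (∑ b, F ω b) / Fintype.card B ≤ G ω) :
    ∫ ω, F ω (ω t) ∂PP B ≤ ∫ ω, G ω ∂PP B := by
  rw [one_step hF]
  exact integral_mono_dep ((dep_sum _ fun b _ => hF b).comp fun x => x / Fintype.card B) hG h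

end gen

end Pool.Agent.T2H99.CW
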