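import Pool.Agent.T2H99.CW.G2
import Pool.Agent.T2H99.CW.E

/-!
The two walks as functions of independent uniform letters.
-/

set_option autoImplicit false
set_option linter.unusedSectionVars false

open MeasureTheory Finset Filter Topology

namespace Pool.Agent.T2H99.CW

/-- The moves of one walk: stay, move inside the clique, change sides. -/
abbrev II (N m : ℕ) : Type :=
  Fin (dg N m) ⊕ ({z : ZMod N // z ≠ 0} ⊕ {z : ZMod N // z.val < m})

variable {N m : ℕ} [NeZero N] [NeZero m]

/-- Apply a move. -/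
def mv (p : VV N) : II N m → VV N
  | Sum.inl _ => p
  | Sum.inr (Sum.inl z) => (p.1, p.2 + z.1)
  | Sum.inr (Sum.inr z) => (!p.1, crs p.1 p.2 z.1)

/-- Whether the move changes sides. -/
def cr : II N m → Bool
  | Sum.inl _ => false
  | Sum.inr (Sum.inl _) => false
  | Sum.inr (Sum.inr _) => true

lemma m_pos : 0 < m := Nat.pos_of_ne_zero (NeZero.ne m)

instance : Nonempty (II N m) := ⟨Sum.inr (Sum.inr ⟨0, by simpa using m_pos⟩)⟩

lemma mv_side (p : VV N) (i : II N m) : (mv p i).1 = if cr i then !p.1 else p.1 := by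
  rcases i with i | i | i <;> rfl

lemma two_dg_hs : 2 * (dg N m : ℝ) * hs N m = 1 := by
  unfold hs
  have : (0 : ℝ) < dg N m := by exact_mod_cast dg_pos (N := N) m_pos
  field_simp

lemma sum_mv (hm : m ≤ N) (φ : VV N → ℝ) (p : VV N) :
    ∑ i : II N m, φ (mv p i) = 2 * dg N m * E1 N m φ p := by
  classical
  obtain ⟨a, x⟩ := p
  rw [Fintype.sum_sum_type, Fintype.sum_sum_type, E1_eq hm]
  have h1 : ∑ z : {z : ZMod N // z ≠ 0}, φ (mv (a, x) (Sum.inr (Sum.inl z) : II N m)) =
      ∑ z with z ≠ 0, φ (a, x + z) := by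
    rw [← sum_subtype_eq_sum_filter]
    exact sum_congr (by ext; simp) fun z _ => rfl
  have h2 : ∑ z : {z : ZMod N // z.val < m}, φ (mv (a, x) (Sum.inr (Sum.inr z) : II N m)) =
      ∑ z with z.val < m, φ (!a, crs a x z) := by
    rw [← sum_subtype_eq_sum_filter]
    exact sum_congr (by ext; simp) fun z _ => rfl
  rw [h1, h2]
  have h3 : ∑ i : Fin (dg N m), φ (mv (a, x) (Sum.inl i : II N m)) = dg N m * φ (a, x) := by
    simp [mv]
  rw [h3]
  have := two_dg_hs (N := N) (m := m)
  set A := ∑ z with z ≠ 0, φ (a, x + z)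
  set C := ∑ z with z.val < m, φ (!a, crs a x z)
  linear_combination (-(A + C)) * this

lemma card_II (hm : m ≤ N) : (Fintype.card (II N m) : ℝ) = 2 * dg N m := by
  have h := sum_mv hm (fun _ => 1) ((true, 0) : VV N)
  rw [E1_const hm m_pos] at h
  simpa using h

lemma sum_cr (hm : m ≤ N) (F : Bool → ℝ) :
    ∑ i : II N m, F (cr i) = (2 * dg N m - m) * F false + m * F true := by
  classical
  rw [Fintype.sum_sum_type, Fintype.sum_sum_type]
  simp only [cr, sum_const, nsmul_eq_mul, card_univ]
  have h1 : (Fintype.card {z : ZMod N // z ≠ 0} : ℝ) = N - 1 := by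
    have h := card_ne_zero (N := N)
    have h2 : Fintype.card {z : ZMod N // z ≠ 0} = N - 1 := by
      rw [Fintype.card_subtype]; exact h
    rw [h2, Nat.cast_sub NeZero.one_le]
    simp
  have h3 : Fintype.card {z : ZMod N // z.val < m} = m := by
    rw [Fintype.card_subtype]; exact card_val_lt hm
  rw [h1, h3, Fintype.card_fin, dg_cast]
  ring

/-- The joint step of the two walks. -/
def st (p : VV N × VV N) (w : II N m × II N m × Bool) : VV N × VV N :=
  if cr w.1 = cr w.2.1 then (mv p.1 w.1, mv p.2 w.2.1)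
  else if cr w.1 then
    (if p.1.1 = w.2.2 then (mv p.1 w.2.1, mv p.2 w.1) else (mv p.1 w.1, mv p.2 w.2.1))
  else (if p.1.1 = w.2.2 then (mv p.1 w.1, mv p.2 w.2.1) else (mv p.1 w.2.1, mv p.2 w.1))

lemma st_sum (p : VV N × VV N) (φ : VV N × VV N → ℝ) :
    ∑ w : II N m × II N m × Bool, φ (st p w) =
      2 * ∑ i : II N m, ∑ j : II N m, φ (mv p.1 i, mv p.2 j) := by
  rw [Fintype.sum_prod_type]
  simp only [Fintype.sum_prod_type, Fintype.sum_bool]
  have h1 : ∀ i j : II N m, φ (st p (i, j, true)) + φ (st p (i, j, false)) =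
      (if cr i = cr j then 2 * φ (mv p.1 i, mv p.2 j) else φ (mv p.1 i, mv p.2 j)) +
        if cr j = cr i then 0 else φ (mv p.1 j, mv p.2 i) := by
    intro i j
    unfold st
    simp only
    cases hi : cr i <;> cases hj : cr j <;> cases hp : p.1.1 <;> simp <;> ring
  simp only [h1, sum_add_distrib]
  have h2 : ∑ i : II N m, ∑ j : II N m, (if cr j = cr i then 0 else φ (mv p.1 j, mv p.2 i)) =
      ∑ i : II N m, ∑ j : II N m, (if cr i = cr j then 0 else φ (mv p.1 i, mv p.2 j)) := sum_comm
  rw [h2, ← sum_add_distrib, mul_sum]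
  refine sum_congr rfl fun i _ => ?_
  rw [← sum_add_distrib, mul_sum]
  refine sum_congr rfl fun j _ => ?_
  split_ifs <;> ring

/-- The letters. -/
def LT (N m : ℕ) : Type :=
  (Bool × ZMod N × ZMod N × (VV N → Bool)) × (II N m × II N m × Bool)

noncomputable instance : Fintype (LT N m) :=
  inferInstanceAs (Fintype ((Bool × ZMod N × ZMod N × (VV N → Bool)) ×
    (II N m × II N m × Bool)))

instance : Nonempty (LT N m) :=
  inferInstanceAs (Nonempty ((Bool × ZMod N × ZMod N × (VV N → Bool)) ×
    (II N m × II N m × Bool)))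

instance : MeasurableSpace (LT N m) := ⊤

instance : DiscreteMeasurableSpace (LT N m) := ⟨fun _ => trivial⟩

lemma sum_LT (f : (II N m × II N m × Bool) → ℝ) : ∑ b : LT N m, f b.2 =
    Fintype.card (Bool × ZMod N × ZMod N × (VV N → Bool)) * ∑ w, f w := by
  have h : ∑ b : LT N m, f b.2 =
      ∑ b : (Bool × ZMod N × ZMod N × (VV N → Bool)) × (II N m × II N m × Bool), f b.2 := rfl
  rw [h, Fintype.sum_prod_type]
  simp

lemma card_LT : (Fintype.card (LT N m) : ℝ) =
    Fintype.card (Bool × ZMod N × ZMod N × (VV N → Bool)) *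
      (Fintype.card (II N m) * Fintype.card (II N m) * 2) := by
  have h := sum_LT (N := N) (m := m) (fun _ => 1)
  simp only [sum_const, card_univ, nsmul_eq_mul, mul_one] at h
  rw [h]
  congr 1
  rw [Fintype.card_prod, Fintype.card_prod, Fintype.card_bool]
  push_cast
  ring

/-- The average after one joint step. -/
noncomputable def E2 (N m : ℕ) [NeZero N] (φ : VV N × VV N → ℝ) (p : VV N × VV N) : ℝ :=
  E1 N m (fun x => E1 N m (fun y => φ (x, y)) p.2) p.1

lemma avg_st (hm : m ≤ N) (φ : VV N × VV N → ℝ) (p : VV N × VV N) :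
    (∑ b : LT N m, φ (st p b.2)) / Fintype.card (LT N m) = E2 N m φ p := by
  rw [sum_LT fun w => φ (st p w), st_sum, card_LT, card_II hm]
  have h1 : ∑ i : II N m, ∑ j : II N m, φ (mv p.1 i, mv p.2 j) =
      (2 * dg N m) * ((2 * dg N m) * E2 N m φ p) := by
    have h2 : ∀ i : II N m, ∑ j : II N m, φ (mv p.1 i, mv p.2 j) =
        2 * dg N m * E1 N m (fun y => φ (mv p.1 i, y)) p.2 := fun i =>
      sum_mv hm (fun y => φ (mv p.1 i, y)) p.2
    simp only [h2]
    rw [← mul_sum, sum_mv hm (fun x => E1 N m (fun y => φ (x, y)) p.2) p.1]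
    rfl
  rw [h1]
  have h3 : (0 : ℝ) < dg N m := by exact_mod_cast dg_pos (N := N) m_pos
  have h4 : (Fintype.card (Bool × ZMod N × ZMod N × (VV N → Bool)) : ℝ) ≠ 0 := by
    exact_mod_cast Fintype.card_ne_zero
  field_simp

/-- The sign of a side. -/
def sgb (e : Bool) : ℝ := if e then 1 else -1

lemma sgb_true : sgb true = 1 := rfl

lemma sgb_false : sgb false = -1 := rfl

/-- Flip the sign of a letter. -/
def flL (b : LT N m) : LT N m := (b.1, (b.2.1, b.2.2.1, !b.2.2.2))

lemma flL_flL (b : LT N m) : flL (flL b) = b := by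
  obtain ⟨b0, i, j, e⟩ := b
  cases e <;> rfl

/-- The environment of the letters. -/
noncomputable def env (hm : m ≤ N) (hq : qs N m ≤ 1 / 4) : Env (LT N m) where
  fl := ⟨flL, flL, flL_flL, flL_flL⟩
  sl b := cr b.2.1 != cr b.2.2.1
  bt b := cr b.2.1 && cr b.2.2.1
  k0 b := b.1.1
  sg b := sgb b.2.2.2
  q := qs N m
  fl_fl b := flL_flL b
  sg_fl b := by
    obtain ⟨b0, i, j, e⟩ := b
    cases e <;> simp [flL, sgb]
  sl_fl b := rfl
  bt_fl b := rfl
  k0_fl b := rfl
  sg_pm b := by
    unfold sgb
    split_ifs <;> simp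
  sl_bt b := by
    obtain ⟨b0, i, j, e⟩ := b
    simp only
    cases cr i <;> cases cr j <;> simp
  q_pos := by
    unfold qs
    have h1 := hs_pos (N := N) (m := m) m_pos
    have h2 : (0 : ℝ) < m := by exact_mod_cast m_pos
    positivity
  q_le := hq
  avg f := by
    have h0 := sum_LT (N := N) (m := m) (fun w => f (cr w.1 != cr w.2.1) (cr w.1 && cr w.2.1)
      (sgb w.2.2))
    rw [h0, card_LT, card_II hm, Fintype.sum_prod_type]
    simp only [Fintype.sum_prod_type, Fintype.sum_bool]
    have h1 : ∀ i : II N m, ∑ j : II N m, (f (cr i != cr j) (cr i && cr j) (sgb true) +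
        f (cr i != cr j) (cr i && cr j) (sgb false)) =
        (2 * dg N m - m) * (f (cr i != false) (cr i && false) 1 +
          f (cr i != false) (cr i && false) (-1)) +
        m * (f (cr i != true) (cr i && true) 1 + f (cr i != true) (cr i && true) (-1)) := by
      intro i
      rw [sum_cr hm fun c => f (cr i != c) (cr i && c) (sgb true) +
        f (cr i != c) (cr i && c) (sgb false)]
      rw [sgb_true, sgb_false]
    rw [sum_congr rfl fun i _ => h1 i]
    rw [sum_cr hm fun c => (2 * dg N m - m) * (f (c != false) (c && false) 1 +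
          f (c != false) (c && false) (-1)) +
        m * (f (c != true) (c && true) 1 + f (c != true) (c && true) (-1))]
    have h3 : (0 : ℝ) < dg N m := by exact_mod_cast dg_pos (N := N) m_pos
    have h4 : (Fintype.card (Bool × ZMod N × ZMod N × (VV N → Bool)) : ℝ) ≠ 0 := by
      exact_mod_cast Fintype.card_ne_zero
    unfold qs hs
    simp only [bne_self_eq_false, Bool.and_false, Bool.and_true, Bool.false_bne,
      Bool.true_bne, Bool.not_false, Bool.and_self]
    field_simp
    ring

end Pool.Agent.T2H99.CW
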