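import Pool.Agent.T2H99.CW.W

/-!
The positions of the two walks and their law.
-/

set_option autoImplicit false
set_option linter.unusedSectionVars false

open MeasureTheory Finset Filter Topology

namespace Pool.Agent.T2H99.CW

variable {N m : ℕ} [NeZero N] [NeZero m]

/-- The initial positions. -/
def ini (b : LT N m) : VV N × VV N :=
  ((b.2.2.2, b.1.2.1), (if b.1.1 then b.2.2.2 else !b.2.2.2, b.1.2.2.1))

/-- The positions. -/
def pos : ℕ → (ℕ → LT N m) → VV N × VV N
  | 0, ω => ini (ω 0)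
  | t + 1, ω => st (pos t ω) (ω (t + 1)).2

/-- The coins. -/
def coin (v : VV N) (ω : ℕ → LT N m) : Bool := (ω 0).1.2.2.2 v

lemma dep_pos (t : ℕ) : Dep (t + 1) (pos (N := N) (m := m) t) := by
  induction t with
  | zero =>
    intro ω ω' h
    simp only [pos, h 0 (by omega)]
  | succ t ih =>
    intro ω ω' h
    simp only [pos, h (t + 1) (by omega), ih ω ω' fun i hi => h i (by omega)]

lemma dep_coin (v : VV N) {t : ℕ} (ht : 0 < t) : Dep t (coin (m := m) v) := by
  intro ω ω' h
  unfold coin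
  rw [h 0 ht]

/-- One step of the positions. -/
theorem step_pos (hm : m ≤ N) {t : ℕ} (F : (ℕ → LT N m) → VV N × VV N → ℝ)
    (hF : ∀ p, Dep (t + 1) fun ω => F ω p) :
    ∫ ω, F ω (pos (t + 1) ω) ∂PP (LT N m) = ∫ ω, E2 N m (F ω) (pos t ω) ∂PP (LT N m) := by
  have h1 : ∀ ω : ℕ → LT N m, F ω (pos (t + 1) ω) =
      (fun ω b => F ω (st (pos t ω) b.2)) ω (ω (t + 1)) := fun ω => rfl
  simp only [h1]
  rw [one_step (t := t + 1) (F := fun ω b => F ω (st (pos t ω) b.2)) fun b => ?_]
  · congr 1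
    funext ω
    exact avg_st hm (F ω) (pos t ω)
  · intro ω ω' h
    have e1 : pos t ω = pos t ω' := dep_pos t ω ω' h
    have e2 : ∀ p, F ω p = F ω' p := fun p => hF p ω ω' h
    simp only [e1, e2]

lemma dep_E2 {t : ℕ} (F : (ℕ → LT N m) → VV N × VV N → ℝ)
    (hF : ∀ p, Dep (t + 1) fun ω => F ω p) : Dep (t + 1) fun ω => E2 N m (F ω) (pos t ω) := by
  intro ω ω' h
  have e1 : pos t ω = pos t ω' := dep_pos t ω ω' h
  have e2 : F ω = F ω' := funext fun p => hF p ω ω' h
  simp only [e1, e2]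

/-- One step, as an inequality. -/
theorem step_pos_le (hm : m ≤ N) {t : ℕ} (F : (ℕ → LT N m) → VV N × VV N → ℝ)
    (hF : ∀ p, Dep (t + 1) fun ω => F ω p) {G : (ℕ → LT N m) → ℝ} (hG : Dep (t + 1) G)
    (h : ∀ ω, E2 N m (F ω) (pos t ω) ≤ G ω) :
    ∫ ω, F ω (pos (t + 1) ω) ∂PP (LT N m) ≤ ∫ ω, G ω ∂PP (LT N m) := by
  rw [step_pos hm F hF]
  exact integral_mono_dep (dep_E2 F hF) hG h

/-! The sides. -/

section sides

variable (hm : m ≤ N) (hq : qs N m ≤ 1 / 4)

lemma st_side (p : VV N × VV N) (w : II N m × II N m × Bool) :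
    (st p w).1.1 = (if cr w.1 != cr w.2.1 then w.2.2 else if cr w.1 && cr w.2.1 then !p.1.1
      else p.1.1) ∧
    ((st p w).1.1 == (st p w).2.1) = (if cr w.1 != cr w.2.1 then !(p.1.1 == p.2.1)
      else (p.1.1 == p.2.1)) := by
  obtain ⟨i, j, e⟩ := w
  obtain ⟨⟨a, x⟩, ⟨b, y⟩⟩ := p
  unfold st
  simp only
  cases hi : cr i <;> cases hj : cr j <;> cases e <;> cases a <;> cases b <;>
    simp [mv_side, hi, hj]

lemma kp_pos (t : ℕ) (ω : ℕ → LT N m) :
    (env hm hq).kp t ω = ((pos t ω).1.1 == (pos t ω).2.1) := by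
  induction t with
  | zero =>
    simp only [Env.kp, env, pos, ini]
    cases (ω 0).1.1 <;> cases (ω 0).2.2.2 <;> simp
  | succ t ih =>
    rw [Env.kp, ih, pos, (st_side (pos t ω) (ω (t + 1)).2).2]
    rfl

lemma sm_pos (t : ℕ) (ω : ℕ → LT N m) : (env hm hq).sm t ω = sgb (pos t ω).1.1 := by
  induction t with
  | zero => rw [Env.sm_zero]; rfl
  | succ t ih =>
    rw [Env.sm_succ, ih, pos, (st_side (pos t ω) (ω (t + 1)).2).1]
    have e1 : (env hm hq).sl (ω (t + 1)) = (cr (ω (t + 1)).2.1 != cr (ω (t + 1)).2.2.1) := rfl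
    have e2 : (env hm hq).bt (ω (t + 1)) = (cr (ω (t + 1)).2.1 && cr (ω (t + 1)).2.2.1) := rfl
    have e3 : (env hm hq).sg (ω (t + 1)) = sgb (ω (t + 1)).2.2.2 := rfl
    rw [e1, e2, e3]
    split_ifs
    · rfl
    · cases (pos t ω).1.1 <;> simp [sgb]
    · rfl

end sides

/-! The law of the model. -/

lemma ini_law (x y : VV N) (b : VV N → Bool) :
    (∑ l : LT N m, if ini l = (x, y) ∧ l.1.2.2.2 = b then (1 : ℝ) else 0) /
      Fintype.card (LT N m) = 1 / (2 * N) * (1 / (2 * N)) * (1 / 2) ^ (2 * N) := by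
  classical
  have h1 : ∑ l : LT N m, (if ini l = (x, y) ∧ l.1.2.2.2 = b then (1 : ℝ) else 0) =
      Fintype.card (II N m) * Fintype.card (II N m) := by
    have h2 : ∑ l : LT N m, (if ini l = (x, y) ∧ l.1.2.2.2 = b then (1 : ℝ) else 0) =
        ∑ l : (Bool × ZMod N × ZMod N × (VV N → Bool)) × (II N m × II N m × Bool),
        (if l.2.2.2 = x.1 then if l.1 = (x.1 == y.1, x.2, y.2, b) then (1 : ℝ) else 0 else 0) := by
      refine sum_congr rfl fun l _ => ?_
      obtain ⟨⟨k, x', y', c⟩, i, j, e⟩ := l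
      obtain ⟨a, x⟩ := x
      obtain ⟨a', y⟩ := y
      unfold ini
      simp only [Prod.mk.injEq]
      cases k <;> cases e <;> cases a <;> cases a' <;> simp <;> split_ifs <;> simp_all
    rw [h2, Fintype.sum_prod_type, sum_comm]
    have h3 : ∀ w : II N m × II N m × Bool,
        ∑ l : Bool × ZMod N × ZMod N × (VV N → Bool),
        (if w.2.2 = x.1 then if l = (x.1 == y.1, x.2, y.2, b) then (1 : ℝ) else 0 else 0) =
        if w.2.2 = x.1 then 1 else 0 := by
      intro w
      split_ifs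
      · simp
      · simp
    rw [sum_congr rfl fun w _ => h3 w]
    simp only [Fintype.sum_prod_type, Fintype.sum_bool]
    cases x.1 <;> simp <;> ring
  rw [h1, card_LT]
  have h5 : (Fintype.card (Bool × ZMod N × ZMod N × (VV N → Bool)) : ℝ) =
      2 * (N * (N * 2 ^ (2 * N))) := by
    simp [Fintype.card_prod]
  have h6 : (Fintype.card (II N m) : ℝ) ≠ 0 := by exact_mod_cast Fintype.card_ne_zero
  have hN : (N : ℝ) ≠ 0 := by exact_mod_cast NeZero.ne N
  rw [h5, one_div_pow]
  field_simp

/-- The event of a given trajectory. -/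
def traj (T : ℕ) (x y : ℕ → VV N) (b : VV N → Bool) (ω : ℕ → LT N m) : Prop :=
  (∀ t ≤ T, pos t ω = (x t, y t)) ∧ ∀ v, coin v ω = b v

lemma dep_traj (T : ℕ) (x y : ℕ → VV N) (b : VV N → Bool) :
    Dep (T + 1) (traj (m := m) T x y b) := by
  intro ω ω' h
  apply propext
  unfold traj
  refine and_congr (forall_congr' fun t => forall_congr' fun ht => ?_) (forall_congr' fun v => ?_)
  · rw [dep_pos t ω ω' fun i hi => h i (by omega)]
  · rw [dep_coin v (by omega : 0 < T + 1) ω ω' h]

open scoped Classical in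
lemma traj_law (hm : m ≤ N) (T : ℕ) (x y : ℕ → VV N) (b : VV N → Bool) :
    ∫ ω, (if traj T x y b ω then (1 : ℝ) else 0) ∂PP (LT N m) =
      (1 / (2 * N) * ∏ t ∈ range T, lazy (gr N m) (x t) (x (t + 1))) *
      (1 / (2 * N) * ∏ t ∈ range T, lazy (gr N m) (y t) (y (t + 1))) * (1 / 2) ^ (2 * N) := by
  induction T with
  | zero =>
    simp only [range_zero, prod_empty, mul_one]
    have h1 : ∀ ω : ℕ → LT N m, (if traj 0 x y b ω then (1 : ℝ) else 0) =
        (fun _ l => if ini l = (x 0, y 0) ∧ l.1.2.2.2 = b then (1 : ℝ) else 0) ω (ω 0) := by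
      intro ω
      simp only
      congr 1
      apply propext
      unfold traj coin
      constructor
      · rintro ⟨h1, h2⟩
        exact ⟨h1 0 le_rfl, funext h2⟩
      · rintro ⟨h1, h2⟩
        exact ⟨fun t ht => by
          have : t = 0 := by omega
          subst this
          exact h1, fun v => by rw [h2]⟩
    simp only [h1]
    rw [one_step (t := 0) (F := fun (_ : ℕ → LT N m) l =>
      if ini l = (x 0, y 0) ∧ l.1.2.2.2 = b then (1 : ℝ) else 0) fun b => dep_const _ _]
    rw [integral_const, probReal_univ, one_smul]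
    have h := ini_law (m := m) (x 0) (y 0) b
    convert h using 2
  | succ T ih =>
    have h1 : ∀ ω : ℕ → LT N m, (if traj (T + 1) x y b ω then (1 : ℝ) else 0) =
        (fun ω p => (if traj T x y b ω then (1 : ℝ) else 0) *
          (if p = (x (T + 1), y (T + 1)) then 1 else 0)) ω (pos (T + 1) ω) := by
      intro ω
      have key : traj (T + 1) x y b ω ↔ traj T x y b ω ∧
          pos (T + 1) ω = (x (T + 1), y (T + 1)) := by
        unfold traj
        constructor
        · rintro ⟨h1, h2⟩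
          exact ⟨⟨fun t ht => h1 t (by omega), h2⟩, h1 (T + 1) le_rfl⟩
        · rintro ⟨⟨h1, h2⟩, h3⟩
          refine ⟨fun t ht => ?_, h2⟩
          by_cases h : t = T + 1
          · rw [h]; exact h3
          · exact h1 t (by omega)
      simp only [key]
      by_cases hA : traj T x y b ω <;>
        by_cases hB : pos (T + 1) ω = (x (T + 1), y (T + 1)) <;> simp [hA, hB]
    simp only [h1]
    rw [step_pos hm _ fun p => ((dep_traj T x y b).comp fun q => (if q then (1 : ℝ) else 0) *
      (if p = (x (T + 1), y (T + 1)) then 1 else 0))]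
    have h2 : ∀ ω : ℕ → LT N m, E2 N m (fun p => (if traj T x y b ω then (1 : ℝ) else 0) *
          (if p = (x (T + 1), y (T + 1)) then 1 else 0)) (pos T ω) =
        (if traj T x y b ω then (1 : ℝ) else 0) * (lazy (gr N m) (x T) (x (T + 1)) *
          lazy (gr N m) (y T) (y (T + 1))) := by
      intro ω
      by_cases h : traj T x y b ω
      · have hp : pos T ω = (x T, y T) := h.1 T le_rfl
        simp only [h, if_true, one_mul, hp, E2, E1, Prod.mk.injEq]
        have e1 : ∀ q r : VV N, (if q = x (T + 1) ∧ r = y (T + 1) then (1 : ℝ) else 0) =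
            (if r = y (T + 1) then (if q = x (T + 1) then 1 else 0) else 0) := by
          intro q r
          by_cases h1 : q = x (T + 1) <;> by_cases h2 : r = y (T + 1) <;> simp [h1, h2]
        simp only [e1, mul_ite, mul_one, mul_zero, sum_ite_eq', mem_univ, if_true]
      · simp only [h, if_false, zero_mul, E2, E1, mul_zero, sum_const_zero]
    simp only [h2]
    rw [integral_mul_const, ih, prod_range_succ, prod_range_succ]
    ring

end Pool.Agent.T2H99.CW
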