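import Pool.Agent.T2H99.CW.W2

/-!
The visited set and the second moment recursions.
-/

set_option autoImplicit false
set_option linter.unusedSectionVars false

open MeasureTheory Finset Filter Topology

namespace Pool.Agent.T2H99.CW

/-- A recursion for second moments. -/
lemma l2rec {K : ℕ} (hK : 0 < K) {x y : ℕ → ℝ} (hx0 : 0 ≤ x 0) (hy : ∀ t < K, 0 ≤ y t)
    (h : ∀ t < K, x (t + 1) ≤ (1 + 1 / K) * x t + y t) :
    ∀ t ≤ K, x t ≤ 3 * (x 0 + ∑ s ∈ range t, y s) := by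
  have hK' : (0 : ℝ) < K := by exact_mod_cast hK
  have key : ∀ t ≤ K, x t ≤ (1 + 1 / K) ^ t * (x 0 + ∑ s ∈ range t, y s) := by
    intro t
    induction t with
    | zero => intro _; simp
    | succ t ih =>
      intro ht
      have h1 := h t (by omega)
      have h2 := ih (by omega)
      have h3 := mul_le_mul_of_nonneg_left h2 (by positivity : (0 : ℝ) ≤ 1 + 1 / K)
      have h4 : (1 : ℝ) ≤ (1 + 1 / K) ^ (t + 1) := one_le_pow₀ (by
        have : (0 : ℝ) ≤ 1 / K := by positivity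
        linarith)
      have h5 := mul_le_mul_of_nonneg_right h4 (hy t (by omega))
      rw [sum_range_succ, ← add_assoc, mul_add, pow_succ'] at *
      rw [mul_assoc] at *
      linarith
  intro t ht
  refine (key t ht).trans ?_
  have hs : 0 ≤ x 0 + ∑ s ∈ range t, y s := add_nonneg hx0
    (sum_nonneg fun s hs => hy s (by have := mem_range.1 hs; omega))
  refine mul_le_mul_of_nonneg_right ?_ hs
  have h1 : (1 + 1 / (K : ℝ)) ^ t ≤ (1 + 1 / K) ^ K := pow_le_pow_right₀ (by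
    have : (0 : ℝ) ≤ 1 / K := by positivity
    linarith) ht
  refine h1.trans ?_
  have h2 : 1 + 1 / (K : ℝ) ≤ Real.exp (1 / K) := by
    have := Real.add_one_le_exp (1 / (K : ℝ)); linarith
  refine (pow_le_pow_left₀ (by positivity) h2 K).trans ?_
  rw [← Real.exp_nat_mul, mul_one_div_cancel hK'.ne']
  exact Real.exp_one_lt_d9.le.trans (by norm_num)

variable {N m : ℕ} [NeZero N] [NeZero m]

/-! The averages `E1` and `E2`. -/

lemma E1_add (φ ψ : VV N → ℝ) (p : VV N) :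
    E1 N m (fun q => φ q + ψ q) p = E1 N m φ p + E1 N m ψ p := by
  unfold E1
  rw [← sum_add_distrib]
  exact sum_congr rfl fun q _ => by ring

lemma E1_mul (c : ℝ) (φ : VV N → ℝ) (p : VV N) :
    E1 N m (fun q => c * φ q) p = c * E1 N m φ p := by
  unfold E1
  rw [mul_sum]
  exact sum_congr rfl fun q _ => by ring

lemma E2_add (φ ψ : VV N × VV N → ℝ) (p : VV N × VV N) :
    E2 N m (fun q => φ q + ψ q) p = E2 N m φ p + E2 N m ψ p := by
  unfold E2
  simp only [E1_add]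

lemma E2_mul (c : ℝ) (φ : VV N × VV N → ℝ) (p : VV N × VV N) :
    E2 N m (fun q => c * φ q) p = c * E2 N m φ p := by
  unfold E2
  simp only [E1_mul]

lemma E2_const (hm : m ≤ N) (c : ℝ) (p : VV N × VV N) : E2 N m (fun _ => c) p = c := by
  unfold E2
  simp only [E1_const hm m_pos]

lemma E2_mono (hm : m ≤ N) {φ ψ : VV N × VV N → ℝ} (h : ∀ q, φ q ≤ ψ q) (p : VV N × VV N) :
    E2 N m φ p ≤ E2 N m ψ p := by
  unfold E2
  exact E1_mono hm (fun x => E1_mono hm (fun y => h (x, y)) _) _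

/-- The conditional second moment. -/
lemma E2_sq (hm : m ≤ N) {ξ : VV N × VV N → ℝ} {p : VV N × VV N} {g Z β c : ℝ} {K : ℕ}
    (hK : 0 < K) (hg0 : 0 ≤ g) (hg1 : g ≤ 1) (hβ : |E2 N m ξ p| ≤ β) (hc : ∀ q, |ξ q| ≤ c) :
    E2 N m (fun q => (g * Z + ξ q) ^ 2) p ≤ (1 + 1 / K) * Z ^ 2 + (K * β ^ 2 + c ^ 2) := by
  have hK' : (0 : ℝ) < K := by exact_mod_cast hK
  have h1 : ∀ q, (g * Z + ξ q) ^ 2 ≤ (g ^ 2 * Z ^ 2 + c ^ 2) + 2 * g * Z * ξ q := by
    intro q
    have h2 : ξ q ^ 2 ≤ c ^ 2 := by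
      rw [← sq_abs]
      exact pow_le_pow_left₀ (abs_nonneg _) (hc q) 2
    nlinarith
  refine (E2_mono hm h1 p).trans ?_
  rw [E2_add, E2_const hm, E2_mul]
  have h3 : 2 * g * Z * E2 N m ξ p ≤ 2 * (|Z| * β) := by
    have h4 : g * Z * E2 N m ξ p ≤ |Z| * β := by
      refine (le_abs_self _).trans ?_
      rw [abs_mul, abs_mul, abs_of_nonneg hg0]
      refine mul_le_mul ?_ hβ (abs_nonneg _) (abs_nonneg _)
      exact mul_le_of_le_one_left (abs_nonneg _) hg1
    linarith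
  have h5 : 2 * (|Z| * β) ≤ 1 / K * Z ^ 2 + K * β ^ 2 := by
    have h6 : 0 ≤ 1 / (K : ℝ) * (|Z| - K * β) ^ 2 := by positivity
    have h7 : 1 / (K : ℝ) * (|Z| - K * β) ^ 2 = 1 / K * Z ^ 2 + K * β ^ 2 - 2 * (|Z| * β) := by
      rw [← sq_abs Z]
      field_simp
      ring
    linarith
  have h8 : g ^ 2 * Z ^ 2 ≤ Z ^ 2 := mul_le_of_le_one_left (sq_nonneg _) (by nlinarith)
  linarith

/-! The visited set. -/

/-- The set of the vertices visited by time `t`. -/
def vis : ℕ → (ℕ → LT N m) → Finset (VV N)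
  | 0, ω => {(pos 0 ω).1, (pos 0 ω).2}
  | t + 1, ω => insert (pos (t + 1) ω).1 (insert (pos (t + 1) ω).2 (vis t ω))

lemma mem_vis (t : ℕ) (ω : ℕ → LT N m) (v : VV N) :
    v ∈ vis t ω ↔ ∃ s ≤ t, (pos s ω).1 = v ∨ (pos s ω).2 = v := by
  induction t with
  | zero =>
    simp only [vis, mem_insert, mem_singleton]
    constructor
    · rintro (h | h)
      · exact ⟨0, le_rfl, Or.inl h.symm⟩
      · exact ⟨0, le_rfl, Or.inr h.symm⟩
    · rintro ⟨s, hs, h⟩
      have : s = 0 := by omega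
      subst this
      rcases h with h | h
      · exact Or.inl h.symm
      · exact Or.inr h.symm
  | succ t ih =>
    simp only [vis, mem_insert]
    rw [ih]
    constructor
    · rintro (h | h | ⟨s, hs, h⟩)
      · exact ⟨t + 1, le_rfl, Or.inl h.symm⟩
      · exact ⟨t + 1, le_rfl, Or.inr h.symm⟩
      · exact ⟨s, by omega, h⟩
    · rintro ⟨s, hs, h⟩
      by_cases hst : s = t + 1
      · subst hst
        rcases h with h | h
        · exact Or.inl h.symm
        · exact Or.inr (Or.inl h.symm)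
      · exact Or.inr (Or.inr ⟨s, by omega, h⟩)

lemma pos_mem (t : ℕ) (ω : ℕ → LT N m) : (pos t ω).1 ∈ vis t ω ∧ (pos t ω).2 ∈ vis t ω :=
  ⟨(mem_vis t ω _).2 ⟨t, le_rfl, Or.inl rfl⟩, (mem_vis t ω _).2 ⟨t, le_rfl, Or.inr rfl⟩⟩

lemma dep_vis (t : ℕ) : Dep (t + 1) (vis (N := N) (m := m) t) := by
  induction t with
  | zero =>
    intro ω ω' h
    simp only [vis, dep_pos 0 ω ω' h]
  | succ t ih =>
    intro ω ω' h
    simp only [vis, dep_pos (t + 1) ω ω' h, ih ω ω' fun i hi => h i (by omega)]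

/-- The indicator of an unvisited vertex. -/
noncomputable def uv (t : ℕ) (ω : ℕ → LT N m) (v : VV N) : ℝ := if v ∈ vis t ω then 0 else 1

/-- The number of unvisited vertices on one side. -/
noncomputable def Un (a : Bool) (t : ℕ) (ω : ℕ → LT N m) : ℝ := ∑ x : ZMod N, uv t ω (a, x)

/-- The total time spent on a side. -/
def La (a : Bool) (t : ℕ) (ω : ℕ → LT N m) : ℕ :=
  ∑ s ∈ range t, ((if (pos s ω).1.1 = a then 1 else 0) + (if (pos s ω).2.1 = a then 1 else 0))

/-- The expected fraction of unvisited vertices, given the sides. -/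
noncomputable def Aa (a : Bool) (t : ℕ) (ω : ℕ → LT N m) : ℝ := (1 - hs N m) ^ La a t ω

/-- The deviation. -/
noncomputable def wa (a : Bool) (t : ℕ) (ω : ℕ → LT N m) : ℝ := Un a t ω - N * Aa a t ω

lemma uv_nonneg (t : ℕ) (ω : ℕ → LT N m) (v : VV N) : 0 ≤ uv t ω v := by
  unfold uv; split_ifs <;> norm_num

lemma uv_le_one (t : ℕ) (ω : ℕ → LT N m) (v : VV N) : uv t ω v ≤ 1 := by
  unfold uv; split_ifs <;> norm_num

lemma uv_succ (t : ℕ) (ω : ℕ → LT N m) (v : VV N) : uv (t + 1) ω v =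
    uv t ω v * ((if (pos (t + 1) ω).1 = v then 0 else 1) *
      (if (pos (t + 1) ω).2 = v then 0 else 1)) := by
  unfold uv
  have e1 : (v = (pos (t + 1) ω).1) = ((pos (t + 1) ω).1 = v) := propext eq_comm
  have e2 : (v = (pos (t + 1) ω).2) = ((pos (t + 1) ω).2 = v) := propext eq_comm
  simp only [vis, mem_insert, e1, e2]
  by_cases h1 : (pos (t + 1) ω).1 = v <;> by_cases h2 : (pos (t + 1) ω).2 = v <;>
    by_cases h3 : v ∈ vis t ω <;> simp [h1, h2, h3]

lemma dep_uv (t : ℕ) (v : VV N) : Dep (t + 1) fun ω : ℕ → LT N m => uv t ω v :=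
  (dep_vis t).comp fun s : Finset (VV N) => if v ∈ s then (0 : ℝ) else 1

lemma dep_Un (a : Bool) (t : ℕ) : Dep (t + 1) (Un (N := N) (m := m) a t) :=
  dep_sum _ fun x _ => dep_uv t (a, x)

lemma dep_La (a : Bool) (t : ℕ) : Dep t (La (N := N) (m := m) a t) := by
  intro ω ω' h
  unfold La
  refine sum_congr rfl fun s hs => ?_
  rw [dep_pos s ω ω' fun i hi => h i (by have := mem_range.1 hs; omega)]

lemma dep_Aa (a : Bool) (t : ℕ) : Dep t (Aa (N := N) (m := m) a t) :=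
  (dep_La a t).comp fun l => (1 - hs N m) ^ l

lemma dep_wa (a : Bool) (t : ℕ) : Dep (t + 1) (wa (N := N) (m := m) a t) :=
  (dep_Un a t).comp₂ ((dep_Aa a t).mono (Nat.le_succ t)) fun x y => x - N * y

lemma Un_nonneg (a : Bool) (t : ℕ) (ω : ℕ → LT N m) : 0 ≤ Un a t ω :=
  sum_nonneg fun _ _ => uv_nonneg _ _ _

lemma Un_le (a : Bool) (t : ℕ) (ω : ℕ → LT N m) : Un a t ω ≤ N := by
  unfold Un
  refine (sum_le_sum fun x _ => uv_le_one t ω (a, x)).trans (le_of_eq ?_)
  rw [sum_const, card_univ, ZMod.card, nsmul_eq_mul, mul_one]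

lemma hs_le_half (hm : m ≤ N) : hs N m * N ≤ 1 / 2 ∧ hs N m ≤ 1 / 2 := by
  have h1 := hs_pos (N := N) (m := m) m_pos
  have h2 := hs_N (N := N) (m := m) m_pos
  have hm1 : (1 : ℝ) ≤ m := by exact_mod_cast (m_pos (m := m))
  have hN1 : (1 : ℝ) ≤ N := by
    have : (m : ℝ) ≤ N := by exact_mod_cast hm
    linarith
  have h3 : hs N m ≤ qs N m := by unfold qs; nlinarith
  constructor
  · linarith
  · nlinarith

end Pool.Agent.T2H99.CW
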