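import Pool.Agent.T2H99.CW.W3

/-!
The numbers of unvisited vertices are close to their conditional expectations.
-/

set_option autoImplicit false
set_option linter.unusedSectionVars false

open MeasureTheory Finset Filter Topology

namespace Pool.Agent.T2H99.CW

variable {N m : ℕ} [NeZero N] [NeZero m]

/-- The number of walks on a side. -/
def na (a : Bool) (p : VV N × VV N) : ℕ :=
  (if p.1.1 = a then 1 else 0) + (if p.2.1 = a then 1 else 0)

/-- The indicator that `q` avoids `v`. -/
noncomputable def avo (v q : VV N) : ℝ := if q = v then 0 else 1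

/-- The number of unvisited vertices after the next step. -/
noncomputable def Unx (a : Bool) (t : ℕ) (ω : ℕ → LT N m) (q : VV N × VV N) : ℝ :=
  ∑ x : ZMod N, uv t ω (a, x) * (avo (a, x) q.1 * avo (a, x) q.2)

lemma Un_succ (a : Bool) (t : ℕ) (ω : ℕ → LT N m) :
    Un a (t + 1) ω = Unx a t ω (pos (t + 1) ω) := by
  unfold Un Unx avo
  exact sum_congr rfl fun x _ => uv_succ t ω (a, x)

lemma E1_sum {ι : Type} (s : Finset ι) (φ : ι → VV N → ℝ) (p : VV N) :
    E1 N m (fun q => ∑ i ∈ s, φ i q) p = ∑ i ∈ s, E1 N m (φ i) p := by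
  unfold E1
  simp only [mul_sum]
  exact sum_comm

lemma E2_prod (f g : VV N → ℝ) (p : VV N × VV N) :
    E2 N m (fun q => f q.1 * g q.2) p = E1 N m f p.1 * E1 N m g p.2 := by
  unfold E2
  simp only [E1_mul]
  have h : ∀ x, f x * E1 N m g p.2 = E1 N m g p.2 * f x := fun x => mul_comm _ _
  simp only [h, E1_mul]
  ring

lemma E1_avo (hm : m ≤ N) (v p : VV N) : E1 N m (avo v) p = 1 - lazy (gr N m) p v := by
  classical
  have h1 : ∀ q, lazy (gr N m) p q * avo v q = lazy (gr N m) p q -
      (if q = v then lazy (gr N m) p v else 0) := by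
    intro q
    unfold avo
    by_cases h : q = v
    · rw [if_pos h, if_pos h, h]; ring
    · rw [if_neg h, if_neg h]; ring
  unfold E1
  simp only [h1, sum_sub_distrib, sum_lazy hm m_pos, sum_ite_eq', mem_univ, if_true]

lemma E2_Unx (hm : m ≤ N) (a : Bool) (t : ℕ) (ω : ℕ → LT N m) (p : VV N × VV N) :
    E2 N m (Unx a t ω) p = ∑ x : ZMod N, uv t ω (a, x) *
      ((1 - lazy (gr N m) p.1 (a, x)) * (1 - lazy (gr N m) p.2 (a, x))) := by
  have h1 : E2 N m (Unx a t ω) p = ∑ x : ZMod N,
      E2 N m (fun q => uv t ω (a, x) * (avo (a, x) q.1 * avo (a, x) q.2)) p := by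
    unfold Unx E2
    simp only [E1_sum]
  rw [h1]
  refine sum_congr rfl fun x _ => ?_
  rw [E2_mul, E2_prod (avo (a, x)) (avo (a, x)), E1_avo hm, E1_avo hm]

lemma side_sum (hm : m ≤ N) (p : VV N) : ∑ x : ZMod N, lazy (gr N m) p (!p.1, x) = qs N m := by
  classical
  obtain ⟨a, y⟩ := p
  have h := E1_eq hm (fun q => if q.1 = !a then (1 : ℝ) else 0) a y
  have h1 : E1 N m (fun q => if q.1 = !a then (1 : ℝ) else 0) (a, y) =
      ∑ x : ZMod N, lazy (gr N m) (a, y) (!a, x) := by
    unfold E1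
    rw [sum_VV a]
    cases a <;> simp
  rw [h1] at h
  rw [h]
  have h2 : a ≠ !a := by cases a <;> simp
  simp only [h2, if_false, if_true, mul_zero, sum_const_zero, zero_add, sum_const,
    nsmul_eq_mul, mul_one]
  rw [card_val_lt hm]
  unfold qs
  ring

/-- The probability to hit a vertex from the other side. -/
noncomputable def al (p v : VV N) (m : ℕ) : ℝ := if p.1 = v.1 then 0 else lazy (gr N m) p v

lemma al_sum (hm : m ≤ N) (a : Bool) (p : VV N) : ∑ x : ZMod N, al p (a, x) m ≤ qs N m := by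
  unfold al
  by_cases h : p.1 = a
  · simp only [h, if_true, sum_const_zero]
    unfold qs
    have := hs_nonneg (N := N) (m := m)
    positivity
  · have h2 : a = !p.1 := by
      cases a <;> cases hp : p.1 <;> simp_all
    simp only [h, if_false]
    rw [h2]
    exact (side_sum hm p).le

lemma lazy_le_one (hm : m ≤ N) (p v : VV N) : lazy (gr N m) p v ≤ 1 := by
  by_cases h : p = v
  · rw [h, lazy_self]; norm_num
  · exact (lazy_le hm h).trans ((hs_le_half hm).2.trans (by norm_num))

lemma al_bounds (hm : m ≤ N) (p v : VV N) : 0 ≤ al p v m ∧ al p v m ≤ 1 := by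
  unfold al
  split_ifs
  · exact ⟨le_rfl, zero_le_one⟩
  · exact ⟨lazy_nonneg hm p v, lazy_le_one hm p v⟩

lemma one_sub_lazy (hm : m ≤ N) {p v : VV N} (h : p ≠ v) : 1 - lazy (gr N m) p v =
    (1 - hs N m) ^ (if p.1 = v.1 then 1 else 0) * (1 - al p v m) := by
  classical
  obtain ⟨a, x⟩ := p
  obtain ⟨b, y⟩ := v
  unfold al
  by_cases hab : a = b
  · subst hab
    have hxy : x ≠ y := fun hh => h (by rw [hh])
    rw [lazy_ne hm h, if_pos ((adj_same a x y).2 hxy)]
    simp
  · simp [hab]

/-- The conditional expectation of the number of unvisited vertices. -/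
lemma E2_Unx_sub (hm : m ≤ N) (a : Bool) (t : ℕ) (ω : ℕ → LT N m) :
    |E2 N m (Unx a t ω) (pos t ω) - (1 - hs N m) ^ na a (pos t ω) * Un a t ω| ≤ 2 * qs N m := by
  rw [E2_Unx hm]
  unfold Un
  rw [mul_sum, ← sum_sub_distrib]
  set p := pos t ω with hp
  have hh := hs_le_half (N := N) (m := m) hm
  have hh0 := hs_nonneg (N := N) (m := m)
  have h1 : ∀ x ∈ (univ : Finset (ZMod N)), |uv t ω (a, x) *
      ((1 - lazy (gr N m) p.1 (a, x)) * (1 - lazy (gr N m) p.2 (a, x))) -
      (1 - hs N m) ^ na a p * uv t ω (a, x)| ≤ al p.1 (a, x) m + al p.2 (a, x) m := by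
    intro x _
    have a1 := al_bounds hm p.1 (a, x)
    have a2 := al_bounds hm p.2 (a, x)
    by_cases hv : (a, x) ∈ vis t ω
    · have : uv t ω (a, x) = 0 := by unfold uv; rw [if_pos hv]
      rw [this]
      simp only [zero_mul, mul_zero, sub_zero, abs_zero]
      linarith [a1.1, a2.1]
    · have hu : uv t ω (a, x) = 1 := by unfold uv; rw [if_neg hv]
      have n1 : p.1 ≠ (a, x) := fun h => hv (h ▸ (pos_mem t ω).1)
      have n2 : p.2 ≠ (a, x) := fun h => hv (h ▸ (pos_mem t ω).2)
      rw [hu, one_mul, mul_one, one_sub_lazy hm n1, one_sub_lazy hm n2]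
      have e : (1 - hs N m) ^ na a p = (1 - hs N m) ^ (if p.1.1 = a then 1 else 0) *
          (1 - hs N m) ^ (if p.2.1 = a then 1 else 0) := by
        unfold na; rw [pow_add]
      rw [e]
      simp only
      set u1 := (1 - hs N m) ^ (if p.1.1 = a then 1 else 0) with hu1
      set u2 := (1 - hs N m) ^ (if p.2.1 = a then 1 else 0) with hu2
      have b1 : 0 ≤ u1 ∧ u1 ≤ 1 :=
        ⟨pow_nonneg (by linarith [hh.2]) _, pow_le_one₀ (by linarith [hh.2]) (by linarith)⟩
      have b2 : 0 ≤ u2 ∧ u2 ≤ 1 :=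
        ⟨pow_nonneg (by linarith [hh.2]) _, pow_le_one₀ (by linarith [hh.2]) (by linarith)⟩
      have e2 : u1 * (1 - al p.1 (a, x) m) * (u2 * (1 - al p.2 (a, x) m)) - u1 * u2 =
          -(u1 * u2 * (al p.1 (a, x) m + al p.2 (a, x) m - al p.1 (a, x) m * al p.2 (a, x) m)) := by
        ring
      rw [e2, abs_neg]
      set α := al p.1 (a, x) m
      set β := al p.2 (a, x) m
      have h3 : 0 ≤ α + β - α * β := by nlinarith [a1.1, a1.2, a2.1, a2.2]
      have h4 : α + β - α * β ≤ α + β := by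
        have := mul_nonneg a1.1 a2.1
        linarith
      have h5 : 0 ≤ u1 * u2 := mul_nonneg b1.1 b2.1
      have h6 : u1 * u2 ≤ 1 := mul_le_one₀ b1.2 b2.1 b2.2
      rw [abs_of_nonneg (mul_nonneg h5 h3)]
      exact (mul_le_of_le_one_left h3 h6).trans h4
  refine (abs_sum_le_sum_abs _ _).trans ((sum_le_sum h1).trans ?_)
  rw [sum_add_distrib]
  have := al_sum hm a p.1
  have := al_sum hm a p.2
  linarith

lemma Unx_bounds (a : Bool) (t : ℕ) (ω : ℕ → LT N m) (q : VV N × VV N) :
    Un a t ω - 2 ≤ Unx a t ω q ∧ Unx a t ω q ≤ Un a t ω := by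
  classical
  have av : ∀ v r : VV N, 0 ≤ avo v r ∧ avo v r ≤ 1 := by
    intro v r
    unfold avo
    split_ifs <;> norm_num
  constructor
  · have h1 : Un a t ω - Unx a t ω q ≤ ∑ x : ZMod N, ((if q.1 = (a, x) then (1 : ℝ) else 0) +
        (if q.2 = (a, x) then (1 : ℝ) else 0)) := by
      unfold Un Unx
      rw [← sum_sub_distrib]
      refine sum_le_sum fun x _ => ?_
      have h0 := uv_nonneg t ω (a, x)
      have h1 := uv_le_one t ω (a, x)
      unfold avo
      split_ifs <;> linarith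
    have h2 : ∀ r : VV N, ∑ x : ZMod N, (if r = (a, x) then (1 : ℝ) else 0) ≤ 1 := by
      intro r
      obtain ⟨b, y⟩ := r
      by_cases hb : b = a
      · subst hb
        simp
      · simp [hb]
    rw [sum_add_distrib] at h1
    have := h2 q.1
    have := h2 q.2
    linarith
  · unfold Un Unx
    refine sum_le_sum fun x _ => ?_
    have h0 := uv_nonneg t ω (a, x)
    have h1 := av (a, x) q.1
    have h2 := av (a, x) q.2
    exact mul_le_of_le_one_right h0 (mul_le_one₀ h1.2 h2.1 h2.2)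

lemma La_succ (a : Bool) (t : ℕ) (ω : ℕ → LT N m) :
    La a (t + 1) ω = La a t ω + na a (pos t ω) := by
  unfold La na; rw [sum_range_succ]

lemma Aa_succ (a : Bool) (t : ℕ) (ω : ℕ → LT N m) :
    Aa a (t + 1) ω = (1 - hs N m) ^ na a (pos t ω) * Aa a t ω := by
  unfold Aa; rw [La_succ, pow_add]; ring

lemma Aa_bounds (hm : m ≤ N) (a : Bool) (t : ℕ) (ω : ℕ → LT N m) :
    0 ≤ Aa a t ω ∧ Aa a t ω ≤ 1 := by
  have hh := hs_le_half (N := N) (m := m) hm
  have hh0 := hs_nonneg (N := N) (m := m)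
  exact ⟨pow_nonneg (by linarith [hh.2]) _, pow_le_one₀ (by linarith [hh.2]) (by linarith)⟩

/-- The second moment of the deviation. -/
theorem wa_sq (hm : m ≤ N) {K : ℕ} (hK : 0 < K) (a : Bool) {t : ℕ} (ht : t ≤ K) :
    ∫ ω, wa a t ω ^ 2 ∂PP (LT N m) ≤ 12 * (1 + K ^ 2 * qs N m ^ 2 + K) := by
  have hh := hs_le_half (N := N) (m := m) hm
  have hh0 := hs_nonneg (N := N) (m := m)
  have hK' : (0 : ℝ) < K := by exact_mod_cast hK
  have hstep : ∀ t < K, ∫ ω, wa a (t + 1) ω ^ 2 ∂PP (LT N m) ≤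
      (1 + 1 / K) * ∫ ω, wa a t ω ^ 2 ∂PP (LT N m) + (K * (2 * qs N m) ^ 2 + 2 ^ 2) := by
    intro t _
    let g : (ℕ → LT N m) → ℝ := fun ω => (1 - hs N m) ^ na a (pos t ω)
    let F : (ℕ → LT N m) → VV N × VV N → ℝ := fun ω q =>
      (g ω * wa a t ω + (Unx a t ω q - g ω * Un a t ω)) ^ 2
    have hF : ∀ q, Dep (t + 1) fun ω => F ω q := by
      intro q ω ω' h
      simp only [F, g, Unx, uv]
      rw [dep_pos t ω ω' h, dep_wa a t ω ω' h, dep_Un a t ω ω' h, dep_vis t ω ω' h]
    have e1 : ∀ ω : ℕ → LT N m, wa a (t + 1) ω ^ 2 = F ω (pos (t + 1) ω) := by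
      intro ω
      simp only [F, g, wa]
      rw [Un_succ, Aa_succ]
      ring
    simp only [e1]
    have hG : Dep (t + 1) fun ω : ℕ → LT N m => (1 + 1 / (K : ℝ)) * wa a t ω ^ 2 +
        (K * (2 * qs N m) ^ 2 + 2 ^ 2) :=
      (dep_wa a t).comp fun x => (1 + 1 / (K : ℝ)) * x ^ 2 + (K * (2 * qs N m) ^ 2 + 2 ^ 2)
    refine (step_pos_le hm F hF hG fun ω => ?_).trans (le_of_eq ?_)
    · have hg0 : 0 ≤ g ω := pow_nonneg (by linarith [hh.2]) _
      have hg1 : g ω ≤ 1 := pow_le_one₀ (by linarith [hh.2]) (by linarith)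
      refine E2_sq hm hK hg0 hg1 ?_ ?_
      · have h1 : E2 N m (fun q => Unx a t ω q - g ω * Un a t ω) (pos t ω) =
            E2 N m (Unx a t ω) (pos t ω) - g ω * Un a t ω := by
          have h2 : ∀ q, Unx a t ω q - g ω * Un a t ω =
            Unx a t ω q + (-(g ω * Un a t ω)) := fun q => sub_eq_add_neg _ _
          simp only [h2]
          rw [E2_add, E2_const hm]
          ring
        rw [h1]
        exact E2_Unx_sub hm a t ω
      · intro q
        have hb := Unx_bounds a t ω q
        have hU := Un_nonneg a t ω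
        have hU' := Un_le a t ω
        have hg2 : 1 - 2 * hs N m ≤ g ω := by
          have h2 : (1 - hs N m) ^ 2 ≤ g ω := pow_le_pow_of_le_one (by linarith [hh.2])
            (by linarith) (by
              unfold na
              split_ifs <;> omega)
          nlinarith
        have h3 : (1 - g ω) * Un a t ω ≤ 1 := by
          calc (1 - g ω) * Un a t ω ≤ (2 * hs N m) * N := by
                refine mul_le_mul (by linarith) hU' hU (by positivity)
            _ ≤ 1 := by linarith [hh.1]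
        have h4 : 0 ≤ (1 - g ω) * Un a t ω := mul_nonneg (by linarith) hU
        rw [abs_le]
        constructor <;> nlinarith [hb.1, hb.2]
    · rw [integral_add ((dep_wa a t).comp fun x => (1 + 1 / (K : ℝ)) * x ^ 2).integrable
        (integrable_const _), integral_const_mul, integral_const, probReal_univ, one_smul]
  have h0 : ∫ ω, wa a 0 ω ^ 2 ∂PP (LT N m) ≤ 4 := by
    have h1 : ∀ ω : ℕ → LT N m, wa a 0 ω ^ 2 ≤ 4 := by
      intro ω
      have h2 : Aa a 0 ω = 1 := by simp [Aa, La]
      have h3 : (N : ℝ) - 2 ≤ Un a 0 ω := by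
        have h4 : (N : ℝ) - Un a 0 ω ≤ ∑ x : ZMod N, ((if (pos 0 ω).1 = (a, x) then (1 : ℝ) else 0)
            + (if (pos 0 ω).2 = (a, x) then (1 : ℝ) else 0)) := by
          have h5 : (N : ℝ) = ∑ x : ZMod N, (1 : ℝ) := by simp [ZMod.card]
          rw [h5]
          unfold Un
          rw [← sum_sub_distrib]
          refine sum_le_sum fun x _ => ?_
          unfold uv
          simp only [vis, mem_insert, mem_singleton]
          by_cases c1 : (pos 0 ω).1 = (a, x)
          · rw [if_pos (Or.inl c1.symm), if_pos c1]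
            split_ifs <;> norm_num
          · by_cases c2 : (pos 0 ω).2 = (a, x)
            · rw [if_pos (Or.inr c2.symm), if_pos c2]
              split_ifs <;> norm_num
            · rw [if_neg, if_neg c1, if_neg c2]
              · norm_num
              · rintro (h | h)
                · exact c1 h.symm
                · exact c2 h.symm
        have h2 : ∀ r : VV N, ∑ x : ZMod N, (if r = (a, x) then (1 : ℝ) else 0) ≤ 1 := by
          intro r
          obtain ⟨b, y⟩ := r
          by_cases hb : b = a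
          · subst hb
            simp
          · simp [hb]
        rw [sum_add_distrib] at h4
        have := h2 (pos 0 ω).1
        have := h2 (pos 0 ω).2
        linarith
      have h4 := Un_le a 0 ω
      unfold wa
      rw [h2]
      nlinarith
    have h2 := integral_mono_dep ((dep_wa a 0).comp fun x => x ^ 2) (dep_const (4 : ℝ) 1) h1
    simpa using h2
  have h0' : 0 ≤ ∫ ω, wa a 0 ω ^ 2 ∂PP (LT N m) := integral_nonneg fun ω => sq_nonneg _
  have hrec := l2rec hK (x := fun t => ∫ ω, wa a t ω ^ 2 ∂PP (LT N m))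
    (y := fun _ => K * (2 * qs N m) ^ 2 + 2 ^ 2) h0' (fun t _ => by positivity) hstep t ht
  refine hrec.trans ?_
  rw [sum_const, card_range, nsmul_eq_mul]
  have ht' : (t : ℝ) ≤ K := by exact_mod_cast ht
  have h3 : (t : ℝ) * (K * (2 * qs N m) ^ 2 + 2 ^ 2) ≤ K * (K * (2 * qs N m) ^ 2 + 2 ^ 2) :=
    mul_le_mul_of_nonneg_right ht' (by positivity)
  calc 3 * (∫ ω, wa a 0 ω ^ 2 ∂PP (LT N m) + t * (K * (2 * qs N m) ^ 2 + 2 ^ 2))
      ≤ 3 * (4 + K * (K * (2 * qs N m) ^ 2 + 2 ^ 2)) := by linarith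
    _ = 12 * (1 + K ^ 2 * qs N m ^ 2 + K) := by ring

end Pool.Agent.T2H99.CW
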