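import Pool.Agent.T2H99.CW.W4

/-!
The difference of the two counts is close to the main term.
-/

set_option autoImplicit false
set_option linter.unusedSectionVars false

open MeasureTheory Finset Filter Topology

namespace Pool.Agent.T2H99.CW

variable {N m : ℕ} [NeZero N] [NeZero m]

/-- The difference of the numbers of first visits, ties not counted. -/
noncomputable def Dp : ℕ → (ℕ → LT N m) → ℝ
  | 0, _ => 0
  | t + 1, ω => Dp t ω + (uv t ω (pos (t + 1) ω).1 - uv t ω (pos (t + 1) ω).2)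

/-- The number of ties. -/
noncomputable def Ti : ℕ → (ℕ → LT N m) → ℝ
  | 0, ω => if (pos 0 ω).1 = (pos 0 ω).2 then 1 else 0
  | t + 1, ω => Ti t ω + (if (pos (t + 1) ω).1 = (pos (t + 1) ω).2 then
      uv t ω (pos (t + 1) ω).1 else 0)

/-- The main term. -/
noncomputable def Qp (t : ℕ) (ω : ℕ → LT N m) : ℝ :=
  ∑ s ∈ range t, N * hs N m * (Aa (pos s ω).1.1 s ω - Aa (pos s ω).2.1 s ω)

lemma dep_Dp (t : ℕ) : Dep (t + 1) (Dp (N := N) (m := m) t) := by
  induction t with
  | zero =>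
    intro ω ω' h
    simp only [Dp]
  | succ t ih =>
    intro ω ω' h
    simp only [Dp, uv]
    rw [dep_pos (t + 1) ω ω' h, ih ω ω' fun i hi => h i (by omega),
      dep_vis t ω ω' fun i hi => h i (by omega)]

lemma dep_Ti (t : ℕ) : Dep (t + 1) (Ti (N := N) (m := m) t) := by
  induction t with
  | zero =>
    intro ω ω' h
    simp only [Ti]
    rw [dep_pos 0 ω ω' h]
  | succ t ih =>
    intro ω ω' h
    simp only [Ti, uv]
    rw [dep_pos (t + 1) ω ω' h, ih ω ω' fun i hi => h i (by omega),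
      dep_vis t ω ω' fun i hi => h i (by omega)]

lemma dep_Qp (t : ℕ) : Dep t (Qp (N := N) (m := m) t) := by
  intro ω ω' h
  unfold Qp Aa
  refine sum_congr rfl fun s hs => ?_
  have hs' := mem_range.1 hs
  rw [dep_pos s ω ω' fun i hi => h i (by omega)]
  have e : ∀ a, La a s ω = La a s ω' := fun a => dep_La a s ω ω' fun i hi => h i (by omega)
  rw [e, e]

lemma Ti_nonneg (t : ℕ) (ω : ℕ → LT N m) : 0 ≤ Ti t ω := by
  induction t with
  | zero => unfold Ti; split_ifs <;> norm_num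
  | succ t ih =>
    unfold Ti
    have := uv_nonneg t ω (pos (t + 1) ω).1
    split_ifs <;> linarith

lemma abs_Dp_le (t : ℕ) (ω : ℕ → LT N m) : |Dp t ω| ≤ t := by
  induction t with
  | zero => simp [Dp]
  | succ t ih =>
    unfold Dp
    have h1 := uv_nonneg t ω (pos (t + 1) ω).1
    have h2 := uv_nonneg t ω (pos (t + 1) ω).2
    have h3 := uv_le_one t ω (pos (t + 1) ω).1
    have h4 := uv_le_one t ω (pos (t + 1) ω).2
    push_cast
    rw [abs_le] at ih ⊢
    constructor <;> linarith [ih.1, ih.2]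

/-- The probability to visit a new vertex. -/
lemma E1_uv (hm : m ≤ N) (t : ℕ) (ω : ℕ → LT N m) {p : VV N} (hp : p ∈ vis t ω) :
    |E1 N m (uv t ω) p - hs N m * Un p.1 t ω| ≤ qs N m := by
  have h1 : E1 N m (uv t ω) p = ∑ x : ZMod N, lazy (gr N m) p (p.1, x) * uv t ω (p.1, x) +
      ∑ x : ZMod N, lazy (gr N m) p (!p.1, x) * uv t ω (!p.1, x) := by
    unfold E1
    exact sum_VV p.1 _
  have h2 : ∑ x : ZMod N, lazy (gr N m) p (p.1, x) * uv t ω (p.1, x) =
      hs N m * Un p.1 t ω := by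
    unfold Un
    rw [mul_sum]
    refine sum_congr rfl fun x _ => ?_
    by_cases hx : (p.1, x) ∈ vis t ω
    · have : uv t ω (p.1, x) = 0 := by unfold uv; rw [if_pos hx]
      rw [this]; ring
    · have hne : p ≠ (p.1, x) := fun h => hx (h ▸ hp)
      have hxy : p.2 ≠ x := fun h => hne (by rw [← h])
      rw [lazy_ne hm hne]
      have := (adj_same (m := m) p.1 p.2 x).2 hxy
      rw [if_pos this]
  rw [h1, h2, add_sub_cancel_left]
  have h3 : 0 ≤ ∑ x : ZMod N, lazy (gr N m) p (!p.1, x) * uv t ω (!p.1, x) :=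
    sum_nonneg fun x _ => mul_nonneg (lazy_nonneg hm _ _) (uv_nonneg _ _ _)
  rw [abs_of_nonneg h3, ← side_sum hm p]
  exact sum_le_sum fun x _ => mul_le_of_le_one_right (lazy_nonneg hm _ _) (uv_le_one _ _ _)

lemma sum_const_add {b c : ℝ} {K : ℕ} {f g : ℕ → ℝ} {w : ℝ} (hf : ∀ t < K, f t ≤ w)
    (hg : ∀ t < K, g t ≤ w) (hb : 0 ≤ b) :
    ∑ t ∈ range K, (b * (f t + g t) + c) ≤ K * (b * (2 * w) + c) := by
  calc ∑ t ∈ range K, (b * (f t + g t) + c) ≤ ∑ t ∈ range K, (b * (2 * w) + c) := by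
        refine sum_le_sum fun t ht => ?_
        have h1 := hf t (mem_range.1 ht)
        have h2 := hg t (mem_range.1 ht)
        have : b * (f t + g t) ≤ b * (2 * w) := mul_le_mul_of_nonneg_left (by linarith) hb
        linarith
    _ = K * (b * (2 * w) + c) := by rw [sum_const, card_range, nsmul_eq_mul]

/-- The difference of the counts is close to the main term. -/
theorem Dp_sub (hm : m ≤ N) {K : ℕ} (hK : 0 < K) :
    ∫ ω, (Dp K ω - Qp K ω) ^ 2 ∂PP (LT N m) ≤
      3 * (K * (K * (8 * hs N m ^ 2 * (2 * (12 * (1 + K ^ 2 * qs N m ^ 2 + K))) +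
        8 * qs N m ^ 2) + 4)) := by
  have hh := hs_le_half (N := N) (m := m) hm
  have hh0 := hs_nonneg (N := N) (m := m)
  have hK' : (0 : ℝ) < K := by exact_mod_cast hK
  have hN : (0 : ℝ) < N := by exact_mod_cast Nat.pos_of_ne_zero (NeZero.ne N)
  have hq0 : 0 ≤ qs N m := by unfold qs; positivity
  have dZ : ∀ t, Dep (t + 1) fun ω : ℕ → LT N m => Dp t ω - Qp t ω := fun t =>
    (dep_Dp t).comp₂ ((dep_Qp t).mono (Nat.le_succ t)) fun x y => x - y
  have hstep : ∀ t < K, ∫ ω, (Dp (t + 1) ω - Qp (t + 1) ω) ^ 2 ∂PP (LT N m) ≤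
      (1 + 1 / K) * ∫ ω, (Dp t ω - Qp t ω) ^ 2 ∂PP (LT N m) +
      (K * (8 * hs N m ^ 2) * (∫ ω, wa true t ω ^ 2 ∂PP (LT N m) +
        ∫ ω, wa false t ω ^ 2 ∂PP (LT N m)) + (K * (8 * qs N m ^ 2) + 4)) := by
    intro t _
    let cc : (ℕ → LT N m) → ℝ := fun ω =>
      N * hs N m * (Aa (pos t ω).1.1 t ω - Aa (pos t ω).2.1 t ω)
    let F : (ℕ → LT N m) → VV N × VV N → ℝ := fun ω q =>
      (1 * (Dp t ω - Qp t ω) + ((uv t ω q.1 - uv t ω q.2) - cc ω)) ^ 2
    have dcc : Dep (t + 1) cc := by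
      intro ω ω' h
      simp only [cc, Aa]
      rw [dep_pos t ω ω' h]
      have e : ∀ a, La a t ω = La a t ω' := fun a =>
        dep_La a t ω ω' fun i hi => h i (by omega)
      rw [e, e]
    have hF : ∀ q, Dep (t + 1) fun ω => F ω q := by
      intro q ω ω' h
      simp only [F, uv]
      rw [dcc ω ω' h, dep_vis t ω ω' h, dep_Dp t ω ω' h,
        dep_Qp t ω ω' fun i hi => h i (by omega)]
    have e1 : ∀ ω : ℕ → LT N m, (Dp (t + 1) ω - Qp (t + 1) ω) ^ 2 = F ω (pos (t + 1) ω) := by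
      intro ω
      simp only [F, cc, Dp, Qp, sum_range_succ]
      ring
    simp only [e1]
    have hG : Dep (t + 1) fun ω : ℕ → LT N m => (1 + 1 / (K : ℝ)) * (Dp t ω - Qp t ω) ^ 2 +
        ((K * (8 * hs N m ^ 2)) * (wa true t ω ^ 2 + wa false t ω ^ 2) +
          (K * (8 * qs N m ^ 2) + 4)) :=
      (dZ t).comp₃ (dep_wa true t) (dep_wa false t) fun x y z => (1 + 1 / (K : ℝ)) * x ^ 2 +
        ((K * (8 * hs N m ^ 2)) * (y ^ 2 + z ^ 2) + (K * (8 * qs N m ^ 2) + 4))
    refine (step_pos_le hm F hF hG fun ω => ?_).trans (le_of_eq ?_)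
    · have hβ : |E2 N m (fun q => (uv t ω q.1 - uv t ω q.2) - cc ω) (pos t ω)| ≤
          hs N m * (|wa (pos t ω).1.1 t ω| + |wa (pos t ω).2.1 t ω|) + 2 * qs N m := by
        have h1 : E2 N m (fun q => (uv t ω q.1 - uv t ω q.2) - cc ω) (pos t ω) =
            E1 N m (uv t ω) (pos t ω).1 - E1 N m (uv t ω) (pos t ω).2 - cc ω := by
          have h2 : ∀ q : VV N × VV N, (uv t ω q.1 - uv t ω q.2) - cc ω =
            (uv t ω q.1 * 1 + (-1) * (1 * uv t ω q.2)) + (-(cc ω)) := fun q => by ring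
          simp only [h2]
          rw [E2_add, E2_add, E2_mul, E2_const hm, E2_prod (uv t ω) (fun _ => 1),
            E2_prod (fun _ => 1) (uv t ω), E1_const hm m_pos, E1_const hm m_pos]
          ring
        rw [h1]
        have b1 := E1_uv hm t ω (pos_mem t ω).1
        have b2 := E1_uv hm t ω (pos_mem t ω).2
        have e2 : E1 N m (uv t ω) (pos t ω).1 - E1 N m (uv t ω) (pos t ω).2 - cc ω =
            (E1 N m (uv t ω) (pos t ω).1 - hs N m * Un (pos t ω).1.1 t ω) -
            (E1 N m (uv t ω) (pos t ω).2 - hs N m * Un (pos t ω).2.1 t ω) +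
            (hs N m * wa (pos t ω).1.1 t ω - hs N m * wa (pos t ω).2.1 t ω) := by
          simp only [cc, wa]
          ring
        rw [e2]
        refine (abs_add_le _ _).trans ?_
        have h3 := abs_sub (E1 N m (uv t ω) (pos t ω).1 - hs N m * Un (pos t ω).1.1 t ω)
          (E1 N m (uv t ω) (pos t ω).2 - hs N m * Un (pos t ω).2.1 t ω)
        have h4 := abs_sub (hs N m * wa (pos t ω).1.1 t ω) (hs N m * wa (pos t ω).2.1 t ω)
        rw [abs_mul, abs_mul, abs_of_nonneg hh0] at h4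
        linarith
      have hc : ∀ q : VV N × VV N, |(uv t ω q.1 - uv t ω q.2) - cc ω| ≤ 2 := by
        intro q
        have h1 := uv_nonneg t ω q.1
        have h2 := uv_nonneg t ω q.2
        have h3 := uv_le_one t ω q.1
        have h4 := uv_le_one t ω q.2
        have a1 := Aa_bounds hm (pos t ω).1.1 t ω
        have a2 := Aa_bounds hm (pos t ω).2.1 t ω
        have h5 : |cc ω| ≤ 1 := by
          simp only [cc]
          rw [abs_mul, abs_of_nonneg (by positivity)]
          have h6 : |Aa (pos t ω).1.1 t ω - Aa (pos t ω).2.1 t ω| ≤ 1 := by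
            rw [abs_le]; constructor <;> linarith [a1.1, a1.2, a2.1, a2.2]
          have h7 : (N : ℝ) * hs N m ≤ 1 := by linarith [hh.1]
          exact mul_le_one₀ h7 (abs_nonneg _) h6
        obtain ⟨h6, h7⟩ := abs_le.1 h5
        rw [abs_le]
        constructor <;> linarith
      have h := E2_sq hm hK (Z := Dp t ω - Qp t ω) zero_le_one le_rfl hβ hc
      refine h.trans ?_
      have hw1 : wa (pos t ω).1.1 t ω ^ 2 ≤ wa true t ω ^ 2 + wa false t ω ^ 2 := by
        cases (pos t ω).1.1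
        · linarith [sq_nonneg (wa true t ω)]
        · linarith [sq_nonneg (wa false t ω)]
      have hw2 : wa (pos t ω).2.1 t ω ^ 2 ≤ wa true t ω ^ 2 + wa false t ω ^ 2 := by
        cases (pos t ω).2.1
        · linarith [sq_nonneg (wa true t ω)]
        · linarith [sq_nonneg (wa false t ω)]
      have hβ2 : (hs N m * (|wa (pos t ω).1.1 t ω| + |wa (pos t ω).2.1 t ω|) + 2 * qs N m) ^ 2 ≤
          8 * hs N m ^ 2 * (wa true t ω ^ 2 + wa false t ω ^ 2) + 8 * qs N m ^ 2 := by
        set A := |wa (pos t ω).1.1 t ω| with hA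
        set C := |wa (pos t ω).2.1 t ω| with hC
        have h1 : A ^ 2 ≤ wa true t ω ^ 2 + wa false t ω ^ 2 := by rw [hA, sq_abs]; exact hw1
        have h2 : C ^ 2 ≤ wa true t ω ^ 2 + wa false t ω ^ 2 := by rw [hC, sq_abs]; exact hw2
        have h3 : (A + C) ^ 2 ≤ 4 * (wa true t ω ^ 2 + wa false t ω ^ 2) := by
          nlinarith [sq_nonneg (A - C)]
        have h4 : (hs N m * (A + C) + 2 * qs N m) ^ 2 ≤ 2 * (hs N m * (A + C)) ^ 2 +
          2 * (2 * qs N m) ^ 2 := by nlinarith [sq_nonneg (hs N m * (A + C) - 2 * qs N m)]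
        have h5 : (hs N m * (A + C)) ^ 2 ≤ hs N m ^ 2 *
          (4 * (wa true t ω ^ 2 + wa false t ω ^ 2)) := by
          rw [mul_pow]
          exact mul_le_mul_of_nonneg_left h3 (sq_nonneg _)
        linarith
      have h6 := mul_le_mul_of_nonneg_left hβ2 hK'.le
      linarith
    · have i1 : Integrable (fun ω : ℕ → LT N m => (1 + 1 / (K : ℝ)) * (Dp t ω - Qp t ω) ^ 2)
          (PP (LT N m)) := ((dZ t).comp fun x => (1 + 1 / (K : ℝ)) * x ^ 2).integrable
      have i2 : Integrable (fun ω : ℕ → LT N m => wa true t ω ^ 2) (PP (LT N m)) :=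
        ((dep_wa true t).comp fun x => x ^ 2).integrable
      have i3 : Integrable (fun ω : ℕ → LT N m => wa false t ω ^ 2) (PP (LT N m)) :=
        ((dep_wa false t).comp fun x => x ^ 2).integrable
      have i4 : Integrable (fun ω : ℕ → LT N m => (K * (8 * hs N m ^ 2)) *
          (wa true t ω ^ 2 + wa false t ω ^ 2)) (PP (LT N m)) := (i2.add i3).const_mul _
      have i5 : Integrable (fun ω : ℕ → LT N m => (K * (8 * hs N m ^ 2)) *
          (wa true t ω ^ 2 + wa false t ω ^ 2) + (K * (8 * qs N m ^ 2) + 4))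
          (PP (LT N m)) := i4.add (integrable_const _)
      rw [integral_add i1 i5, integral_add i4 (integrable_const _), integral_const_mul,
        integral_const_mul, integral_add i2 i3, integral_const, probReal_univ, one_smul]
  have h0 : ∫ ω, (Dp 0 ω - Qp 0 ω) ^ 2 ∂PP (LT N m) = 0 := by
    have : ∀ ω : ℕ → LT N m, (Dp 0 ω - Qp 0 ω) ^ 2 = 0 := fun ω => by simp [Dp, Qp]
    simp [this]
  have hrec := l2rec hK (x := fun t => ∫ ω, (Dp t ω - Qp t ω) ^ 2 ∂PP (LT N m))
    (y := fun t => K * (8 * hs N m ^ 2) * (∫ ω, wa true t ω ^ 2 ∂PP (LT N m) +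
        ∫ ω, wa false t ω ^ 2 ∂PP (LT N m)) + (K * (8 * qs N m ^ 2) + 4)) (by rw [h0])
    (fun t _ => by
      have a1 : 0 ≤ ∫ ω, wa true t ω ^ 2 ∂PP (LT N m) := integral_nonneg fun ω => sq_nonneg _
      have a2 : 0 ≤ ∫ ω, wa false t ω ^ 2 ∂PP (LT N m) := integral_nonneg fun ω => sq_nonneg _
      positivity) hstep K le_rfl
  simp only [h0, zero_add] at hrec
  refine hrec.trans ?_
  refine mul_le_mul_of_nonneg_left ?_ (by norm_num)
  refine (sum_const_add (fun t ht => wa_sq hm hK true ht.le) (fun t ht =>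
    wa_sq hm hK false ht.le) (by positivity)).trans (le_of_eq ?_)
  ring

/-- The number of ties. -/
theorem Ti_sq (hm : m ≤ N) {K : ℕ} (hK : 0 < K) :
    ∫ ω, Ti K ω ^ 2 ∂PP (LT N m) ≤ 3 * (1 + K * (K * hs N m ^ 2 + 1)) := by
  classical
  have hh := hs_le_half (N := N) (m := m) hm
  have hh0 := hs_nonneg (N := N) (m := m)
  have hK' : (0 : ℝ) < K := by exact_mod_cast hK
  have hstep : ∀ t < K, ∫ ω, Ti (t + 1) ω ^ 2 ∂PP (LT N m) ≤
      (1 + 1 / K) * ∫ ω, Ti t ω ^ 2 ∂PP (LT N m) + (K * hs N m ^ 2 + 1 ^ 2) := by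
    intro t _
    let F : (ℕ → LT N m) → VV N × VV N → ℝ := fun ω q =>
      (1 * Ti t ω + (if q.1 = q.2 then uv t ω q.1 else 0)) ^ 2
    have hF : ∀ q, Dep (t + 1) fun ω => F ω q := by
      intro q ω ω' h
      simp only [F, uv]
      rw [dep_vis t ω ω' h, dep_Ti t ω ω' h]
    have e1 : ∀ ω : ℕ → LT N m, Ti (t + 1) ω ^ 2 = F ω (pos (t + 1) ω) := by
      intro ω
      simp only [F, Ti, one_mul]
    simp only [e1]
    have hG : Dep (t + 1) fun ω : ℕ → LT N m => (1 + 1 / (K : ℝ)) * Ti t ω ^ 2 +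
        (K * hs N m ^ 2 + 1 ^ 2) :=
      (dep_Ti t).comp fun x => (1 + 1 / (K : ℝ)) * x ^ 2 + (K * hs N m ^ 2 + 1 ^ 2)
    refine (step_pos_le hm F hF hG fun ω => ?_).trans (le_of_eq ?_)
    · refine E2_sq hm hK zero_le_one le_rfl ?_ ?_
      · have hn : 0 ≤ E2 N m (fun q => if q.1 = q.2 then uv t ω q.1 else 0) (pos t ω) := by
          have h1 := E2_mono hm (φ := fun _ => 0)
            (ψ := fun q => if q.1 = q.2 then uv t ω q.1 else 0) (fun q => by
              have := uv_nonneg t ω q.1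
              split_ifs <;> simp [this]) (pos t ω)
          rwa [E2_const hm] at h1
        rw [abs_of_nonneg hn]
        unfold E2
        have h2 : ∀ x, E1 N m (fun y => if x = y then uv t ω x else 0) (pos t ω).2 ≤ hs N m := by
          intro x
          unfold E1
          simp only [mul_ite, mul_zero, sum_ite_eq, mem_univ, if_true]
          by_cases hx : x ∈ vis t ω
          · have : uv t ω x = 0 := by unfold uv; rw [if_pos hx]
            rw [this, mul_zero]; exact hh0
          · have hne : (pos t ω).2 ≠ x := fun h => hx (h ▸ (pos_mem t ω).2)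
            have h3 := lazy_le hm hne
            have h4 := lazy_nonneg hm (pos t ω).2 x
            have h5 := uv_nonneg t ω x
            have h6 := uv_le_one t ω x
            nlinarith
        refine (E1_mono hm h2 _).trans (le_of_eq ?_)
        rw [E1_const hm m_pos]
      · intro q
        have h1 := uv_nonneg t ω q.1
        have h2 := uv_le_one t ω q.1
        split_ifs
        · rw [abs_of_nonneg h1]; exact h2
        · simp
    · rw [integral_add ((dep_Ti t).comp fun x => (1 + 1 / (K : ℝ)) * x ^ 2).integrable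
        (integrable_const _), integral_const_mul, integral_const, probReal_univ, one_smul]
  have h0 : ∫ ω, Ti 0 ω ^ 2 ∂PP (LT N m) ≤ 1 := by
    have h1 : ∀ ω : ℕ → LT N m, Ti 0 ω ^ 2 ≤ 1 := by
      intro ω
      unfold Ti
      split_ifs <;> norm_num
    have h2 := integral_mono_dep ((dep_Ti 0).comp fun x => x ^ 2) (dep_const (1 : ℝ) 1) h1
    simpa using h2
  have h0' : 0 ≤ ∫ ω, Ti 0 ω ^ 2 ∂PP (LT N m) := integral_nonneg fun ω => sq_nonneg _
  have hrec := l2rec hK (x := fun t => ∫ ω, Ti t ω ^ 2 ∂PP (LT N m))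
    (y := fun _ => K * hs N m ^ 2 + 1 ^ 2) h0' (fun t _ => by positivity) hstep K le_rfl
  refine hrec.trans ?_
  rw [sum_const, card_range, nsmul_eq_mul]
  nlinarith

end Pool.Agent.T2H99.CW
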