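import Pool.Agent.T2H99.CW.W5
import Pool.Agent.T2H99.CW.M2

/-!
Covering, the count, and the main term in terms of the environment.
-/

set_option autoImplicit false
set_option linter.unusedSectionVars false

open MeasureTheory Finset Filter Topology

namespace Pool.Agent.T2H99.CW

variable {N m : ℕ} [NeZero N] [NeZero m]

/-! The main term. -/

section main

variable (hm : m ≤ N) (hq : qs N m ≤ 1 / 4)

/-- The exponent. -/
noncomputable def ts (N m : ℕ) : ℝ := - Real.log (1 - hs N m)

lemma v_pos (s : ℕ) (ω : ℕ → LT N m) :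
    (env hm hq).v s ω = (na true (pos s ω) : ℝ) - 1 ∧
    (env hm hq).v s ω = 1 - (na false (pos s ω) : ℝ) := by
  unfold Env.v na
  rw [kp_pos, sm_pos]
  cases (pos s ω).1.1 <;> cases (pos s ω).2.1 <;> simp [sgb] <;> norm_num

lemma La_R (t : ℕ) (ω : ℕ → LT N m) :
    (La true t ω : ℝ) = t + (env hm hq).R t ω ∧ (La false t ω : ℝ) = t - (env hm hq).R t ω := by
  induction t with
  | zero => simp [La, Env.R]
  | succ t ih =>
    obtain ⟨v1, v2⟩ := v_pos hm hq t ω
    rw [La_succ, La_succ, Env.R_succ]
    push_cast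
    constructor <;> linarith [ih.1, ih.2]

lemma Qp_eq (K : ℕ) (ω : ℕ → LT N m) :
    Qp K ω = N * hs N m * (env hm hq).Q (hs N m) (ts N m) K ω := by
  have hh := hs_le_half (N := N) (m := m) hm
  unfold Qp Env.Q
  rw [mul_sum]
  refine sum_congr rfl fun s _ => ?_
  congr 1
  obtain ⟨l1, l2⟩ := La_R hm hq s ω
  have hpos : 0 < 1 - hs N m := by linarith [hh.2]
  have he : 1 - hs N m = Real.exp (-(ts N m)) := by
    unfold ts; rw [neg_neg, Real.exp_log hpos]
  have A1 : Aa true s ω = (1 - hs N m) ^ s * Real.exp (-(ts N m * (env hm hq).R s ω)) := by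
    unfold Aa
    rw [he, ← Real.exp_nat_mul, ← Real.exp_nat_mul, ← Real.exp_add, l1]
    congr 1
    ring
  have A2 : Aa false s ω = (1 - hs N m) ^ s * Real.exp (ts N m * (env hm hq).R s ω) := by
    unfold Aa
    rw [he, ← Real.exp_nat_mul, ← Real.exp_nat_mul, ← Real.exp_add, l2]
    congr 1
    ring
  unfold Env.u
  rw [kp_pos, sm_pos, Real.sinh_eq]
  cases (pos s ω).1.1 <;> cases (pos s ω).2.1 <;> simp [sgb, A1, A2] <;> ring

end main

/-! Covering. -/

/-- The first walk has not visited `v`. -/
noncomputable def nv (v : VV N) : ℕ → (ℕ → LT N m) → ℝ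
  | 0, ω => avo v (pos 0 ω).1
  | t + 1, ω => nv v t ω * avo v (pos (t + 1) ω).1

/-- The potential. -/
noncomputable def pot (v q : VV N) (m : ℕ) : ℝ := if q.1 = v.1 then 1 else 1 + 1 / (2 * m)

lemma avo_nonneg (v q : VV N) : 0 ≤ avo v q := by unfold avo; split_ifs <;> norm_num

lemma nv_nonneg (v : VV N) (t : ℕ) (ω : ℕ → LT N m) : 0 ≤ nv v t ω := by
  induction t with
  | zero => exact avo_nonneg _ _
  | succ t ih => exact mul_nonneg ih (avo_nonneg _ _)

lemma dep_nv (v : VV N) (t : ℕ) : Dep (t + 1) (nv (m := m) v t) := by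
  induction t with
  | zero =>
    intro ω ω' h
    simp only [nv]
    rw [dep_pos 0 ω ω' h]
  | succ t ih =>
    intro ω ω' h
    simp only [nv]
    rw [dep_pos (t + 1) ω ω' h, ih ω ω' fun i hi => h i (by omega)]

lemma uv_le_nv (v : VV N) (t : ℕ) (ω : ℕ → LT N m) : uv t ω v ≤ nv v t ω := by
  have key : v ∉ vis t ω → nv v t ω = 1 := by
    intro h
    induction t with
    | zero =>
      unfold nv avo
      rw [if_neg]
      intro h1
      exact h (h1 ▸ (pos_mem 0 ω).1)
    | succ t ih =>
      have h1 : v ∉ vis t ω := fun h2 => h (mem_insert_of_mem (mem_insert_of_mem h2))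
      have h2 : (pos (t + 1) ω).1 ≠ v := fun h2 => h (h2 ▸ (pos_mem (t + 1) ω).1)
      unfold nv avo
      rw [ih h1, if_neg h2]
      norm_num
  by_cases h : v ∈ vis t ω
  · unfold uv
    rw [if_pos h]
    exact nv_nonneg v t ω
  · rw [key h]
    exact uv_le_one t ω v

lemma nv_zero_of {v : VV N} {t : ℕ} {ω : ℕ → LT N m} (h : (pos t ω).1 = v) : nv v t ω = 0 := by
  cases t with
  | zero => unfold nv avo; rw [if_pos h]
  | succ t => unfold nv avo; rw [if_pos h, mul_zero]

lemma E1_other (hm : m ≤ N) (a : Bool) (p : VV N) :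
    E1 N m (fun q => if q.1 = a then 0 else (1 : ℝ)) p =
      if p.1 = a then qs N m else 1 - qs N m := by
  obtain ⟨b, y⟩ := p
  have h1 : ∀ c, E1 N m (fun q => if q.1 = c then 0 else (1 : ℝ)) (c, y) = qs N m := by
    intro c
    unfold E1
    rw [sum_VV c]
    have h2 : ∀ x : ZMod N, lazy (gr N m) (c, y) (c, x) *
        (if ((c, x) : VV N).1 = c then 0 else (1 : ℝ)) = 0 := fun x => by simp
    have h3 : ∀ x : ZMod N, lazy (gr N m) (c, y) (!c, x) *
        (if ((!c, x) : VV N).1 = c then 0 else (1 : ℝ)) = lazy (gr N m) (c, y) (!c, x) :=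
      fun x => by cases c <;> simp
    rw [sum_congr rfl fun x _ => h2 x, sum_congr rfl fun x _ => h3 x, sum_const_zero, zero_add]
    exact side_sum hm (c, y)
  by_cases h : b = a
  · subst h
    rw [h1]
    simp
  · have hb : a = !b := by cases a <;> cases b <;> simp_all
    have h2 : ∀ q : VV N, (if q.1 = a then 0 else (1 : ℝ)) =
        1 + (-1) * (if q.1 = b then 0 else (1 : ℝ)) := by
      intro q
      rw [hb]
      cases q.1 <;> cases b <;> simp
    simp only [h2]
    rw [E1_add, E1_mul, E1_const hm m_pos, h1]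
    simp [h]
    ring

lemma E1_pot (hm : m ≤ N) {v p : VV N} (hp : p ≠ v) :
    E1 N m (fun q => avo v q * pot v q m) p ≤ (1 - hs N m / 4) * pot v p m := by
  classical
  have hh := hs_le_half (N := N) (m := m) hm
  have hh0 := hs_nonneg (N := N) (m := m)
  have hm1 : (1 : ℝ) ≤ m := by exact_mod_cast (m_pos (m := m))
  have hq : 1 / (2 * (m : ℝ)) * qs N m = hs N m / 2 := by
    unfold qs; field_simp
  have hpot : ∀ q : VV N, pot v q m = 1 + 1 / (2 * (m : ℝ)) * (if q.1 = v.1 then 0 else 1) := by
    intro q; unfold pot; split_ifs <;> ring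
  have hE : E1 N m (fun q => pot v q m) p = 1 + 1 / (2 * (m : ℝ)) *
      (if p.1 = v.1 then qs N m else 1 - qs N m) := by
    simp only [hpot]
    rw [E1_add, E1_mul, E1_const hm m_pos, E1_other hm]
  have hav : E1 N m (fun q => avo v q * pot v q m) p =
      E1 N m (fun q => pot v q m) p - lazy (gr N m) p v := by
    have h1 : ∀ q, lazy (gr N m) p q * (avo v q * pot v q m) =
        lazy (gr N m) p q * pot v q m - (if q = v then lazy (gr N m) p v else 0) := by
      intro q
      unfold avo
      by_cases h : q = v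
      · rw [if_pos h, if_pos h, h]
        unfold pot
        simp
      · rw [if_neg h, if_neg h]; ring
    unfold E1
    simp only [h1, sum_sub_distrib, sum_ite_eq', mem_univ, if_true]
  rw [hav, hE]
  unfold pot
  by_cases h : p.1 = v.1
  · have hl : lazy (gr N m) p v = hs N m := by
      rw [lazy_ne hm hp]
      have : (gr N m).Adj p v := by
        obtain ⟨a, x⟩ := p
        obtain ⟨b, y⟩ := v
        simp only at h
        subst h
        exact (adj_same a x y).2 fun hxy => hp (by rw [hxy])
      rw [if_pos this]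
    rw [if_pos h, if_pos h, hq, hl]
    linarith
  · rw [if_neg h, if_neg h]
    have hl := lazy_nonneg hm p v
    have h1 : 1 / (2 * (m : ℝ)) ≤ 1 := by
      rw [div_le_one (by positivity)]; linarith
    have h2 : 0 ≤ 1 / (2 * (m : ℝ)) := by positivity
    nlinarith

/-- The probability that a vertex is not visited. -/
theorem uv_int (hm : m ≤ N) (v : VV N) (K : ℕ) :
    ∫ ω, uv K ω v ∂PP (LT N m) ≤ 2 * (1 - hs N m / 4) ^ K := by
  have hh := hs_le_half (N := N) (m := m) hm
  have hh0 := hs_nonneg (N := N) (m := m)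
  have hm1 : (1 : ℝ) ≤ m := by exact_mod_cast (m_pos (m := m))
  have hpb : ∀ q : VV N, 1 ≤ pot v q m ∧ pot v q m ≤ 2 := by
    intro q
    unfold pot
    have h1 : 1 / (2 * (m : ℝ)) ≤ 1 := by
      rw [div_le_one (by positivity)]; linarith
    have h2 : 0 ≤ 1 / (2 * (m : ℝ)) := by positivity
    split_ifs <;> constructor <;> linarith
  have dH : ∀ t, Dep (t + 1) fun ω : ℕ → LT N m => nv v t ω * pot v (pos t ω).1 m := fun t =>
    (dep_nv v t).comp₂ (dep_pos t) fun x y => x * pot v y.1 m
  have key : ∫ ω, nv v K ω * pot v (pos K ω).1 m ∂PP (LT N m) ≤ 2 * (1 - hs N m / 4) ^ K := by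
    induction K with
    | zero =>
      have h1 : ∀ ω : ℕ → LT N m, nv v 0 ω * pot v (pos 0 ω).1 m ≤ 2 := by
        intro ω
        have h2 : nv v 0 ω ≤ 1 := by unfold nv avo; split_ifs <;> norm_num
        have h3 := nv_nonneg v 0 ω
        nlinarith [hpb (pos 0 ω).1]
      have h2 := integral_mono_dep (dH 0) (dep_const (2 : ℝ) 1) h1
      simpa using h2
    | succ K ih =>
      let F : (ℕ → LT N m) → VV N × VV N → ℝ := fun ω q =>
        nv v K ω * (avo v q.1 * pot v q.1 m)
      have hF : ∀ q, Dep (K + 1) fun ω => F ω q := fun q =>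
        (dep_nv v K).comp fun x => x * (avo v q.1 * pot v q.1 m)
      have e1 : ∀ ω : ℕ → LT N m, nv v (K + 1) ω * pot v (pos (K + 1) ω).1 m =
          F ω (pos (K + 1) ω) := by
        intro ω
        simp only [F, nv]
        ring
      simp only [e1]
      have hG : Dep (K + 1) fun ω : ℕ → LT N m => (1 - hs N m / 4) *
          (nv v K ω * pot v (pos K ω).1 m) := (dH K).comp fun x => (1 - hs N m / 4) * x
      refine (step_pos_le hm F hF hG fun ω => ?_).trans ?_
      · simp only [F]
        rw [E2_mul]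
        have h2 : E2 N m (fun q => avo v q.1 * pot v q.1 m) (pos K ω) =
            E1 N m (fun q => avo v q * pot v q m) (pos K ω).1 := by
          unfold E2
          simp only [E1_const hm m_pos]
        rw [h2]
        by_cases h3 : (pos K ω).1 = v
        · rw [nv_zero_of h3]; simp
        · have h4 := mul_le_mul_of_nonneg_left (E1_pot hm h3) (nv_nonneg v K ω)
          linarith
      · rw [integral_const_mul, pow_succ']
        have h5 : 0 ≤ 1 - hs N m / 4 := by linarith [hh.2]
        have := mul_le_mul_of_nonneg_left ih h5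
        linarith
  refine le_trans ?_ key
  refine integral_mono_dep (dep_uv K v) (dH K) fun ω => ?_
  refine (uv_le_nv v K ω).trans ?_
  have := nv_nonneg v K ω
  nlinarith [hpb (pos K ω).1]

/-! The count. -/

/-- First visit by the first walk. -/
noncomputable def fx (v : VV N) : ℕ → (ℕ → LT N m) → ℝ
  | 0, ω => if (pos 0 ω).1 = v then 1 else 0
  | t + 1, ω => fx v t ω + uv t ω v * (if (pos (t + 1) ω).1 = v then 1 else 0)

/-- First visit by the second walk. -/
noncomputable def fy (v : VV N) : ℕ → (ℕ → LT N m) → ℝ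
  | 0, ω => if (pos 0 ω).2 = v then 1 else 0
  | t + 1, ω => fy v t ω + uv t ω v * (if (pos (t + 1) ω).2 = v then 1 else 0)

/-- Simultaneous first visit. -/
noncomputable def fz (v : VV N) : ℕ → (ℕ → LT N m) → ℝ
  | 0, ω => if (pos 0 ω).1 = v ∧ (pos 0 ω).2 = v then 1 else 0
  | t + 1, ω => fz v t ω + uv t ω v *
      (if (pos (t + 1) ω).1 = v ∧ (pos (t + 1) ω).2 = v then 1 else 0)

lemma Dp_eq (t : ℕ) (ω : ℕ → LT N m) : Dp t ω = ∑ v, (fx v t ω - fy v t ω) := by
  classical
  induction t with
  | zero =>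
    unfold Dp fx fy
    rw [sum_sub_distrib]
    simp
  | succ t ih =>
    unfold Dp fx fy
    rw [ih]
    have h1 : ∀ r : VV N, uv t ω r = ∑ v, uv t ω v * (if r = v then 1 else 0) := by
      intro r
      simp
    rw [h1 (pos (t + 1) ω).1, h1 (pos (t + 1) ω).2, ← sum_sub_distrib, ← sum_add_distrib]
    exact sum_congr rfl fun v _ => by ring

lemma Ti_eq (t : ℕ) (ω : ℕ → LT N m) : Ti t ω = ∑ v, fz v t ω := by
  classical
  induction t with
  | zero =>
    unfold Ti fz
    by_cases h : (pos 0 ω).1 = (pos 0 ω).2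
    · rw [if_pos h, ← h]
      simp
    · rw [if_neg h]
      symm
      refine sum_eq_zero fun v _ => ?_
      rw [if_neg]
      rintro ⟨h1, h2⟩
      exact h (h1.trans h2.symm)
  | succ t ih =>
    unfold Ti fz
    rw [ih, sum_add_distrib]
    congr 1
    by_cases h : (pos (t + 1) ω).1 = (pos (t + 1) ω).2
    · rw [if_pos h, ← h]
      simp
    · rw [if_neg h]
      symm
      refine sum_eq_zero fun v _ => ?_
      rw [if_neg, mul_zero]
      rintro ⟨h1, h2⟩
      exact h (h1.trans h2.symm)

/-- The three ways of a first visit. -/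
lemma first_cases (v : VV N) (t : ℕ) (ω : ℕ → LT N m) :
    (v ∉ vis t ω ∧ fx v t ω = 0 ∧ fy v t ω = 0 ∧ fz v t ω = 0) ∨
    (v ∈ vis t ω ∧
      ((fx v t ω = 1 ∧ fy v t ω = 0 ∧ fz v t ω = 0 ∧
        ∃ s, (pos s ω).1 = v ∧ ∀ r ≤ s, (pos r ω).2 ≠ v) ∨
      (fx v t ω = 0 ∧ fy v t ω = 1 ∧ fz v t ω = 0 ∧
        ∃ s, (pos s ω).2 = v ∧ ∀ r ≤ s, (pos r ω).1 ≠ v) ∨
      (fx v t ω = 1 ∧ fy v t ω = 1 ∧ fz v t ω = 1 ∧
        ∃ s, (pos s ω).1 = v ∧ (pos s ω).2 = v ∧
          ∀ r < s, (pos r ω).1 ≠ v ∧ (pos r ω).2 ≠ v))) := by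
  induction t with
  | zero =>
    unfold fx fy fz
    have hmem : v ∈ vis 0 ω ↔ ((pos 0 ω).1 = v ∨ (pos 0 ω).2 = v) := by
      simp only [vis, mem_insert, mem_singleton]
      constructor
      · rintro (h | h)
        · exact Or.inl h.symm
        · exact Or.inr h.symm
      · rintro (h | h)
        · exact Or.inl h.symm
        · exact Or.inr h.symm
    by_cases h1 : (pos 0 ω).1 = v <;> by_cases h2 : (pos 0 ω).2 = v
    · right
      refine ⟨hmem.2 (Or.inl h1), Or.inr (Or.inr ?_)⟩
      simp only [h1, h2, if_true, and_self, true_and]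
      exact ⟨0, h1, h2, fun r hr => absurd hr (by omega)⟩
    · right
      refine ⟨hmem.2 (Or.inl h1), Or.inl ?_⟩
      simp only [h1, h2, if_true, if_false, and_false, true_and]
      exact ⟨0, h1, fun r hr => by
        have : r = 0 := by omega
        subst this
        exact h2⟩
    · right
      refine ⟨hmem.2 (Or.inr h2), Or.inr (Or.inl ?_)⟩
      simp only [h1, h2, if_true, if_false, false_and, true_and]
      exact ⟨0, h2, fun r hr => by
        have : r = 0 := by omega
        subst this
        exact h1⟩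
    · left
      refine ⟨fun h => ?_, ?_⟩
      · rcases hmem.1 h with h | h
        · exact h1 h
        · exact h2 h
      · simp [h1, h2]
  | succ t ih =>
    unfold fx fy fz
    rcases ih with ⟨h0, i1, i2, i3⟩ | ⟨h0, ih⟩
    · have hu : uv t ω v = 1 := by unfold uv; rw [if_neg h0]
      have hbef : ∀ r ≤ t, (pos r ω).1 ≠ v ∧ (pos r ω).2 ≠ v := by
        intro r hr
        constructor
        · intro h; exact h0 ((mem_vis t ω v).2 ⟨r, hr, Or.inl h⟩)
        · intro h; exact h0 ((mem_vis t ω v).2 ⟨r, hr, Or.inr h⟩)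
      rw [i1, i2, i3, hu]
      have hmem : v ∈ vis (t + 1) ω ↔ ((pos (t + 1) ω).1 = v ∨ (pos (t + 1) ω).2 = v) := by
        simp only [vis, mem_insert]
        constructor
        · rintro (h | h | h)
          · exact Or.inl h.symm
          · exact Or.inr h.symm
          · exact absurd h h0
        · rintro (h | h)
          · exact Or.inl h.symm
          · exact Or.inr (Or.inl h.symm)
      by_cases h1 : (pos (t + 1) ω).1 = v <;> by_cases h2 : (pos (t + 1) ω).2 = v
      · right
        refine ⟨hmem.2 (Or.inl h1), Or.inr (Or.inr ?_)⟩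
        simp only [h1, h2, if_true, and_self, true_and, zero_add, mul_one]
        exact ⟨t + 1, h1, h2, fun r hr => hbef r (by omega)⟩
      · right
        refine ⟨hmem.2 (Or.inl h1), Or.inl ?_⟩
        simp only [h1, h2, if_true, if_false, and_false, true_and, zero_add, mul_one, mul_zero]
        exact ⟨t + 1, h1, fun r hr => by
          by_cases hr' : r = t + 1
          · rw [hr']; exact h2
          · exact (hbef r (by omega)).2⟩
      · right
        refine ⟨hmem.2 (Or.inr h2), Or.inr (Or.inl ?_)⟩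
        simp only [h1, h2, if_true, if_false, false_and, true_and, zero_add, mul_one, mul_zero]
        exact ⟨t + 1, h2, fun r hr => by
          by_cases hr' : r = t + 1
          · rw [hr']; exact h1
          · exact (hbef r (by omega)).1⟩
      · left
        refine ⟨fun h => ?_, ?_⟩
        · rcases hmem.1 h with h | h
          · exact h1 h
          · exact h2 h
        · simp [h1, h2]
    · right
      have hu : uv t ω v = 0 := by unfold uv; rw [if_pos h0]
      rw [hu]
      simp only [zero_mul, add_zero]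
      exact ⟨mem_insert_of_mem (mem_insert_of_mem h0), ih⟩

/-- The walks and the coins of the model. -/
def WX (t : ℕ) (ω : ℕ → LT N m) : VV N := (pos t ω).1

/-- The second walk. -/
def WY (t : ℕ) (ω : ℕ → LT N m) : VV N := (pos t ω).2

open scoped Classical in
/-- The count and the difference of the first visits. -/
theorem count_sub {K : ℕ} {ω : ℕ → LT N m} (hcov : ∀ v, v ∈ vis K ω) :
    |2 * count (WX (N := N) (m := m)) WY coin ω - 2 * N - Dp K ω| ≤ Ti K ω := by
  have h1 : count (WX (N := N) (m := m)) WY coin ω =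
      ∑ v, (if v ∈ marked (WX (N := N) (m := m)) WY coin ω then (1 : ℝ) else 0) := by
    unfold count
    rw [Set.ncard_eq_toFinset_card', sum_boole]
    congr 2
    ext v
    simp
  have h2 : (2 * N : ℝ) = ∑ v : VV N, (1 : ℝ) := by
    rw [sum_const, card_univ, nsmul_eq_mul, mul_one, card_VV]
  rw [h1, h2, Dp_eq, Ti_eq, mul_sum, ← sum_sub_distrib, ← sum_sub_distrib]
  refine (abs_sum_le_sum_abs _ _).trans (sum_le_sum fun v _ => ?_)
  rcases first_cases v K ω with ⟨h0, -⟩ | ⟨-, h⟩
  · exact absurd (hcov v) h0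
  · rcases h with ⟨e1, e2, e3, s, hs1, hs2⟩ | ⟨e1, e2, e3, s, hs1, hs2⟩ |
      ⟨e1, e2, e3, s, hs1, hs2, hs3⟩
    · have hmk : v ∈ marked (WX (N := N) (m := m)) WY coin ω := Or.inl ⟨s, hs1, hs2⟩
      rw [if_pos hmk, e1, e2, e3]
      norm_num
    · have hmk : v ∉ marked (WX (N := N) (m := m)) WY coin ω := by
        rintro (⟨r, hr1, hr2⟩ | ⟨r, hr1, hr2, hr3, -⟩)
        · rcases le_total r s with hrs | hrs
          · exact hs2 r hrs hr1
          · exact hr2 s hrs hs1
        · rcases le_or_gt r s with hrs | hrs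
          · exact hs2 r hrs hr1
          · exact (hr3 s hrs).2 hs1
      rw [if_neg hmk, e1, e2, e3]
      norm_num
    · rw [e1, e2, e3]
      split_ifs <;> norm_num

end Pool.Agent.T2H99.CW
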