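import Pool.Agent.T2H99.CW.W6

/-!
The model and the second moment of the count.
-/

set_option autoImplicit false
set_option linter.unusedSectionVars false

open MeasureTheory Finset Filter Topology

namespace Pool.Agent.T2H99.CW

variable {N m : ℕ} [NeZero N] [NeZero m]

lemma Dep.mset {B : Type} [Fintype B] [Nonempty B] [MeasurableSpace B]
    [DiscreteMeasurableSpace B] {k : ℕ} {p : (ℕ → B) → Prop} (h : Dep k p) :
    MeasurableSet {ω | p ω} :=
  measurableSet_setOfPred.2 h.measurable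

lemma dep_WX (t : ℕ) : Dep (t + 1) (WX (N := N) (m := m) t) := (dep_pos t).comp Prod.fst

lemma dep_WY (t : ℕ) : Dep (t + 1) (WY (N := N) (m := m) t) := (dep_pos t).comp Prod.snd

theorem isModel (hm : m ≤ N) : IsModel (gr N m) (PP (LT N m)) WX WY coin where
  prob := inferInstance
  measX t v := ((dep_WX t).comp fun x => x = v).mset
  measY t v := ((dep_WY t).comp fun x => x = v).mset
  measC v := ((dep_coin v (Nat.succ_pos 0)).comp fun x => x = true).mset
  law T x y b := by
    classical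
    have h1 : {ω : ℕ → LT N m | (∀ t ≤ T, WX t ω = x t) ∧ (∀ t ≤ T, WY t ω = y t) ∧
        ∀ v, coin v ω = b v} = {ω | traj T x y b ω} := by
      ext ω
      simp only [Set.mem_ofPred_eq]
      unfold traj WX WY
      constructor
      · rintro ⟨h1, h2, h3⟩
        exact ⟨fun t ht => Prod.ext (h1 t ht) (h2 t ht), h3⟩
      · rintro ⟨h1, h2⟩
        exact ⟨fun t ht => by rw [h1 t ht], fun t ht => by rw [h1 t ht], h2⟩
    rw [h1]
    have hms : MeasurableSet {ω : ℕ → LT N m | traj T x y b ω} := (dep_traj T x y b).mset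
    have h2 : (PP (LT N m)).real {ω : ℕ → LT N m | traj T x y b ω} =
        ∫ ω, (if traj T x y b ω then (1 : ℝ) else 0) ∂PP (LT N m) := by
      rw [← integral_indicator_one hms]
      refine integral_congr_ae (Filter.Eventually.of_forall fun ω => ?_)
      by_cases h : traj T x y b ω <;> simp [h]
    rw [h2, traj_law hm, card_VV]
    have h3 : Fintype.card (VV N) = 2 * N := by
      rw [Fintype.card_prod, Fintype.card_bool, ZMod.card]
    rw [h3]

/-- The event that a vertex gets the first mark. -/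
lemma meas_marked (v : VV N) :
    MeasurableSet {ω : ℕ → LT N m | v ∈ marked (WX (N := N) (m := m)) WY coin ω} := by
  have h1 : {ω : ℕ → LT N m | v ∈ marked (WX (N := N) (m := m)) WY coin ω} =
      (⋃ t : ℕ, {ω | WX t ω = v ∧ ∀ s ≤ t, WY s ω ≠ v}) ∪
      (⋃ t : ℕ, {ω | WX t ω = v ∧ WY t ω = v ∧ (∀ s < t, WX s ω ≠ v ∧ WY s ω ≠ v) ∧
        coin v ω = true}) := by
    ext ω
    simp only [marked, Set.mem_union, Set.mem_iUnion, Set.mem_ofPred_eq]
  rw [h1]
  refine (MeasurableSet.iUnion fun t => ?_).union (MeasurableSet.iUnion fun t => ?_)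
  · refine Dep.mset (k := t + 1) fun ω ω' h => propext ?_
    rw [dep_WX t ω ω' h]
    refine and_congr_right fun _ => forall_congr' fun s => forall_congr' fun hs => ?_
    rw [dep_WY s ω ω' fun i hi => h i (by omega)]
  · refine Dep.mset (k := t + 1) fun ω ω' h => propext ?_
    rw [dep_WX t ω ω' h, dep_WY t ω ω' h, dep_coin v (Nat.succ_pos t) ω ω' h]
    refine and_congr_right fun _ => and_congr_right fun _ => and_congr_left fun _ =>
      forall_congr' fun s => forall_congr' fun hs => ?_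
    rw [dep_WX s ω ω' fun i hi => h i (by omega), dep_WY s ω ω' fun i hi => h i (by omega)]

open scoped Classical in
lemma count_eq (ω : ℕ → LT N m) : count (WX (N := N) (m := m)) WY coin ω =
    ∑ v, (if v ∈ marked (WX (N := N) (m := m)) WY coin ω then (1 : ℝ) else 0) := by
  unfold count
  rw [Set.ncard_eq_toFinset_card', sum_boole]
  congr 2
  ext v
  simp

lemma meas_count : Measurable (count (WX (N := N) (m := m)) WY coin) := by
  classical
  have h : count (WX (N := N) (m := m)) WY coin = fun ω =>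
      ∑ v, (if v ∈ marked (WX (N := N) (m := m)) WY coin ω then (1 : ℝ) else 0) :=
    funext count_eq
  rw [h]
  refine Finset.measurable_sum _ fun v _ => ?_
  exact Measurable.ite (meas_marked v) measurable_const measurable_const

lemma count_bounds (ω : ℕ → LT N m) : 0 ≤ count (WX (N := N) (m := m)) WY coin ω ∧
    count (WX (N := N) (m := m)) WY coin ω ≤ 2 * N := by
  classical
  rw [count_eq]
  constructor
  · exact sum_nonneg fun v _ => by split_ifs <;> norm_num
  · rw [← card_VV]
    refine (sum_le_sum (g := fun _ => (1 : ℝ)) fun v _ => by split_ifs <;> norm_num).trans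
      (le_of_eq ?_)
    rw [sum_const, card_univ, nsmul_eq_mul, mul_one]

/-- Twice the centred count. -/
noncomputable def DD (ω : ℕ → LT N m) : ℝ := 2 * count (WX (N := N) (m := m)) WY coin ω - 2 * N

lemma meas_DD : Measurable (DD (N := N) (m := m)) :=
  (meas_count.const_mul 2).sub_const _

lemma abs_DD (ω : ℕ → LT N m) : |DD ω| ≤ 2 * N := by
  have := count_bounds ω
  unfold DD
  rw [abs_le]
  constructor <;> linarith [this.1, this.2]

/-- The count is close to the main term. -/
theorem DD_sub (hm : m ≤ N) {K : ℕ} (hK : 0 < K) :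
    ∫ ω, (DD ω - Qp K ω) ^ 2 ∂PP (LT N m) ≤
      2 * (3 * (K * (K * (8 * hs N m ^ 2 * (2 * (12 * (1 + K ^ 2 * qs N m ^ 2 + K))) +
        8 * qs N m ^ 2) + 4))) + 2 * (3 * (1 + K * (K * hs N m ^ 2 + 1)) +
        (2 * N + K) ^ 2 * (2 * N * (2 * (1 - hs N m / 4) ^ K))) := by
  classical
  have hpt : ∀ ω : ℕ → LT N m, (DD ω - Qp K ω) ^ 2 ≤ 2 * (Dp K ω - Qp K ω) ^ 2 +
      2 * (Ti K ω ^ 2 + (2 * N + K) ^ 2 * ∑ v, uv K ω v) := by
    intro ω
    have hU : 0 ≤ ∑ v, uv K ω v := sum_nonneg fun v _ => uv_nonneg _ _ _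
    have h1 : (DD ω - Dp K ω) ^ 2 ≤ Ti K ω ^ 2 + (2 * N + K) ^ 2 * ∑ v, uv K ω v := by
      by_cases hcov : ∀ v, v ∈ vis K ω
      · have h2 := count_sub hcov
        have h3 : (DD ω - Dp K ω) ^ 2 ≤ Ti K ω ^ 2 := by
          rw [← sq_abs]
          exact pow_le_pow_left₀ (abs_nonneg _) h2 2
        have : 0 ≤ (2 * (N : ℝ) + K) ^ 2 * ∑ v, uv K ω v := by positivity
        linarith
      · push Not at hcov
        obtain ⟨v, hv⟩ := hcov
        have h2 : 1 ≤ ∑ v, uv K ω v := by
          have h3 := single_le_sum (f := fun v => uv K ω v) (fun v _ => uv_nonneg _ _ _)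
            (mem_univ v)
          have h4 : uv K ω v = 1 := by unfold uv; rw [if_neg hv]
          rw [h4] at h3
          exact h3
        have h3 : |DD ω - Dp K ω| ≤ 2 * N + K := by
          have h4 := abs_sub (DD ω) (Dp K ω)
          have h5 := abs_DD ω
          have h6 := abs_Dp_le K ω
          linarith
        have h4 : (DD ω - Dp K ω) ^ 2 ≤ (2 * N + K) ^ 2 := by
          rw [← sq_abs]
          exact pow_le_pow_left₀ (abs_nonneg _) h3 2
        have h5 : (2 * (N : ℝ) + K) ^ 2 * 1 ≤ (2 * N + K) ^ 2 * ∑ v, uv K ω v :=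
          mul_le_mul_of_nonneg_left h2 (sq_nonneg _)
        have := sq_nonneg (Ti K ω)
        linarith
    have h2 : (DD ω - Qp K ω) ^ 2 ≤ 2 * (Dp K ω - Qp K ω) ^ 2 + 2 * (DD ω - Dp K ω) ^ 2 := by
      nlinarith [sq_nonneg ((DD ω - Dp K ω) - (Dp K ω - Qp K ω))]
    linarith
  have dQ := (dep_Qp (N := N) (m := m) K).mono (Nat.le_succ K)
  have i1 : Integrable (fun ω : ℕ → LT N m => 2 * (Dp K ω - Qp K ω) ^ 2) (PP (LT N m)) :=
    ((dep_Dp K).comp₂ dQ fun x y => 2 * (x - y) ^ 2).integrable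
  have i2 : Integrable (fun ω : ℕ → LT N m => Ti K ω ^ 2) (PP (LT N m)) :=
    ((dep_Ti K).comp fun x => x ^ 2).integrable
  have iu : ∀ v, Integrable (fun ω : ℕ → LT N m => uv K ω v) (PP (LT N m)) := fun v =>
    (dep_uv K v).integrable
  have i3 : Integrable (fun ω : ℕ → LT N m => (2 * N + K) ^ 2 * ∑ v, uv K ω v)
      (PP (LT N m)) := (integrable_finsetSum _ fun v _ => iu v).const_mul _
  have i23 : Integrable (fun ω : ℕ → LT N m => Ti K ω ^ 2 + (2 * N + K) ^ 2 * ∑ v, uv K ω v)
      (PP (LT N m)) := i2.add i3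
  have i4 : Integrable (fun ω : ℕ → LT N m => 2 * (Ti K ω ^ 2 +
      (2 * N + K) ^ 2 * ∑ v, uv K ω v)) (PP (LT N m)) := i23.const_mul 2
  have i0 : Integrable (fun ω : ℕ → LT N m => (DD ω - Qp K ω) ^ 2) (PP (LT N m)) := by
    obtain ⟨C, hC⟩ := (dep_Qp (N := N) (m := m) K).bdd
    refine Integrable.of_bound ((meas_DD.sub dQ.measurable).pow_const 2).aestronglyMeasurable
      ((2 * N + C) ^ 2) (Filter.Eventually.of_forall fun ω => ?_)
    rw [Real.norm_eq_abs, abs_of_nonneg (sq_nonneg _), ← sq_abs]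
    refine pow_le_pow_left₀ (abs_nonneg _) ?_ 2
    exact (abs_sub _ _).trans (add_le_add (abs_DD ω) (hC ω))
  refine (integral_mono i0 (i1.add i4) hpt).trans ?_
  simp only [Pi.add_apply]
  rw [integral_add i1 i4, integral_const_mul, integral_const_mul, integral_add i2 i3,
    integral_const_mul, integral_finsetSum _ fun v _ => iu v]
  have h1 := Dp_sub hm hK
  have h2 := Ti_sq hm hK
  have h3 : ∑ v, ∫ ω, uv K ω v ∂PP (LT N m) ≤ 2 * N * (2 * (1 - hs N m / 4) ^ K) := by
    refine (sum_le_sum fun v _ => uv_int hm v K).trans (le_of_eq ?_)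
    rw [sum_const, card_univ, nsmul_eq_mul, card_VV]
  have h4 : (2 * (N : ℝ) + K) ^ 2 * ∑ v, ∫ ω, uv K ω v ∂PP (LT N m) ≤
      (2 * N + K) ^ 2 * (2 * N * (2 * (1 - hs N m / 4) ^ K)) :=
    mul_le_mul_of_nonneg_left h3 (sq_nonneg _)
  linarith

end Pool.Agent.T2H99.CW
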