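import Pool.Agent.T2H99.CW.Z1
import Pool.Agent.T2H99.CW.A

/-!
The error terms tend to zero.
-/

set_option autoImplicit false
set_option linter.unusedSectionVars false

open MeasureTheory Finset Filter Topology

namespace Pool.Agent.T2H99.CW

/-- The bound for the second moment of the error. -/
noncomputable def bd (k : ℕ) : ℝ :=
  2 * (3 * (KK k * (KK k * (8 * hh k ^ 2 * (2 * (12 * (1 + KK k ^ 2 * qq k ^ 2 + KK k))) +
        8 * qq k ^ 2) + 4))) + 2 * (3 * (1 + KK k * (KK k * hh k ^ 2 + 1)) +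
        (2 * nn k + KK k) ^ 2 * (2 * nn k * (2 * (1 - hh k / 4) ^ KK k)))

lemma hh_KK {k : ℕ} (hk : 2 ≤ k) : hh k * KK k = 4 * k := by
  rw [KK_cast]
  unfold hh
  have := SS_pos hk
  field_simp
  norm_num

lemma bd_le {k : ℕ} (hk : 2 ≤ k) : bd k ≤ 1600000 * (k : ℝ) ^ 43 +
    2592 * ((k : ℝ) ^ 122 * Real.exp (-(1 * k))) := by
  have hk0 := k_pos hk
  have hk1 : (1 : ℝ) ≤ k := by linarith
  have h1 := hh_KK hk
  have hK := KK_le hk
  have hK0 : (0 : ℝ) ≤ KK k := Nat.cast_nonneg _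
  have hh0 := hh_pos hk
  have hh1 := hh_le_half hk
  have hq0 := qq_pos hk
  have hq := qq_le hk
  have p1 : (1 : ℝ) ≤ (k : ℝ) ^ 41 := one_le_pow₀ hk1
  have p2 : (k : ℝ) ^ 34 ≤ (k : ℝ) ^ 41 := pow_le_pow_right₀ hk1 (by norm_num)
  have p3 : (k : ℝ) ^ 41 ≤ (k : ℝ) ^ 43 := pow_le_pow_right₀ hk1 (by norm_num)
  have p4 : (k : ℝ) ^ 2 ≤ (k : ℝ) ^ 41 := pow_le_pow_right₀ hk1 (by norm_num)
  have p5 : (k : ℝ) ^ 40 ≤ (k : ℝ) ^ 41 := pow_le_pow_right₀ hk1 (by norm_num)
  have hKq : (KK k : ℝ) ^ 2 * qq k ^ 2 ≤ 64 * (k : ℝ) ^ 34 := by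
    calc (KK k : ℝ) ^ 2 * qq k ^ 2 ≤ (16 * (k : ℝ) ^ 41) ^ 2 * (1 / (2 * (k : ℝ) ^ 24)) ^ 2 := by
          gcongr
      _ = 64 * (k : ℝ) ^ 34 := by field_simp; norm_num
  have hA : 1 + (KK k : ℝ) ^ 2 * qq k ^ 2 + KK k ≤ 81 * (k : ℝ) ^ 41 := by linarith
  have hKh : (hh k * KK k) ^ 2 = 16 * (k : ℝ) ^ 2 := by rw [h1]; ring
  have e1 : 2 * (3 * ((KK k : ℝ) * (KK k * (8 * hh k ^ 2 *
      (2 * (12 * (1 + KK k ^ 2 * qq k ^ 2 + KK k))) + 8 * qq k ^ 2) + 4))) =
      1152 * (hh k * KK k) ^ 2 * (1 + KK k ^ 2 * qq k ^ 2 + KK k) +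
      48 * ((KK k : ℝ) ^ 2 * qq k ^ 2) + 24 * KK k := by ring
  have t1 : 2 * (3 * ((KK k : ℝ) * (KK k * (8 * hh k ^ 2 *
      (2 * (12 * (1 + KK k ^ 2 * qq k ^ 2 + KK k))) + 8 * qq k ^ 2) + 4))) ≤
      1550000 * (k : ℝ) ^ 43 := by
    rw [e1, hKh]
    have e2 : 1152 * (16 * (k : ℝ) ^ 2) * (1 + (KK k : ℝ) ^ 2 * qq k ^ 2 + KK k) ≤
        1152 * (16 * (k : ℝ) ^ 2) * (81 * (k : ℝ) ^ 41) :=
      mul_le_mul_of_nonneg_left hA (by positivity)
    have e3 : 1152 * (16 * (k : ℝ) ^ 2) * (81 * (k : ℝ) ^ 41) = 1492992 * (k : ℝ) ^ 43 := by ring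
    linarith
  have e4 : 2 * (3 * (1 + (KK k : ℝ) * (KK k * hh k ^ 2 + 1))) =
      6 * (1 + (hh k * KK k) ^ 2 + KK k) := by ring
  have t2 : 2 * (3 * (1 + (KK k : ℝ) * (KK k * hh k ^ 2 + 1))) ≤ 200 * (k : ℝ) ^ 43 := by
    rw [e4, hKh]
    linarith
  have t3 : 2 * ((2 * (nn k : ℝ) + KK k) ^ 2 * (2 * nn k * (2 * (1 - hh k / 4) ^ KK k))) ≤
      2592 * ((k : ℝ) ^ 122 * Real.exp (-(1 * k))) := by
    rw [nn_cast]
    have e5 : (1 - hh k / 4) ^ KK k ≤ Real.exp (-(1 * k)) := by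
      have e6 : 1 - hh k / 4 ≤ Real.exp (-(hh k / 4)) := by
        have := Real.add_one_le_exp (-(hh k / 4)); linarith
      refine (pow_le_pow_left₀ (by linarith) e6 _).trans (le_of_eq ?_)
      rw [← Real.exp_nat_mul]
      congr 1
      linear_combination (-(1 : ℝ) / 4) * h1
    have e7 : 0 ≤ (1 - hh k / 4) ^ KK k := pow_nonneg (by linarith) _
    calc 2 * ((2 * (k : ℝ) ^ 40 + KK k) ^ 2 * (2 * (k : ℝ) ^ 40 * (2 * (1 - hh k / 4) ^ KK k)))
        ≤ 2 * ((18 * (k : ℝ) ^ 41) ^ 2 * (2 * (k : ℝ) ^ 40 * (2 * Real.exp (-(1 * k))))) := by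
          have : 2 * (k : ℝ) ^ 40 + KK k ≤ 18 * (k : ℝ) ^ 41 := by linarith
          gcongr
      _ = 2592 * ((k : ℝ) ^ 122 * Real.exp (-(1 * k))) := by ring
  have : bd k = 2 * (3 * ((KK k : ℝ) * (KK k * (8 * hh k ^ 2 *
      (2 * (12 * (1 + KK k ^ 2 * qq k ^ 2 + KK k))) + 8 * qq k ^ 2) + 4))) +
      2 * (3 * (1 + (KK k : ℝ) * (KK k * hh k ^ 2 + 1))) +
      2 * ((2 * (nn k : ℝ) + KK k) ^ 2 * (2 * nn k * (2 * (1 - hh k / 4) ^ KK k))) := by
    unfold bd; ring
  rw [this]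
  have p6 : (0 : ℝ) ≤ (k : ℝ) ^ 43 := by positivity
  linarith

lemma bd_nonneg {k : ℕ} (hk : 2 ≤ k) : 0 ≤ bd k := by
  have hh0 := hh_pos hk
  have hh1 := hh_le_half hk
  have e7 : 0 ≤ (1 - hh k / 4) ^ KK k := pow_nonneg (by linarith) _
  unfold bd
  positivity

lemma lim_bd : Tendsto (fun k : ℕ => (1 / (k : ℝ) ^ 24) ^ 2 * bd k) atTop (𝓝 0) := by
  have h1 := (tendsto_inv_pow 5 (by norm_num)).const_mul 1600000
  have h2 := (tendsto_pow_exp 74 (c := 1) (by norm_num)).const_mul 2592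
  have h := h1.add h2
  simp only [mul_zero, add_zero] at h
  refine squeeze_zero' ?_ ?_ h
  · filter_upwards [eventually_ge_atTop 2] with k hk
    have := bd_nonneg hk
    positivity
  · filter_upwards [eventually_ge_atTop 2] with k hk
    have hk0 := k_pos hk
    have h3 := mul_le_mul_of_nonneg_left (bd_le hk) (by positivity : 0 ≤ (1 / (k : ℝ) ^ 24) ^ 2)
    refine h3.trans (le_of_eq ?_)
    rw [mul_add]
    congr 1
    · field_simp
    · have : (1 / (k : ℝ) ^ 24) ^ 2 * (2592 * ((k : ℝ) ^ 122 * Real.exp (-(1 * k)))) =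
        2592 * (((1 / (k : ℝ) ^ 24) ^ 2 * (k : ℝ) ^ 122) * Real.exp (-(1 * k))) := by ring
      rw [this]
      congr 2
      field_simp

/-! A real variable and its normalisation. -/

section norm

variable {Ω : Type} [MeasurableSpace Ω] {P : Measure Ω} [IsProbabilityMeasure P]

lemma norm_rep {C : Ω → ℝ} (hC : Measurable C) {b : ℝ} (hb : ∀ ω, |C ω| ≤ b) :
    let Z : Ω → ℝ := fun ω => (C ω - ∫ ω', C ω' ∂P) / √(ProbabilityTheory.variance C P)
    (∀ᵐ ω ∂P, C ω = ∫ ω', C ω' ∂P + √(ProbabilityTheory.variance C P) * Z ω) ∧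
      Measurable Z ∧ Integrable Z P ∧ ∫ ω, |Z ω| ∂P ≤ 1 := by
  intro Z
  have iC : Integrable C P := Integrable.of_bound hC.aestronglyMeasurable b
    (Filter.Eventually.of_forall fun ω => by simpa using hb ω)
  have hZm : Measurable Z := (hC.sub_const _).div_const _
  set e := ∫ ω', C ω' ∂P with he
  have hbe : |e| ≤ b := by
    rw [he]
    refine (abs_integral_le_integral_abs).trans ?_
    have h1 := integral_mono iC.abs (integrable_const b) hb
    simpa using h1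
  have iZ : Integrable Z P := (iC.sub (integrable_const _)).div_const _
  have i2 : Integrable (fun ω => (C ω - e) ^ 2) P := by
    refine Integrable.of_bound ((hC.sub_const _).pow_const 2).aestronglyMeasurable
      ((b + b) ^ 2) (Filter.Eventually.of_forall fun ω => ?_)
    rw [Real.norm_eq_abs, abs_of_nonneg (sq_nonneg _), ← sq_abs]
    refine pow_le_pow_left₀ (abs_nonneg _) ?_ 2
    exact (abs_sub _ _).trans (add_le_add (hb ω) hbe)
  have hV : ProbabilityTheory.variance C P = ∫ ω, (C ω - e) ^ 2 ∂P :=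
    ProbabilityTheory.variance_eq_integral hC.aemeasurable
  have hV0 : 0 ≤ ProbabilityTheory.variance C P := ProbabilityTheory.variance_nonneg C P
  by_cases h0 : ProbabilityTheory.variance C P = 0
  · have hZ0 : ∀ ω, Z ω = 0 := fun ω => by
      simp only [Z]
      rw [h0, Real.sqrt_zero, div_zero]
    refine ⟨?_, hZm, iZ, ?_⟩
    · rw [hV] at h0
      have h1 := (integral_eq_zero_iff_of_nonneg (fun ω => sq_nonneg _) i2).1 h0
      filter_upwards [h1] with ω hω
      rw [hZ0, mul_zero, add_zero]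
      have h2 : (C ω - e) ^ 2 = 0 := hω
      have := pow_eq_zero_iff (two_ne_zero) |>.1 h2
      linarith
    · simp [hZ0]
  · have hVpos : 0 < ProbabilityTheory.variance C P := lt_of_le_of_ne hV0 (Ne.symm h0)
    have hs : 0 < √(ProbabilityTheory.variance C P) := Real.sqrt_pos.2 hVpos
    refine ⟨Filter.Eventually.of_forall fun ω => ?_, hZm, iZ, ?_⟩
    · simp only [Z]
      rw [mul_div_cancel₀ _ hs.ne']
      ring
    · have hZ2 : ∀ ω, Z ω ^ 2 = (C ω - e) ^ 2 / ProbabilityTheory.variance C P := by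
        intro ω
        simp only [Z]
        rw [div_pow, Real.sq_sqrt hV0]
      have iZ2 : Integrable (fun ω => Z ω ^ 2) P := by
        simp only [hZ2]
        exact i2.div_const _
      have h1 : ∫ ω, Z ω ^ 2 ∂P = 1 := by
        simp only [hZ2]
        rw [integral_div, ← hV, div_self h0]
      have h2 : ∀ ω, |Z ω| ≤ (1 + Z ω ^ 2) / 2 := by
        intro ω
        have := sq_nonneg (|Z ω| - 1)
        have h3 := sq_abs (Z ω)
        nlinarith
      have i3 : Integrable (fun ω => 1 + Z ω ^ 2) P := (integrable_const _).add iZ2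
      have h3 := integral_mono iZ.abs (i3.div_const 2) h2
      rw [integral_div, integral_add (integrable_const _) iZ2, h1] at h3
      simpa using h3

/-- The variance is at most the second moment about any point. -/
lemma var_le {C : Ω → ℝ} (hC : Measurable C) {b : ℝ} (hb : ∀ ω, |C ω| ≤ b) (x : ℝ) :
    ProbabilityTheory.variance C P ≤ ∫ ω, (C ω - x) ^ 2 ∂P ∧
      (∫ ω, C ω ∂P - x) ^ 2 ≤ ∫ ω, (C ω - x) ^ 2 ∂P := by
  have iC : Integrable C P := Integrable.of_bound hC.aestronglyMeasurable b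
    (Filter.Eventually.of_forall fun ω => by simpa using hb ω)
  have i2 : ∀ y : ℝ, Integrable (fun ω => (C ω - y) ^ 2) P := by
    intro y
    refine Integrable.of_bound ((hC.sub_const _).pow_const 2).aestronglyMeasurable
      ((b + |y|) ^ 2) (Filter.Eventually.of_forall fun ω => ?_)
    rw [Real.norm_eq_abs, abs_of_nonneg (sq_nonneg _), ← sq_abs]
    refine pow_le_pow_left₀ (abs_nonneg _) ?_ 2
    exact (abs_sub _ _).trans (add_le_add (hb ω) le_rfl)
  set e := ∫ ω', C ω' ∂P with he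
  have hV : ProbabilityTheory.variance C P = ∫ ω, (C ω - e) ^ 2 ∂P :=
    ProbabilityTheory.variance_eq_integral hC.aemeasurable
  have key : ∫ ω, (C ω - x) ^ 2 ∂P = ∫ ω, (C ω - e) ^ 2 ∂P + (e - x) ^ 2 := by
    have h1 : ∀ ω, (C ω - x) ^ 2 = (C ω - e) ^ 2 + (2 * (e - x) * (C ω - e) + (e - x) ^ 2) := by
      intro ω; ring
    simp only [h1]
    have i3 : Integrable (fun ω => 2 * (e - x) * (C ω - e)) P :=
      (iC.sub (integrable_const _)).const_mul _
    have i4 : Integrable (fun ω => 2 * (e - x) * (C ω - e) + (e - x) ^ 2) P :=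
      i3.add (integrable_const _)
    rw [integral_add (i2 e) i4, integral_add i3 (integrable_const _), integral_const_mul,
      integral_sub iC (integrable_const _)]
    simp [← he]
  have h2 : 0 ≤ ∫ ω, (C ω - e) ^ 2 ∂P := integral_nonneg fun ω => sq_nonneg _
  rw [hV]
  constructor
  · rw [key]; linarith [sq_nonneg (e - x)]
  · rw [key]; linarith

lemma cos_lip (x y : ℝ) : |Real.cos x - Real.cos y| ≤ |x - y| := by
  have h := Real.lipschitzWith_cos.dist_le_mul x y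
  simpa [Real.dist_eq] using h

lemma int_cos_sub {f g : Ω → ℝ} (hf : Measurable f) (hg : Measurable g)
    (hi : Integrable (fun ω => |f ω - g ω|) P) :
    |∫ ω, Real.cos (f ω) ∂P - ∫ ω, Real.cos (g ω) ∂P| ≤ ∫ ω, |f ω - g ω| ∂P := by
  have i : ∀ {f : Ω → ℝ}, Measurable f → Integrable (fun ω => Real.cos (f ω)) P := by
    intro f hf
    refine Integrable.of_bound (Real.measurable_cos.comp hf).aestronglyMeasurable 1
      (Filter.Eventually.of_forall fun ω => ?_)
    simpa using Real.abs_cos_le_one (f ω)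
  rw [← integral_sub (i hf) (i hg)]
  refine (abs_integral_le_integral_abs).trans ?_
  exact integral_mono ((i hf).sub (i hg)).abs hi fun ω => cos_lip _ _

end norm

end Pool.Agent.T2H99.CW
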