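import Pool.Agent.T2H99.CW.Z2

/-!
The normalised count does not converge in distribution to a normal law.
-/

set_option autoImplicit false
set_option linter.unusedSectionVars false

open MeasureTheory Finset Filter Topology ProbabilityTheory
open scoped NNReal

namespace Pool.Agent.T2H99.CW

instance neZero_mm (n : ℕ) : NeZero (mm (n + 48)) := ⟨by unfold mm; positivity⟩

/-- The letters of the sequence. -/
abbrev LS (n : ℕ) : Type := LT (nn (n + 48)) (mm (n + 48))

/-- The environments of the sequence. -/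
noncomputable def ES (n : ℕ) : Env (LS n) :=
  env (mm_le' (by omega)) (qq_le_quarter (by omega))

/-- The scaling. -/
noncomputable def rr (k : ℕ) : ℝ := 1 / (k : ℝ) ^ 24

/-- The scaled count. -/
noncomputable def DS (n : ℕ) (ω : ℕ → LS n) : ℝ := rr (n + 48) * DD ω

/-- The scaled main term. -/
noncomputable def QS (n : ℕ) (ω : ℕ → LS n) : ℝ :=
  qq (n + 48) * (ES n).Q (hh (n + 48)) (th (n + 48)) (KK (n + 48)) ω

/-- The scaled random variance. -/
noncomputable def YS (n : ℕ) (ω : ℕ → LS n) : ℝ :=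
  qq (n + 48) ^ 2 * (ES n).Y (hh (n + 48)) (th (n + 48)) (KK (n + 48)) ω

lemma ES_q (n : ℕ) : (ES n).q = qq (n + 48) := rfl

lemma rr_Qp (n : ℕ) (ω : ℕ → LS n) : rr (n + 48) * Qp (KK (n + 48)) ω = QS n ω := by
  have hk : 2 ≤ n + 48 := by omega
  have hk0 := k_pos hk
  have h1 := Qp_eq (mm_le' hk) (qq_le_quarter hk) (KK (n + 48)) ω
  rw [h1]
  unfold QS ES
  have h2 : rr (n + 48) * ((nn (n + 48) : ℝ) * hs (nn (n + 48)) (mm (n + 48))) =
      qq (n + 48) := by
    rw [hs_eq, nn_cast]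
    unfold rr qq
    rw [mm_cast]
    field_simp
  rw [← h2, hs_eq]
  have h3 : ts (nn (n + 48)) (mm (n + 48)) = th (n + 48) := rfl
  rw [h3]
  ring

lemma meas_DS (n : ℕ) : Measurable (DS n) := meas_DD.const_mul _

lemma meas_QS (n : ℕ) : Measurable (QS n) :=
  (((ES n).dep_Q _ _ _).comp fun x => qq (n + 48) * x).measurable

lemma KK_pos {k : ℕ} (hk : 2 ≤ k) : 0 < KK k := by
  have h1 := SS_pos hk
  have h2 : 0 < SS k := by exact_mod_cast h1
  unfold KK
  positivity

lemma DS_sub (n : ℕ) : ∫ ω, (DS n ω - QS n ω) ^ 2 ∂PP (LS n) ≤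
    (1 / ((n + 48 : ℕ) : ℝ) ^ 24) ^ 2 * bd (n + 48) := by
  have hk : 2 ≤ n + 48 := by omega
  have h1 : ∀ ω : ℕ → LS n, (DS n ω - QS n ω) ^ 2 =
      rr (n + 48) ^ 2 * (DD ω - Qp (KK (n + 48)) ω) ^ 2 := by
    intro ω
    rw [← rr_Qp]
    unfold DS
    ring
  simp only [h1]
  rw [integral_const_mul]
  exact mul_le_mul_of_nonneg_left (DD_sub (mm_le' hk) (KK_pos hk)) (sq_nonneg _)

lemma QS_sq (n : ℕ) : ∫ ω, QS n ω ^ 2 ∂PP (LS n) ≤ 106 := by
  have hk : 2 ≤ n + 48 := by omega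
  have h1 : ∀ ω : ℕ → LS n, QS n ω ^ 2 = qq (n + 48) ^ 2 *
      (ES n).Q (hh (n + 48)) (th (n + 48)) (KK (n + 48)) ω ^ 2 := by
    intro ω
    unfold QS
    ring
  simp only [h1]
  rw [integral_const_mul]
  have hq := qq_pos hk
  have h2 := (ES n).Q_sq (h := hh (n + 48)) (θ := th (n + 48)) (hh_pos hk)
    ((hh_le_half hk).trans (by norm_num)) (th_pos hk).le (th_le hk) (hh_qq hk) (KK (n + 48))
  rw [ES_q] at h2
  have h3 := mul_le_mul_of_nonneg_left h2 (sq_nonneg (qq (n + 48)))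
  refine h3.trans (le_of_eq ?_)
  field_simp

lemma bdd_DS (n : ℕ) (ω : ℕ → LS n) : |DS n ω| ≤ rr (n + 48) * (2 * nn (n + 48)) := by
  unfold DS
  have hr : 0 ≤ rr (n + 48) := by unfold rr; positivity
  rw [abs_mul, abs_of_nonneg hr]
  exact mul_le_mul_of_nonneg_left (abs_DD ω) hr

lemma bdd_QS (n : ℕ) : ∃ C : ℝ, ∀ ω, |QS n ω| ≤ C :=
  (((ES n).dep_Q _ _ _).comp fun x => qq (n + 48) * x).bdd

lemma int_DS_sub (n : ℕ) : Integrable (fun ω => |DS n ω - QS n ω|) (PP (LS n)) ∧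
    Integrable (fun ω => (DS n ω - QS n ω) ^ 2) (PP (LS n)) ∧
    ∫ ω, |DS n ω - QS n ω| ∂PP (LS n) ≤
      √((1 / ((n + 48 : ℕ) : ℝ) ^ 24) ^ 2 * bd (n + 48)) := by
  obtain ⟨C, hC⟩ := bdd_QS n
  have hm : Measurable fun ω => |DS n ω - QS n ω| :=
    ((meas_DS n).sub (meas_QS n)).norm
  have hb : ∀ ω, |(|DS n ω - QS n ω|)| ≤ rr (n + 48) * (2 * nn (n + 48)) + C := by
    intro ω
    rw [abs_abs]
    exact (abs_sub _ _).trans (add_le_add (bdd_DS n ω) (hC ω))
  have h1 : Integrable (fun ω => |DS n ω - QS n ω|) (PP (LS n)) :=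
    Integrable.of_bound hm.aestronglyMeasurable _
      (Filter.Eventually.of_forall fun ω => by simpa using hb ω)
  refine ⟨h1, ?_, ?_⟩
  · refine Integrable.of_bound (((meas_DS n).sub (meas_QS n)).pow_const 2).aestronglyMeasurable
      ((rr (n + 48) * (2 * nn (n + 48)) + C) ^ 2) (Filter.Eventually.of_forall fun ω => ?_)
    rw [Real.norm_eq_abs, abs_of_nonneg (sq_nonneg _), ← sq_abs]
    refine pow_le_pow_left₀ (abs_nonneg _) ?_ 2
    have := hb ω
    rwa [abs_abs] at this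
  · have h2 := (var_le (P := PP (LS n)) hm hb 0).2
    simp only [sub_zero, sq_abs] at h2
    exact Real.le_sqrt_of_sq_le (h2.trans (DS_sub n))

lemma DS_sq : ∀ᶠ n in atTop, ∫ ω, DS n ω ^ 2 ∂PP (LS n) ≤ 300 := by
  have h := tendsto_shift lim_bd
  have h2 : ∀ᶠ n : ℕ in atTop, (1 / ((n + 48 : ℕ) : ℝ) ^ 24) ^ 2 * bd (n + 48) ≤ 1 :=
    (h.eventually_lt_const (by norm_num : (0 : ℝ) < 1)).mono fun n hn => hn.le
  filter_upwards [h2] with n hn
  have h3 : ∀ ω : ℕ → LS n, DS n ω ^ 2 ≤ 2 * (DS n ω - QS n ω) ^ 2 + 2 * QS n ω ^ 2 := by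
    intro ω
    nlinarith [sq_nonneg (DS n ω - QS n ω - QS n ω)]
  have i1 := (int_DS_sub n).2.1
  have i2 : Integrable (fun ω => QS n ω ^ 2) (PP (LS n)) :=
    (((ES n).dep_Q _ _ _).comp fun x => (qq (n + 48) * x) ^ 2).integrable
  have i3 : Integrable (fun ω => DS n ω ^ 2) (PP (LS n)) := by
    refine Integrable.of_bound ((meas_DS n).pow_const 2).aestronglyMeasurable
      ((rr (n + 48) * (2 * nn (n + 48))) ^ 2) (Filter.Eventually.of_forall fun ω => ?_)
    rw [Real.norm_eq_abs, abs_of_nonneg (sq_nonneg _), ← sq_abs]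
    exact pow_le_pow_left₀ (abs_nonneg _) (bdd_DS n ω) 2
  have h4 := integral_mono i3 ((i1.const_mul 2).add (i2.const_mul 2)) h3
  simp only [Pi.add_apply] at h4
  rw [integral_add (i1.const_mul 2) (i2.const_mul 2), integral_const_mul,
    integral_const_mul] at h4
  have h5 := DS_sub n
  have h6 := QS_sq n
  linarith

/-- The Laplace transform of the random variance. -/
noncomputable def Gp (p : ℝ) (n : ℕ) : ℝ := ∫ ω, Real.exp (-(p * YS n ω)) ∂PP (LS n)

/-- The characteristic function of the scaled count. -/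
theorem cos_DS (c : ℝ) : Tendsto (fun n => ∫ ω, Real.cos (c * DS n ω) ∂PP (LS n) -
    Gp (c ^ 2 / 2) n) atTop (𝓝 0) := by
  have l1 := ((tendsto_shift lim_bd).sqrt).const_mul |c|
  have l2 := tendsto_shift ((lim_four c).add (((lim_RB).add lim_run).const_mul 2))
  have l3 : ∀ᶠ n : ℕ in atTop, |c| * qq (n + 48) * (4 * et (n + 48) * LK (n + 48)) ≤ 1 :=
    ((tendsto_shift (lim_small c)).eventually_lt_const (by norm_num : (0 : ℝ) < 1)).mono
      fun n hn => hn.le
  have l := l1.add l2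
  simp only [Real.sqrt_zero, mul_zero, add_zero] at l
  refine squeeze_zero_norm' ?_ l
  filter_upwards [l3] with n hn
  rw [Real.norm_eq_abs]
  have hk : 48 ≤ n + 48 := by omega
  have h1 : |∫ ω, Real.cos (c * DS n ω) ∂PP (LS n) - ∫ ω, Real.cos (c * QS n ω) ∂PP (LS n)| ≤
      |c| * √((1 / ((n + 48 : ℕ) : ℝ) ^ 24) ^ 2 * bd (n + 48)) := by
    have h2 : ∀ ω : ℕ → LS n, |c * DS n ω - c * QS n ω| = |c| * |DS n ω - QS n ω| := by
      intro ω
      rw [← mul_sub, abs_mul]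
    have h3 := int_cos_sub (P := PP (LS n)) ((meas_DS n).const_mul c) ((meas_QS n).const_mul c)
      (by simp only [h2]; exact (int_DS_sub n).1.const_mul _)
    simp only [h2] at h3
    rw [integral_const_mul] at h3
    exact h3.trans (mul_le_mul_of_nonneg_left (int_DS_sub n).2.2 (abs_nonneg c))
  have h4 := (ES n).cos_k hk (ES_q n) c hn
  have h5 : ∀ ω : ℕ → LS n, c * QS n ω =
      c * qq (n + 48) * (ES n).Q (hh (n + 48)) (th (n + 48)) (KK (n + 48)) ω := by
    intro ω; unfold QS; ring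
  simp only [h5] at h1
  have h6 : Gp (c ^ 2 / 2) n = ∫ ω, Real.exp (-(c ^ 2 / 2 * (qq (n + 48) ^ 2 *
      (ES n).Y (hh (n + 48)) (th (n + 48)) (KK (n + 48)) ω))) ∂PP (LS n) := rfl
  rw [h6]
  refine (abs_sub_le _ (∫ ω, Real.cos (c * qq (n + 48) *
    (ES n).Q (hh (n + 48)) (th (n + 48)) (KK (n + 48)) ω) ∂PP (LS n)) _).trans ?_
  exact add_le_add h1 h4

lemma Gp_nonneg (p : ℝ) (n : ℕ) : 0 ≤ Gp p n := integral_nonneg fun ω => (Real.exp_pos _).le

/-- The random variance jumps. -/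
theorem jump_YS : ∀ᶠ n in atTop, 1 / 288 ≤ (PP (LS n)).real {ω | 1 / 6000000000 ≤
    |YS n ω - YS n ((ES n).fe (nn (n + 48)) ω)|} := by
  have l1 := tendsto_shift ((lim_bt.add lim_run).add lim_win)
  have l2 := tendsto_shift lim_RB
  have l3 := tendsto_shift lim_err
  simp only [add_zero] at l1
  filter_upwards [l1.eventually_lt_const (by norm_num : (0 : ℝ) < 1 / 8),
    l2.eventually_lt_const (by norm_num : (0 : ℝ) < 1 / 288),
    l3.eventually_lt_const (by norm_num : (0 : ℝ) < 1 / 6000000000)] with n h1 h2 h3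
  exact (ES n).jump_k (by omega) (ES_q n) h1.le h2.le h3.le

lemma dep_YS (n : ℕ) : Dep (KK (n + 48)) (YS n) :=
  ((ES n).dep_Y _ _ _).comp fun x => qq (n + 48) ^ 2 * x

lemma YS_nonneg (n : ℕ) (ω : ℕ → LS n) : 0 ≤ YS n ω :=
  mul_nonneg (sq_nonneg _) ((ES n).Y_nonneg _ _ _ _)

/-- Two exponentials. -/
lemma exp_gap {w c y : ℝ} (hc : 0 < c) (h : c ≤ |y - w|) :
    Real.exp (-w) * (1 - Real.exp (-c)) ≤ |Real.exp (-y) - Real.exp (-w)| := by
  have hw := Real.exp_pos (-w)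
  rcases abs_cases (y - w) with ⟨h1, h2⟩ | ⟨h1, h2⟩
  · rw [h1] at h
    have h3 : Real.exp (-y) ≤ Real.exp (-w) * Real.exp (-c) := by
      rw [← Real.exp_add]
      exact Real.exp_le_exp.2 (by linarith)
    rw [abs_sub_comm]
    refine le_trans ?_ (le_abs_self _)
    linarith
  · rw [h1] at h
    have h3 : Real.exp (-w) * Real.exp c ≤ Real.exp (-y) := by
      rw [← Real.exp_add]
      exact Real.exp_le_exp.2 (by linarith)
    refine le_trans ?_ (le_abs_self _)
    have h4 : 2 ≤ Real.exp c + Real.exp (-c) := by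
      have h5 := Real.add_one_le_exp c
      have h6 := Real.add_one_le_exp (-c)
      linarith
    nlinarith

/-- Concentration of the exponential prevents jumps. -/
lemma no_jump (n : ℕ) (w : ℝ) {c : ℝ} (hc : 0 < c) :
    (PP (LS n)).real {ω | c ≤ |YS n ω - YS n ((ES n).fe (nn (n + 48)) ω)|} ≤
      2 * ((∫ ω, (Real.exp (-YS n ω) - Real.exp (-w)) ^ 2 ∂PP (LS n)) /
        (Real.exp (-w) * (1 - Real.exp (-(c / 2)))) ^ 2) := by
  set ε := Real.exp (-w) * (1 - Real.exp (-(c / 2))) with hε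
  have hε0 : 0 < ε := by
    have h1 : Real.exp (-(c / 2)) < 1 := by
      rw [Real.exp_lt_one_iff]; linarith
    exact mul_pos (Real.exp_pos _) (by linarith)
  have dF : Dep (KK (n + 48)) fun ω => (Real.exp (-YS n ω) - Real.exp (-w)) ^ 2 :=
    (dep_YS n).comp fun x => (Real.exp (-x) - Real.exp (-w)) ^ 2
  have dF' : Dep (KK (n + 48)) fun ω =>
      (Real.exp (-YS n ((ES n).fe (nn (n + 48)) ω)) - Real.exp (-w)) ^ 2 :=
    (ES n).dep_flp dF _
  have hI : ∫ ω, (Real.exp (-YS n ((ES n).fe (nn (n + 48)) ω)) - Real.exp (-w)) ^ 2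
      ∂PP (LS n) = ∫ ω, (Real.exp (-YS n ω) - Real.exp (-w)) ^ 2 ∂PP (LS n) :=
    (ES n).integral_flp dF _
  have m1 := markov dF (fun ω => sq_nonneg _) (pow_pos hε0 2)
    (S := {ω | ε ≤ |Real.exp (-YS n ω) - Real.exp (-w)|}) (fun ω hω => by
      rw [← sq_abs (Real.exp (-YS n ω) - Real.exp (-w))]
      exact pow_le_pow_left₀ hε0.le hω 2)
  have m2 := markov dF' (fun ω => sq_nonneg _) (pow_pos hε0 2)
    (S := {ω | ε ≤ |Real.exp (-YS n ((ES n).fe (nn (n + 48)) ω)) - Real.exp (-w)|})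
    (fun ω hω => by
      rw [← sq_abs (Real.exp (-YS n ((ES n).fe (nn (n + 48)) ω)) - Real.exp (-w))]
      exact pow_le_pow_left₀ hε0.le hω 2)
  rw [hI] at m2
  have hsub : {ω | c ≤ |YS n ω - YS n ((ES n).fe (nn (n + 48)) ω)|} ⊆
      {ω | ε ≤ |Real.exp (-YS n ω) - Real.exp (-w)|} ∪
      {ω | ε ≤ |Real.exp (-YS n ((ES n).fe (nn (n + 48)) ω)) - Real.exp (-w)|} := by
    intro ω hω
    have h1 : c ≤ |YS n ω - YS n ((ES n).fe (nn (n + 48)) ω)| := hω
    by_cases h2 : c / 2 ≤ |YS n ω - w|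
    · exact Or.inl (exp_gap (half_pos hc) h2)
    · right
      refine exp_gap (half_pos hc) ?_
      push Not at h2
      have h3 := abs_sub_le (YS n ω) w (YS n ((ES n).fe (nn (n + 48)) ω))
      rw [abs_sub_comm w] at h3
      linarith
  refine (measureReal_mono hsub).trans ((measureReal_union_le _ _).trans ?_)
  linarith

/-- The integral of a cosine for a Gaussian law. -/
lemma int_cos_gaussian (μ : ℝ) (v : ℝ≥0) (α β : ℝ) :
    ∫ z, Real.cos (α + β * z) ∂(gaussianReal μ v) =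
      Real.cos (α + β * μ) * Real.exp (-(v * β ^ 2 / 2)) := by
  have h1 : ∀ z : ℝ, Real.cos (α + β * z) =
      (Complex.exp (α * Complex.I) * Complex.exp (β * z * Complex.I)).re := by
    intro z
    rw [← Complex.exp_add]
    have : (α : ℂ) * Complex.I + β * z * Complex.I = ((α + β * z : ℝ) : ℂ) * Complex.I := by
      push_cast; ring
    rw [this, Complex.exp_ofReal_mul_I_re]
  have hint : Integrable (fun z : ℝ => Complex.exp (α * Complex.I) *
      Complex.exp (β * z * Complex.I)) (gaussianReal μ v) := by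
    refine Integrable.of_bound (by fun_prop) 1 (Filter.Eventually.of_forall fun z => ?_)
    rw [← Complex.exp_add]
    have : (α : ℂ) * Complex.I + β * z * Complex.I = ((α + β * z : ℝ) : ℂ) * Complex.I := by
      push_cast; ring
    rw [this, Complex.norm_exp_ofReal_mul_I]
  have h2 : ∫ z, Real.cos (α + β * z) ∂(gaussianReal μ v) =
      (∫ z : ℝ, Complex.exp (α * Complex.I) * Complex.exp (β * z * Complex.I)
        ∂(gaussianReal μ v)).re := by
    simp only [h1]
    exact integral_re hint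
  rw [h2, integral_const_mul]
  have h3 : ∫ z : ℝ, Complex.exp (β * z * Complex.I) ∂(gaussianReal μ v) =
      Complex.exp (β * μ * Complex.I - v * β ^ 2 / 2) := by
    rw [← charFun_gaussianReal, charFun_apply_real]
  rw [h3, ← Complex.exp_add]
  have h4 : (α : ℂ) * Complex.I + (β * μ * Complex.I - v * β ^ 2 / 2) =
      ((-(v * β ^ 2 / 2) : ℝ) : ℂ) + ((α + β * μ : ℝ) : ℂ) * Complex.I := by
    push_cast; ring
  rw [h4, Complex.exp_add, ← Complex.ofReal_exp, Complex.re_ofReal_mul,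
    Complex.exp_ofReal_mul_I_re]
  ring

end Pool.Agent.T2H99.CW
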